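import Pool.Agent.P.MP_068ab5_pr.Inst

/-! Location of the critical point relative to reference parameters. -/

namespace Pool.Agent.P.MP_068ab5_pr

open Finset Real
open scoped Classical

variable {d : ℕ} {δ ε ξ p e κ r : ℝ} {g : Cube d → ℝ}

lemma chi0_mono {a b : ℝ} (a0 : 0 ≤ a) (h : a ≤ b) (b1 : b ≤ 1) : chi0 d a ≤ chi0 d b :=
  Ex_mono_q (P01_const a0 (h.trans b1)) (P01_const (a0.trans h) b1) (fun _ => h)
    fun _ _ hω => sz_mono (reach_mono hω subset_rfl)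

lemma le_of_chi {a b : ℝ} (a1 : a ≤ 1) (b0 : 0 ≤ b) (h : chi0 d a < chi0 d b) : a ≤ b :=
  not_lt.1 fun hc => absurd (chi0_mono b0 hc.le a1) (not_le.2 h)

lemma Ex_zero {E : Type*} [DecidableEq E] (s : Finset E) (F : Finset E → ℝ) :
    Ex s (fun _ => 0) F = F ∅ := by
  induction s using Finset.induction_on with
  | empty => exact Ex_empty _ _
  | insert a s ha ih => rw [Ex_insert ha, ih]; ring

lemma chi0_zero : chi0 d 0 ≤ 1 := by
  rw [chi0, val, Ex_zero]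
  refine (sz_mono (reach_subset subset_rfl fun _ _ _ h => absurd h (notMem_empty _))).trans ?_
  simp [sz]

lemma exists_ref {b : ℝ} (b0 : 0 ≤ b) (b1 : b ≤ 1) (e0 : 0 < e) (e1 : e < 1)
    (h : 1 ≤ e * chi0 d b) : ∃ p, p ≤ b ∧ Ref d p e := by
  have hc : Continuous fun p => e * chi0 d p := continuous_const.mul (Ex_continuous _ _)
  have h0 : e * chi0 d 0 < 1 := by nlinarith only [chi0_zero (d := d), e0, e1]
  obtain ⟨p, ⟨p0, p1⟩, hp⟩ := intermediate_value_Icc b0 hc.continuousOn ⟨h0.le, h⟩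
  refine ⟨p, p1, lt_of_le_of_ne p0 ?_, p1.trans b1, hp⟩
  rintro rfl
  exact h0.ne hp

lemma cal_low (hR : Ref d p e) {c b : ℝ} (c0 : 0 < c) (c1 : c ≤ 1) (b0 : 0 ≤ b) (b1 : b ≤ 1)
    (h : b ≤ p * (1 + (1 - c) * e)) : c * e * chi0 d b ≤ 1 := by
  have e0 := hR.e0
  have he := hR.he
  have χ1 := hR.χ1
  have p0 := hR.p0
  rcases le_total b p with hb | hb
  · have h1 := mul_le_mul_of_nonneg_left (chi0_mono (d := d) b0 hb hR.p1) e0.le
    have h2 : 0 ≤ e * chi0 d b := mul_nonneg e0.le (by linarith [one_le_chi0 (d := d) b0 b1])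
    nlinarith only [h1, h2, he, c1]
  have h1 := val_compare p0.le hb b1 (inv_nonneg.2 c0.le) (fun y => (val_sz_single p y).le)
    (by
      rw [← div_eq_inv_mul, le_div_iff₀ c0]
      have a1 := mul_le_mul_of_nonneg_right h (show 0 ≤ chi0 d p by linarith)
      have a2 : p * (1 + (1 - c) * e) * chi0 d p = p * chi0 d p + p * (1 - c) := by
        linear_combination p * (1 - c) * he
      nlinarith only [a1, a2, hb, c1]) {(0 : Cube d)} (E0 d) subset_rfl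
  rw [val_sz_single, val_sz_single, ← div_eq_inv_mul, le_div_iff₀ c0,
    show sz ({0} : Finset (Cube d)) = 1 by simp [sz]] at h1
  nlinarith only [mul_le_mul_of_nonneg_left h1 e0.le, he, e0, c1]

lemma chi_ge {k c : ℝ} (r0 : 0 ≤ r) (r1 : r ≤ 1) (k0 : 0 ≤ k + 1) {x : Cube d}
    {U : Finset (Sym2 (Cube d))} (hU : U ⊆ E0 d) (h : c ≤ val (fun _ => r) (gt k) {x} U) :
    c * (k + 1) ≤ chi0 d r := by
  have hq : P01 (fun _ : Sym2 (Cube d) => r) := P01_const r0 r1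
  refine (mul_le_mul_of_nonneg_right h k0).trans ?_
  rw [← val_sz_single r x, val, ← Ex_mul]
  refine le_trans (Ex_mono hq fun ω _ => ?_) (val_mono hq sz_mono subset_rfl hU)
  unfold gt
  split_ifs with h1
  · rwa [one_mul]
  · rw [zero_mul]; exact sz_nonneg _

lemma Base.r01 (h : Base d δ ε p e g κ) {a : ℝ} (a0 : 0 ≤ a) (a1 : a ≤ e + 4 * ε) :
    0 ≤ p * (1 + a) ∧ p * (1 + a) ≤ 1 := by
  have := h.ref.p0
  exact ⟨by positivity, by nlinarith only [this, a1, h.εe', h.e1, h.δ1, h.pδ]⟩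

lemma Base.ε1 (h : Base d δ ε p e g κ) : ε ≤ δ / 1000 := by linarith [h.εe', h.e1, h.ref.e0]

lemma cost_zero : cost δ ξ (e + ξ - (e + ξ)) = 0 := by simp [cost]

lemma calI (h : Base d δ ε p e g κ) (hI : ε * (d : ℝ) ^ 7 ≤ 1)
    (hW : 1 ≤ δ ^ 10 * (ε ^ 3 * 2 ^ d)) :
    δ ^ 3 * ε ^ 2 * 2 ^ d / 16 ≤ chi0 d (p * (1 + (e + δ * ε))) := by
  have δ0 := h.δ0
  have δ1 := h.δ1
  have ε0 := h.ε0
  have e0 := h.ref.e0
  have V0 : (0 : ℝ) < 2 ^ d := by positivity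
  have W0 : 0 < ε ^ 3 * 2 ^ d := by positivity
  have h2 : δ * ε ≤ 4 * ε := by nlinarith only [δ1, ε0]
  obtain ⟨k, hk⟩ : ∃ k : ℕ, k = ⌈δ * ε * 2 ^ d / 2⌉₊ := ⟨_, rfl⟩
  have k1 : δ * ε * 2 ^ d / 2 ≤ k := hk ▸ Nat.le_ceil _
  have k2 : (k : ℝ) < δ * ε * 2 ^ d / 2 + 1 := hk ▸ Nat.ceil_lt_add_one (by positivity)
  have a1 : δ ^ 10 ≤ δ ^ 6 / 1000 := le_trans
    (pow_le_pow_of_le_one δ0.le (by linarith) (by norm_num)) (pow_small δ0 δ1 6)
  have a2 : 1000 ≤ δ ^ 6 * (ε ^ 3 * 2 ^ d) := by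
    linarith [mul_le_mul_of_nonneg_right a1 W0.le]
  have a3 : δ ^ 6 * (ε ^ 3 * 2 ^ d) ≤ δ ^ 1 * (ε ^ 1 * 2 ^ d) := by
    gcongr ?_ * (?_ * _)
    · exact pow_le_pow_of_le_one δ0.le (by linarith) (by norm_num)
    · exact pow_le_pow_of_le_one ε0.le (by linarith [h.ε1]) (by norm_num)
  have a4 : δ ^ 6 ≤ 1 := pow_le_one₀ δ0.le (by linarith)
  obtain ⟨x, hx⟩ := T4_I h hI (by nlinarith only [a2, a4, W0]) le_rfl h2 ∅ (k := k)
    (aP := e + δ * ε) (by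
      simp only [sz, card_empty, Nat.cast_zero]
      have : (1 + δ) * (0 + (k + 1)) ≤ (1 + δ) * (δ * ε * 2 ^ d * (6 / 10)) :=
        mul_le_mul_of_nonneg_left (by linarith) (by linarith)
      nlinarith only [this, δ1, mul_pos (mul_pos δ0 ε0) V0])
    (by linarith [mul_le_mul_of_nonneg_left k1 (show 0 ≤ δ ^ 3 * (δ * ε) ^ 2 by positivity)])
    (by positivity) le_rfl
  rw [cost_zero, zero_mul, neg_zero, exp_zero, one_mul] at hx
  obtain ⟨r0, r1⟩ := h.r01 (a := e + δ * ε) (by positivity) (by linarith)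
  refine le_trans ?_ (chi_ge r0 r1 (by positivity) sdiff_subset hx)
  linarith [mul_le_mul_of_nonneg_left (k1.trans (le_add_of_nonneg_right zero_le_one))
    (show 0 ≤ δ * (δ * ε) / 8 by positivity)]

lemma calII (h : Base d δ ε p e g κ) (hII : 1 ≤ ε * (d : ℝ) ^ 7) (hV : (d : ℝ) ^ 40 ≤ 2 ^ d) :
    (d : ℝ) ^ 8 < chi0 d (p * (1 + (e + δ * ε))) := by
  have δ0 := h.δ0
  have δ1 := h.δ1
  have ε0 := h.ε0
  have e0 := h.ref.e0
  have d3 := h.d1
  have d1 : (1 : ℝ) ≤ d := by linarith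
  have h2 : δ * ε ≤ 4 * ε := by nlinarith only [δ1, ε0]
  have a1 : ∀ n ≤ 10, 1 ≤ δ ^ n * d := fun n hn => h.dδ.trans (mul_le_mul_of_nonneg_right
    (pow_le_pow_of_le_one δ0.le (by linarith) hn) (by linarith))
  have a2 : (1000 : ℝ) ≤ d ^ 3 := d3.trans (le_self_pow₀ d1 (by norm_num))
  have hx := T4_II h hII hV le_rfl h2 0 (k := d ^ 19) (aP := e + δ * ε) (by
      push_cast
      nlinarith only [one_le_pow₀ (n := 19) d1, d3, pow_succ (d : ℝ) 19]) (by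
      push_cast
      calc (400 : ℝ) ≤ 1 * (1 * 1) * (1000 * 1) := by norm_num
        _ ≤ (δ ^ 5 * d) * ((ε * d ^ 7) * (ε * d ^ 7)) * (d ^ 3 * d) := by
          have := a1 5 (by norm_num)
          gcongr
        _ = _ := by ring) (by positivity) le_rfl
  rw [cost_zero, zero_mul, neg_zero, exp_zero, one_mul] at hx
  obtain ⟨r0, r1⟩ := h.r01 (a := e + δ * ε) (by positivity) (by linarith)
  refine lt_of_lt_of_le ?_ (chi_ge r0 r1 (by positivity) subset_rfl hx)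
  push_cast
  have a3 : 1 * 1 * 1000 * (d : ℝ) ^ 8 ≤ (δ ^ 2 * d) * (ε * d ^ 7) * d ^ 3 * d ^ 8 := by
    have := a1 2 (by norm_num)
    gcongr
  have a4 : 0 < δ * (δ * ε) := by positivity
  have a5 : 0 < (d : ℝ) ^ 8 := by positivity
  linarith

lemma un_inj {i j : Fin d} (h : un i = un j) : i = j := by
  by_contra hc
  have := congrFun h i
  simp [un, hc] at this

/-- Adjacency kernel. -/
noncomputable def adj (z b : Cube d) : ℝ := ∑ i, if b = z + un i then 1 else 0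

lemma adj_nonneg (z b : Cube d) : 0 ≤ adj z b :=
  sum_nonneg fun _ _ => by split_ifs <;> norm_num

lemma sum_adj (f : Cube d → ℝ) (z : Cube d) : ∑ b, f b * adj z b = ∑ i, f (z + un i) := by
  simp only [adj, mul_sum]
  rw [sum_comm]
  simp

lemma bd_ge (B : Finset (Cube d)) : d * sz B - ∑ z ∈ B, ∑ b ∈ B, adj z b ≤ bd (E0 d) B := by
  have h1 : d * sz B = ∑ z ∈ B, (∑ b ∈ B, adj z b + ∑ b ∈ Bᶜ, adj z b) := by
    rw [sum_congr rfl fun z _ => sum_add_sum_compl B (adj z)]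
    have : ∀ z : Cube d, ∑ b, adj z b = d := fun z => by simpa using sum_adj (fun _ => 1) z
    simp [this, sz, mul_comm]
  rw [h1, sum_add_distrib, add_sub_cancel_left, bd, card_filter, sum_product]
  push_cast
  refine sum_le_sum fun z _ => sum_le_sum fun b _ => ?_
  unfold adj
  split_ifs with h
  · obtain ⟨i, rfl⟩ := mem_E0.1 h
    rw [sum_eq_single i (fun j _ hj => if_neg fun hc => hj (un_inj (add_left_cancel hc)).symm)
      (by simp), if_pos rfl]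
  · exact (sum_eq_zero fun i _ => if_neg fun hc => h (mem_E0.2 ⟨i, hc⟩)).le

lemma chi_ineq {s : ℝ} (hG : Geo d p s g κ) (p0 : 0 ≤ p) (p1 : p ≤ 1) :
    p * (chi0 d p * (d - (2 * p * d + s / tt d ^ 2
      + d * (κ * chi0 d p * (3 * (d : ℝ) ^ 2 + chi0 d p))))) ≤ (1 - p) * (chi0 d p - 1) := by
  have hq : P01 (fun _ : Sym2 (Cube d) => p) := P01_const p0 p1
  have h1 := bd_bound p0 p1 {(0 : Cube d)} (E0 d)
  rw [val_sz_single, show sz ({0} : Finset (Cube d)) = 1 by simp [sz]] at h1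
  refine le_trans (mul_le_mul_of_nonneg_left ?_ p0) h1
  have k0 : 0 ≤ κ * chi0 d p := mul_nonneg hG.κ0 (by linarith [one_le_chi0 (d := d) p0 p1])
  have h2 := tree_bound p0 p1 (E0 d) (0 : Cube d) adj_nonneg (c := 2 * p * d + s / tt d ^ 2
      + d * (κ * chi0 d p * (3 * (d : ℝ) ^ 2 + chi0 d p))) fun w => by
    simp only [sum_adj]
    rw [sum_comm]
    refine le_trans (sum_le_sum (g := fun i => conv g g (un i)
      + κ * chi0 d p * (3 * (d : ℝ) ^ 2 + chi0 d p)) fun i _ => ?_) ?_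
    · calc _ ≤ ∑ z, (g (w + z) * g (w + un i + z) + κ * chi0 d p * g (w + un i + z)
            + κ * chi0 d p * tau (fun _ => p) (E0 d) w z) := sum_le_sum fun z _ => by
            have b1 := mul_le_mul_of_nonneg_left (hG.tau_le w (z + un i))
              (tau_nonneg hq (E0 d) w z)
            have b2 := mul_le_mul_of_nonneg_right (hG.tau_le w z) (hG.g0 (w + (z + un i)))
            rw [add_assoc w, add_comm (un i)]
            linarith
        _ ≤ _ := by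
            rw [sum_add_distrib, sum_add_distrib, conv_eq, ← mul_sum, ← mul_sum, tau_sum,
              add_right_comm w, cube_add_self, zero_add]
            linarith [mul_le_mul_of_nonneg_left (hG.row (w + un i) univ) k0]
    · rw [sum_add_distrib, sum_const, card_univ, Fintype.card_fin, nsmul_eq_mul]
      linarith [hG.k3]
  have h3 : Ex (E0 d) (fun _ => p) (fun ω => d * sz (reach ω {0})
      - ∑ z ∈ reach ω {0}, ∑ b ∈ reach ω {0}, adj z b)
      ≤ val (fun _ => p) (bd (E0 d)) {0} (E0 d) := Ex_mono hq fun ω _ => bd_ge _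
  rw [Ex_sub, Ex_smul] at h3
  rw [val_sz_single] at h2
  unfold val at h2
  have h4 : Ex (E0 d) (fun _ => p) (fun ω => sz (reach ω {0})) = chi0 d p := rfl
  rw [h4] at h3
  linarith

lemma chi_p0 {s η : ℝ} (hG : Geo d p s g κ) (s1 : s ≤ 1 / 10) (t3 : 3 ≤ tt d)
    (hη : η * tt d ^ 10 = 1) (p0 : 0 ≤ p) (hp : p * (d - 1) = 1 - η)
    (hV : (d : ℝ) ^ 40 ≤ 2 ^ d) : 1 ≤ 2 * η * chi0 d p := by
  by_contra hc
  push Not at hc
  have hD := tt_pow d
  obtain ⟨t, ht⟩ : ∃ t, t = tt d := ⟨_, rfl⟩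
  have κ1 := hG.κ1
  have κ0 := hG.κ0
  rw [← ht] at t3 hη hD
  have t1 : 1 ≤ t := by linarith
  have t6 : 729 ≤ t ^ 6 := le_trans (by norm_num) (pow_le_pow_left₀ (by norm_num) t3 6)
  have D1 : (729 : ℝ) ≤ d := hD ▸ t6.trans (pow_le_pow_right₀ t1 (by norm_num))
  have η0 : 0 < η := not_le.1 fun h => by
    linarith [mul_nonneg (neg_nonneg.2 h) (show 0 ≤ t ^ 10 by positivity)]
  have pD : p * d ≤ 2 := by nlinarith only [hp, η0, p0, D1]
  have p1 : p ≤ 1 / 10 := by nlinarith only [pD, p0, D1]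
  have h1 := chi_ineq hG p0 (by linarith)
  have χ1 := one_le_chi0 (d := d) p0 (by linarith)
  rw [← ht] at h1
  obtain ⟨χ, hχ⟩ : ∃ χ, χ = chi0 d p := ⟨_, rfl⟩
  rw [← hχ] at h1 hc χ1
  have a1 : p ≤ 2 * η * t ^ 2 := by
    have := mul_le_mul_of_nonneg_left pD (show 0 ≤ η * t ^ 2 by positivity)
    rw [← hD] at this
    have h2 : η * t ^ 2 * (p * t ^ 8) = p := by linear_combination p * hη
    linarith
  have a2 : p * (s / t ^ 2) ≤ η / 5 := by
    rw [← mul_div_assoc, div_le_iff₀ (by positivity)]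
    nlinarith only [a1, s1, p0]
  have a3 : p * p ≤ η / 100 := by
    have b1 : p * t ^ 2 * 729 ≤ p * t ^ 2 * t ^ 6 :=
      mul_le_mul_of_nonneg_left t6 (by positivity)
    rw [← hD] at pD
    nlinarith only [b1, pD, mul_le_mul_of_nonneg_left a1 p0, η0]
  have a4 : t ^ 10 ≤ (d : ℝ) ^ 2 := by
    rw [← hD, ← pow_mul]; exact pow_le_pow_right₀ t1 (by norm_num)
  have a5 : χ ≤ (d : ℝ) ^ 2 := by
    have := mul_le_mul_of_nonneg_left hc.le (show 0 ≤ t ^ 10 by positivity)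
    have h2 : t ^ 10 * (2 * η * χ) = 2 * χ := by linear_combination 2 * χ * hη
    linarith
  have a6 : κ * χ * (3 * (d : ℝ) ^ 2 + χ) ≤ η / 100 := by
    have b1 : κ * χ * (3 * (d : ℝ) ^ 2 + χ) ≤ κ * (d : ℝ) ^ 2 * (4 * (d : ℝ) ^ 2) := by
      gcongr; linarith
    have b2 : 1 ≤ η * (d : ℝ) ^ 2 := hη ▸ mul_le_mul_of_nonneg_left a4 η0.le
    have b3 := mul_le_mul_of_nonneg_left b2 (show 0 ≤ κ * (d : ℝ) ^ 4 by positivity)
    have b4 : 729 * 729 * (d : ℝ) ^ 6 ≤ (d : ℝ) ^ 40 :=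
      le_trans (by
        have : (729 : ℝ) * 729 * (d : ℝ) ^ 6 ≤ d * d * (d : ℝ) ^ 6 := by gcongr
        linarith) (pow_le_pow_right₀ (show (1 : ℝ) ≤ d by linarith) (show 8 ≤ 40 by norm_num))
    have b5 := mul_le_mul_of_nonneg_left (b4.trans hV) (mul_nonneg κ0 η0.le)
    have b6 := mul_le_mul_of_nonneg_left (show κ * 2 ^ d ≤ 2 by linarith) η0.le
    linarith
  obtain ⟨w, hw⟩ : ∃ w, w = κ * χ * (3 * (d : ℝ) ^ 2 + χ) := ⟨_, rfl⟩
  have w0 : 0 ≤ w := by rw [hw]; positivity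
  rw [← hw] at h1 a6
  have a7 : 1 - p - p * (d - (2 * p * d + s / t ^ 2 + d * w)) ≤ 3 / 2 * η := by
    have b1 := mul_le_mul_of_nonneg_right pD w0
    have b2 : p * (p * d) = p * (1 - η + p) := by rw [← hp]; ring
    linarith [mul_nonneg p0 η0.le]
  have a8 := mul_le_mul_of_nonneg_left a7 (show 0 ≤ χ by linarith)
  linarith

/-- Conditions on the dimension. -/
structure Large (δ : ℝ) (d : ℕ) : Prop where
  δ0 : 0 < δ
  δ1 : δ ≤ 1 / 1000
  dδ : 1 ≤ δ ^ 10 * d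
  t3 : 3 ≤ tt d
  V1 : exp (d / 2) * (d : ℝ) ^ 21 ≤ 2 ^ d
  V2 : (d : ℝ) ^ 40 ≤ exp (δ * (d / 2))
  geo : ∀ p : ℝ, 0 ≤ p → p * (d - 1) ≤ 1 + 5 / tt d ^ 10 → ∃ g κ, Geo d p (δ ^ 6) g κ

/-- Conditions on the distance to criticality. -/
structure Eps (δ X : ℝ) (d : ℕ) (ε : ℝ) : Prop where
  ε0 : 0 < ε
  ε1 : ε ≤ δ ^ 7
  lo : 1 < δ * ε * X
  up : X < δ ^ 3 * ε ^ 2 * 2 ^ d / 16
  hL : 1 ≤ δ ^ 10 * log (ε ^ 3 * 2 ^ d)

lemma Eps.hW {X : ℝ} (h : Eps δ X d ε) : 1 ≤ δ ^ 10 * (ε ^ 3 * 2 ^ d) := by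
  have := h.ε0
  exact h.hL.trans (mul_le_mul_of_nonneg_left
    ((log_le_sub_one_of_pos (by positivity)).trans (by linarith)) (by positivity))

lemma Large.pw (h : Large δ d) {n : ℕ} (hn : n ≤ 9) : 1000 ≤ δ ^ n * d := by
  have h1 := (pow_le_pow_of_le_one h.δ0.le (by linarith [h.δ1]) (show n + 1 ≤ 10 by omega)).trans
    (pow_small h.δ0 h.δ1 n)
  linarith [mul_le_mul_of_nonneg_right h1 (Nat.cast_nonneg (α := ℝ) d), h.dδ]

lemma Large.d1 (h : Large δ d) : (1000 : ℝ) ≤ d := by simpa using h.pw (n := 0) (by norm_num)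

lemma Large.hV (h : Large δ d) : (d : ℝ) ^ 40 ≤ 2 ^ d := by
  have d1 := h.d1
  refine h.V2.trans (le_trans ?_ h.V1)
  refine le_trans (exp_le_exp.2 (by nlinarith only [d1, h.δ1]))
    (le_mul_of_one_le_right (exp_pos _).le (one_le_pow₀ (by linarith)))

lemma Large.base (h : Large δ d) (hR : Ref d p e) (hp : p * (d - 1) ≤ 1 + 5 / tt d ^ 10)
    (he : e ≤ δ ^ 5) : ∃ g κ, Base d δ (δ ^ 2 * e) p e g κ := by
  obtain ⟨g, κ, hG⟩ := h.geo p hR.p0.le hp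
  refine ⟨g, κ, h.δ0, h.δ1, hR, hG, rfl, he, ?_, h.dδ⟩
  have h1 : 5 / tt d ^ 10 ≤ 5 :=
    div_le_self (by norm_num) (one_le_pow₀ (by linarith [h.t3]))
  have h2 := h.pw (n := 1) (by norm_num)
  rw [pow_one] at h2
  have h3 := mul_le_mul_of_nonneg_left (hp.trans (show _ ≤ (6 : ℝ) by linarith)) h.δ0.le
  nlinarith only [h2, h3, hR.p0, h.δ1]

lemma star (h : Large δ d) {X pc : ℝ} (c1 : pc ≤ 1) (hX : chi0 d pc = X)
    (hs : Eps δ X d (δ ^ 2 * (1 / (d : ℝ) ^ 8))) : pc * (d - 1) ≤ 1 + 5 / tt d ^ 10 ∧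
      ∀ r, 0 ≤ r → (d : ℝ) ^ 8 < chi0 d r → pc ≤ r * (1 + 2 * (1 / (d : ℝ) ^ 8)) := by
  have δ0 := h.δ0
  have δ1 := h.δ1
  have d3 := h.d1
  have d1 : (1 : ℝ) ≤ d := by linarith
  have t3 := h.t3
  have hD := tt_pow d
  obtain ⟨η, hη⟩ : ∃ η, η = 1 / tt d ^ 10 := ⟨_, rfl⟩
  have η0 : 0 < η := by rw [hη]; positivity
  have hη' : η * tt d ^ 10 = 1 := by rw [hη]; field_simp
  rw [show 5 / tt d ^ 10 = 5 * η by rw [hη]; ring]
  have hb : ∀ {p e}, Ref d p e → p * (d - 1) ≤ 1 + 5 * η → e ≤ δ ^ 5 →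
      ∃ g κ, Base d δ (δ ^ 2 * e) p e g κ := fun hR hp he =>
    h.base hR (by rwa [show 5 / tt d ^ 10 = 5 * η by rw [hη]; ring]) he
  have η1 : η * d ≤ 1 := by
    rw [← hη', ← hD]
    exact mul_le_mul_of_nonneg_left (pow_le_pow_right₀ (by linarith) (by norm_num)) η0.le
  have η2 : 1 ≤ η * (d : ℝ) ^ 2 := by
    rw [← hη', ← hD, ← pow_mul]
    exact mul_le_mul_of_nonneg_left (pow_le_pow_right₀ (by linarith) (by norm_num)) η0.le
  have η3 : 1000 * η ≤ δ ^ 5 := by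
    nlinarith only [mul_le_mul_of_nonneg_left (h.pw (n := 5) (by norm_num)) η0.le,
      mul_le_mul_of_nonneg_left η1 (pow_pos δ0 5).le]
  have δ5 : δ ^ 5 ≤ 1 := pow_le_one₀ δ0.le (by linarith)
  obtain ⟨p0, hp0⟩ : ∃ p0, p0 = (1 - η) / (d - 1) := ⟨_, rfl⟩
  have q0 : 0 ≤ p0 := by rw [hp0]; exact div_nonneg (by linarith) (by linarith)
  have q1 : p0 * (d - 1) = 1 - η := by rw [hp0]; exact div_mul_cancel₀ _ (by linarith)
  obtain ⟨g0, κ0, hG0⟩ := h.geo p0 q0 (by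
    rw [q1]; have : 0 ≤ 5 / tt d ^ 10 := by positivity
    linarith)
  have c0 := chi_p0 hG0 (by linarith [pow_small δ0 δ1 5]) t3 hη' q0 q1 h.hV
  obtain ⟨pa, ha, hRa⟩ := exists_ref q0 (by nlinarith only [q1, q0, η0, d3]) (by positivity)
    (by linarith) c0
  have ha' : pa * (d - 1) ≤ 1 := by
    linarith [mul_le_mul_of_nonneg_right ha (show (0 : ℝ) ≤ d - 1 by linarith)]
  obtain ⟨ga, κa, hBa⟩ := hb hRa (by linarith) (by linarith)
  have ca := calII hBa (by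
    have b1 : 1 * 1000 * 1 ≤ (η * (d : ℝ) ^ 2) * (δ ^ 2 * d) * d ^ 4 := by
      have := h.pw (n := 2) (by norm_num)
      have := one_le_pow₀ (n := 4) d1
      gcongr
    linarith) h.hV
  obtain ⟨u, hu⟩ : ∃ u : ℝ, u = 1 / (d : ℝ) ^ 8 := ⟨_, rfl⟩
  have u0 : 0 < u := by rw [hu]; positivity
  have hu' : u * (d : ℝ) ^ 8 = 1 := by rw [hu]; field_simp
  rw [← hu] at hs ⊢
  have u1 : u ≤ η := by
    have b1 := mul_le_mul_of_nonneg_left (pow_le_pow_right₀ d1 (show 2 ≤ 8 by norm_num))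
      (mul_pos u0 η0).le
    have b2 : u * η * (d : ℝ) ^ 8 = η := by linear_combination η * hu'
    linarith [mul_le_mul_of_nonneg_left η2 u0.le]
  have δ3 : δ * δ ^ 2 ≤ 1 / 2 := by
    nlinarith only [pow_le_one₀ (n := 2) δ0.le (show δ ≤ 1 by linarith), δ0, δ1]
  have b3 : δ * (δ ^ 2 * (2 * η)) ≤ η := by nlinarith only [δ3, η0]
  obtain ⟨r0, r1⟩ := hBa.r01 (a := 2 * η + δ * (δ ^ 2 * (2 * η))) (by positivity)
    (by nlinarith only [δ1, hBa.ε0])
  obtain ⟨ps, hs1, hRs⟩ := exists_ref r0 r1 u0 (by linarith)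
    (hu' ▸ mul_le_mul_of_nonneg_left ca.le u0.le)
  have hs2 : ps * (d - 1) ≤ 1 + 3 * η := by
    have b1 := mul_le_mul_of_nonneg_right hs1 (show (0 : ℝ) ≤ d - 1 by linarith)
    have b2 := mul_le_mul_of_nonneg_right ha'
      (show 0 ≤ 1 + (2 * η + δ * (δ ^ 2 * (2 * η))) by positivity)
    linarith
  obtain ⟨gs, κs, hBs⟩ := hb hRs (by linarith) (by linarith)
  have cs := calI hBs (by
    have b1 : δ ^ 2 * u * (d : ℝ) ^ 7 ≤ 1 * u * d ^ 8 := by
      have := pow_le_one₀ (n := 2) δ0.le (show δ ≤ 1 by linarith)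
      gcongr; norm_num
    linarith) hs.hW
  have b4 : δ * (δ ^ 2 * u) ≤ u / 2 := by nlinarith only [δ3, u0]
  have ps0 := hRs.p0
  have c2 : pc ≤ ps * (1 + 3 / 2 * u) :=
    (le_of_chi c1 (by positivity) (hX ▸ hs.up.trans_le cs)).trans
      (mul_le_mul_of_nonneg_left (by linarith) ps0.le)
  refine ⟨?_, fun r r0 hr => ?_⟩
  · have b1 := mul_le_mul_of_nonneg_right c2 (show (0 : ℝ) ≤ d - 1 by linarith)
    have b2 := mul_le_mul_of_nonneg_right hs2 (show 0 ≤ 1 + 3 / 2 * u by positivity)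
    nlinarith only [b1, b2, u1, η0, u0, η3, δ5]
  · have b1 : chi0 d ps = (d : ℝ) ^ 8 := by
      linear_combination (d : ℝ) ^ 8 * hRs.he - chi0 d ps * hu'
    have b2 := le_of_chi hRs.p1 r0 (b1 ▸ hr)
    exact c2.trans (mul_le_mul b2 (by linarith) (by positivity) r0)

theorem calib (h : Large δ d) {X pc : ℝ} (c0 : 0 ≤ pc) (c1 : pc ≤ 1) (hX : chi0 d pc = X)
    (hs : Eps δ X d (δ ^ 2 * (1 / (d : ℝ) ^ 8))) (hε : Eps δ X d ε) :
    ∃ p e g κ, Base d δ ε p e g κ ∧ p * (1 + (e - δ * ε)) ≤ pc ∧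
      pc ≤ p * (1 + (e + 2 * (δ * ε))) := by
  obtain ⟨s1, s2⟩ := star h c1 hX hs
  have δ0 := h.δ0
  have δ1 := h.δ1
  have ε0 := hε.ε0
  have d3 := h.d1
  obtain ⟨e, he⟩ : ∃ e, e = ε / δ ^ 2 := ⟨_, rfl⟩
  have e0 : 0 < e := by rw [he]; positivity
  have he' : δ ^ 2 * e = ε := by rw [he]; field_simp
  have e1 : e ≤ δ ^ 5 := by
    rw [he, div_le_iff₀ (by positivity)]; linarith [hε.ε1]
  have lo := hε.lo
  have X0 : 0 ≤ X := by linarith [one_le_chi0 (d := d) c0 c1]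
  have δ3 : δ ^ 3 ≤ 1 := pow_le_one₀ δ0.le (by linarith)
  obtain ⟨p, hp, hR⟩ := exists_ref c0 c1 e0 (by
      linarith [pow_small δ0 δ1 4, pow_le_one₀ (n := 4) δ0.le (show δ ≤ 1 by linarith)]) (by
      rw [hX]
      rw [← he'] at lo
      linarith [mul_le_mul_of_nonneg_right δ3 (mul_nonneg e0.le X0)])
  obtain ⟨g, κ, hB⟩ := h.base hR
    ((mul_le_mul_of_nonneg_right hp (by linarith)).trans s1) e1
  rw [he'] at hB
  have p0 := hR.p0
  refine ⟨p, e, g, κ, hB, not_lt.1 fun hc => ?_, ?_⟩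
  · have := cal_low hR (pow_pos δ0 3) δ3 c0 c1 (hc.le.trans (le_of_eq (by rw [← he']; ring)))
    rw [hX] at this
    rw [← he'] at lo
    linarith
  have a0 : 0 < δ * ε := by positivity
  rcases le_total (ε * (d : ℝ) ^ 7) 1 with hI | hII
  · exact (le_of_chi c1 (by positivity) (hX ▸ hε.up.trans_le (calI hB hI hε.hW))).trans
      (mul_le_mul_of_nonneg_left (by linarith) p0.le)
  · refine (s2 _ (by positivity) (calII hB hII h.hV)).trans ?_
    rw [mul_assoc]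
    refine mul_le_mul_of_nonneg_left ?_ p0.le
    have b1 : 1000 * (1 / (d : ℝ) ^ 8) ≤ δ * ε := by
      rw [← mul_div_assoc, div_le_iff₀ (by positivity)]
      have : 1000 * 1 ≤ (δ ^ 1 * d) * (ε * (d : ℝ) ^ 7) :=
        mul_le_mul (h.pw (by norm_num)) hII zero_le_one (by positivity)
      linarith
    have b2 : e + δ * ε ≤ 1 := by nlinarith only [hB.e1, hB.ε1, δ1, ε0]
    have b3 : 0 ≤ 1 / (d : ℝ) ^ 8 := by positivity
    nlinarith only [b1, b2, b3]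

end Pool.Agent.P.MP_068ab5_pr
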