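import Mathlib

/-! Abstract coin processes on binary histories: supermartingale bounds. -/

namespace Pool.Agent.P.MP_068ab5_pr

open Real

abbrev Hist := List Bool

lemma ind_le {live : Hist → Prop} {rem : Hist → ℕ}
    (hrem : ∀ h b, live h → rem (b :: h) < rem h) {r : Hist → ℝ} (Δ : Hist → ℝ)
    (hΔ : ∀ h, Δ h ≤ 0 ∨ (live h ∧ 0 ≤ r h ∧ r h ≤ 1 ∧
      Δ h ≤ r h * Δ (true :: h) + (1 - r h) * Δ (false :: h))) : ∀ h, Δ h ≤ 0 := by
  intro h
  induction' hn : rem h using Nat.strong_induction_on with m ih generalizing h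
  rcases hΔ h with h0 | ⟨hl, hr0, hr1, hs⟩
  · exact h0
  · have h1 := ih _ (hn ▸ hrem h true hl) (true :: h) rfl
    have h2 := ih _ (hn ▸ hrem h false hl) (false :: h) rfl
    nlinarith

lemma exp_cubic {z : ℝ} (hz : |z| ≤ 1) : |exp z - (1 + z + z ^ 2 / 2)| ≤ |z| ^ 3 / 4 := by
  have h := Real.exp_bound hz (n := 3) (by norm_num)
  simp only [Finset.sum_range_succ, Finset.sum_range_zero, Nat.factorial] at h
  norm_num at h
  have h3 : 0 ≤ |z| ^ 3 := by positivity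
  have : (1 + z + z ^ 2 / 2) = 1 + z + z ^ 2 / 2 := rfl
  calc |exp z - (1 + z + z ^ 2 / 2)| ≤ |z| ^ 3 * (2 / 9) := by
        simpa using h
    _ ≤ |z| ^ 3 / 4 := by linarith

lemma exp_up {z t : ℝ} (hz : |z| ≤ t) (ht : t ≤ 1) :
    exp z - 1 ≤ z + t ^ 2 / 2 + t ^ 3 / 4 := by
  have h := (abs_le.1 (exp_cubic (hz.trans ht))).2
  have h0 := abs_nonneg z
  have h1 : z ^ 2 ≤ t ^ 2 := by rw [← sq_abs z]; exact pow_le_pow_left₀ h0 hz 2
  have h2 : |z| ^ 3 ≤ t ^ 3 := pow_le_pow_left₀ h0 hz 3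
  linarith

lemma exp_lo {z t : ℝ} (hz : |z| ≤ t) (ht : t ≤ 1) :
    z + z ^ 2 / 2 - t ^ 3 / 4 ≤ exp z - 1 := by
  have h := (abs_le.1 (exp_cubic (hz.trans ht))).1
  have h0 := abs_nonneg z
  have h2 : |z| ^ 3 ≤ t ^ 3 := pow_le_pow_left₀ h0 hz 3
  linarith

lemma exp_le_quad {z : ℝ} (h0 : 0 ≤ z) (h1 : z ≤ 1) : exp z ≤ 1 + z + z ^ 2 := by
  have := exp_up (z := z) (t := z) (by rw [abs_of_nonneg h0]) h1
  nlinarith [mul_nonneg h0 h0, mul_nonneg (mul_nonneg h0 h0) (sub_nonneg.2 h1)]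

lemma step_exp {p r σ c : ℝ} (h : r * (exp (σ + c) - 1) ≤ σ * p) :
    r * exp (σ * (1 - p) + c) + (1 - r) * exp (-(σ * p)) ≤ 1 := by
  have e1 : exp (σ * (1 - p) + c) = exp (-(σ * p)) * exp (σ + c) := by
    rw [← exp_add]; ring_nf
  have e2 : exp (-(σ * p)) * exp (σ * p) = 1 := by rw [← exp_add]; simp
  have e3 := add_one_le_exp (σ * p)
  have e4 := exp_pos (-(σ * p))
  rw [e1]
  nlinarith [mul_le_mul_of_nonneg_left (show 1 + r * (exp (σ + c) - 1) ≤ exp (σ * p) by linarith)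
    e4.le]

/-- Sufficient condition for the exponential step. -/
lemma step_cond {a σ c t : ℝ} (ha0 : 0 ≤ a) (hz : |σ + c| ≤ t) (ht : t ≤ 1)
    (h : c + a * (σ + c) + (1 + a) * (t ^ 2 / 2 + t ^ 3 / 4) ≤ 0) :
    (1 + a) * (exp (σ + c) - 1) ≤ σ := by
  have := exp_up hz ht
  nlinarith

/-- Basic data of an exploration. -/
structure Basic (live : Hist → Prop) (rem : Hist → ℕ) (p e : ℝ) (θ Y : Hist → ℝ)
    (n : Hist → ℕ) : Prop where
  rem_lt : ∀ h b, live h → rem (b :: h) < rem h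
  θ0 : ∀ h, live h → 0 ≤ θ h
  θ1 : ∀ h, live h → θ h ≤ 1
  Yt : ∀ h, live h → Y (true :: h) = Y h + θ h * (1 - p) - e
  Yf : ∀ h, live h → Y (false :: h) = Y h - θ h * p
  nt : ∀ h, live h → n (true :: h) = n h + 1
  nf : ∀ h, live h → n (false :: h) = n h
  Y0 : ∀ h, 0 ≤ Y h
  Ydead : ∀ h, ¬ live h → Y h = 0
  n_nil : n [] = 0
  Y_nil : Y [] ≤ 1
  p0 : 0 < p

/-- The capped survival supermartingale. -/
noncomputable def Psi (δ ξ : ℝ) (Y : Hist → ℝ) (n : Hist → ℕ) (h : Hist) : ℝ :=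
  min (1 - δ) (1 - exp (-(2 * (1 + δ) * ξ * Y h)) + δ ^ 2 * (1 + δ) * ξ ^ 2 / 2 * n h)

/-- Smallness conditions for `Psi`. -/
structure Small (δ ξ p e : ℝ) : Prop where
  δ0 : 0 < δ
  δ1 : δ ≤ 1 / 10
  ξ0 : 0 < ξ
  ξe : 3 * ξ ≤ e
  eδ : e ≤ δ / 10
  pδ : p ≤ δ / 100

variable {live : Hist → Prop} {rem : Hist → ℕ} {p e : ℝ} {θ Y : Hist → ℝ} {n : Hist → ℕ}

lemma psi_core {δ ξ p e θ : ℝ} (hs : Small δ ξ p e) (hp : 0 < p) (h0 : 0 ≤ θ) (h1 : θ ≤ 1)
    {r : ℝ} (hr0 : 0 ≤ r) (hr : r ≤ p * (1 + e + ξ)) :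
    1 + r * (δ * (1 + δ) * ξ ^ 2 / 2) ≤
      r * exp (-(2 * (1 + δ) * ξ * (θ * (1 - p) - e)))
        + (1 - r) * exp (2 * (1 + δ) * ξ * (θ * p)) := by
  obtain ⟨δ0, δ1, ξ0, ξe, eδ, pδ⟩ := hs
  obtain ⟨l, hl⟩ : ∃ l, l = 2 * (1 + δ) * ξ := ⟨_, rfl⟩
  rw [← hl]
  have l0 : 0 < l := by rw [hl]; positivity
  have l3 : l ≤ 3 * ξ := by nlinarith only [hl, δ1, ξ0]
  have le' : l ≤ e := by linarith
  have e1 : e ≤ 1 / 100 := by linarith
  have e0 : 0 < e := by linarith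
  obtain ⟨x, hx⟩ : ∃ x, x = θ - e := ⟨_, rfl⟩
  have x1 : x ≤ 1 := by linarith
  have x2 : -1 ≤ x := by linarith
  have hz : |(-(l * x))| ≤ l := by
    rw [abs_le]; constructor <;> nlinarith only [l0, x1, x2]
  have hE := exp_lo hz (by linarith)
  obtain ⟨E, hEdef⟩ : ∃ E, E = exp (-(l * x)) - 1 := ⟨_, rfl⟩
  rw [← hEdef] at hE
  have hβ : 1 + l * (θ * p) ≤ exp (l * (θ * p)) := by linarith [add_one_le_exp (l * (θ * p))]
  have e2 : exp (-(l * (θ * (1 - p) - e))) = exp (l * (θ * p)) * (E + 1) := by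
    rw [hEdef, sub_add_cancel, ← exp_add]; congr 1; rw [hx]; ring
  rw [e2]
  have hr1 : r ≤ 2 * p := by nlinarith only [hr, hp, e1, ξe]
  have hl3 : l ^ 3 ≤ l := by
    have : l ^ 2 ≤ 1 := by nlinarith only [l0, le', e1]
    nlinarith only [this, l0]
  have hEl : -(2 * l) ≤ E := by
    have := (abs_le.1 hz).1
    nlinarith only [sq_nonneg (l * x), hl3, this, hE, l0]
  have hpos : 0 ≤ 1 + r * E := by
    have : r * (-(2 * l)) ≤ r * E := mul_le_mul_of_nonneg_left hEl hr0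
    have h2 : r * l ≤ 1 / 4 := by nlinarith only [hr0, hr1, pδ, δ1, l0, le', e1]
    linarith
  have key : 1 + r * (δ * (1 + δ) * ξ ^ 2 / 2) ≤ (1 + l * (θ * p)) * (1 + r * E) := by
    have hG : (1 + e + ξ) * (δ * (1 + δ) * ξ ^ 2 / 2) ≤
        l * θ + (1 + e + ξ) * E * (1 + l * (θ * p)) := by
      have f1 : l / 2 - ξ ≤ e - (e + ξ) * x + l * x ^ 2 / 2 := by
        have : 0 ≤ (1 - x) * ((e + ξ) - l * (1 + x) / 2) := by
          apply mul_nonneg
          · linarith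
          · nlinarith only [x1, l0, le', ξ0]
        linarith
      have f2 : -(l * x) - (e + ξ) * (l * x) + (l * x) ^ 2 / 2 - l ^ 3 / 2
          ≤ (1 + e + ξ) * E := by
        have g1 : (1 + e + ξ) * (-(l * x) + (-(l * x)) ^ 2 / 2 - l ^ 3 / 4) ≤ (1 + e + ξ) * E :=
          mul_le_mul_of_nonneg_left hE (by linarith)
        have g2 : 0 ≤ (e + ξ) * (l * x) ^ 2 := by positivity
        have g3 : (e + ξ) * l ^ 3 ≤ 1 * l ^ 3 :=
          mul_le_mul_of_nonneg_right (by linarith) (by positivity)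
        linarith
      have f3 : -(4 * l ^ 2 * p) ≤ (1 + e + ξ) * E * (l * (θ * p)) := by
        have g1 : 0 ≤ l * (θ * p) := by positivity
        have g2 : l * (θ * p) ≤ l * (1 * p) :=
          mul_le_mul_of_nonneg_left (mul_le_mul_of_nonneg_right h1 hp.le) l0.le
        have g3 : -(4 * l) ≤ (1 + e + ξ) * E := by
          have := mul_le_mul_of_nonneg_left hEl (show 0 ≤ 1 + e + ξ by linarith)
          nlinarith only [this, l0, e1, ξe]
        have g4 := mul_le_mul_of_nonneg_right g3 g1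
        have g5 := mul_le_mul_of_nonneg_left g2 (show 0 ≤ 4 * l by linarith)
        linarith
      have f4 : l * (l / 2 - ξ) ≤ l * (e - (e + ξ) * x + l * x ^ 2 / 2) :=
        mul_le_mul_of_nonneg_left f1 l0.le
      have f5 : l / 2 - ξ = δ * ξ := by rw [hl]; ring
      have f6 : l ^ 3 / 2 ≤ l * (δ * ξ) * (3 / 20) := by
        have : l * l ≤ (3 * ξ) * (δ / 10) := mul_le_mul l3 (by linarith) l0.le (by linarith)
        have := mul_le_mul_of_nonneg_left this l0.le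
        linarith
      have f7 : 4 * l ^ 2 * p ≤ l * (δ * ξ) * (12 / 100) := by
        have : l * p ≤ (3 * ξ) * (δ / 100) := mul_le_mul l3 pδ hp.le (by linarith)
        have := mul_le_mul_of_nonneg_left this l0.le
        linarith
      have f9 : 0 ≤ l * (δ * ξ) := by positivity
      have f8 : (1 + e + ξ) * (δ * (1 + δ) * ξ ^ 2 / 2) ≤ l * (δ * ξ) / 2 := by
        have : δ * (1 + δ) * ξ ^ 2 / 2 = l * (δ * ξ) / 4 := by rw [hl]; ring
        rw [this]
        have := mul_le_mul_of_nonneg_right (show 1 + e + ξ ≤ 2 by linarith) f9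
        linarith
      have f10 : l * θ = l * x + l * e := by rw [hx]; ring
      rw [f5] at f4
      linarith
    have hA : 0 ≤ l * (θ * p) := by positivity
    have hd : 0 < p * (1 + e + ξ) := by positivity
    obtain ⟨s, hs⟩ : ∃ s, s = r / (p * (1 + e + ξ)) := ⟨_, rfl⟩
    have hs0 : 0 ≤ s := by rw [hs]; positivity
    have hs1 : s ≤ 1 := by rw [hs, div_le_one hd]; exact hr
    have hrs : r = s * (p * (1 + e + ξ)) := by rw [hs]; field_simp
    have := mul_le_mul_of_nonneg_left hG (mul_nonneg hs0 hp.le)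
    have e5 : (1 + l * (θ * p)) * (1 + r * E) - 1 - r * (δ * (1 + δ) * ξ ^ 2 / 2)
        = (1 - s) * (l * (θ * p)) + (s * p * (l * θ + (1 + e + ξ) * E * (1 + l * (θ * p)))
          - s * p * ((1 + e + ξ) * (δ * (1 + δ) * ξ ^ 2 / 2))) := by
      rw [hrs]; ring
    linarith [mul_nonneg (sub_nonneg.2 hs1) hA]
  linarith [mul_le_mul_of_nonneg_right hβ hpos]

lemma Psi_le {δ ξ : ℝ} (h : Hist) : Psi δ ξ Y n h ≤ 1 - δ := min_le_left _ _

lemma Psi_nonneg {δ ξ : ℝ} (hB : Basic live rem p e θ Y n) (hs : Small δ ξ p e) (h : Hist) :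
    0 ≤ Psi δ ξ Y n h := by
  obtain ⟨δ0, δ1, ξ0, -, -, -⟩ := hs
  refine le_min (by linarith) ?_
  have h1 : exp (-(2 * (1 + δ) * ξ * Y h)) ≤ 1 := by
    rw [exp_le_one_iff]
    have := hB.Y0 h
    have : 0 ≤ 2 * (1 + δ) * ξ * Y h := by positivity
    linarith
  have : 0 ≤ δ ^ 2 * (1 + δ) * ξ ^ 2 / 2 * n h := by positivity
  linarith

lemma Psi_nil {δ ξ : ℝ} (hB : Basic live rem p e θ Y n) (hs : Small δ ξ p e) :
    Psi δ ξ Y n [] ≤ 2 * (1 + δ) * ξ := by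
  obtain ⟨δ0, δ1, ξ0, -, -, -⟩ := hs
  refine (min_le_right _ _).trans ?_
  have h1 := add_one_le_exp (-(2 * (1 + δ) * ξ * Y []))
  have h2 := hB.Y_nil
  have h3 : 0 ≤ 2 * (1 + δ) * ξ := by positivity
  rw [hB.n_nil]
  simp only [Nat.cast_zero, mul_zero, add_zero]
  nlinarith

lemma Psi_sat_n {δ ξ : ℝ} (hB : Basic live rem p e θ Y n) (hs : Small δ ξ p e) {h : Hist}
    (hn : 2 ≤ δ ^ 2 * ξ ^ 2 * n h) : Psi δ ξ Y n h = 1 - δ := by
  obtain ⟨δ0, δ1, ξ0, -, -, -⟩ := hs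
  refine min_eq_left ?_
  have h1 : exp (-(2 * (1 + δ) * ξ * Y h)) ≤ 1 := by
    rw [exp_le_one_iff]
    have := hB.Y0 h
    have : 0 ≤ 2 * (1 + δ) * ξ * Y h := by positivity
    linarith
  have : 0 ≤ δ * (δ ^ 2 * ξ ^ 2 * n h) := by positivity
  nlinarith

lemma Psi_sat_Y {δ ξ : ℝ} (hs : Small δ ξ p e) {h : Hist}
    (hY : 1 ≤ δ * (2 * ξ * Y h)) : Psi δ ξ Y n h = 1 - δ := by
  obtain ⟨δ0, δ1, ξ0, -, -, -⟩ := hs
  refine min_eq_left ?_
  set t := 2 * (1 + δ) * ξ * Y h with ht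
  have hY0 : 0 ≤ 2 * ξ * Y h := by
    by_contra hc
    push Not at hc
    nlinarith
  have h1 : 1 ≤ δ * t := by rw [ht]; nlinarith [mul_nonneg (mul_nonneg δ0.le δ0.le) hY0]
  have h2 : exp (-t) * exp t = 1 := by rw [← exp_add]; simp
  have h3 := add_one_le_exp t
  have h4 := exp_pos (-t)
  have h5 : exp (-t) ≤ δ := by
    by_contra hc
    push Not at hc
    have t0 : 0 < t := by
      by_contra ht0
      push Not at ht0
      nlinarith
    nlinarith
  have : 0 ≤ δ ^ 2 * (1 + δ) * ξ ^ 2 / 2 * n h := by positivity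
  linarith

lemma Psi_step {δ ξ : ℝ} (hB : Basic live rem p e θ Y n) (hs : Small δ ξ p e) {h : Hist}
    (hl : live h) {r : ℝ} (hr0 : 0 ≤ r) (hr : r ≤ p * (1 + e + ξ)) :
    r * Psi δ ξ Y n (true :: h) + (1 - r) * Psi δ ξ Y n (false :: h) ≤ Psi δ ξ Y n h := by
  have hc := psi_core hs hB.p0 (hB.θ0 h hl) (hB.θ1 h hl) hr0 hr
  obtain ⟨δ0, δ1, ξ0, ξe, eδ, pδ⟩ := hs
  have hp := hB.p0
  have hr1 : r ≤ 1 := by nlinarith only [hr, hp, δ1, ξe, eδ, pδ, ξ0]
  by_cases hsat : 1 - δ ≤ 1 - exp (-(2 * (1 + δ) * ξ * Y h))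
      + δ ^ 2 * (1 + δ) * ξ ^ 2 / 2 * n h
  · have : Psi δ ξ Y n h = 1 - δ := min_eq_left hsat
    rw [this]
    linarith [mul_le_mul_of_nonneg_left
        (Psi_le (δ := δ) (ξ := ξ) (Y := Y) (n := n) (true :: h)) hr0,
      mul_le_mul_of_nonneg_left
        (Psi_le (δ := δ) (ξ := ξ) (Y := Y) (n := n) (false :: h)) (sub_nonneg.2 hr1)]
  · push Not at hsat
    have e0 : Psi δ ξ Y n h = _ := min_eq_right hsat.le
    have e1 : Psi δ ξ Y n (true :: h) ≤ _ := min_le_right _ _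
    have e2 : Psi δ ξ Y n (false :: h) ≤ _ := min_le_right _ _
    rw [hB.Yt h hl, hB.nt h hl] at e1
    rw [hB.Yf h hl, hB.nf h hl] at e2
    set X := exp (-(2 * (1 + δ) * ξ * Y h)) with hX
    have hn0 : 0 ≤ δ ^ 2 * (1 + δ) * ξ ^ 2 / 2 * n h := by positivity
    have hXδ : δ ≤ X := by linarith
    have a1 : exp (-(2 * (1 + δ) * ξ * (Y h + θ h * (1 - p) - e)))
        = X * exp (-(2 * (1 + δ) * ξ * (θ h * (1 - p) - e))) := by
      rw [hX, ← exp_add]; congr 1; ring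
    have a2 : exp (-(2 * (1 + δ) * ξ * (Y h - θ h * p)))
        = X * exp (2 * (1 + δ) * ξ * (θ h * p)) := by
      rw [hX, ← exp_add]; congr 1; ring
    rw [a1] at e1
    rw [a2] at e2
    push_cast at e1
    have b1 := mul_le_mul_of_nonneg_left e1 hr0
    have b2 := mul_le_mul_of_nonneg_left e2 (sub_nonneg.2 hr1)
    have b3 := mul_le_mul_of_nonneg_left hc (show 0 ≤ X by linarith)
    have b4 : r * (δ * (1 + δ) * ξ ^ 2 / 2) * δ ≤ r * (δ * (1 + δ) * ξ ^ 2 / 2) * X :=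
      mul_le_mul_of_nonneg_left hXδ (by positivity)
    rw [e0]
    linarith

/-- Product of `Psi` with an exponential supermartingale. -/
lemma prod_step {δ ξ : ℝ} (hB : Basic live rem p e θ Y n) (hs : Small δ ξ p e) {h : Hist}
    (hl : live h) {r σ c W W1 W0 : ℝ} (hr0 : 0 ≤ r) (hr1 : r ≤ 1)
    (hW1 : W1 ≤ W + σ * (1 - p) + c) (hW0 : W0 ≤ W - σ * p)
    (hst : r * (exp (σ + c) - 1) ≤ σ * p) {t : ℝ} (ht0 : 0 ≤ t) (ht : σ + c ≤ t)
    (hr : r * exp t ≤ p * (1 + e + ξ)) :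
    r * (Psi δ ξ Y n (true :: h) * exp W1) + (1 - r) * (Psi δ ξ Y n (false :: h) * exp W0)
      ≤ Psi δ ξ Y n h * exp W := by
  have hs1 := step_exp hst
  set A := r * exp (σ * (1 - p) + c) with hA
  set B := (1 - r) * exp (-(σ * p)) with hBd
  have A0 : 0 ≤ A := by positivity
  have B0 : 0 ≤ B := mul_nonneg (by linarith) (exp_pos _).le
  have P1 := Psi_nonneg hB hs (true :: h)
  have P0 := Psi_nonneg hB hs (false :: h)
  have P := Psi_nonneg hB hs h
  have hAB : 0 < A + B := by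
    rcases eq_or_lt_of_le hr0 with h0 | h0
    · have : 0 < B := mul_pos (by linarith) (exp_pos _)
      linarith
    · have : 0 < A := mul_pos h0 (exp_pos _)
      linarith
  have e1 : exp (σ * (1 - p) + c) = exp (-(σ * p)) * exp (σ + c) := by
    rw [← exp_add]; ring_nf
  have hq : A / (A + B) ≤ p * (1 + e + ξ) := by
    refine le_trans ?_ hr
    rw [div_le_iff₀ hAB, hA, hBd, e1]
    have x0 := exp_pos (-(σ * p))
    have x1 : exp (σ + c) ≤ exp t := exp_le_exp.2 ht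
    have x2 : 1 ≤ exp t := one_le_exp ht0
    have x3 := exp_pos (σ + c)
    have x4 : exp (σ + c) ≤ exp t * (r * exp (σ + c) + (1 - r)) := by
      linarith [mul_nonneg hr0 (mul_nonneg x3.le (sub_nonneg.2 x2)),
        mul_nonneg (sub_nonneg.2 hr1) (sub_nonneg.2 x1)]
    linarith [mul_le_mul_of_nonneg_left x4 (mul_nonneg hr0 x0.le)]
  have hP := Psi_step hB hs hl (r := A / (A + B)) (by positivity) hq
  have hP' : A * Psi δ ξ Y n (true :: h) + B * Psi δ ξ Y n (false :: h)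
      ≤ (A + B) * Psi δ ξ Y n h := by
    have := mul_le_mul_of_nonneg_left hP hAB.le
    have e3 : (A + B) * (A / (A + B) * Psi δ ξ Y n (true :: h)
        + (1 - A / (A + B)) * Psi δ ξ Y n (false :: h))
        = A * Psi δ ξ Y n (true :: h) + B * Psi δ ξ Y n (false :: h) := by
      field_simp; ring
    linarith
  have y1 : exp W1 ≤ exp W * exp (σ * (1 - p) + c) := by
    rw [← exp_add]; exact exp_le_exp.2 (by linarith)
  have y0 : exp W0 ≤ exp W * exp (-(σ * p)) := by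
    rw [← exp_add]; exact exp_le_exp.2 (by linarith)
  have z1 : r * (Psi δ ξ Y n (true :: h) * exp W1) ≤ exp W * (A * Psi δ ξ Y n (true :: h)) := by
    have := mul_le_mul_of_nonneg_left y1 (mul_nonneg hr0 P1)
    rw [hA]; linarith
  have z0 : (1 - r) * (Psi δ ξ Y n (false :: h) * exp W0)
      ≤ exp W * (B * Psi δ ξ Y n (false :: h)) := by
    have := mul_le_mul_of_nonneg_left y0 (mul_nonneg (sub_nonneg.2 hr1) P0)
    rw [hBd]; linarith
  have ew := exp_pos W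
  have z2 : (A + B) * Psi δ ξ Y n h ≤ Psi δ ξ Y n h := mul_le_of_le_one_left P hs1
  linarith [mul_le_mul_of_nonneg_left (hP'.trans z2) ew.le]

/-- Plain exponential supermartingale step. -/
lemma plain_step {p r σ c W W1 W0 : ℝ} (hr0 : 0 ≤ r) (hr1 : r ≤ 1)
    (hW1 : W1 ≤ W + σ * (1 - p) + c) (hW0 : W0 ≤ W - σ * p)
    (hst : r * (exp (σ + c) - 1) ≤ σ * p) :
    r * exp W1 + (1 - r) * exp W0 ≤ exp W := by
  have hs1 := step_exp hst
  have y1 : exp W1 ≤ exp W * exp (σ * (1 - p) + c) := by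
    rw [← exp_add]; exact exp_le_exp.2 (by linarith)
  have y0 : exp W0 ≤ exp W * exp (-(σ * p)) := by
    rw [← exp_add]; exact exp_le_exp.2 (by linarith)
  have ew := exp_pos W
  linarith [mul_le_mul_of_nonneg_left y1 hr0, mul_le_mul_of_nonneg_left y0 (sub_nonneg.2 hr1),
    mul_le_mul_of_nonneg_left hs1 ew.le]

/-- Linear bound through `Psi`. -/
theorem ab0 {δ ξ : ℝ} (hB : Basic live rem p e θ Y n) (hs : Small δ ξ p e) {r V : Hist → ℝ}
    (hr0 : ∀ h, live h → 0 ≤ r h) (hr : ∀ h, live h → r h ≤ p * (1 + e + ξ))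
    (hV : ∀ h, live h → V h = r h * V (true :: h) + (1 - r h) * V (false :: h))
    {a K : ℝ} (hK : 0 ≤ K) (hdead : ∀ h, ¬ live h → V h ≤ a + K * Psi δ ξ Y n h) :
    V [] ≤ a + K * (2 * (1 + δ) * ξ) := by
  have := ind_le hB.rem_lt (r := r) (fun h => V h - (a + K * Psi δ ξ Y n h)) (fun h => by
    by_cases hl : live h
    · right
      have h1 := Psi_step hB hs hl (hr0 h hl) (hr h hl)
      obtain ⟨δ0, δ1, ξ0, ξe, eδ, pδ⟩ := hs
      have hp := hB.p0
      refine ⟨hl, hr0 h hl, by nlinarith only [hr h hl, hp, δ1, ξe, eδ, pδ, ξ0], ?_⟩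
      rw [hV h hl]
      linarith [mul_le_mul_of_nonneg_left h1 hK]
    · left; linarith [hdead h hl]) []
  have h2 := mul_le_mul_of_nonneg_left (Psi_nil hB hs) hK
  linarith

end Pool.Agent.P.MP_068ab5_pr
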