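import Pool.Agent.P.MP_068ab5_pr.Coin

/-! Upper tail bounds for abstract explorations. -/

namespace Pool.Agent.P.MP_068ab5_pr

open Real

/-- Smallness conditions. -/
structure Cond (δ ξ p e : ℝ) : Prop where
  δ0 : 0 < δ
  δ1 : δ ≤ 1 / 10
  ξ0 : 0 < ξ
  ξe : 9 * ξ ≤ e
  eδ : e ≤ δ / 100
  ee : e ^ 2 ≤ δ * ξ / 100
  pδ : p ≤ δ / 100

lemma Cond.small {δ ξ p e : ℝ} (h : Cond δ ξ p e) : Small δ (3 * ξ) p e :=
  ⟨h.δ0, h.δ1, by linarith [h.ξ0], by linarith [h.ξe], by linarith [h.eδ, h.δ0], h.pδ⟩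

lemma Cond.small' {δ ξ p e : ℝ} (h : Cond δ ξ p e) : Small δ ξ p e :=
  ⟨h.δ0, h.δ1, h.ξ0, by linarith [h.ξe, h.ξ0], by linarith [h.eδ, h.δ0], h.pδ⟩

lemma Cond.tilt {δ ξ p e r : ℝ} (h : Cond δ ξ p e) (hp : 0 < p) (hr0 : 0 ≤ r)
    (hr : r ≤ p * (1 + (e + ξ))) : r * exp ξ ≤ p * (1 + e + 3 * ξ) := by
  obtain ⟨δ0, δ1, ξ0, ξe, eδ, ee, pδ⟩ := h
  have h1 := exp_le_quad ξ0.le (by linarith)
  have h2 : (1 + (e + ξ)) * (1 + ξ + ξ ^ 2) ≤ 1 + e + 3 * ξ := by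
    have : (1 + (e + ξ)) * (1 + ξ) ≤ 2 := by nlinarith only [ξ0, ξe, eδ, δ1]
    nlinarith only [this, ξ0]
  calc r * exp ξ ≤ (p * (1 + (e + ξ))) * (1 + ξ + ξ ^ 2) :=
        mul_le_mul hr h1 (exp_pos _).le (hr0.trans hr)
    _ = p * ((1 + (e + ξ)) * (1 + ξ + ξ ^ 2)) := by ring
    _ ≤ _ := mul_le_mul_of_nonneg_left h2 hp.le

lemma Cond.r_le_one {δ ξ p e r : ℝ} (h : Cond δ ξ p e) (hp : 0 < p)
    (hr : r ≤ p * (1 + (e + ξ))) : r ≤ 1 := by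
  obtain ⟨δ0, δ1, ξ0, ξe, eδ, ee, pδ⟩ := h
  nlinarith only [hr, hp, δ1, ξ0, ξe, eδ, pδ]

lemma cond_of_le {p r a σ E : ℝ} (hp : 0 < p) (hr0 : 0 ≤ r) (hr : r ≤ p * (1 + a)) (hσ : 0 ≤ σ)
    (h : (1 + a) * E ≤ σ) : r * E ≤ σ * p := by
  by_cases hE : E ≤ 0
  · nlinarith [mul_nonneg hσ hp.le, mul_nonneg hr0 (neg_nonneg.2 hE)]
  · push Not at hE
    nlinarith [mul_le_mul_of_nonneg_right hr hE.le, mul_le_mul_of_nonneg_left h hp.le]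

lemma cond_of_ge {p r a σ E : ℝ} (hp : 0 < p) (hr : p * (1 + a) ≤ r) (hE : E ≤ 0)
    (h : (1 + a) * E ≤ σ) : r * E ≤ σ * p := by
  nlinarith [mul_le_mul_of_nonneg_right hr (neg_nonneg.2 hE), mul_le_mul_of_nonneg_left h hp.le]

lemma pre_nil {δ ξ x w : ℝ} (δ0 : 0 < δ) (δ1 : δ ≤ 1 / 10) (ξ0 : 0 < ξ) {P : ℝ}
    (hP : P ≤ 2 * (1 + δ) * (3 * ξ)) (hx : x ≤ 1 - w) :
    P * exp x / (1 - δ) ≤ 25 * ξ * exp (-w) := by
  have h1 : exp x ≤ 3 * exp (-w) := by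
    have : exp x ≤ exp 1 * exp (-w) := by rw [← exp_add]; exact exp_le_exp.2 (by linarith)
    have h3 : exp 1 ≤ 3 := by linarith [exp_one_lt_d9]
    nlinarith [exp_pos (-w)]
  rw [div_le_iff₀ (by linarith)]
  have h2 : P * exp x ≤ (2 * (1 + δ) * (3 * ξ)) * (3 * exp (-w)) :=
    mul_le_mul hP h1 (exp_pos _).le (by positivity)
  have h3 : 0 < ξ * exp (-w) := by positivity
  nlinarith only [h2, h3, δ1]

variable {live : Hist → Prop} {rem : Hist → ℕ} {p e : ℝ} {θ Y : Hist → ℝ} {n : Hist → ℕ}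

lemma sat_ge_one {δ W : ℝ} (δ1 : δ ≤ 1 / 10) (hW : 0 ≤ W) : 1 ≤ (1 - δ) * exp W / (1 - δ) := by
  rw [mul_div_cancel_left₀ _ (by linarith)]
  exact one_le_exp hW

lemma sat3 {δ ξ k m : ℝ} (hk : 1 ≤ δ ^ 2 * ξ ^ 2 * k) (hn : k ≤ m) :
    2 ≤ δ ^ 2 * (3 * ξ) ^ 2 * m := by
  linarith [mul_le_mul_of_nonneg_left hn (show 0 ≤ δ ^ 2 * ξ ^ 2 by positivity)]

/-- Subcritical tail. -/
theorem ab2 {δ ξ : ℝ} (hB : Basic live rem p e θ Y n) (hc : Cond δ ξ p e) {r V : Hist → ℝ}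
    (hr0 : ∀ h, live h → 0 ≤ r h) (hr : ∀ h, live h → r h ≤ p * (1 + (e - ξ)))
    (hV : ∀ h, live h → V h = r h * V (true :: h) + (1 - r h) * V (false :: h))
    (hV1 : ∀ h, V h ≤ 1) {k : ℝ} (hk : 1 ≤ δ ^ 2 * ξ ^ 2 * k)
    (hdead : ∀ h, ¬ live h → (n h : ℝ) < k → V h ≤ 0) :
    V [] ≤ 25 * ξ * exp (-((1 - δ) * ξ ^ 2 / 2 * k)) := by
  have hs := hc.small
  have hp := hB.p0
  obtain ⟨δ0, δ1, ξ0, ξe, eδ, ee, pδ⟩ := id hc
  obtain ⟨μ, hμ⟩ : ∃ μ, μ = (1 - δ) * ξ ^ 2 / 2 := ⟨_, rfl⟩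
  rw [← hμ]
  have μ0 : 0 ≤ μ := by rw [hμ]; have : 0 ≤ 1 - δ := by linarith
                        positivity
  have := ind_le hB.rem_lt (r := r) (fun h => V h -
      Psi δ (3 * ξ) Y n h * exp (ξ * Y h + μ * n h - μ * k) / (1 - δ)) (fun h => by
    by_cases hn : k ≤ n h
    · left
      rw [Psi_sat_n hB hs (sat3 hk hn)]
      have := sat_ge_one δ1 (W := ξ * Y h + μ * n h - μ * k) (by
        nlinarith only [mul_nonneg ξ0.le (hB.Y0 h), mul_le_mul_of_nonneg_left hn μ0])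
      linarith [hV1 h]
    push Not at hn
    by_cases hl : live h
    · right
      have hrr : r h ≤ p * (1 + (e + ξ)) := (hr h hl).trans (by nlinarith only [hp, ξ0])
      have r1 := hc.r_le_one hp hrr
      refine ⟨hl, hr0 h hl, r1, ?_⟩
      have t0 := hB.θ0 h hl
      have t1 := hB.θ1 h hl
      have μe : μ ≤ ξ * e := by rw [hμ]; nlinarith only [ξ0, ξe, δ0, mul_pos ξ0 ξ0]
      have hz1 : ξ * θ h + (-(ξ * e) + μ) ≤ ξ := by nlinarith only [μe, t1, ξ0]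
      have hz : |ξ * θ h + (-(ξ * e) + μ)| ≤ ξ := by
        rw [abs_le]; refine ⟨?_, hz1⟩
        nlinarith only [μ0, t0, ξ0, eδ, δ1]
      have hst := step_cond (a := e - ξ) (by linarith) hz (by linarith) (by
        have a1 : (e - ξ) * (ξ * θ h + (-(ξ * e) + μ)) ≤ (e - ξ) * ξ :=
          mul_le_mul_of_nonneg_left hz1 (by linarith)
        have a2 : (1 + (e - ξ)) * (ξ ^ 2 / 2 + ξ ^ 3 / 4) ≤ (1 + δ / 2) * (ξ ^ 2 / 2) := by
          have b1 : (1 + (e - ξ)) * (1 + ξ / 2) ≤ 1 + δ / 2 := by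
            nlinarith only [ξ0, ξe, eδ, δ1, δ0]
          have := mul_le_mul_of_nonneg_right b1 (show 0 ≤ ξ ^ 2 / 2 by positivity)
          linarith
        have a3 : 0 ≤ δ * ξ ^ 2 := by positivity
        rw [hμ] at a1 ⊢
        linarith)
      have hst' := cond_of_le hp (hr0 h hl) (hr h hl) (mul_nonneg ξ0.le t0) hst
      have := prod_step hB hs hl (W := ξ * Y h + μ * n h - μ * k)
        (W1 := ξ * Y (true :: h) + μ * n (true :: h) - μ * k)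
        (W0 := ξ * Y (false :: h) + μ * n (false :: h) - μ * k) (hr0 h hl) r1
        (by rw [hB.Yt h hl, hB.nt h hl]; push_cast; exact le_of_eq (by ring))
        (by rw [hB.Yf h hl, hB.nf h hl]; exact le_of_eq (by ring)) hst' ξ0.le hz1
        (hc.tilt hp (hr0 h hl) hrr)
      have := div_le_div_of_nonneg_right this (show 0 ≤ 1 - δ by linarith)
      rw [hV h hl]
      rw [add_div, mul_div_assoc, mul_div_assoc (1 - r h)] at this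
      linarith
    · left
      have : 0 ≤ Psi δ (3 * ξ) Y n h * exp (ξ * Y h + μ * n h - μ * k) / (1 - δ) :=
        div_nonneg (mul_nonneg (Psi_nonneg hB hs h) (exp_pos _).le) (by linarith)
      linarith [hdead h hl hn]) []
  have h2 := pre_nil (w := μ * k) (x := ξ * Y [] + μ * n [] - μ * k) δ0 δ1 ξ0 (Psi_nil hB hs) (by
    rw [hB.n_nil, Nat.cast_zero]; nlinarith only [hB.Y_nil, ξ0, ξe, eδ, δ1])
  linarith

/-- Supermartingale controlling large values of `Y`. -/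
noncomputable def PhiY (δ ξ nmax : ℝ) (Y : Hist → ℝ) (n : Hist → ℕ) (h : Hist) : ℝ :=
  Psi δ (3 * ξ) Y n h * exp (ξ * Y h - 2 * ξ ^ 2 * n h - 2 * ξ ^ 2 * nmax) / (1 - δ)

lemma PhiY_nonneg {δ ξ nmax : ℝ} (hB : Basic live rem p e θ Y n) (hc : Cond δ ξ p e) (h : Hist) :
    0 ≤ PhiY δ ξ nmax Y n h :=
  div_nonneg (mul_nonneg (Psi_nonneg hB hc.small h) (exp_pos _).le) (by linarith [hc.δ1])

lemma PhiY_exit {δ ξ nmax : ℝ} (hc : Cond δ ξ p e) (hN : 1 ≤ δ * ξ ^ 2 * nmax) {h : Hist}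
    (hn : (n h : ℝ) ≤ nmax) (hY : 4 * ξ * nmax ≤ Y h) : 1 ≤ PhiY δ ξ nmax Y n h := by
  obtain ⟨δ0, δ1, ξ0, ξe, eδ, ee, pδ⟩ := id hc
  unfold PhiY
  have h1 := mul_le_mul_of_nonneg_left hY (show 0 ≤ δ * ξ by positivity)
  rw [Psi_sat_Y hc.small (by linarith)]
  refine sat_ge_one δ1 ?_
  linarith [mul_le_mul_of_nonneg_left hY ξ0.le,
    mul_le_mul_of_nonneg_left hn (show 0 ≤ ξ ^ 2 by positivity)]

lemma PhiY_nil {δ ξ nmax : ℝ} (hB : Basic live rem p e θ Y n) (hc : Cond δ ξ p e) :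
    PhiY δ ξ nmax Y n [] ≤ 25 * ξ * exp (-(2 * ξ ^ 2 * nmax)) := by
  obtain ⟨δ0, δ1, ξ0, ξe, eδ, ee, pδ⟩ := id hc
  refine pre_nil δ0 δ1 ξ0 (Psi_nil hB hc.small) ?_
  rw [hB.n_nil]; nlinarith only [hB.Y_nil, ξ0, ξe, eδ, δ1]

lemma PhiY_step {δ ξ nmax : ℝ} (hB : Basic live rem p e θ Y n) (hc : Cond δ ξ p e) {h : Hist}
    (hl : live h) {r : ℝ} (hr0 : 0 ≤ r) (hr : r ≤ p * (1 + (e + ξ))) :
    r * PhiY δ ξ nmax Y n (true :: h) + (1 - r) * PhiY δ ξ nmax Y n (false :: h)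
      ≤ PhiY δ ξ nmax Y n h := by
  have hp := hB.p0
  obtain ⟨δ0, δ1, ξ0, ξe, eδ, ee, pδ⟩ := id hc
  have t0 := hB.θ0 h hl
  have t1 := hB.θ1 h hl
  have e0 : 0 ≤ ξ * e := by nlinarith only [ξ0, ξe]
  have hz1 : ξ * θ h + (-(ξ * e) - 2 * ξ ^ 2) ≤ ξ := by
    nlinarith only [t1, ξ0, e0, mul_pos ξ0 ξ0]
  have hz : |ξ * θ h + (-(ξ * e) - 2 * ξ ^ 2)| ≤ ξ := by
    rw [abs_le]; refine ⟨?_, hz1⟩
    nlinarith only [t0, ξ0, eδ, δ1, ξe]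
  have hst := step_cond (a := e + ξ) (by linarith) hz (by linarith) (by
    have a1 : (e + ξ) * (ξ * θ h + (-(ξ * e) - 2 * ξ ^ 2)) ≤ (e + ξ) * ξ :=
      mul_le_mul_of_nonneg_left hz1 (by linarith)
    have a2 : (1 + (e + ξ)) * (ξ ^ 2 / 2 + ξ ^ 3 / 4) ≤ 2 * (ξ ^ 2 / 2) := by
      have b1 : (1 + (e + ξ)) * (1 + ξ / 2) ≤ 2 := by
        nlinarith only [ξ0, ξe, eδ, δ1, δ0]
      have := mul_le_mul_of_nonneg_right b1 (show 0 ≤ ξ ^ 2 / 2 by positivity)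
      linarith
    linarith)
  have hst' := cond_of_le hp hr0 hr (mul_nonneg ξ0.le t0) hst
  have := prod_step hB hc.small hl (W := ξ * Y h - 2 * ξ ^ 2 * n h - 2 * ξ ^ 2 * nmax)
    (W1 := ξ * Y (true :: h) - 2 * ξ ^ 2 * n (true :: h) - 2 * ξ ^ 2 * nmax)
    (W0 := ξ * Y (false :: h) - 2 * ξ ^ 2 * n (false :: h) - 2 * ξ ^ 2 * nmax) hr0
    (hc.r_le_one hp hr)
    (by rw [hB.Yt h hl, hB.nt h hl]; push_cast; exact le_of_eq (by ring))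
    (by rw [hB.Yf h hl, hB.nf h hl]; exact le_of_eq (by ring)) hst' ξ0.le hz1
    (hc.tilt hp hr0 hr)
  have := div_le_div_of_nonneg_right this (show 0 ≤ 1 - δ by linarith)
  unfold PhiY
  rw [add_div, mul_div_assoc, mul_div_assoc (1 - r)] at this
  exact this

/-- Geometric data of an exploration. -/
structure Geom (live : Hist → Prop) (p : ℝ) (θ Y R J u : Hist → ℝ) (n : Hist → ℕ)
    (nmax Ymax l0 l1 Jm δ1 : ℝ) : Prop where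
  θ_ge : ∀ h, live h → (n h : ℝ) ≤ nmax → Y h ≤ Ymax → 1 - u h - (l0 + l1 * (n h + 1)) ≤ θ h
  J0 : ∀ h, live h → 0 ≤ J h
  J1 : ∀ h, live h → (n h : ℝ) ≤ nmax → Y h ≤ Ymax → J h ≤ Jm
  u0 : ∀ h, 0 ≤ u h
  u1 : ∀ h, u h ≤ 1
  Rt : ∀ h, live h → R (true :: h) ≤ R h + J h * (1 - p) + δ1 - u h
  Rf : ∀ h, live h → R (false :: h) ≤ R h - J h * p
  R0 : ∀ h, (n h : ℝ) ≤ nmax → 0 ≤ R h
  R_nil : R [] ≤ Jm + δ1
  l00 : 0 ≤ l0
  l10 : 0 ≤ l1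
  ltot : l0 + l1 * (nmax + 1) ≤ 1

/-- Size conditions on the energy process. -/
structure CondE (δ ξ e Jm δ1 : ℝ) : Prop where
  J0 : 0 ≤ Jm
  d0 : 0 ≤ δ1
  aJ : (e + ξ) * Jm ≤ δ / 100
  aaJ : (e + ξ) * ((e + ξ) * Jm + δ1) ≤ δ * ξ / 10
  d1 : δ1 ≤ δ / 100

lemma step3 {δ ξ p e Jm δ1 γ μ θ u l J : ℝ} (hc : Cond δ ξ p e) (hE : CondE δ ξ e Jm δ1)
    (γ0 : 0 < γ) (γ1 : γ ≤ ξ) (μ0 : 0 ≤ μ) (hμ : μ ≤ γ * ξ * (1 - δ) - γ ^ 2 * (1 + δ) / 2)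
    (t0 : 0 ≤ θ) (t1 : θ ≤ 1) (u0 : 0 ≤ u) (u1 : u ≤ 1) (l0 : 0 ≤ l) (l1 : l ≤ 1)
    (J0 : 0 ≤ J) (J1 : J ≤ Jm) (hθ : 1 - u - l ≤ θ) :
    (1 + (e + ξ)) * (exp ((-(γ * θ) + γ * (e + ξ) * J) +
        (γ * e + γ * (e + ξ) * δ1 - γ * (e + ξ) * (u + l) + μ)) - 1)
      ≤ -(γ * θ) + γ * (e + ξ) * J ∧
    (-(γ * θ) + γ * (e + ξ) * J) + (γ * e + γ * (e + ξ) * δ1 - γ * (e + ξ) * (u + l) + μ) ≤ ξ ∧
    (J = 0 → (-(γ * θ) + γ * (e + ξ) * J) +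
        (γ * e + γ * (e + ξ) * δ1 - γ * (e + ξ) * (u + l) + μ) ≤ 0) := by
  obtain ⟨δ0, δ1', ξ0, ξe, eδ, ee, pδ⟩ := hc
  obtain ⟨Jm0, d0, aJ, aaJ, d1⟩ := hE
  obtain ⟨a, ha⟩ : ∃ a, a = e + ξ := ⟨_, rfl⟩
  rw [← ha] at aJ aaJ ⊢
  have a0 : 0 < a := by linarith
  have a1 : a ≤ δ / 90 := by linarith
  have aJ' : a * J ≤ a * Jm := mul_le_mul_of_nonneg_left J1 a0.le
  have aJ0 : 0 ≤ a * J := by positivity
  have μ1 : μ ≤ γ * ξ * (1 - δ) := by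
    have : 0 ≤ γ ^ 2 * (1 + δ) / 2 := by positivity
    linarith
  have gx : 0 < γ * ξ := by positivity
  have μ2 : μ ≤ γ * ξ := by nlinarith only [μ1, gx, δ0]
  have ad : a * δ1 ≤ δ * ξ / 10 := by nlinarith only [aaJ, mul_nonneg a0.le (mul_nonneg a0.le Jm0)]
  have ad' : a * δ1 ≤ 1 / 100 := by nlinarith only [a0, a1, d0, d1, δ1', δ0]
  have aul : 0 ≤ a * (u + l) := by positivity
  have aul' : a * (u + l) ≤ δ / 45 := by nlinarith only [a0, a1, u1, l1]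
  -- normalised jump
  obtain ⟨z, hz⟩ : ∃ z, z = -θ + a * J + e + a * δ1 - a * (u + l) := ⟨_, rfl⟩
  have hζ : (-(γ * θ) + γ * a * J) + (γ * e + γ * a * δ1 - γ * a * (u + l) + μ) = γ * z + μ := by
    rw [hz]; ring
  rw [hζ]
  have z1 : z ≤ 1 / 10 := by linarith
  have z2 : -(1 + δ / 10) ≤ z := by nlinarith only [hz, t1, aJ0, aul', ξ0, ξe, d0, a0, δ0]
  have up : γ * z + μ ≤ γ := by nlinarith only [z1, μ2, γ0, ξe, eδ, δ1']
  refine ⟨?_, by linarith, fun hJ => ?_⟩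
  · have habs : |γ * z + μ| ≤ γ * (1 + δ / 10) := by
      rw [abs_le]; constructor
      · nlinarith only [z2, μ0, γ0]
      · nlinarith only [up, γ0, δ0]
    rw [← hζ] at habs ⊢
    refine step_cond a0.le habs (by nlinarith only [γ1, γ0, ξe, eδ, δ1', δ0]) ?_
    have b1 : γ * a * (1 - θ) ≤ γ * a * (u + l) :=
      mul_le_mul_of_nonneg_left (by linarith) (by positivity)
    have b2 : γ * (a * (a * J + δ1)) ≤ γ * (δ * ξ / 10) :=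
      mul_le_mul_of_nonneg_left (le_trans (by nlinarith only [aJ', a0]) aaJ) γ0.le
    have b3 : a * (γ * e + γ * a * δ1 - γ * a * (u + l) + μ) ≤ γ * ξ * δ / 20 := by
      have c1 : a * e ≤ δ * ξ / 90 := by nlinarith only [ha, ee, ξe, ξ0]
      have c2 : a * (a * δ1) ≤ (δ / 90) * (δ * ξ / 10) :=
        mul_le_mul a1 ad (by positivity) (by positivity)
      have c3 : a * μ ≤ (δ / 90) * (γ * ξ) := mul_le_mul a1 μ2 μ0 (by positivity)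
      have c4 : 0 ≤ a * (γ * a * (u + l)) := by positivity
      have c5 : (δ / 90) * (δ * ξ / 10) ≤ δ * ξ / 90 := by
        nlinarith only [mul_pos δ0 ξ0, δ1', δ0]
      have c6 := mul_le_mul_of_nonneg_left c1 γ0.le
      have c7 := mul_le_mul_of_nonneg_left (c2.trans c5) γ0.le
      have c8 : 0 < γ * ξ * δ := by positivity
      linarith
    have b4 : (1 + a) * ((γ * (1 + δ / 10)) ^ 2 / 2 + (γ * (1 + δ / 10)) ^ 3 / 4)
        ≤ γ ^ 2 * (1 + δ) / 2 := by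
      have c1 : γ * (1 + δ / 10) ≤ δ / 100 := by nlinarith only [γ1, γ0, ξe, eδ, δ1', δ0]
      have c2 : (1 + δ / 10) ^ 2 ≤ 1 + δ / 4 := by nlinarith only [δ0, δ1']
      have c3 : (1 + a) * (1 + γ * (1 + δ / 10) / 2) ≤ 1 + δ / 4 := by
        have : (1 + a) * (1 + γ * (1 + δ / 10) / 2) ≤ (1 + δ / 90) * (1 + δ / 200) :=
          mul_le_mul (by linarith) (by linarith) (by positivity) (by positivity)
        nlinarith only [this, δ0, δ1']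
      have c4 : (1 + δ / 10) ^ 2 * ((1 + a) * (1 + γ * (1 + δ / 10) / 2))
          ≤ (1 + δ / 4) * (1 + δ / 4) := mul_le_mul c2 c3 (by positivity) (by positivity)
      have c5 : (1 + δ / 4) * (1 + δ / 4) ≤ 1 + δ := by nlinarith only [δ0, δ1']
      have := mul_le_mul_of_nonneg_left (c4.trans c5) (show 0 ≤ γ ^ 2 / 2 by positivity)
      linarith
    have b5 : 0 < γ * ξ * δ := by positivity
    have b6 : γ * a = γ * e + γ * ξ := by rw [ha]; ring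
    linarith
  · subst hJ
    have c1 : a ≤ θ + a * (u + l) := by
      have : a * (1 - θ) ≤ a * (u + l) := mul_le_mul_of_nonneg_left (by linarith) a0.le
      nlinarith only [this, t0, a1, δ1']
    have c2 : z ≤ -ξ + δ * ξ / 10 := by linarith
    have c3 := mul_le_mul_of_nonneg_left c2 γ0.le
    have b5 : 0 < γ * ξ * δ := by positivity
    linarith

variable {R J u : Hist → ℝ}

/-- The exponent for death events. -/
noncomputable def W3 (γ a μ l0 l1 w : ℝ) (Y R : Hist → ℝ) (n : Hist → ℕ) (h : Hist) : ℝ :=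
  -(γ * Y h) + γ * a * R h - γ * a * (l0 * n h + l1 * (n h * (n h + 1) / 2)) + μ * n h - w

lemma W3_t {nmax Ymax l0 l1 Jm δ1 γ a μ w : ℝ} (hB : Basic live rem p e θ Y n)
    (hG : Geom live p θ Y R J u n nmax Ymax l0 l1 Jm δ1) (hγ : 0 ≤ γ * a) {h : Hist}
    (hl : live h) :
    W3 γ a μ l0 l1 w Y R n (true :: h) ≤ W3 γ a μ l0 l1 w Y R n h
      + (-(γ * θ h) + γ * a * J h) * (1 - p)
      + (γ * e + γ * a * δ1 - γ * a * (u h + (l0 + l1 * (n h + 1))) + μ) := by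
  unfold W3
  rw [hB.Yt h hl, hB.nt h hl]
  push_cast
  linarith [mul_le_mul_of_nonneg_left (hG.Rt h hl) hγ]

lemma W3_f {nmax Ymax l0 l1 Jm δ1 γ a μ w : ℝ} (hB : Basic live rem p e θ Y n)
    (hG : Geom live p θ Y R J u n nmax Ymax l0 l1 Jm δ1) (hγ : 0 ≤ γ * a) {h : Hist}
    (hl : live h) :
    W3 γ a μ l0 l1 w Y R n (false :: h) ≤ W3 γ a μ l0 l1 w Y R n h
      - (-(γ * θ h) + γ * a * J h) * p := by
  unfold W3
  rw [hB.Yf h hl, hB.nf h hl]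
  linarith [mul_le_mul_of_nonneg_left (hG.Rf h hl) hγ]

lemma W3_dead {nmax Ymax l0 l1 Jm δ1 γ a μ ρ k n1 : ℝ} (hB : Basic live rem p e θ Y n)
    (hG : Geom live p θ Y R J u n nmax Ymax l0 l1 Jm δ1) (hγ : 0 ≤ γ * a) (ρ0 : 0 ≤ ρ)
    (hρ : ρ ≤ μ - γ * a * (l0 + l1 * (n1 + 1) / 2)) (hn1 : n1 ≤ nmax) {h : Hist}
    (hl : ¬ live h) (h1 : k ≤ n h) (h2 : (n h : ℝ) ≤ n1) :
    0 ≤ W3 γ a μ l0 l1 (ρ * k) Y R n h := by
  unfold W3
  rw [hB.Ydead h hl]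
  have a1 := mul_nonneg hγ (hG.R0 h (h2.trans hn1))
  have n0 : (0 : ℝ) ≤ n h := Nat.cast_nonneg _
  have a2 := mul_le_mul_of_nonneg_right hρ n0
  have a3 := mul_le_mul_of_nonneg_left h1 ρ0
  have a4 : γ * a * l1 * n h * (n h : ℝ) ≤ γ * a * l1 * n h * n1 :=
    mul_le_mul_of_nonneg_left h2 (mul_nonneg (mul_nonneg hγ hG.l10) n0)
  linarith

lemma W3_nil {δ ξ nmax Ymax l0 l1 Jm δ1 γ μ w : ℝ} (hB : Basic live rem p e θ Y n)
    (hG : Geom live p θ Y R J u n nmax Ymax l0 l1 Jm δ1) (hc : Cond δ ξ p e)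
    (hE : CondE δ ξ e Jm δ1) (γ0 : 0 < γ) (γ1 : γ ≤ ξ) :
    W3 γ (e + ξ) μ l0 l1 w Y R n [] ≤ 1 - w := by
  obtain ⟨δ0, δ1', ξ0, ξe, eδ, ee, pδ⟩ := hc
  obtain ⟨Jm0, d0, aJ, aaJ, d1⟩ := hE
  unfold W3
  rw [hB.n_nil]
  have a0 : 0 ≤ e + ξ := by linarith
  have a1 := mul_le_mul_of_nonneg_left hG.R_nil a0
  have a2 : (e + ξ) * δ1 ≤ 1 / 2 := by nlinarith only [a0, d0, d1, δ1', ξe, eδ, ξ0]
  have a3 : (e + ξ) * R [] ≤ 1 := by linarith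
  have a4 := mul_le_mul_of_nonneg_left a3 γ0.le
  have a5 := mul_nonneg γ0.le (hB.Y0 [])
  simp only [Nat.cast_zero, mul_zero, zero_mul, zero_div, add_zero, sub_zero]
  linarith

lemma l_le_one {nmax Ymax l0 l1 Jm δ1 : ℝ}
    (hG : Geom live p θ Y R J u n nmax Ymax l0 l1 Jm δ1) {h : Hist} (hn : (n h : ℝ) ≤ nmax) :
    0 ≤ l0 + l1 * (n h + 1) ∧ l0 + l1 * (n h + 1) ≤ 1 := by
  have := hG.l00
  have := hG.l10
  refine ⟨by positivity, ?_⟩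
  linarith [hG.ltot, mul_le_mul_of_nonneg_left hn hG.l10]

/-- Supercritical death in a window, with the survival prefactor. -/
theorem ab3 {δ ξ nmax Ymax l0 l1 Jm δ1 γ ρ k n1 : ℝ} (hB : Basic live rem p e θ Y n)
    (hG : Geom live p θ Y R J u n nmax Ymax l0 l1 Jm δ1) (hc : Cond δ ξ p e)
    (hE : CondE δ ξ e Jm δ1) (γ0 : 0 < γ) (γ1 : γ ≤ ξ) (ρ0 : 0 ≤ ρ)
    (hρ : ρ ≤ γ * ξ * (1 - δ) - γ ^ 2 * (1 + δ) / 2 - γ * (e + ξ) * (l0 + l1 * (n1 + 1) / 2))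
    (hn0 : 0 ≤ n1) (hn1 : n1 ≤ nmax) (hYm : 4 * ξ * nmax ≤ Ymax) (hN : 1 ≤ δ * ξ ^ 2 * nmax)
    (hk : 1 ≤ δ ^ 2 * ξ ^ 2 * k) {V : Hist → ℝ}
    (hV : ∀ h, live h → V h = p * (1 + (e + ξ)) * V (true :: h)
      + (1 - p * (1 + (e + ξ))) * V (false :: h))
    (hV1 : ∀ h, V h ≤ 1) (hbig : ∀ h, n1 < n h → V h ≤ 0)
    (hdead : ∀ h, ¬ live h → (n h : ℝ) < k → V h ≤ 0) :
    V [] ≤ 25 * ξ * (exp (-(ρ * k)) + exp (-(2 * ξ ^ 2 * nmax))) := by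
  have hs := hc.small
  have hp := hB.p0
  obtain ⟨δ0, δ1', ξ0, ξe, eδ, ee, pδ⟩ := id hc
  obtain ⟨μ, hμ⟩ : ∃ μ, μ = γ * ξ * (1 - δ) - γ ^ 2 * (1 + δ) / 2 := ⟨_, rfl⟩
  rw [← hμ] at hρ
  have ga : 0 ≤ γ * (e + ξ) := mul_nonneg γ0.le (by linarith)
  have μ0 : 0 ≤ μ := by
    have := hG.l00
    have := hG.l10
    have : 0 ≤ γ * (e + ξ) * (l0 + l1 * (n1 + 1) / 2) := by positivity
    linarith
  have r0 : 0 ≤ p * (1 + (e + ξ)) := mul_nonneg hp.le (by linarith)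
  have r1 := hc.r_le_one hp le_rfl
  have := ind_le hB.rem_lt (r := fun _ => p * (1 + (e + ξ))) (fun h => V h -
      Psi δ (3 * ξ) Y n h * exp (W3 γ (e + ξ) μ l0 l1 (ρ * k) Y R n h) / (1 - δ)
      - PhiY δ ξ nmax Y n h) (fun h => by
    have p1 : 0 ≤ Psi δ (3 * ξ) Y n h * exp (W3 γ (e + ξ) μ l0 l1 (ρ * k) Y R n h) / (1 - δ) :=
      div_nonneg (mul_nonneg (Psi_nonneg hB hs h) (exp_pos _).le) (by linarith)
    have p2 := PhiY_nonneg (nmax := nmax) hB hc h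
    by_cases hb : n1 < n h
    · left; linarith [hbig h hb]
    push Not at hb
    by_cases hY : Ymax < Y h
    · left
      linarith [PhiY_exit (n := n) hc hN (hb.trans hn1) (hYm.trans hY.le), hV1 h]
    push Not at hY
    by_cases hl : live h
    · right
      refine ⟨hl, r0, r1, ?_⟩
      obtain ⟨q0, q1⟩ := l_le_one hG (hb.trans hn1)
      obtain ⟨s1, s2, -⟩ := step3 hc hE γ0 γ1 μ0 hμ.le (hB.θ0 h hl) (hB.θ1 h hl) (hG.u0 h)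
        (hG.u1 h) q0 q1 (hG.J0 h hl) (hG.J1 h hl (hb.trans hn1) hY)
        (hG.θ_ge h hl (hb.trans hn1) hY)
      have := prod_step hB hs hl r0 r1 (W3_t (μ := μ) (w := ρ * k) hB hG ga hl)
        (W3_f hB hG ga hl) (by linarith [mul_le_mul_of_nonneg_left s1 hp.le]) ξ0.le s2
        (hc.tilt hp r0 le_rfl)
      have := div_le_div_of_nonneg_right this (show 0 ≤ 1 - δ by linarith)
      rw [add_div, mul_div_assoc, mul_div_assoc (1 - _)] at this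
      have h3 := PhiY_step (nmax := nmax) hB hc hl r0 le_rfl
      rw [hV h hl]
      linarith
    · left
      by_cases hn : (n h : ℝ) < k
      · linarith [hdead h hl hn]
      push Not at hn
      rw [Psi_sat_n hB hs (sat3 hk hn)]
      have := sat_ge_one δ1' (W3_dead hB hG ga ρ0 hρ hn1 hl hn hb)
      linarith [hV1 h]) []
  have h2 := pre_nil δ0 δ1' ξ0 (Psi_nil hB hs)
    (W3_nil (μ := μ) (w := ρ * k) hB hG hc hE γ0 γ1)
  have h3 := PhiY_nil (nmax := nmax) hB hc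
  linarith

/-- Death in a window for any larger opening probabilities. -/
theorem ab3' {δ ξ nmax Ymax l0 l1 δ1 γ ρ k n1 : ℝ} (hB : Basic live rem p e θ Y n)
    (hG : Geom live p θ Y R J u n nmax Ymax l0 l1 0 δ1) (hc : Cond δ ξ p e)
    (hE : CondE δ ξ e 0 δ1) (γ0 : 0 < γ) (γ1 : γ ≤ ξ) (ρ0 : 0 ≤ ρ)
    (hρ : ρ ≤ γ * ξ * (1 - δ) - γ ^ 2 * (1 + δ) / 2 - γ * (e + ξ) * (l0 + l1 * (n1 + 1) / 2))
    (hn0 : 0 ≤ n1) (hn1 : n1 ≤ nmax) (hYm : ∀ h, (n h : ℝ) ≤ nmax → Y h ≤ Ymax)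
    {r V : Hist → ℝ} (hr : ∀ h, live h → p * (1 + (e + ξ)) ≤ r h) (hr1 : ∀ h, live h → r h ≤ 1)
    (hV : ∀ h, live h → V h = r h * V (true :: h) + (1 - r h) * V (false :: h))
    (hV1 : ∀ h, V h ≤ 1) (hbig : ∀ h, n1 < n h → V h ≤ 0)
    (hdead : ∀ h, ¬ live h → (n h : ℝ) < k → V h ≤ 0) :
    V [] ≤ 3 * exp (-(ρ * k)) := by
  have hp := hB.p0
  obtain ⟨δ0, δ1', ξ0, ξe, eδ, ee, pδ⟩ := id hc
  obtain ⟨μ, hμ⟩ : ∃ μ, μ = γ * ξ * (1 - δ) - γ ^ 2 * (1 + δ) / 2 := ⟨_, rfl⟩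
  rw [← hμ] at hρ
  have ga : 0 ≤ γ * (e + ξ) := mul_nonneg γ0.le (by linarith)
  have μ0 : 0 ≤ μ := by
    have := hG.l00
    have := hG.l10
    have : 0 ≤ γ * (e + ξ) * (l0 + l1 * (n1 + 1) / 2) := by positivity
    linarith
  have r0 : 0 ≤ p * (1 + (e + ξ)) := mul_nonneg hp.le (by linarith)
  have := ind_le hB.rem_lt (r := r) (fun h => V h -
      exp (W3 γ (e + ξ) μ l0 l1 (ρ * k) Y R n h)) (fun h => by
    have p1 := exp_pos (W3 γ (e + ξ) μ l0 l1 (ρ * k) Y R n h)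
    by_cases hb : n1 < n h
    · left; linarith [hbig h hb]
    push Not at hb
    have hY := hYm h (hb.trans hn1)
    by_cases hl : live h
    · right
      refine ⟨hl, r0.trans (hr h hl), hr1 h hl, ?_⟩
      obtain ⟨q0, q1⟩ := l_le_one hG (hb.trans hn1)
      have J1 := hG.J1 h hl (hb.trans hn1) hY
      obtain ⟨s1, -, s3⟩ := step3 hc hE γ0 γ1 μ0 hμ.le (hB.θ0 h hl) (hB.θ1 h hl) (hG.u0 h)
        (hG.u1 h) q0 q1 (hG.J0 h hl) J1 (hG.θ_ge h hl (hb.trans hn1) hY)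
      have s4 := s3 (le_antisymm J1 (hG.J0 h hl))
      have := plain_step (r0.trans (hr h hl)) (hr1 h hl) (W3_t (μ := μ) (w := ρ * k) hB hG ga hl)
        (W3_f hB hG ga hl) (cond_of_ge hp (hr h hl) (by linarith [exp_le_one_iff.2 s4]) s1)
      rw [hV h hl]
      linarith
    · left
      by_cases hn : (n h : ℝ) < k
      · linarith [hdead h hl hn]
      push Not at hn
      have := one_le_exp (W3_dead hB hG ga ρ0 hρ hn1 hl hn hb)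
      linarith [hV1 h]) []
  have h2 := W3_nil (μ := μ) (w := ρ * k) hB hG hc hE γ0 γ1
  have h3 : exp (W3 γ (e + ξ) μ l0 l1 (ρ * k) Y R n []) ≤ exp 1 * exp (-(ρ * k)) := by
    rw [← exp_add]; exact exp_le_exp.2 (by linarith)
  have h4 : exp 1 ≤ 3 := by linarith [exp_one_lt_d9]
  nlinarith [exp_pos (-(ρ * k))]

end Pool.Agent.P.MP_068ab5_pr
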