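import Pool.Agent.P.MP_068ab5_pr.Coin2

/-! Lower bounds for abstract explorations by change of measure. -/

namespace Pool.Agent.P.MP_068ab5_pr

open Real

variable {live : Hist → Prop} {rem : Hist → ℕ} {p e : ℝ} {θ Y : Hist → ℝ} {n : Hist → ℕ}
  {R J u : Hist → ℝ}

lemma change_step {q r v v1 v0 L L1 L0 : ℝ} (q0 : 0 ≤ q) (q1 : q ≤ 1)
    (hv : v ≤ q * v1 + (1 - q) * v0) (h1 : q * exp L ≤ r * exp L1)
    (h0 : (1 - q) * exp L ≤ (1 - r) * exp L0) :
    max v 0 * exp L ≤ r * (max v1 0 * exp L1) + (1 - r) * (max v0 0 * exp L0) := by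
  have a1 := le_max_left v1 0
  have a0 := le_max_left v0 0
  have b1 := le_max_right v1 0
  have b0 := le_max_right v0 0
  have c : max v 0 ≤ q * max v1 0 + (1 - q) * max v0 0 := by
    refine max_le ?_ (add_nonneg (mul_nonneg q0 b1) (mul_nonneg (by linarith) b0))
    linarith [mul_le_mul_of_nonneg_left a1 q0, mul_le_mul_of_nonneg_left a0 (sub_nonneg.2 q1)]
  linarith [mul_le_mul_of_nonneg_right c (exp_pos L).le, mul_le_mul_of_nonneg_left h1 b1,
    mul_le_mul_of_nonneg_left h0 b0]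

lemma tilt_down {δ r q b : ℝ} (δ0 : 0 < δ) (δ1 : δ ≤ 1 / 10) (r0 : 0 < r) (rq : r ≤ q)
    (q1 : q ≤ δ / 50) (hb : q - r ≤ b * r) (b1 : b ≤ δ / 50) :
    ∃ B : ℝ, 0 ≤ B ∧ B ≤ 2 * b ∧ q ≤ r * exp ((1 + δ) * b ^ 2 / 2 + B * (1 - q)) ∧
      1 - q ≤ (1 - r) * exp (-(B * q)) := by
  have q0 : 0 < q := by linarith
  have r1 : 0 < 1 - r := by linarith
  obtain ⟨β, hβ⟩ : ∃ β, β = (q - r) / r := ⟨_, rfl⟩
  have β0 : 0 ≤ β := by rw [hβ]; exact div_nonneg (by linarith) r0.le
  have βb : β ≤ b := by rw [hβ, div_le_iff₀ r0]; exact hb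
  have hq : q = r * (1 + β) := by rw [hβ]; field_simp; ring
  obtain ⟨x, hx⟩ : ∃ x, x = (q - r) / (1 - r) := ⟨_, rfl⟩
  have x0 : 0 ≤ x := by rw [hx]; exact div_nonneg (by linarith) r1.le
  have hx' : x * (1 - r) = β * r := by rw [hx, hβ]; field_simp
  have x1 : x ≤ β * (δ / 25) := by
    have h1 : x * (1 / 2) ≤ x * (1 - r) := mul_le_mul_of_nonneg_left (by linarith) x0
    have h2 : β * r ≤ β * (δ / 50) := mul_le_mul_of_nonneg_left (by linarith) β0
    linarith
  refine ⟨x / q, by positivity, ?_, ?_, ?_⟩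
  · rw [div_le_iff₀ q0]
    have h1 : x * (1 / 2) ≤ x * (1 - r) := mul_le_mul_of_nonneg_left (by linarith) x0
    have h2 : β * r ≤ b * q := mul_le_mul βb rq r0.le (β0.trans βb)
    linarith
  · have e1 : x / q * (1 - q) = β / (1 + β) * (1 - x) := by
      have : 1 - q = (1 - x) * (1 - r) := by rw [hx]; field_simp; ring
      rw [this, hq]
      have h3 : x * ((1 - x) * (1 - r)) = β * r * (1 - x) := by rw [← hx']; ring
      field_simp
      linarith
    have e2 : β - β ^ 2 ≤ β / (1 + β) := by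
      rw [le_div_iff₀ (by linarith)]; nlinarith only [β0, pow_nonneg β0 3]
    have βs : β ≤ 1 / 500 := by linarith
    have xs : x ≤ δ / 12500 := by nlinarith only [x1, βs, δ0]
    have e3 : (β - β ^ 2) * (1 - x) ≤ β / (1 + β) * (1 - x) :=
      mul_le_mul_of_nonneg_right e2 (by linarith)
    have e4 : β ^ 2 ≤ b ^ 2 := pow_le_pow_left₀ β0 βb 2
    obtain ⟨z, hz⟩ : ∃ z, z = (1 + δ) * β ^ 2 / 2 + (β - β ^ 2) * (1 - x) := ⟨_, rfl⟩
    have z1 : z ≤ (1 + δ) * b ^ 2 / 2 + x / q * (1 - q) := by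
      rw [e1, hz]
      linarith [mul_le_mul_of_nonneg_left e4 (show 0 ≤ 1 + δ by linarith)]
    have y0 : 0 ≤ 1 - β - x := by linarith
    have z2 : β * (1 - β - x) ≤ z := by
      have : 0 ≤ β ^ 2 * x := by positivity
      have : 0 ≤ (1 + δ) * β ^ 2 / 2 := by positivity
      rw [hz]; linarith
    have z3 : (β * (1 - β - x)) ^ 2 ≤ z ^ 2 := pow_le_pow_left₀ (mul_nonneg β0 y0) z2 2
    have z0 : 0 ≤ z := (mul_nonneg β0 y0).trans z2
    have z4 : 1 + z + z ^ 2 / 2 ≤ exp z := quadratic_le_exp_of_nonneg z0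
    have z5 : β ^ 2 * (1 - 2 * (β + x)) ≤ (β * (1 - β - x)) ^ 2 := by
      have : 0 ≤ β ^ 2 * (β + x) ^ 2 := by positivity
      linarith
    have z6 : β * x ≤ β * (β * (δ / 25)) := mul_le_mul_of_nonneg_left x1 β0
    have z7 : β ^ 2 * (β + x) ≤ β ^ 2 * (δ / 25) :=
      mul_le_mul_of_nonneg_left (by linarith) (by positivity)
    have z8 : 0 ≤ β ^ 2 * x := by positivity
    have z9 : 0 ≤ β ^ 2 * δ := by positivity
    have z10 : 1 + β ≤ exp z := by linarith
    calc q = r * (1 + β) := hq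
      _ ≤ r * exp z := mul_le_mul_of_nonneg_left z10 r0.le
      _ ≤ _ := mul_le_mul_of_nonneg_left (exp_le_exp.2 z1) r0.le
  · rw [div_mul_cancel₀ _ q0.ne']
    have h1 := add_one_le_exp (-x)
    have : 1 - q = (1 - r) * (-x + 1) := by rw [hx]; field_simp; ring
    rw [this]
    exact mul_le_mul_of_nonneg_left h1 r1.le

/-- Survival lower bound. -/
theorem ab4 {δ ξ Ymax l0 l1 Jm δ1 γ aP : ℝ} {k : ℕ} (hB : Basic live rem p e θ Y n)
    (hG : Geom live p θ Y R J u n k Ymax l0 l1 Jm δ1) (hc : Cond δ ξ p e)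
    (hE : CondE δ ξ e Jm δ1) (γ0 : 0 < γ) (γ1 : γ ≤ ξ)
    (hρ : 0 ≤ γ * ξ * (1 - δ) - γ ^ 2 * (1 + δ) / 2 - γ * (e + ξ) * (l0 + l1 * (k + 1) / 2))
    (hYm : 4 * ξ * k ≤ Ymax) (hk : 1 ≤ δ ^ 2 * ξ ^ 2 * k) (aP0 : 0 ≤ aP) (aP1 : aP ≤ e + ξ)
    (h0 : 1 / 2 ≤ Y [] - (e + ξ) * R []) {V : Hist → ℝ}
    (hV : ∀ h, live h → V h = p * (1 + aP) * V (true :: h)
      + (1 - p * (1 + aP)) * V (false :: h))
    (hV0 : ∀ h, 0 ≤ V h) (hbig : ∀ h, k ≤ n h → 1 ≤ V h) :
    exp (-(((1 + δ) * (e + ξ - aP) ^ 2 / 2 + 4 * (e + ξ - aP) * (δ * ξ)) * k))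
      * (γ / 4 - 50 * ξ * exp (-(δ ^ 2 * ξ ^ 2 * k))) ≤ V [] := by
  classical
  have hs := hc.small
  have hp := hB.p0
  obtain ⟨δ0, δ1', ξ0, ξe, eδ, ee, pδ⟩ := id hc
  obtain ⟨μ, hμ⟩ : ∃ μ, μ = γ * ξ * (1 - δ) - γ ^ 2 * (1 + δ) / 2 := ⟨_, rfl⟩
  rw [← hμ] at hρ
  obtain ⟨b, hb⟩ : ∃ b, b = e + ξ - aP := ⟨_, rfl⟩
  rw [← hb]
  have b0 : 0 ≤ b := by linarith
  have ga : 0 ≤ γ * (e + ξ) := mul_nonneg γ0.le (by linarith)
  have k0 : (0 : ℝ) ≤ k := Nat.cast_nonneg _
  have μ0 : 0 ≤ μ := by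
    have := hG.l00
    have := hG.l10
    have : 0 ≤ γ * (e + ξ) * (l0 + l1 * (k + 1) / 2) := by positivity
    linarith
  obtain ⟨q, hq⟩ : ∃ q, q = p * (1 + (e + ξ)) := ⟨_, rfl⟩
  obtain ⟨r, hr⟩ : ∃ r, r = p * (1 + aP) := ⟨_, rfl⟩
  rw [← hr] at hV
  have r0 : 0 < r := by rw [hr]; positivity
  have rq : r ≤ q := by rw [hr, hq]; exact mul_le_mul_of_nonneg_left (by linarith) hp.le
  have q0 : 0 ≤ q := by linarith
  have q2 : q ≤ δ / 50 := by rw [hq]; nlinarith only [hp, pδ, eδ, ξe, δ1', ξ0]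
  have q1 : q ≤ 1 := by linarith
  obtain ⟨B, B0, B1, B2, B3⟩ := tilt_down (b := b) δ0 δ1' r0 rq q2 (by
    have : 0 ≤ b * p * aP := by positivity
    have h2 : p * b = p * e + p * ξ - p * aP := by rw [hb]; ring
    rw [hq, hr]; linarith) (by linarith)
  obtain ⟨g, hg⟩ : ∃ g, g = δ * ξ := ⟨_, rfl⟩
  have g0 : 0 < g := by rw [hg]; positivity
  have g1 : g ≤ ξ := by rw [hg]; nlinarith only [ξ0, δ1']
  have hN : 1 ≤ δ * ξ ^ 2 * k := by
    have : 0 ≤ δ * ξ ^ 2 * k := by positivity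
    nlinarith only [this, hk, δ1', δ0]
  let H : Hist → ℝ := fun h => n h - q * h.length
  let PH : Hist → ℝ := fun h =>
    Psi δ (3 * ξ) Y n h * exp (g * H h - g ^ 2 * n h - g ^ 2 * k) / (1 - δ)
  let v : Hist → ℝ := fun h =>
    1 - exp (W3 γ (e + ξ) μ l0 l1 (0 * 0) Y R n h) - PhiY δ ξ k Y n h - PH h
  let L : Hist → ℝ := fun h => (1 + δ) * b ^ 2 / 2 * (n h - k) + B * (H h - 2 * g * k)
  have PH0 : ∀ h, 0 ≤ PH h := fun h =>
    div_nonneg (mul_nonneg (Psi_nonneg hB hs h) (exp_pos _).le) (by linarith)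
  have Ht : ∀ h, live h → H (true :: h) = H h + (1 - q) := fun h hl => by
    simp only [H, hB.nt h hl, List.length_cons]; push_cast; ring
  have Hf : ∀ h, live h → H (false :: h) = H h - q := fun h hl => by
    simp only [H, hB.nf h hl, List.length_cons]; push_cast; ring
  have PHs : ∀ h, live h → q * PH (true :: h) + (1 - q) * PH (false :: h) ≤ PH h := by
    intro h hl
    have hz1 : g * (1 + (e + ξ)) + (-(g * (e + ξ)) - g ^ 2) ≤ g := by nlinarith only [g0]
    have hz : |g * (1 + (e + ξ)) + (-(g * (e + ξ)) - g ^ 2)| ≤ g := by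
      rw [abs_le]; refine ⟨?_, hz1⟩
      nlinarith only [g0, g1, ξe, eδ, δ1']
    have hst := step_cond (a := e + ξ) (by linarith) hz (by linarith) (by
      have a1 : g ^ 2 / 2 + g ^ 3 / 4 ≤ g ^ 2 := by
        have : g ^ 2 * g ≤ g ^ 2 * 1 := mul_le_mul_of_nonneg_left (by linarith) (by positivity)
        nlinarith only [this, sq_nonneg g]
      have := mul_le_mul_of_nonneg_left a1 (show 0 ≤ 1 + (e + ξ) by linarith)
      linarith)
    have := prod_step hB hs hl (r := q) (W := g * H h - g ^ 2 * n h - g ^ 2 * k)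
      (W1 := g * H (true :: h) - g ^ 2 * n (true :: h) - g ^ 2 * k)
      (W0 := g * H (false :: h) - g ^ 2 * n (false :: h) - g ^ 2 * k)
      (σ := g * (1 + (e + ξ))) (c := -(g * (e + ξ)) - g ^ 2) q0 q1
      (by rw [Ht h hl, hB.nt h hl, hq]; push_cast; exact le_of_eq (by ring))
      (by rw [Hf h hl, hB.nf h hl, hq]; exact le_of_eq (by ring))
      (by rw [hq]; linarith [mul_le_mul_of_nonneg_left hst hp.le]) ξ0.le (hz1.trans g1)
      (hc.tilt hp q0 hq.le)
    have := div_le_div_of_nonneg_right this (show 0 ≤ 1 - δ by linarith)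
    rw [add_div, mul_div_assoc, mul_div_assoc (1 - q)] at this
    exact this
  have main := ind_le hB.rem_lt (r := fun _ => r) (fun h =>
      (if n h ≤ k then max (v h) 0 * exp (L h) else 0) - V h) (fun h => by
    have p2 := PhiY_nonneg (nmax := k) hB hc h
    have p3 := PH0 h
    have p4 := exp_pos (W3 γ (e + ξ) μ l0 l1 (0 * 0) Y R n h)
    have zero : v h ≤ 0 → (if n h ≤ k then max (v h) 0 * exp (L h) else 0) - V h ≤ 0 := by
      intro hv
      rw [max_eq_right hv]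
      simpa using hV0 h
    rcases lt_trichotomy k (n h) with hn | hn | hn
    · left; rw [if_neg (by omega)]; linarith [hV0 h]
    · left
      by_cases hH : 2 * g * k ≤ H h
      · refine zero ?_
        have : 1 ≤ PH h := by
          simp only [PH]
          rw [Psi_sat_n hB hs (sat3 hk (by rw [hn]))]
          refine sat_ge_one δ1' ?_
          rw [← hn]
          linarith [mul_le_mul_of_nonneg_left hH g0.le]
        simp only [v]; linarith
      · push Not at hH
        rw [if_pos hn.ge]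
        have h1 : max (v h) 0 ≤ 1 := max_le (by simp only [v]; linarith) zero_le_one
        have h2 : exp (L h) ≤ 1 := by
          rw [exp_le_one_iff]; simp only [L]; rw [← hn]
          nlinarith only [B0, hH]
        have h3 := mul_le_one₀ h1 (exp_pos _).le h2
        linarith [hbig h hn.le]
    · have hn' : (n h : ℝ) ≤ k := by exact_mod_cast hn.le
      by_cases hY : Ymax < Y h
      · left
        refine zero ?_
        have := PhiY_exit (n := n) hc hN hn' (hYm.trans hY.le)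
        simp only [v]; linarith
      push Not at hY
      by_cases hl : live h
      · right
        refine ⟨hl, r0.le, by linarith, ?_⟩
        obtain ⟨q0', q1'⟩ := l_le_one hG hn'
        obtain ⟨s1, s2, -⟩ := step3 hc hE γ0 γ1 μ0 hμ.le (hB.θ0 h hl) (hB.θ1 h hl) (hG.u0 h)
          (hG.u1 h) q0' q1' (hG.J0 h hl) (hG.J1 h hl hn' hY) (hG.θ_ge h hl hn' hY)
        have t1 := plain_step q0 q1 (W3_t (μ := μ) (w := 0 * 0) hB hG ga hl)
          (W3_f hB hG ga hl) (by rw [hq]; linarith [mul_le_mul_of_nonneg_left s1 hp.le])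
        have t2 := PhiY_step (nmax := k) hB hc hl q0 hq.le
        have t3 := PHs h hl
        have t4 : v h ≤ q * v (true :: h) + (1 - q) * v (false :: h) := by
          simp only [v]; linarith
        have t5 := change_step (r := r) (L := L h) (L1 := L (true :: h)) (L0 := L (false :: h))
          q0 q1 t4 (by
            have : L (true :: h) = ((1 + δ) * b ^ 2 / 2 + B * (1 - q)) + L h := by
              simp only [L]; rw [Ht h hl, hB.nt h hl]; push_cast; ring
            rw [this, exp_add _ (L h), ← mul_assoc]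
            exact mul_le_mul_of_nonneg_right B2 (exp_pos _).le) (by
            have : L (false :: h) = -(B * q) + L h := by
              simp only [L]; rw [Hf h hl, hB.nf h hl]; ring
            rw [this, exp_add _ (L h), ← mul_assoc]
            exact mul_le_mul_of_nonneg_right B3 (exp_pos _).le)
        rw [if_pos hn.le, if_pos (by rw [hB.nt h hl]; omega), if_pos (by rw [hB.nf h hl]; omega),
          hV h hl]
        linarith
      · left
        refine zero ?_
        have := one_le_exp (W3_dead (k := 0) (ρ := 0) (μ := μ) (n1 := k) hB hG ga le_rfl hρ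
          le_rfl hl (Nat.cast_nonneg _) hn')
        simp only [v]; linarith) []
  rw [if_pos (by rw [hB.n_nil]; omega)] at main
  have m1 : exp (W3 γ (e + ξ) μ l0 l1 (0 * 0) Y R n []) ≤ 1 - γ / 4 := by
    have a1 : W3 γ (e + ξ) μ l0 l1 (0 * 0) Y R n [] ≤ -(γ / 2) := by
      unfold W3
      rw [hB.n_nil]
      simp only [Nat.cast_zero, mul_zero, zero_mul, zero_div, add_zero, sub_zero]
      linarith [mul_le_mul_of_nonneg_left h0 γ0.le]
    have a2 := exp_up (z := -(γ / 2)) (t := γ / 2) (by rw [abs_neg, abs_of_pos (by linarith)])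
      (by linarith)
    have a3 : (γ / 2) ^ 2 / 2 + (γ / 2) ^ 3 / 4 ≤ γ / 4 := by
      have : γ ≤ 1 := by linarith
      have h2 : γ ^ 2 ≤ γ := by nlinarith only [this, γ0]
      have h3 : γ ^ 3 ≤ γ := by nlinarith only [this, γ0, h2]
      linarith
    linarith [exp_le_exp.2 a1]
  have m2 : PhiY δ ξ k Y n [] ≤ 25 * ξ * exp (-(δ ^ 2 * ξ ^ 2 * k)) := by
    refine (PhiY_nil hB hc).trans (mul_le_mul_of_nonneg_left (exp_le_exp.2 ?_) (by positivity))
    have : 0 ≤ ξ ^ 2 * k := by positivity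
    have h2 : δ ^ 2 ≤ 2 := by nlinarith only [δ0, δ1']
    linarith [mul_le_mul_of_nonneg_right h2 this]
  have m3 : PH [] ≤ 25 * ξ * exp (-(δ ^ 2 * ξ ^ 2 * k)) := by
    refine pre_nil δ0 δ1' ξ0 (Psi_nil hB hs) ?_
    simp only [H, hB.n_nil, List.length_nil, Nat.cast_zero, hg]
    linarith
  have m4 : γ / 4 - 50 * ξ * exp (-(δ ^ 2 * ξ ^ 2 * k)) ≤ max (v []) 0 :=
    le_trans (by simp only [v]; linarith) (le_max_left _ _)
  have m5 : exp (-(((1 + δ) * b ^ 2 / 2 + 4 * b * (δ * ξ)) * k)) ≤ exp (L []) := by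
    refine exp_le_exp.2 ?_
    simp only [L, H, hB.n_nil, List.length_nil, Nat.cast_zero, ← hg]
    linarith [mul_le_mul_of_nonneg_right B1 (show 0 ≤ g * k by positivity)]
  have m6 := mul_le_mul_of_nonneg_left m4
    (exp_pos (-(((1 + δ) * b ^ 2 / 2 + 4 * b * (δ * ξ)) * k))).le
  have m7 := mul_le_mul_of_nonneg_left m5 (le_max_right (v []) 0)
  linarith

lemma tilt_up {δ q b : ℝ} (δ0 : 0 < δ) (δ1 : δ ≤ 1 / 10) (q0 : 0 < q)
    (q1 : q ≤ δ / 50) (b0 : 0 ≤ b) (b1 : b ≤ δ / 50) :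
    ∃ B : ℝ, b ≤ B ∧ q ≤ q * (1 + b) * exp ((1 + δ) * b ^ 2 / 2 - B * (1 - q)) ∧
      1 - q ≤ (1 - q * (1 + b)) * exp (B * q) := by
  have q2 : 0 < 1 - q := by linarith
  obtain ⟨x, hx⟩ : ∃ x, x = b * q / (1 - q) := ⟨_, rfl⟩
  have x0 : 0 ≤ x := by rw [hx]; positivity
  have hx' : x * (1 - q) = b * q := by rw [hx]; field_simp
  have x1 : x ≤ b * (δ / 25) := by
    have h1 : x * (1 / 2) ≤ x * (1 - q) := mul_le_mul_of_nonneg_left (by linarith) x0
    have h2 : b * q ≤ b * (δ / 50) := mul_le_mul_of_nonneg_left q1 b0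
    linarith
  have xs : x ≤ δ / 12500 := by nlinarith only [x1, b1, δ0, δ1, b0]
  refine ⟨b * (1 + x) / (1 - q), ?_, ?_, ?_⟩
  · rw [le_div_iff₀ q2]; nlinarith only [mul_nonneg b0 x0, mul_nonneg b0 q0.le]
  · rw [div_mul_cancel₀ _ q2.ne']
    obtain ⟨z, hz⟩ : ∃ z, z = b * (1 + x) - (1 + δ) * b ^ 2 / 2 := ⟨_, rfl⟩
    have e1 : (1 + δ) * b ^ 2 / 2 - b * (1 + x) = -z := by rw [hz]; ring
    rw [e1]
    have a0 : 0 ≤ (1 + δ) * b ^ 2 / 2 := by positivity
    have a1 : (1 + δ) * b ^ 2 / 2 ≤ b := by nlinarith only [b0, b1, δ0, δ1]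
    have habs : |z| ≤ b * (1 + x) := by
      rw [abs_le]; constructor <;> nlinarith only [hz, a0, a1, mul_nonneg b0 x0, b0]
    have t1 : b * (1 + x) ≤ δ / 25 := by nlinarith only [b0, b1, xs, δ0, δ1, x0]
    have a2 := exp_up habs (by linarith)
    have a3 : (1 + x) ^ 2 * (1 + b * (1 + x) / 2) ≤ 1 + δ / 2 := by
      have c1 : (1 + x) ^ 2 ≤ 1 + δ / 100 := by nlinarith only [x0, xs, δ0, δ1]
      have c2 : (1 + x) ^ 2 * (1 + b * (1 + x) / 2) ≤ (1 + δ / 100) * (1 + δ / 50) :=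
        mul_le_mul c1 (by linarith) (by positivity) (by positivity)
      nlinarith only [c2, δ0, δ1]
    have a4 := mul_le_mul_of_nonneg_left a3 (show 0 ≤ b ^ 2 / 2 by positivity)
    have a5 : b * x ≤ b * (b * (δ / 25)) := mul_le_mul_of_nonneg_left x1 b0
    have a6 : 0 ≤ b ^ 2 * δ := by positivity
    have a7 : exp z ≤ 1 + b := by linarith
    have a8 : exp z * exp (-z) = 1 := by rw [← exp_add]; simp
    have a9 := mul_le_mul_of_nonneg_right a7 (exp_pos (-z)).le
    have := mul_le_mul_of_nonneg_left (a8 ▸ a9) q0.le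
    linarith
  · have e1 : b * (1 + x) / (1 - q) * q = x + x ^ 2 := by
      field_simp
      exact hx'.symm
    rw [e1]
    have a1 := quadratic_le_exp_of_nonneg (show 0 ≤ x + x ^ 2 by positivity)
    have e2 : 1 - q * (1 + b) = (1 - q) * (1 - x) := by linarith
    rw [e2, mul_assoc]
    refine le_mul_of_one_le_right q2.le ?_
    have a2 : 1 + (x + x ^ 2) + x ^ 2 / 2 ≤ exp (x + x ^ 2) := by
      have : x ^ 2 ≤ (x + x ^ 2) ^ 2 := pow_le_pow_left₀ x0 (by nlinarith only [x0]) 2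
      linarith
    have a3 := mul_le_mul_of_nonneg_left a2 (show 0 ≤ 1 - x by linarith)
    have a4 : x ^ 2 * x ≤ x ^ 2 * (1 / 3) := mul_le_mul_of_nonneg_left (by linarith) (by positivity)
    linarith

/-- Transfer of a window probability from the subcritical to the supercritical side. -/
theorem ab5 {δ ξ nmax Ymax l0 δ1 b ρ k n1 : ℝ} (hB : Basic live rem p e θ Y n)
    (hG : Geom live p θ Y R J u n nmax Ymax l0 0 0 δ1) (hc : Cond δ ξ p e)
    (d1 : δ1 ≤ δ ^ 2 / 800) (hl0 : l0 ≤ δ1) (b0 : 0 ≤ b) (b1 : b ≤ 3 * ξ)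
    (ρ0 : 0 ≤ ρ) (hρ : (1 + δ) * b ^ 2 / 2 - b * ((1 - δ) * ξ) ≤ ρ)
    (hn1 : n1 ≤ nmax) (hYm : ∀ h, (n h : ℝ) ≤ nmax → Y h ≤ Ymax) {VQ VP : Hist → ℝ}
    (hVQ : ∀ h, live h → VQ h = p * (1 + (e - ξ)) * VQ (true :: h)
      + (1 - p * (1 + (e - ξ))) * VQ (false :: h))
    (hVP : ∀ h, live h → VP h = p * (1 + (e - ξ)) * (1 + b) * VP (true :: h)
      + (1 - p * (1 + (e - ξ)) * (1 + b)) * VP (false :: h))
    (hQ1 : ∀ h, VQ h ≤ 1) (hbig : ∀ h, n1 < n h → VQ h ≤ 0)
    (hdead : ∀ h, ¬ live h → (n h : ℝ) < k → VQ h ≤ 0)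
    (hP0 : ∀ h, 0 ≤ VP h) (hP1 : ∀ h, ¬ live h → k ≤ n h → (n h : ℝ) ≤ n1 → 1 ≤ VP h) :
    exp (-(ρ * n1)) * (VQ [] - 3 * exp (-(ξ ^ 2 * k))) ≤ VP [] := by
  have hp := hB.p0
  obtain ⟨δ0, δ1', ξ0, ξe, eδ, ee, pδ⟩ := id hc
  obtain ⟨a, ha⟩ : ∃ a, a = e - ξ := ⟨_, rfl⟩
  rw [← ha] at hVQ hVP
  have a0 : 0 ≤ a := by linarith
  have a1 : a ≤ 1 / 1000 := by linarith
  obtain ⟨q, hq⟩ : ∃ q, q = p * (1 + a) := ⟨_, rfl⟩
  rw [← hq] at hVQ hVP
  have q0 : 0 < q := by rw [hq]; positivity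
  have q2 : q ≤ δ / 50 := by rw [hq]; nlinarith only [hp, pδ, a1, a0]
  have q1 : q ≤ 1 := by linarith
  obtain ⟨B, B1, B2, B3⟩ := tilt_up δ0 δ1' q0 q2 b0 (by linarith)
  obtain ⟨γ, hγ⟩ : ∃ γ, γ = 4 * ξ / δ := ⟨_, rfl⟩
  have γ0 : 0 < γ := by rw [hγ]; positivity
  have γδ : γ * δ = 4 * ξ := by rw [hγ]; field_simp
  have γ1 : γ ≤ 1 / 200 := by
    by_contra hcon
    push Not at hcon
    nlinarith only [hcon, γδ, δ0, ξe, eδ]
  let H : Hist → ℝ := fun h => n h - q * h.length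
  let W : Hist → ℝ := fun h => -(γ * (H h - (1 + a) * Y h)) + γ * ξ * (1 - δ / 2) * n h
    + 24 * γ ^ 2 * R h - 24 * γ ^ 2 * (δ1 + l0) * n h - ξ ^ 2 * k
  let L : Hist → ℝ := fun h => (1 + δ) * b ^ 2 / 2 * n h - B * H h - ρ * n1
  have Ht : ∀ h, live h → H (true :: h) = H h + (1 - q) := fun h hl => by
    simp only [H, hB.nt h hl, List.length_cons]; push_cast; ring
  have Hf : ∀ h, live h → H (false :: h) = H h - q := fun h hl => by
    simp only [H, hB.nf h hl, List.length_cons]; push_cast; ring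
  have g2 : 0 ≤ 24 * γ ^ 2 := by positivity
  have main := ind_le hB.rem_lt (r := fun _ => q * (1 + b)) (fun h =>
      max (VQ h - exp (W h)) 0 * exp (L h) - VP h) (fun h => by
    have p4 := exp_pos (W h)
    have zero : VQ h - exp (W h) ≤ 0 → max (VQ h - exp (W h)) 0 * exp (L h) - VP h ≤ 0 := by
      intro hv
      rw [max_eq_right hv]
      simpa using hP0 h
    by_cases hn : n1 < n h
    · left; exact zero (by linarith [hbig h hn])
    push Not at hn
    have hn' := hn.trans hn1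
    have hY := hYm h hn'
    have n0 : (0 : ℝ) ≤ n h := Nat.cast_nonneg _
    by_cases hl : live h
    · right
      refine ⟨hl, by positivity, by nlinarith only [q0, q2, b0, b1, ξe, eδ, δ1'], ?_⟩
      have hJ : J h = 0 := le_antisymm (hG.J1 h hl hn' hY) (hG.J0 h hl)
      have hθ := hG.θ_ge h hl hn' hY
      have Rt := hG.Rt h hl
      have Rf := hG.Rf h hl
      rw [hJ] at Rt Rf
      obtain ⟨w, hw⟩ : ∃ w, w = 1 - θ h := ⟨_, rfl⟩
      have w0 : 0 ≤ w := by linarith [hB.θ1 h hl]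
      have w1 : w ≤ 1 := by linarith [hB.θ0 h hl]
      obtain ⟨c, hc'⟩ : ∃ c, c = γ * ξ * δ / 2 + 24 * γ ^ 2 * w := ⟨_, rfl⟩
      have c0 : 0 ≤ γ * ξ * δ / 2 := by positivity
      have c1 : 0 ≤ 24 * γ ^ 2 * w := by positivity
      have c2 : c ≤ 1 / 6 := by
        have x1 : ξ * δ ≤ 1 := by nlinarith only [ξ0, ξe, eδ, δ1', δ0]
        have x2 : γ ^ 2 * w ≤ γ ^ 2 * 1 := mul_le_mul_of_nonneg_left w1 (by positivity)
        have x3 : γ ^ 2 ≤ 1 / 40000 := by nlinarith only [γ0, γ1]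
        have x4 := mul_le_mul_of_nonneg_left x1 γ0.le
        linarith
      have gw : 0 ≤ γ * w := by positivity
      have gw1 : γ * w ≤ 1 / 200 := by nlinarith only [γ0, γ1, w0, w1]
      have hz : |-(γ * (1 + a) * w) + -c| ≤ 2 * (γ * w) + c := by
        rw [abs_le]; constructor <;> nlinarith only [gw, a0, a1, c0, c1, hc']
      have hst := step_cond a0 hz (by linarith) (by
        obtain ⟨t, ht⟩ : ∃ t, t = 2 * (γ * w) + c := ⟨_, rfl⟩
        rw [← ht]
        have t0 : 0 ≤ t := by linarith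
        have t1 : t ≤ 1 := by linarith
        have y1 : (1 + a) * (t ^ 2 / 2 + t ^ 3 / 4) ≤ t ^ 2 := by
          have : t ^ 2 * t ≤ t ^ 2 * 1 := mul_le_mul_of_nonneg_left t1 (by positivity)
          have h2 : (1 + a) * (t ^ 2 / 2 + t ^ 3 / 4) ≤ (4 / 3) * (t ^ 2 / 2 + t ^ 3 / 4) :=
            mul_le_mul_of_nonneg_right (by linarith) (by positivity)
          linarith
        have y2 : t ^ 2 ≤ 8 * (γ * w) ^ 2 + 2 * c ^ 2 := by
          rw [ht]; nlinarith only [sq_nonneg (2 * (γ * w) - c)]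
        have y3 : γ ^ 2 * w * w ≤ γ ^ 2 * w * 1 := mul_le_mul_of_nonneg_left w1 (by positivity)
        have y4 : c * c ≤ c * (1 / 6) := mul_le_mul_of_nonneg_left c2 (by linarith)
        have y5 : a * (-(γ * (1 + a) * w) + -c) ≤ 0 := by
          refine mul_nonpos_of_nonneg_of_nonpos a0 ?_
          have : 0 ≤ γ * (1 + a) * w := by positivity
          linarith
        linarith)
      have t1 := plain_step (p := p) (σ := -(γ * (1 + a) * w)) (c := -c) (W := W h)
        (W1 := W (true :: h)) (W0 := W (false :: h)) q0.le q1 (by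
          simp only [W]
          rw [Ht h hl, hB.nt h hl, hB.Yt h hl, hq, hc', hw]
          push_cast
          have x1 := mul_le_mul_of_nonneg_left Rt g2
          have x2 : 24 * γ ^ 2 * (1 - θ h) ≤ 24 * γ ^ 2 * (u h + l0) :=
            mul_le_mul_of_nonneg_left (by linarith) g2
          have x3 : 0 ≤ γ * (a * e) := mul_nonneg γ0.le (mul_nonneg a0 (by linarith))
          have x4 : γ * a = γ * e - γ * ξ := by rw [ha]; ring
          linarith) (by
          simp only [W]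
          rw [Hf h hl, hB.nf h hl, hB.Yf h hl, hq, hw]
          have x1 := mul_le_mul_of_nonneg_left Rf g2
          linarith) (by rw [hq]; linarith [mul_le_mul_of_nonneg_left hst hp.le])
      have t4 : VQ h - exp (W h) ≤ q * (VQ (true :: h) - exp (W (true :: h)))
          + (1 - q) * (VQ (false :: h) - exp (W (false :: h))) := by
        rw [hVQ h hl]; linarith
      have t5 := change_step (r := q * (1 + b)) (L := L h) (L1 := L (true :: h))
        (L0 := L (false :: h)) q0.le q1 t4 (by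
          have : L (true :: h) = ((1 + δ) * b ^ 2 / 2 - B * (1 - q)) + L h := by
            simp only [L]; rw [Ht h hl, hB.nt h hl]; push_cast; ring
          rw [this, exp_add, ← mul_assoc]
          exact mul_le_mul_of_nonneg_right B2 (exp_pos _).le) (by
          have : L (false :: h) = B * q + L h := by
            simp only [L]; rw [Hf h hl, hB.nf h hl]; ring
          rw [this, exp_add, ← mul_assoc]
          exact mul_le_mul_of_nonneg_right B3 (exp_pos _).le)
      rw [hVP h hl]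
      linarith
    · left
      by_cases hk : (n h : ℝ) < k
      · exact zero (by linarith [hdead h hl hk])
      push Not at hk
      by_cases hH : H h < (1 - δ) * ξ * n h
      · refine zero ?_
        have : 0 ≤ W h := by
          simp only [W]
          rw [hB.Ydead h hl]
          have x1 := mul_le_mul_of_nonneg_left hH.le γ0.le
          have x2 := mul_nonneg g2 (hG.R0 h hn')
          have x3 : 24 * γ ^ 2 * (δ1 + l0) ≤ ξ ^ 2 := by
            have y1 : 24 * γ ^ 2 * (δ1 + l0) ≤ 24 * γ ^ 2 * (δ ^ 2 / 400) :=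
              mul_le_mul_of_nonneg_left (by linarith) g2
            have y2 : γ ^ 2 * δ ^ 2 = 16 * ξ ^ 2 := by rw [← mul_pow, γδ]; ring
            have y3 : 0 ≤ ξ ^ 2 := by positivity
            linarith
          have x4 := mul_le_mul_of_nonneg_right x3 n0
          have x5 := mul_le_mul_of_nonneg_left hk (show 0 ≤ ξ ^ 2 by positivity)
          have x6 : γ * δ * (ξ * n h) = 4 * ξ * (ξ * n h) := by rw [γδ]
          linarith
        linarith [one_le_exp this, hQ1 h]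
      · push Not at hH
        have h1 : max (VQ h - exp (W h)) 0 ≤ 1 := max_le (by linarith [hQ1 h]) zero_le_one
        have h2 : exp (L h) ≤ 1 := by
          rw [exp_le_one_iff]; simp only [L]
          have x0 : 0 ≤ (1 - δ) * ξ * n h :=
            mul_nonneg (mul_nonneg (by linarith) ξ0.le) n0
          have x1 : b * ((1 - δ) * ξ * n h) ≤ B * H h := mul_le_mul B1 hH x0 (b0.trans B1)
          have x2 := mul_le_mul_of_nonneg_right hρ n0
          have x3 := mul_le_mul_of_nonneg_left hn ρ0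
          linarith
        have h3 := mul_le_one₀ h1 (exp_pos _).le h2
        linarith [hP1 h hl hk hn]) []
  have m1 : exp (W []) ≤ 3 * exp (-(ξ ^ 2 * k)) := by
    have x1 : W [] ≤ 1 + -(ξ ^ 2 * k) := by
      simp only [W, H, hB.n_nil, List.length_nil, Nat.cast_zero]
      have y1 : (1 + a) * Y [] ≤ 2 * 1 :=
        mul_le_mul (by linarith) hB.Y_nil (hB.Y0 []) (by norm_num)
      have y2 := mul_le_mul_of_nonneg_left y1 γ0.le
      have y3 : R [] ≤ 1 := by nlinarith only [hG.R_nil, d1, δ0, δ1']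
      have y4 := mul_le_mul_of_nonneg_left y3 g2
      have x3 : γ ^ 2 ≤ 1 / 40000 := by nlinarith only [γ0, γ1]
      linarith
    have x2 := exp_le_exp.2 x1
    rw [exp_add] at x2
    have h4 : exp 1 ≤ 3 := by linarith [exp_one_lt_d9]
    linarith [mul_le_mul_of_nonneg_right h4 (exp_pos (-(ξ ^ 2 * k))).le]
  have m2 : L [] = -(ρ * n1) := by
    simp only [L, H, hB.n_nil, List.length_nil, Nat.cast_zero]; ring
  rw [m2] at main
  have m3 : VQ [] - 3 * exp (-(ξ ^ 2 * k)) ≤ max (VQ [] - exp (W [])) 0 :=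
    le_trans (by linarith) (le_max_left _ _)
  linarith [mul_le_mul_of_nonneg_left m3 (exp_pos (-(ρ * n1))).le]

end Pool.Agent.P.MP_068ab5_pr
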