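import Mathlib

/-! Expectation over independent percolation on a finite set. -/

namespace Pool.Agent.P.MP_068ab5_pr

open Finset

variable {E : Type*} [DecidableEq E]

/-- Expectation of `F` when each element `e` of `s` is kept with probability `q e`. -/
noncomputable def Ex (s : Finset E) (q : E → ℝ) (F : Finset E → ℝ) : ℝ :=
  ∑ ω ∈ s.powerset, ((∏ e ∈ ω, q e) * ∏ e ∈ s \ ω, (1 - q e)) * F ω

/-- Probability vectors. -/
def P01 (q : E → ℝ) : Prop := ∀ e, 0 ≤ q e ∧ q e ≤ 1

lemma P01_const {p : ℝ} (h0 : 0 ≤ p) (h1 : p ≤ 1) : P01 (fun _ : E => p) := fun _ => ⟨h0, h1⟩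

lemma Ex_empty (q : E → ℝ) (F : Finset E → ℝ) : Ex ∅ q F = F ∅ := by simp [Ex]

lemma Ex_insert {s : Finset E} {e : E} (he : e ∉ s) (q : E → ℝ) (F : Finset E → ℝ) :
    Ex (insert e s) q F = q e * Ex s q (fun ω => F (insert e ω)) + (1 - q e) * Ex s q F := by
  unfold Ex
  rw [Finset.sum_powerset_insert he, Finset.mul_sum, Finset.mul_sum, add_comm]
  refine congrArg₂ (· + ·) ?_ ?_
  · refine Finset.sum_congr rfl fun ω hω => ?_
    have hω' : ω ⊆ s := Finset.mem_powerset.1 hω
    have heω : e ∉ ω := fun h => he (hω' h)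
    have h1 : insert e s \ insert e ω = s \ ω := by
      ext x
      simp only [Finset.mem_sdiff, Finset.mem_insert]
      constructor
      · rintro ⟨h | h, h'⟩
        · exact absurd (Or.inl h) h'
        · exact ⟨h, fun hx => h' (Or.inr hx)⟩
      · rintro ⟨h, h'⟩
        refine ⟨Or.inr h, ?_⟩
        rintro (rfl | hx)
        · exact he h
        · exact h' hx
    rw [h1, Finset.prod_insert heω]; ring
  · refine Finset.sum_congr rfl fun ω hω => ?_
    have hω' : ω ⊆ s := Finset.mem_powerset.1 hω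
    have heω : e ∉ ω := fun h => he (hω' h)
    have h1 : insert e s \ ω = insert e (s \ ω) := Finset.insert_sdiff_of_notMem _ heω
    have h2 : e ∉ s \ ω := fun h => he (Finset.mem_sdiff.1 h).1
    rw [h1, Finset.prod_insert h2]; ring

lemma Ex_erase {s : Finset E} {e : E} (he : e ∈ s) (q : E → ℝ) (F : Finset E → ℝ) :
    Ex s q F = q e * Ex (s.erase e) q (fun ω => F (insert e ω))
      + (1 - q e) * Ex (s.erase e) q F := by
  conv_lhs => rw [← Finset.insert_erase he]
  exact Ex_insert (Finset.notMem_erase e s) q F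

lemma Ex_congr {s : Finset E} {q : E → ℝ} {F G : Finset E → ℝ}
    (h : ∀ ω ⊆ s, F ω = G ω) : Ex s q F = Ex s q G :=
  Finset.sum_congr rfl fun ω hω => by rw [h ω (Finset.mem_powerset.1 hω)]

lemma Ex_congr_q {s : Finset E} {q q' : E → ℝ} (F : Finset E → ℝ)
    (h : ∀ e ∈ s, q e = q' e) : Ex s q F = Ex s q' F := by
  refine Finset.sum_congr rfl fun ω hω => ?_
  have hω' : ω ⊆ s := Finset.mem_powerset.1 hω
  rw [Finset.prod_congr rfl fun e he => h e (hω' he),
    Finset.prod_congr rfl (s₁ := s \ ω) (f := fun e => 1 - q e) (g := fun e => 1 - q' e)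
      fun e he => by rw [h e (Finset.mem_sdiff.1 he).1]]

lemma Ex_mono {s : Finset E} {q : E → ℝ} (hq : P01 q) {F G : Finset E → ℝ}
    (h : ∀ ω ⊆ s, F ω ≤ G ω) : Ex s q F ≤ Ex s q G :=
  Finset.sum_le_sum fun ω hω => mul_le_mul_of_nonneg_left (h ω (Finset.mem_powerset.1 hω))
    (mul_nonneg (Finset.prod_nonneg fun e _ => (hq e).1)
      (Finset.prod_nonneg fun e _ => sub_nonneg.2 (hq e).2))

lemma Ex_const (s : Finset E) (q : E → ℝ) (a : ℝ) : Ex s q (fun _ => a) = a := by
  induction s using Finset.induction_on with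
  | empty => simp [Ex_empty]
  | insert e s he ih => rw [Ex_insert he, ih]; ring

lemma Ex_nonneg {s : Finset E} {q : E → ℝ} (hq : P01 q) {F : Finset E → ℝ}
    (h : ∀ ω, 0 ≤ F ω) : 0 ≤ Ex s q F := by
  have := Ex_mono (s := s) hq (F := fun _ => (0 : ℝ)) (G := F) fun ω _ => h ω
  rwa [Ex_const] at this

lemma Ex_le_const {s : Finset E} {q : E → ℝ} (hq : P01 q) {F : Finset E → ℝ} {a : ℝ}
    (h : ∀ ω ⊆ s, F ω ≤ a) : Ex s q F ≤ a := by
  have := Ex_mono hq (G := fun _ => a) h
  rwa [Ex_const] at this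

lemma const_le_Ex {s : Finset E} {q : E → ℝ} (hq : P01 q) {F : Finset E → ℝ} {a : ℝ}
    (h : ∀ ω ⊆ s, a ≤ F ω) : a ≤ Ex s q F := by
  have := Ex_mono hq (F := fun _ => a) h
  rwa [Ex_const] at this

lemma Ex_sum {ι : Type*} (s : Finset E) (q : E → ℝ) (I : Finset ι) (F : ι → Finset E → ℝ) :
    Ex s q (fun ω => ∑ i ∈ I, F i ω) = ∑ i ∈ I, Ex s q (F i) := by
  unfold Ex
  rw [Finset.sum_comm]
  exact Finset.sum_congr rfl fun ω _ => by rw [Finset.mul_sum]

lemma Ex_add (s : Finset E) (q : E → ℝ) (F G : Finset E → ℝ) :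
    Ex s q (fun ω => F ω + G ω) = Ex s q F + Ex s q G := by
  unfold Ex
  rw [← Finset.sum_add_distrib]
  exact Finset.sum_congr rfl fun ω _ => by ring

lemma Ex_sub (s : Finset E) (q : E → ℝ) (F G : Finset E → ℝ) :
    Ex s q (fun ω => F ω - G ω) = Ex s q F - Ex s q G := by
  unfold Ex
  rw [← Finset.sum_sub_distrib]
  exact Finset.sum_congr rfl fun ω _ => by ring

lemma Ex_mul (s : Finset E) (q : E → ℝ) (F : Finset E → ℝ) (a : ℝ) :
    Ex s q (fun ω => F ω * a) = Ex s q F * a := by
  unfold Ex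
  rw [Finset.sum_mul]
  exact Finset.sum_congr rfl fun ω _ => by ring

lemma Ex_smul (s : Finset E) (q : E → ℝ) (a : ℝ) (F : Finset E → ℝ) :
    Ex s q (fun ω => a * F ω) = a * Ex s q F := by
  unfold Ex
  rw [Finset.mul_sum]
  exact Finset.sum_congr rfl fun ω _ => by ring

lemma Ex_indep (s I : Finset E) (q : E → ℝ) {f : Finset E → ℝ} (g : Finset E → ℝ)
    (hf : ∀ ω, f (ω ∩ I) = f ω) :
    Ex s q (fun ω => f ω * g (ω \ I)) = Ex s q f * Ex (s \ I) q g := by
  induction s using Finset.induction_on generalizing f g with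
  | empty => simp [Ex_empty]
  | insert e s he ih =>
    by_cases hI : e ∈ I
    · have h1 : ∀ ω : Finset E, insert e ω \ I = ω \ I := fun ω =>
        Finset.insert_sdiff_of_mem ω hI
      rw [Ex_insert he, Ex_insert he, h1]
      simp only [h1]
      rw [ih (f := fun ω => f (insert e ω)) g (fun ω => by
        rw [← hf (insert e ω), Finset.insert_inter_of_mem hI]), ih g hf]
      ring
    · have h1 : ∀ ω : Finset E, insert e ω \ I = insert e (ω \ I) := fun ω =>
        Finset.insert_sdiff_of_notMem ω hI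
      have h2 : ∀ ω : Finset E, f (insert e ω) = f ω := fun ω => by
        rw [← hf (insert e ω), Finset.insert_inter_of_notMem hI, hf]
      have h3 : e ∉ s \ I := fun h => he (Finset.mem_sdiff.1 h).1
      rw [Ex_insert he, Ex_insert he, h1, Ex_insert h3]
      simp only [h1, h2]
      rw [ih (fun ω => g (insert e ω)) hf, ih g hf]
      ring

lemma Ex_sdiff (s I : Finset E) (q : E → ℝ) (g : Finset E → ℝ) :
    Ex s q (fun ω => g (ω \ I)) = Ex (s \ I) q g := by
  have := Ex_indep s I q (f := fun _ => 1) g (fun _ => rfl)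
  simpa [Ex_const] using this

lemma Ex_mono_set {s t : Finset E} (hst : s ⊆ t) {q : E → ℝ} (hq : P01 q)
    {F : Finset E → ℝ} (hF : Monotone F) : Ex s q F ≤ Ex t q F := by
  have h1 : t \ (t \ s) = s := Finset.sdiff_sdiff_eq_self hst
  conv_lhs => rw [← h1, ← Ex_sdiff]
  exact Ex_mono hq fun ω _ => hF Finset.sdiff_subset

lemma Ex_mono_q {s : Finset E} {q q' : E → ℝ} (hq : P01 q) (hq' : P01 q')
    (h : ∀ e, q e ≤ q' e) {F : Finset E → ℝ} (hF : Monotone F) : Ex s q F ≤ Ex s q' F := by
  induction s using Finset.induction_on generalizing F with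
  | empty => simp [Ex_empty]
  | insert e s he ih =>
    have hF' : Monotone fun ω : Finset E => F (insert e ω) :=
      fun a b hab => hF (Finset.insert_subset_insert e hab)
    have h1 := ih hF
    have h2 := ih hF'
    have h3 : Ex s q' F ≤ Ex s q' (fun ω => F (insert e ω)) :=
      Ex_mono hq' fun ω _ => hF (Finset.subset_insert e ω)
    rw [Ex_insert he, Ex_insert he]
    linarith [mul_le_mul_of_nonneg_left h1 (sub_nonneg.2 (hq e).2),
      mul_le_mul_of_nonneg_left h2 (hq e).1, mul_nonneg (sub_nonneg.2 (h e)) (sub_nonneg.2 h3)]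

/-- Markov property for a random object determined by the elements of its own region. -/
lemma Ex_markov {α : Type*} [Fintype α] [DecidableEq α] (s : Finset E) (q : E → ℝ)
    (R : Finset E → α) (I : α → Finset E) (hR : ∀ ω T, R (ω ∩ I T) = T ↔ R ω = T)
    (f g : α → Finset E → ℝ) (hf : ∀ T ω, f T (ω ∩ I T) = f T ω) :
    Ex s q (fun ω => f (R ω) ω * g (R ω) (ω \ I (R ω)))
      = Ex s q (fun ω => f (R ω) ω * Ex (s \ I (R ω)) q (g (R ω))) := by
  have h1 : ∀ (F : α → Finset E → ℝ), Ex s q (fun ω => F (R ω) ω)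
      = ∑ T, Ex s q (fun ω => (if R ω = T then 1 else 0) * F T ω) := by
    intro F
    rw [← Ex_sum]
    refine Ex_congr fun ω _ => ?_
    simp
  rw [h1 (fun T ω => f T ω * g T (ω \ I T)), h1 (fun T ω => f T ω * Ex (s \ I T) q (g T))]
  refine Finset.sum_congr rfl fun T _ => ?_
  have h2 := Ex_indep s (I T) q (f := fun ω => (if R ω = T then 1 else 0) * f T ω) (g T)
    (fun ω => by simp only [hR, hf])
  simp only [← mul_assoc]
  rw [h2, Ex_mul]

lemma Ex_image {E' : Type*} [DecidableEq E'] {φ : E → E'} (hφ : Function.Injective φ)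
    (s : Finset E) (q : E' → ℝ) (F : Finset E' → ℝ) :
    Ex (s.image φ) q F = Ex s (fun e => q (φ e)) (fun ω => F (ω.image φ)) := by
  induction s using Finset.induction_on generalizing F with
  | empty => simp [Ex_empty]
  | insert e s he ih =>
    have h1 : φ e ∉ s.image φ := by
      rw [Finset.mem_image]; rintro ⟨a, ha, h⟩; exact he (hφ h ▸ ha)
    rw [Finset.image_insert, Ex_insert h1, Ex_insert he, ih, ih]
    simp only [Finset.image_insert]

lemma Ex_continuous (s : Finset E) (F : Finset E → ℝ) :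
    Continuous fun p : ℝ => Ex s (fun _ => p) F := by
  unfold Ex
  fun_prop

lemma Ex_const_eq (s : Finset E) (p : ℝ) (F : Finset E → ℝ) :
    Ex s (fun _ => p) F = ∑ ω ∈ s.powerset, p ^ ω.card * (1 - p) ^ (s.card - ω.card) * F ω := by
  refine Finset.sum_congr rfl fun ω hω => ?_
  rw [Finset.prod_const, Finset.prod_const, Finset.card_sdiff_of_subset (Finset.mem_powerset.1 hω)]

/-- Changing the probabilities one element at a time. -/
lemma Ex_hybrid (s : Finset E) {p1 p : ℝ} (h0 : 0 ≤ p1) (h1 : p1 ≤ p) (h2 : p ≤ 1)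
    (F : Finset E → ℝ) (G : E → Finset E → ℝ) (hG : ∀ e ω, 0 ≤ G e ω)
    (hF : ∀ e ∈ s, ∀ ω, F (insert e ω) - F ω ≤ G e (insert e ω)) {β : ℝ}
    (hβ : ∀ e ∈ s, ∀ q : E → ℝ, (∀ a, p1 ≤ q a ∧ q a ≤ p) → Ex s q (G e) ≤ β) :
    Ex s (fun _ => p) F ≤ Ex s (fun _ => p1) F + s.card * β := by
  have key : ∀ X ⊆ s, Ex s (fun a => if a ∈ X then p else p1) F
      ≤ Ex s (fun _ => p1) F + X.card * β := by
    intro X
    induction X using Finset.induction_on with
    | empty => intro _; simp
    | insert e X he ih =>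
      intro hX
      have hes : e ∈ s := hX (Finset.mem_insert_self e X)
      have ih' := ih fun a ha => hX (Finset.mem_insert_of_mem ha)
      set q' : E → ℝ := fun a => if a ∈ insert e X then p else p1 with hq'
      have hq'b : ∀ a, p1 ≤ q' a ∧ q' a ≤ p := fun a => by
        simp only [hq']; split_ifs <;> simp [h1]
      have hP : P01 q' := fun a => ⟨h0.trans (hq'b a).1, (hq'b a).2.trans h2⟩
      have hc : ∀ H : Finset E → ℝ, Ex (s.erase e) (fun a => if a ∈ X then p else p1) H
          = Ex (s.erase e) q' H := fun H => Ex_congr_q H fun a ha => by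
        simp [hq', (Finset.mem_erase.1 ha).1]
      have e1 := Ex_erase hes q' F
      have e2 := Ex_erase hes (fun a => if a ∈ X then p else p1) F
      have e3 := Ex_erase hes q' (G e)
      rw [hc, hc, if_neg he] at e2
      have e4 : q' e = p := by simp [hq']
      rw [e4] at e1 e3
      have e5 : Ex (s.erase e) q' (fun ω => F (insert e ω)) - Ex (s.erase e) q' F
          ≤ Ex (s.erase e) q' (fun ω => G e (insert e ω)) := by
        rw [← Ex_sub]; exact Ex_mono hP fun ω _ => hF e hes ω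
      have e6 : 0 ≤ Ex (s.erase e) q' (fun ω => G e (insert e ω)) := Ex_nonneg hP fun ω => hG _ _
      have e7 : 0 ≤ Ex (s.erase e) q' (G e) := Ex_nonneg hP (hG e)
      have e8 := hβ e hes q' hq'b
      rw [Finset.card_insert_of_notMem he]
      push_cast
      linarith [mul_le_mul_of_nonneg_left e5 (sub_nonneg.2 h1), mul_nonneg h0 e6,
        mul_nonneg (sub_nonneg.2 h2) e7]
  refine le_trans (le_of_eq ?_) (key s subset_rfl)
  exact Ex_congr_q F fun a ha => by simp [ha]

end Pool.Agent.P.MP_068ab5_pr
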