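import Pool.Agent.P.MP_068ab5_pr.Geo
import Pool.Agent.P.MP_068ab5_pr.Coin3

/-! The edge by edge exploration of a cluster of the cube. -/

namespace Pool.Agent.P.MP_068ab5_pr

open Finset
open scoped Classical

variable {d : ℕ}

/-- Exploration states. -/
abbrev St (d : ℕ) := Finset (Cube d) × Finset (Sym2 (Cube d))

/-- A state with an untested edge leaving the explored set. -/
def Lv (σ : St d) : Prop := ∃ a : Cube d × Cube d, a.1 ∈ σ.1 ∧ a.2 ∉ σ.1 ∧ s(a.1, a.2) ∈ σ.2

/-- The next tested edge. -/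
noncomputable def pick (σ : St d) : Cube d × Cube d := if h : Lv σ then h.choose else (0, 0)

lemma pick_spec {σ : St d} (h : Lv σ) :
    (pick σ).1 ∈ σ.1 ∧ (pick σ).2 ∉ σ.1 ∧ s((pick σ).1, (pick σ).2) ∈ σ.2 := by
  unfold pick; rw [dif_pos h]; exact h.choose_spec

/-- State after a history. -/
noncomputable def st (σ : St d) : Hist → St d
  | [] => σ
  | b :: h => if Lv (st σ h) then
      (if b then insert (pick (st σ h)).2 (st σ h).1 else (st σ h).1,
        (st σ h).2.erase s((pick (st σ h)).1, (pick (st σ h)).2)) else st σ h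

variable (x : Cube d) (U : Finset (Sym2 (Cube d)))

/-- Explored vertices. -/
noncomputable def sA (h : Hist) : Finset (Cube d) := (st ({x}, U) h).1
/-- Untested edges. -/
noncomputable def sU (h : Hist) : Finset (Sym2 (Cube d)) := (st ({x}, U) h).2
/-- Liveness. -/
def lv (h : Hist) : Prop := Lv (st ({x}, U) h)
/-- Inner end of the tested edge. -/
noncomputable def px (h : Hist) : Cube d := (pick (st ({x}, U) h)).1
/-- Outer end of the tested edge. -/
noncomputable def py (h : Hist) : Cube d := (pick (st ({x}, U) h)).2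
/-- Number of discoveries. -/
noncomputable def sn (h : Hist) : ℕ := (sA x U h).card - 1
/-- Untested edges after the test. -/
noncomputable def sU' (h : Hist) : Finset (Sym2 (Cube d)) :=
  (sU x U h).erase s(px x U h, py x U h)
/-- Value of a functional along the exploration. -/
noncomputable def sv (q : Sym2 (Cube d) → ℝ) (F : Finset (Cube d) → ℝ) (h : Hist) : ℝ :=
  val q F (sA x U h) (sU x U h)
/-- Jump of a functional along the exploration. -/
noncomputable def sj (q : Sym2 (Cube d) → ℝ) (F : Finset (Cube d) → ℝ) (h : Hist) : ℝ :=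
  val q F (insert (py x U h) (sA x U h)) (sU' x U h) - val q F (sA x U h) (sU' x U h)

variable {x U}

lemma lv_spec {h : Hist} (hl : lv x U h) : px x U h ∈ sA x U h ∧ py x U h ∉ sA x U h ∧
    s(px x U h, py x U h) ∈ sU x U h := pick_spec hl

lemma sA_true {h : Hist} (hl : lv x U h) : sA x U (true :: h) = insert (py x U h) (sA x U h) := by
  unfold lv at hl; simp [sA, st, hl, py]

lemma sA_false (h : Hist) : sA x U (false :: h) = sA x U h := by
  simp only [sA, st]; split_ifs <;> simp_all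

lemma sU_cons {h : Hist} (hl : lv x U h) (b : Bool) : sU x U (b :: h) = sU' x U h := by
  unfold lv at hl; simp [sU, sU', st, hl, px, py]

lemma st_dead {h : Hist} (hl : ¬ lv x U h) (b : Bool) :
    sA x U (b :: h) = sA x U h ∧ sU x U (b :: h) = sU x U h := by
  unfold lv at hl; simp [sA, sU, st, hl]

lemma sA_sub (b : Bool) (h : Hist) : sA x U h ⊆ sA x U (b :: h) := by
  by_cases hl : lv x U h
  · cases b
    · rw [sA_false]
    · rw [sA_true hl]; exact subset_insert _ _
  · rw [(st_dead hl b).1]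

lemma root_mem (h : Hist) : x ∈ sA x U h := by
  induction h with
  | nil => simp [sA, st]
  | cons b h ih => exact sA_sub b h ih

lemma sU'_sub (h : Hist) : sU' x U h ⊆ sU x U h := erase_subset _ _

lemma sU_sub (h : Hist) : sU x U h ⊆ U := by
  induction h with
  | nil => simp [sU, st]
  | cons b h ih =>
    by_cases hl : lv x U h
    · rw [sU_cons hl]; exact (sU'_sub h).trans ih
    · rw [(st_dead hl b).2]; exact ih

lemma sdiff_sub_sU' {h : Hist} (hl : lv x U h) (ih : U \ inc (sA x U h) ⊆ sU x U h) :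
    U \ inc (sA x U h) ⊆ sU' x U h := by
  intro e he
  refine mem_erase.2 ⟨?_, ih he⟩
  rintro rfl
  exact (mem_sdiff.1 he).2 (mem_inc.2 (Or.inl (lv_spec hl).1))

lemma sdiff_sub_sU (h : Hist) : U \ inc (sA x U h) ⊆ sU x U h := by
  induction h with
  | nil => simp [sU, st]
  | cons b h ih =>
    by_cases hl : lv x U h
    · rw [sU_cons hl]
      exact (sdiff_subset_sdiff subset_rfl (inc_mono (sA_sub b h))).trans (sdiff_sub_sU' hl ih)
    · rw [(st_dead hl b).1, (st_dead hl b).2]; exact ih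

lemma sz_sA (h : Hist) : sz (sA x U h) = sn x U h + 1 := by
  have : 0 < (sA x U h).card := card_pos.2 ⟨x, root_mem h⟩
  unfold sz sn
  exact_mod_cast (Nat.sub_add_cancel this).symm

lemma sv_nil (q : Sym2 (Cube d) → ℝ) (F : Finset (Cube d) → ℝ) :
    sv x U q F [] = val q F {x} U := rfl

lemma sv_true (q : Sym2 (Cube d) → ℝ) (F : Finset (Cube d) → ℝ) {h : Hist} (hl : lv x U h) :
    sv x U q F (true :: h) = val q F (insert (py x U h) (sA x U h)) (sU' x U h) := by
  rw [sv, sA_true hl, sU_cons hl]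

lemma sv_false (q : Sym2 (Cube d) → ℝ) (F : Finset (Cube d) → ℝ) {h : Hist} (hl : lv x U h) :
    sv x U q F (false :: h) = val q F (sA x U h) (sU' x U h) := by
  rw [sv, sA_false, sU_cons hl]

lemma sv_step (q : Sym2 (Cube d) → ℝ) (F : Finset (Cube d) → ℝ) (h : Hist) (hl : lv x U h) :
    sv x U q F h = q s(px x U h, py x U h) * sv x U q F (true :: h)
      + (1 - q s(px x U h, py x U h)) * sv x U q F (false :: h) := by
  rw [sv_true q F hl, sv_false q F hl]
  exact val_step q F (lv_spec hl).1 (lv_spec hl).2.2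

lemma sv_dead (q : Sym2 (Cube d) → ℝ) (F : Finset (Cube d) → ℝ) {h : Hist} (hl : ¬ lv x U h) :
    sv x U q F h = F (sA x U h) :=
  val_dead q F fun a ha b hb he => hl ⟨(a, b), ha, hb, he⟩

lemma sv_true' (p : ℝ) (F : Finset (Cube d) → ℝ) {h : Hist} (hl : lv x U h) :
    sv x U (fun _ => p) F (true :: h)
      = sv x U (fun _ => p) F h + sj x U (fun _ => p) F h * (1 - p) := by
  rw [sv_step _ F h hl, sv_true _ F hl, sv_false _ F hl, sj]; ring

lemma sv_false' (p : ℝ) (F : Finset (Cube d) → ℝ) {h : Hist} (hl : lv x U h) :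
    sv x U (fun _ => p) F (false :: h)
      = sv x U (fun _ => p) F h - sj x U (fun _ => p) F h * p := by
  rw [sv_step _ F h hl, sv_true _ F hl, sv_false _ F hl, sj]; ring

lemma sj_nonneg {q : Sym2 (Cube d) → ℝ} (hq : P01 q) {F : Finset (Cube d) → ℝ}
    (hF : Monotone F) (h : Hist) : 0 ≤ sj x U q F h :=
  sub_nonneg.2 (val_mono hq hF (subset_insert _ _) subset_rfl)

lemma sn_true {h : Hist} (hl : lv x U h) : sn x U (true :: h) = sn x U h + 1 := by
  have : 0 < (sA x U h).card := card_pos.2 ⟨x, root_mem h⟩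
  unfold sn
  rw [sA_true hl, card_insert_of_notMem (lv_spec hl).2.1]; omega

lemma one_le_chi0 {p : ℝ} (p0 : 0 ≤ p) (p1 : p ≤ 1) : 1 ≤ chi0 d p := by
  simpa [sz, chi0] using le_val (P01_const p0 p1) sz_mono {(0 : Cube d)} (E0 d)

variable (x U)

/-- Normalised jump of the expected size. -/
noncomputable def sθ (p e : ℝ) (h : Hist) : ℝ := e * sj x U (fun _ => p) sz h
/-- Normalised value of the unexplored part. -/
noncomputable def sY (p e : ℝ) (h : Hist) : ℝ :=
  e * (sv x U (fun _ => p) sz h - (sn x U h + 1))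

variable {x U}

/-- Reference parameter. -/
structure Ref (d : ℕ) (p e : ℝ) : Prop where
  p0 : 0 < p
  p1 : p ≤ 1
  he : e * chi0 d p = 1

lemma Ref.χ1 {p e : ℝ} (h : Ref d p e) : 1 ≤ chi0 d p := one_le_chi0 h.p0.le h.p1

lemma Ref.e0 {p e : ℝ} (h : Ref d p e) : 0 < e := by
  have := h.χ1
  have := h.he
  by_contra hc
  push Not at hc
  nlinarith

lemma Ref.P01 {p e : ℝ} (h : Ref d p e) : P01 (fun _ : Sym2 (Cube d) => p) :=
  P01_const h.p0.le h.p1

theorem basic {p e : ℝ} (hR : Ref d p e) (x : Cube d) (hU : U ⊆ E0 d) :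
    Basic (lv x U) (fun h => (sU x U h).card) p e (sθ x U p e) (sY x U p e) (sn x U) := by
  have hq := hR.P01
  have e0 := hR.e0
  refine ⟨fun h b hl => ?_, fun h _ => mul_nonneg e0.le (sj_nonneg hq sz_mono h), fun h _ => ?_,
    fun h hl => ?_, fun h hl => ?_, fun h hl => sn_true hl, fun h _ => ?_, fun h => ?_,
    fun h hl => ?_, ?_, ?_, hR.p0⟩
  · rw [sU_cons hl]; exact card_erase_lt_of_mem (lv_spec hl).2.2
  · have := jump_wt hq (w := fun _ => 1) (fun _ => zero_le_one) (sA x U h) (py x U h)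
      ((sU'_sub (x := x) h).trans ((sU_sub h).trans hU))
    rw [← sz_eq_wt, val_sz_single] at this
    unfold sθ sj
    rw [← hR.he]
    exact mul_le_mul_of_nonneg_left (by linarith) e0.le
  · unfold sY sθ
    rw [sv_true' p sz hl, sn_true hl]; push_cast; ring
  · unfold sY sθ
    rw [sv_false' p sz hl, sn, sA_false, ← sn]; ring
  · rw [sn, sA_false, ← sn]
  · refine mul_nonneg e0.le (sub_nonneg.2 ?_)
    rw [← sz_sA]; exact le_val hq sz_mono _ _
  · unfold sY
    rw [sv_dead _ _ hl, sz_sA]; ring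
  · simp [sn, sA, st]
  · unfold sY
    have := val_mono hq sz_mono (subset_refl {x}) hU
    rw [val_sz_single] at this
    rw [sv_nil]
    have h2 : (0 : ℝ) ≤ sn x U [] := Nat.cast_nonneg _
    exact (mul_le_mul_of_nonneg_left (by linarith) e0.le).trans hR.he.le

lemma sv_sz_eq {p e : ℝ} (hR : Ref d p e) (h : Hist) :
    sv x U (fun _ => p) sz h = sn x U h + 1 + chi0 d p * sY x U p e h := by
  unfold sY
  rw [← mul_assoc, mul_comm (chi0 d p), hR.he]; ring

lemma sY_le {p e : ℝ} (hR : Ref d p e) (hU : U ⊆ E0 d) (h : Hist) :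
    sv x U (fun _ => p) sz h ≤ (sn x U h + 1) * chi0 d p := by
  rw [← sz_sA]
  exact val_sz_le hR.P01 ((sU_sub h).trans hU) (fun y => (val_sz_single p y).le) _

section geo

variable {p e s κ : ℝ} {g : Cube d → ℝ}

lemma Geo.tau_le (hG : Geo d p s g κ) (y z : Cube d) :
    tau (fun _ => p) (E0 d) y z ≤ g (y + z) + κ * chi0 d p := by
  have := hG.t2 {y} (E0 d) subset_rfl z
  rwa [sum_singleton, val_sz_single] at this

lemma tau_sum (p : ℝ) (y : Cube d) : ∑ z, tau (fun _ => p) (E0 d) y z = chi0 d p := by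
  rw [← val_sz_single p y, val_sz]; rfl

lemma Geo.G0 (hG : Geo d p s g κ) (z : Cube d) : 0 ≤ Gk g z := by
  unfold Gk; split_ifs
  · exact le_rfl
  · exact conv_nonneg hG.g0 hG.g0 z

lemma Geo.row (hG : Geo d p s g κ) (y : Cube d) (T : Finset (Cube d)) :
    ∑ b ∈ T, g (y + b) ≤ 3 * (d : ℝ) ^ 2 :=
  (sum_le_sum_of_subset_of_nonneg (subset_univ T) fun _ _ _ => hG.g0 _).trans
    ((sum_shift' g y).trans_le hG.mass)

lemma Geo.rowG (hG : Geo d p s g κ) (y : Cube d) (T : Finset (Cube d)) :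
    ∑ b ∈ T, Gk g (y + b) ≤ 9 * (d : ℝ) ^ 4 := by
  refine (sum_le_sum_of_subset_of_nonneg (subset_univ T) fun _ _ _ => hG.G0 _).trans
    ((sum_shift' (Gk g) y).trans_le ?_)
  have h1 : ∑ z, Gk g z ≤ ∑ z, conv g g z := sum_le_sum fun z _ => by
    unfold Gk; split_ifs
    · exact conv_nonneg hG.g0 hG.g0 z
    · exact le_rfl
  rw [conv_mass] at h1
  linarith [mul_le_mul hG.mass hG.mass (sum_nonneg fun z _ => hG.g0 z) (by positivity)]

/-- Potential of the removed set. -/
noncomputable def wD (g : Cube d → ℝ) (D : Finset (Cube d)) (z : Cube d) : ℝ := ∑ b ∈ D, g (z + b)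

lemma Geo.wD0 (hG : Geo d p s g κ) (D : Finset (Cube d)) (z : Cube d) : 0 ≤ wD g D z :=
  sum_nonneg fun _ _ => hG.g0 _

/-- A weighted sum against the two point function. -/
lemma Geo.tau_wt (hG : Geo d p s g κ) (hR : Ref d p e) (y : Cube d) {f : Cube d → ℝ} {a b : ℝ}
    (f0 : ∀ z, 0 ≤ f z) (ha : ∀ z, f z ≤ a) (hb : ∑ z, f z ≤ b) :
    ∑ z, tau (fun _ => p) (E0 d) y z * f z ≤ 3 * (d : ℝ) ^ 2 * a + κ * chi0 d p * b := by
  have k0 : 0 ≤ κ * chi0 d p := mul_nonneg hG.κ0 (by linarith [hR.χ1])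
  have a0 : 0 ≤ a := (f0 0).trans (ha 0)
  calc _ ≤ ∑ z, (g (y + z) * a + κ * chi0 d p * f z) := sum_le_sum fun z _ => by
        linarith [mul_le_mul_of_nonneg_right (hG.tau_le y z) (f0 z),
          mul_le_mul_of_nonneg_left (ha z) (hG.g0 (y + z))]
    _ = (∑ z, g (y + z)) * a + κ * chi0 d p * ∑ z, f z := by
        rw [sum_add_distrib, sum_mul, mul_sum]
    _ ≤ _ := add_le_add (mul_le_mul_of_nonneg_right (hG.row y univ) a0)
        (mul_le_mul_of_nonneg_left hb k0)

lemma theta_lower (hG : Geo d p s g κ) (hR : Ref d p e) {D : Finset (Cube d)} {h : Hist}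
    (hl : lv x (E0 d \ inc D) h) :
    1 - (∑ a ∈ sA x (E0 d \ inc D) h, Gk g (py x (E0 d \ inc D) h + a)
        + wD g D (py x (E0 d \ inc D) h)) - (κ * chi0 d p * D.card
        + κ * (chi0 d p + 3 * (d : ℝ) ^ 2) * sv x (E0 d \ inc D) (fun _ => p) sz h)
      ≤ sθ x (E0 d \ inc D) p e h := by
  have hq := hR.P01
  set U := E0 d \ inc D with hUd
  set A := sA x U h
  set y := py x U h
  have hU' : sU' x U h ⊆ E0 d := (sU'_sub h).trans ((sU_sub h).trans sdiff_subset)
  have h1 := jump_lower hq (val_sz_single p) (A := A) (D := D) (U := sU' x U h) (by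
    refine Subset.trans ?_ (sdiff_sub_sU' hl (sdiff_sub_sU h))
    intro a ha
    rw [inc_union] at ha
    simp only [hUd, mem_sdiff, mem_union] at ha ⊢
    tauto) y
  have h2 := mul_le_mul_of_nonneg_left h1 hR.e0.le
  rw [← mul_assoc, hR.he, one_mul] at h2
  refine le_trans ?_ h2
  obtain ⟨N, hN⟩ : ∃ N, N = val (fun _ => p) sz A (sU' x U h) := ⟨_, rfl⟩
  have N0 : 0 ≤ N := hN ▸ val_sz_nonneg hq _ _
  have N1 : N ≤ sv x U (fun _ => p) sz h := hN ▸ val_mono hq sz_mono subset_rfl (sU'_sub h)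
  have h3 : ∑ b ∈ D, tau (fun _ => p) (E0 d) y b ≤ wD g D y + κ * chi0 d p * D.card := by
    refine (sum_le_sum fun b _ => hG.tau_le y b).trans (le_of_eq ?_)
    rw [sum_add_distrib, sum_const, nsmul_eq_mul, mul_comm (D.card : ℝ)]; rfl
  have h4 : ∑ b, val (fun _ => p) (mem1 b) A (sU' x U h) * tau (fun _ => p) (E0 d) y b
      ≤ ∑ a ∈ A, Gk g (y + a) + κ * (chi0 d p + 3 * (d : ℝ) ^ 2) * N := by
    calc _ ≤ ∑ b, ((∑ a ∈ A, g (a + b) * g (y + b)) + κ * N * g (y + b)
          + κ * chi0 d p * val (fun _ => p) (mem1 b) A (sU' x U h)) := sum_le_sum fun b _ => by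
          have a1 := mul_le_mul_of_nonneg_left (hG.tau_le y b)
            (val_mem1_nonneg hq b A (sU' x U h))
          have a2 := mul_le_mul_of_nonneg_right (hG.t2 A _ hU' b) (hG.g0 (y + b))
          rw [← hN, add_mul, sum_mul] at a2
          linarith
      _ = ∑ a ∈ A, Gk g (y + a) + κ * N * ∑ b, g (y + b) + κ * chi0 d p * N := by
          rw [sum_add_distrib, sum_add_distrib, ← mul_sum, ← mul_sum, ← val_sz, ← hN, sum_comm]
          refine congrArg₂ _ (congrArg₂ _ (sum_congr rfl fun a ha => ?_) rfl) rfl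
          rw [conv_eq, Gk, if_neg]
          rw [cube_add_eq_zero]
          rintro rfl
          exact (lv_spec hl).2.1 ha
      _ ≤ _ := by
          linarith [mul_le_mul_of_nonneg_left (hG.row y univ) (mul_nonneg hG.κ0 N0)]
  have h5 := mul_le_mul_of_nonneg_left N1 (mul_nonneg hG.κ0
    (show 0 ≤ chi0 d p + 3 * (d : ℝ) ^ 2 by have := hR.χ1; positivity))
  linarith

variable (x U) in
/-- Truncated potential at the tested vertex. -/
noncomputable def su (g : Cube d → ℝ) (D : Finset (Cube d)) (h : Hist) : ℝ :=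
  min 1 (∑ a ∈ sA x U h, Gk g (py x U h + a) + wD g D (py x U h))

variable (x U) in
/-- Accumulated potential. -/
noncomputable def acc (g : Cube d → ℝ) (D : Finset (Cube d)) : Hist → ℝ
  | [] => 0
  | b :: h => acc g D h + if lv x U h ∧ b = true then su x U g D h else 0

lemma su_nonneg (hG : Geo d p s g κ) (D : Finset (Cube d)) (h : Hist) : 0 ≤ su x U g D h :=
  le_min zero_le_one (add_nonneg (sum_nonneg fun _ _ => hG.G0 _) (hG.wD0 _ _))

lemma acc_le (hG : Geo d p s g κ) (D : Finset (Cube d)) (h : Hist) :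
    acc x U g D h ≤ En (fun z b => Gk g (z + b)) (wD g D) (sA x U h) := by
  induction h with
  | nil =>
    exact add_nonneg (sum_nonneg fun _ _ => sum_nonneg fun _ _ => hG.G0 _)
      (sum_nonneg fun _ _ => hG.wD0 _ _)
  | cons b h ih =>
    unfold acc
    split_ifs with hc
    · obtain ⟨hl, rfl⟩ := hc
      rw [sA_true hl]
      exact le_trans (add_le_add ih (min_le_right _ _))
        (En_insert (fun z b => hG.G0 _) _ (lv_spec hl).2.1)
    · rw [add_zero]
      exact ih.trans (En_mono (fun z b => hG.G0 _) (hG.wD0 D) (sA_sub b h))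

lemma theta_lower' (hG : Geo d p s g κ) (hR : Ref d p e) {D : Finset (Cube d)} {h : Hist}
    (hl : lv x (E0 d \ inc D) h) {l : ℝ} (hb : κ * chi0 d p * D.card
        + κ * (chi0 d p + 3 * (d : ℝ) ^ 2) * sv x (E0 d \ inc D) (fun _ => p) sz h ≤ l) :
    1 - su x (E0 d \ inc D) g D h - l ≤ sθ x (E0 d \ inc D) p e h := by
  have h1 := theta_lower hG hR hl
  have h2 := (basic hR x (sdiff_subset (t := inc D))).θ0 h hl
  have χ1 := hR.χ1
  have k0 := hG.κ0
  have h3 : 0 ≤ sv x (E0 d \ inc D) (fun _ => p) sz h := val_sz_nonneg hR.P01 _ _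
  have h4 : 0 ≤ l := le_trans (by positivity) hb
  unfold su
  rcases min_cases 1 (∑ a ∈ sA x (E0 d \ inc D) h, Gk g (py x (E0 d \ inc D) h + a)
    + wD g D (py x (E0 d \ inc D) h)) with ⟨h5, -⟩ | ⟨h5, -⟩ <;> rw [h5] <;> linarith

/-- Energy of a single cluster. -/
lemma en_single (hG : Geo d p s g κ) (hR : Ref d p e) (D : Finset (Cube d)) (y : Cube d) :
    val (fun _ => p) (En (fun z b => Gk g (z + b)) (wD g D)) {y} (E0 d)
      ≤ chi0 d p * (s + κ * chi0 d p * (9 * (d : ℝ) ^ 4) * (3 * (d : ℝ) ^ 2 + chi0 d p))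
        + (9 * (d : ℝ) ^ 4 + κ * chi0 d p * (3 * (d : ℝ) ^ 2 * D.card)) := by
  have hq := hR.P01
  have k0 : 0 ≤ κ * chi0 d p := mul_nonneg hG.κ0 (by linarith [hR.χ1])
  have h1 : val (fun _ => p) (En (fun z b => Gk g (z + b)) (wD g D)) {y} (E0 d)
      = val (fun _ => p) (fun B => ∑ z ∈ B, ∑ b ∈ B, Gk g (z + b)) {y} (E0 d)
        + val (fun _ => p) (wt (wD g D)) {y} (E0 d) := Ex_add _ _ _ _
  rw [h1]
  refine add_le_add ?_ ?_
  · rw [← val_sz_single p y]
    refine tree_bound hR.p0.le hR.p1 _ y (fun z b => hG.G0 _) fun w => ?_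
    rw [val_sz_single]
    have a1 : ∑ z, ∑ b, g (w + z) * g (w + b) * Gk g (z + b) ≤ s := by
      refine le_trans (le_of_eq ?_) hG.k2
      have : ∀ z, ∑ b, g (w + z) * g (w + b) * Gk g (z + b)
          = ∑ v, Gk g v * (g (w + z) * g (w + v + z)) := fun z => by
        rw [← sum_shift' _ z]
        refine sum_congr rfl fun v _ => ?_
        rw [← add_assoc z z v, cube_add_self, zero_add, add_comm z v, ← add_assoc]; ring
      simp only [this]
      rw [sum_comm]
      refine sum_congr rfl fun v _ => ?_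
      rw [← mul_sum, conv_eq, add_right_comm, cube_add_self, zero_add]
    calc _ ≤ ∑ z, ∑ b, (g (w + z) * g (w + b) * Gk g (z + b)
          + κ * chi0 d p * (g (w + z) * Gk g (z + b))
          + κ * chi0 d p * (tau (fun _ => p) (E0 d) w b * Gk g (b + z))) :=
          sum_le_sum fun z _ => sum_le_sum fun b _ => by
            rw [add_comm b z]
            have b1 := mul_le_mul_of_nonneg_right (hG.tau_le w z)
              (mul_nonneg (tau_nonneg hq (E0 d) w b) (hG.G0 (z + b)))
            have b2 := mul_le_mul_of_nonneg_right (hG.tau_le w b)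
              (mul_nonneg (hG.g0 (w + z)) (hG.G0 (z + b)))
            linarith
      _ = ∑ z, ∑ b, g (w + z) * g (w + b) * Gk g (z + b)
          + κ * chi0 d p * ∑ z, g (w + z) * ∑ b, Gk g (z + b)
          + κ * chi0 d p * ∑ b, tau (fun _ => p) (E0 d) w b * ∑ z, Gk g (b + z) := by
          simp only [sum_add_distrib, mul_sum]
          rw [sum_comm (f := fun z b => κ * chi0 d p
            * (tau (fun _ => p) (E0 d) w b * Gk g (b + z)))]
      _ ≤ _ := by
          have b1 : ∑ z, g (w + z) * ∑ b, Gk g (z + b) ≤ 3 * (d : ℝ) ^ 2 * (9 * (d : ℝ) ^ 4) := by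
            refine (sum_le_sum fun z _ => mul_le_mul_of_nonneg_left (hG.rowG z univ)
              (hG.g0 _)).trans ?_
            rw [← sum_mul]
            exact mul_le_mul_of_nonneg_right (hG.row w univ) (by positivity)
          have b2 : ∑ b, tau (fun _ => p) (E0 d) w b * ∑ z, Gk g (b + z)
              ≤ chi0 d p * (9 * (d : ℝ) ^ 4) := by
            refine (sum_le_sum fun z _ => mul_le_mul_of_nonneg_left (hG.rowG z univ)
              (tau_nonneg hq _ _ _)).trans ?_
            rw [← sum_mul, tau_sum]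
          linarith [mul_le_mul_of_nonneg_left b1 k0, mul_le_mul_of_nonneg_left b2 k0]
  · rw [val_wt]
    refine (hG.tau_wt hR y (hG.wD0 D) (fun z => hG.row z D) (b := 3 * (d : ℝ) ^ 2 * D.card)
      ?_).trans (le_of_eq (by ring))
    unfold wD
    rw [sum_comm]
    refine (sum_le_card_nsmul _ _ (3 * (d : ℝ) ^ 2) fun b _ =>
      (sum_shift g b).trans_le hG.mass).trans (le_of_eq ?_)
    rw [nsmul_eq_mul, mul_comm]

/-- Jump bound for the energy. -/
noncomputable def Jbd (d : ℕ) (s κ χ m N : ℝ) : ℝ :=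
  χ * (s + κ * χ * (9 * (d : ℝ) ^ 4) * (3 * (d : ℝ) ^ 2 + χ))
    + (9 * (d : ℝ) ^ 4 + κ * χ * (3 * (d : ℝ) ^ 2 * m))
    + 2 * (27 * (d : ℝ) ^ 6 + κ * χ * (9 * (d : ℝ) ^ 4) * N)

theorem geom_I (hG : Geo d p s g κ) (hR : Ref d p e) (x : Cube d) (D : Finset (Cube d))
    {nmax Ymax l0 l1 Jm : ℝ} (hn : 0 ≤ nmax) (hY : 0 ≤ Ymax)
    (hl1 : κ * (chi0 d p + 3 * (d : ℝ) ^ 2) ≤ l1)
    (hl0 : κ * chi0 d p * D.card + l1 * (chi0 d p * Ymax) ≤ l0)
    (hJ : Jbd d s κ (chi0 d p) D.card (nmax + 1 + chi0 d p * Ymax) ≤ Jm)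
    (hl : l0 + l1 * (nmax + 1) ≤ 1) :
    Geom (lv x (E0 d \ inc D)) p (sθ x (E0 d \ inc D) p e) (sY x (E0 d \ inc D) p e)
      (fun h => sv x (E0 d \ inc D) (fun _ => p) (En (fun z b => Gk g (z + b)) (wD g D)) h
        - acc x (E0 d \ inc D) g D h)
      (sj x (E0 d \ inc D) (fun _ => p) (En (fun z b => Gk g (z + b)) (wD g D)))
      (su x (E0 d \ inc D) g D) (sn x (E0 d \ inc D)) nmax Ymax l0 l1 Jm 0 := by
  have hq := hR.P01
  have χ1 := hR.χ1
  have k0 := hG.κ0
  have hEm := En_mono (fun z b => hG.G0 (z + b)) (hG.wD0 D)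
  have l10 : 0 ≤ l1 := le_trans (by positivity) hl1
  have hs := en_single hG hR D
  refine ⟨fun h hl hn hY => theta_lower' hG hR hl ?_, fun h _ => sj_nonneg hq hEm h,
    fun h hl hn' hY' => ?_, su_nonneg hG D, fun h => min_le_left _ _, fun h hl => ?_,
    fun h hl => ?_, fun h _ => ?_, ?_, le_trans (by positivity) hl0, l10, hl⟩
  · have h1 : 0 ≤ sv x (E0 d \ inc D) (fun _ => p) sz h := val_sz_nonneg hq _ _
    have h2 := mul_le_mul_of_nonneg_right hl1 h1
    rw [sv_sz_eq hR] at h2 ⊢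
    linarith [mul_le_mul_of_nonneg_left hY (mul_nonneg l10 (show 0 ≤ chi0 d p by linarith))]
  · have hU' : sU' x (E0 d \ inc D) h ⊆ E0 d :=
      (sU'_sub h).trans ((sU_sub h).trans sdiff_subset)
    have h1 := jump_En hq (fun z b => hG.G0 (z + b)) (fun z b => by rw [add_comm]) (hG.wD0 D) hU'
      (sA x (E0 d \ inc D) h) (py x (E0 d \ inc D) h) (c1 := 27 * (d : ℝ) ^ 6)
      (c2 := κ * chi0 d p * (9 * (d : ℝ) ^ 4)) fun T => by
        refine (hG.tau_wt hR _ (fun z => sum_nonneg fun b _ => hG.G0 (z + b))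
          (fun z => hG.rowG z T) (b := 9 * (d : ℝ) ^ 4 * T.card) ?_).trans (le_of_eq (by ring))
        rw [sum_comm]
        refine (sum_le_card_nsmul _ _ (9 * (d : ℝ) ^ 4) fun b _ => ?_).trans (le_of_eq ?_)
        · simp only [add_comm _ b]; exact hG.rowG b univ
        · rw [nsmul_eq_mul, mul_comm]
    have h2 : val (fun _ => p) sz (sA x (E0 d \ inc D) h) (sU' x (E0 d \ inc D) h)
        ≤ nmax + 1 + chi0 d p * Ymax := by
      refine (val_mono hq sz_mono subset_rfl (sU'_sub h)).trans ?_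
      have := sv_sz_eq (x := x) (U := E0 d \ inc D) hR h
      unfold sv at this
      linarith [mul_le_mul_of_nonneg_left hY' (show 0 ≤ chi0 d p by linarith)]
    have h3 := mul_le_mul_of_nonneg_left h2
      (show 0 ≤ κ * chi0 d p * (9 * (d : ℝ) ^ 4) by positivity)
    unfold sj
    unfold Jbd at hJ
    linarith [hs (py x (E0 d \ inc D) h)]
  · rw [sv_true' p _ hl]; simp only [acc, hl, true_and, if_true]; linarith
  · rw [sv_false' p _ hl]; simp [acc]; linarith
  · exact sub_nonneg.2 ((acc_le hG D h).trans (le_val hq hEm _ _))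
  · simp only [acc, sv_nil, sub_zero, add_zero]
    refine (val_mono hq hEm subset_rfl sdiff_subset).trans ((hs x).trans (le_trans ?_ hJ))
    unfold Jbd
    exact le_add_of_nonneg_right (by positivity)

theorem geom_II (hG : Geo d p s g κ) (hR : Ref d p e) (x : Cube d)
    {nmax l0 : ℝ} (Ymax : ℝ) (hn0 : 0 ≤ nmax) (hn : nmax + 1 ≤ (d : ℝ) ^ 20)
    (hl0 : κ * (chi0 d p + 3 * (d : ℝ) ^ 2) * ((nmax + 1) * chi0 d p) ≤ l0) (hl : l0 ≤ 1) :
    Geom (lv x (E0 d)) p (sθ x (E0 d) p e) (sY x (E0 d) p e)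
      (fun h => s * (sn x (E0 d) h + 1) - acc x (E0 d) g ∅ h) (fun _ => 0)
      (su x (E0 d) g ∅) (sn x (E0 d)) nmax Ymax l0 0 0 s := by
  have hq := hR.P01
  have χ1 := hR.χ1
  have k0 := hG.κ0
  have hE : E0 d \ inc ∅ = E0 d := by rw [inc_empty, sdiff_empty]
  refine ⟨fun h hl hn' _ => ?_, fun _ _ => le_rfl, fun _ _ _ _ => le_rfl, su_nonneg hG ∅,
    fun h => min_le_left _ _, fun h hl => ?_, fun h hl => ?_, fun h hn' => ?_, ?_,
    le_trans (by positivity) hl0, le_rfl, by linarith⟩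
  · have := theta_lower' (x := x) hG hR (D := ∅) (h := h) (l := l0)
    rw [hE] at this
    rw [zero_mul, add_zero]
    refine this hl ?_
    have h1 := (sY_le (x := x) hR subset_rfl h).trans
      (mul_le_mul_of_nonneg_right (add_le_add_left hn' 1) (by linarith))
    have h2 := mul_le_mul_of_nonneg_left h1
      (show 0 ≤ κ * (chi0 d p + 3 * (d : ℝ) ^ 2) by positivity)
    simp only [card_empty, Nat.cast_zero, mul_zero, zero_add]
    linarith
  · simp only [acc, hl, true_and, if_true, sn_true hl]; push_cast; linarith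
  · simp [acc, sn, sA_false]
  · have h1 := acc_le (x := x) (U := E0 d) hG ∅ h
    have h2 := hG.k1 (sA x (E0 d) h) (by
      have := sz_sA (x := x) (U := E0 d) h
      unfold sz at this; linarith)
    have h3 := sz_sA (x := x) (U := E0 d) h
    unfold sz at h3
    rw [h3] at h2
    simp only [En, wt, wD, sum_empty, sum_const_zero, add_zero] at h1
    unfold pairSum at h2
    linarith
  · simp [acc, sn, sA, st]

lemma sY_le' (hR : Ref d p e) (hU : U ⊆ E0 d) (h : Hist) : sY x U p e h ≤ sn x U h + 1 := by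
  have h1 := sY_le (x := x) hR hU h
  have h2 := mul_le_mul_of_nonneg_left h1 hR.e0.le
  have h3 : e * ((sn x U h + 1) * chi0 d p) = sn x U h + 1 := by
    rw [mul_left_comm, hR.he, mul_one]
  have h4 : 0 ≤ e * ((sn x U h : ℝ) + 1) := by have := hR.e0; positivity
  unfold sY
  linarith

lemma sY_nil_ge (hG : Geo d p s g κ) (hR : Ref d p e) (D : Finset (Cube d)) :
    1 - wD g D x - κ * chi0 d p * D.card - e ≤ sY x (E0 d \ inc D) p e [] := by
  have h1 := static_bound hR.P01 (val_sz_single p) D x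
  have h2 := mul_le_mul_of_nonneg_left h1 hR.e0.le
  rw [← mul_assoc, hR.he, one_mul] at h2
  have h3 : ∑ b ∈ D, tau (fun _ => p) (E0 d) x b ≤ wD g D x + κ * chi0 d p * D.card := by
    refine (sum_le_sum fun b _ => hG.tau_le x b).trans (le_of_eq ?_)
    rw [sum_add_distrib, sum_const, nsmul_eq_mul, mul_comm (D.card : ℝ)]; rfl
  unfold sY
  rw [sv_nil, (basic hR x (sdiff_subset (t := inc D))).n_nil]
  simp only [Nat.cast_zero, zero_add]
  linarith

end geo

end Pool.Agent.P.MP_068ab5_pr
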