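import Pool.Agent.P.MP_068ab5_pr.Kernel

/-! Mixing of non-backtracking walks on the hypercube. -/

namespace Pool.Agent.P.MP_068ab5_pr

open Finset

variable {d : ℕ}

/-- Characters. -/
noncomputable def ch (s : Finset (Fin d)) (z : Cube d) : ℝ :=
  ∏ i ∈ s, if z i = 0 then 1 else -1

/-- Eigenvalue sequence. -/
noncomputable def eig (D x : ℝ) : ℕ → ℝ
  | 0 => x
  | 1 => x ^ 2 - D
  | m + 2 => x * eig D x (m + 1) - (D - 1) * eig D x m

lemma ch_add_un (s : Finset (Fin d)) (z : Cube d) (i : Fin d) :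
    ch s (z + un i) = (if i ∈ s then -1 else 1) * ch s z := by
  have h1 : ∀ a : ZMod 2, (a + 1 = 0 ↔ ¬ a = 0) := by decide
  unfold ch
  split_ifs with hi
  · rw [← mul_prod_erase _ _ hi, ← mul_prod_erase _ _ hi, ← mul_assoc]
    refine congrArg₂ _ ?_ (prod_congr rfl fun j hj => ?_)
    · by_cases h : z i = 0 <;> simp [un, h1, h]
    · simp [un, (mem_erase.1 hj).1]
  · rw [one_mul]
    refine prod_congr rfl fun j hj => ?_
    have : j ≠ i := fun h => hi (h ▸ hj)
    simp [un, this]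

lemma sum_ch_add (s : Finset (Fin d)) (z : Cube d) :
    ∑ i, ch s (z + un i) = (d - 2 * s.card) * ch s z := by
  simp only [ch_add_un]
  rw [← sum_mul]
  refine congrArg (· * ch s z) ?_
  have : ∀ i : Fin d, (if i ∈ s then (-1 : ℝ) else 1) = 1 - 2 * if i ∈ s then 1 else 0 := by
    intro i; split_ifs <;> norm_num
  simp only [this, sum_sub_distrib, ← mul_sum]
  simp

lemma sum_ch (z : Cube d) : ∑ s, ch s z = if z = 0 then 2 ^ d else 0 := by
  have h := Finset.prod_one_add (f := fun i : Fin d => if z i = 0 then (1 : ℝ) else -1) univ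
  rw [powerset_univ] at h
  unfold ch
  rw [← h]
  split_ifs with hz
  · subst hz; simp; norm_num
  · obtain ⟨i, hi⟩ := Function.ne_iff.1 hz
    exact prod_eq_zero (mem_univ i) (by rw [if_neg (show ¬ z i = 0 from hi)]; norm_num)

lemma abs_ch (s : Finset (Fin d)) (z : Cube d) : |ch s z| = 1 := by
  unfold ch
  rw [abs_prod]
  exact prod_eq_one fun i _ => by split_ifs <;> simp

lemma sum_nb_some (n : ℕ) (z : Cube d) :
    ∑ i, nb (n + 1) (some i) z = (d - 1) * nb (n + 1) none z := by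
  simp only [nb_succ_some, sum_sub_distrib, ← nb_succ_none, sum_const, card_univ,
    Fintype.card_fin, nsmul_eq_mul]
  ring

lemma nb_rec (n : ℕ) (z : Cube d) :
    nb (n + 2) none z = ∑ i, nb (n + 1) none (z + un i) - ∑ i, nb n (some i) z := by
  rw [nb_succ_none, ← sum_sub_distrib]
  exact sum_congr rfl fun i _ => by rw [nb_succ_some, add_add_cancel]

lemma nb_fourier (m : ℕ) : (∀ z : Cube d, 2 ^ d * nb (m + 1) none z
      = ∑ s : Finset (Fin d), eig d (d - 2 * s.card) m * ch s z) ∧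
    ∀ z : Cube d, 2 ^ d * nb (m + 2) none z
      = ∑ s : Finset (Fin d), eig d (d - 2 * s.card) (m + 1) * ch s z := by
  have h0 : ∀ (o : Option (Fin d)) (z : Cube d), 2 ^ d * nb 0 o z = ∑ s, ch s z := by
    intro o z; rw [sum_ch]; simp [nb]
  have h1 : ∀ z : Cube d, 2 ^ d * nb 1 none z
      = ∑ s : Finset (Fin d), eig d (d - 2 * s.card) 0 * ch s z := by
    intro z
    rw [nb_succ_none, mul_sum]
    simp only [h0]
    rw [sum_comm]
    exact sum_congr rfl fun s _ => sum_ch_add s z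
  induction m with
  | zero =>
    refine ⟨h1, fun z => ?_⟩
    rw [nb_rec, mul_sub, mul_sum, mul_sum]
    simp only [zero_add, h1, h0]
    rw [sum_comm, sum_comm (s := univ) (t := univ) (f := fun (_ : Fin d) s => ch s z),
      ← sum_sub_distrib]
    refine sum_congr rfl fun s _ => ?_
    rw [← mul_sum, sum_ch_add]
    simp only [eig, sum_const, card_univ, Fintype.card_fin, nsmul_eq_mul]
    ring
  | succ m ih =>
    refine ⟨ih.2, fun z => ?_⟩
    rw [nb_rec, mul_sub, mul_sum, sum_nb_some, mul_left_comm, ih.1]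
    simp only [ih.2]
    rw [sum_comm, mul_sum, ← sum_sub_distrib]
    refine sum_congr rfl fun s _ => ?_
    rw [← mul_sum, sum_ch_add]
    simp only [eig]
    ring

lemma eig_top (D : ℝ) (m : ℕ) : eig D D m = D * (D - 1) ^ m ∧
    eig D D (m + 1) = D * (D - 1) ^ (m + 1) := by
  induction m with
  | zero => simp only [eig]; constructor <;> ring
  | succ m ih => exact ⟨ih.2, by simp only [eig]; rw [ih.1, ih.2]; ring⟩

lemma eig_neg (D x : ℝ) (m : ℕ) : eig D (-x) m = (-1) ^ (m + 1) * eig D x m ∧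
    eig D (-x) (m + 1) = (-1) ^ (m + 2) * eig D x (m + 1) := by
  induction m with
  | zero => simp only [eig]; constructor <;> ring
  | succ m ih => exact ⟨ih.2, by simp only [eig]; rw [ih.1, ih.2]; ring⟩

lemma eig_big {D x : ℝ} (hD : 16 ≤ D) (hx : D / 2 ≤ x) (m : ℕ) :
    0 ≤ eig D x m ∧ x / 2 * eig D x m ≤ eig D x (m + 1) ∧ eig D x m ≤ x ^ (m + 1) ∧
      eig D x (m + 1) ≤ x ^ (m + 2) := by
  have x0 : 0 < x := by linarith
  have x2 : 4 * D ≤ x ^ 2 := by nlinarith
  induction m with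
  | zero =>
    simp only [eig]
    refine ⟨x0.le, by linarith, by simp, by rw [zero_add]; linarith⟩
  | succ m ih =>
    obtain ⟨a, b, c, e⟩ := ih
    have f : 0 ≤ eig D x (m + 1) := le_trans (by positivity) b
    refine ⟨f, ?_, e, ?_⟩
    · simp only [eig]
      have g : (D - 1) * eig D x m ≤ x ^ 2 / 4 * eig D x m :=
        mul_le_mul_of_nonneg_right (by linarith) a
      linarith [mul_le_mul_of_nonneg_left b (show 0 ≤ x / 2 by linarith)]
    · simp only [eig]
      rw [pow_succ x (m + 2)]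
      linarith [mul_le_mul_of_nonneg_left e x0.le, mul_nonneg (show 0 ≤ D - 1 by linarith) a]

lemma eig_small {D x : ℝ} (hD : 16 ≤ D) (hx : |x| ≤ D / 2) (m : ℕ) :
    |eig D x m| ≤ (D / 2 + 2) ^ (m + 1) ∧ |eig D x (m + 1)| ≤ (D / 2 + 2) ^ (m + 2) := by
  induction m with
  | zero =>
    simp only [eig]
    refine ⟨by rw [zero_add, pow_one]; linarith, ?_⟩
    have := pow_le_pow_left₀ (abs_nonneg x) hx 2
    rw [sq_abs] at this
    rw [abs_le]; constructor <;> nlinarith [sq_nonneg x]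
  | succ m ih =>
    refine ⟨ih.2, ?_⟩
    simp only [eig]
    refine (abs_sub _ _).trans ?_
    rw [abs_mul, abs_mul, abs_of_nonneg (show 0 ≤ D - 1 by linarith)]
    have a := mul_le_mul hx ih.2 (abs_nonneg _) (by linarith)
    have b := mul_le_mul_of_nonneg_left ih.1 (show 0 ≤ D - 1 by linarith)
    have c : 0 ≤ (D / 2 + 2) ^ (m + 1) := by positivity
    rw [pow_succ _ (m + 1)] at a
    rw [pow_succ _ (m + 1 + 1), pow_succ _ (m + 1)]
    linarith

lemma eig_abs {D x : ℝ} (hD : 16 ≤ D) (m : ℕ) :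
    |eig D x m| ≤ |x| ^ (m + 1) + (D / 2 + 2) ^ (m + 1) := by
  have p1 : 0 ≤ |x| ^ (m + 1) := by positivity
  have p2 : 0 ≤ (D / 2 + 2) ^ (m + 1) := by positivity
  by_cases h : |x| ≤ D / 2
  · linarith [(eig_small hD h m).1]
  · push Not at h
    obtain ⟨a, -, c, -⟩ := eig_big hD h.le m
    have : |eig D x m| = eig D |x| m := by
      rcases abs_cases x with ⟨h1, -⟩ | ⟨h1, -⟩
      · rw [h1] at a ⊢; exact abs_of_nonneg a
      · rw [h1] at a ⊢
        rw [← abs_of_nonneg a, (eig_neg D x m).1, abs_mul, abs_pow]; simp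
    linarith

lemma contract {D p η j : ℝ} (hD : 16 ≤ D) (p0 : 0 ≤ p) (hp : p * (D - 1) ≤ 1 + η)
    (hη : η * D ≤ 1 / 2) (j1 : 1 ≤ j) (j2 : 2 * j ≤ D) :
    p * (D - 2 * j) ≤ Real.exp (-(j / (2 * D))) := by
  have D0 : 0 < D := by linarith
  have h1 : (D - 2 * j) ≤ (D - 1) * (1 - (2 * j - 1) / D) := by
    have : (D - 1) * (1 - (2 * j - 1) / D) = D - 2 * j + (2 * j - 1) / D := by field_simp; ring
    rw [this]
    have : 0 ≤ (2 * j - 1) / D := div_nonneg (by linarith) D0.le
    linarith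
  have h2 : 0 ≤ 1 - (2 * j - 1) / D := by rw [sub_nonneg, div_le_one D0]; linarith
  have h3 := Real.add_one_le_exp η
  have h4 := Real.add_one_le_exp (-((2 * j - 1) / D))
  calc p * (D - 2 * j) ≤ p * ((D - 1) * (1 - (2 * j - 1) / D)) :=
        mul_le_mul_of_nonneg_left h1 p0
    _ = p * (D - 1) * (1 - (2 * j - 1) / D) := by ring
    _ ≤ Real.exp η * Real.exp (-((2 * j - 1) / D)) :=
        mul_le_mul (by linarith) (by linarith) h2 (Real.exp_pos _).le
    _ ≤ _ := by
        rw [← Real.exp_add, Real.exp_le_exp]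
        have : η = η * D / D := by field_simp
        rw [this, ← sub_nonneg]
        have e : -(j / (2 * D)) - (η * D / D + -((2 * j - 1) / D))
            = (3 * j / 2 - 1 - η * D) / D := by field_simp; ring
        rw [e]
        exact div_nonneg (by linarith) D0.le

/-- Error term in the mixing bound. -/
noncomputable def mixErr (d m : ℕ) : ℝ :=
  2 * ((1 + Real.exp (-(m / (2 * (d : ℝ))))) ^ d - 1) + 2 ^ d * (3 / 4) ^ m

lemma nb_mix_one (hd : 16 ≤ d) {p η : ℝ} (p0 : 0 ≤ p) (hp : p * (d - 1) ≤ 1 + η)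
    (hη : η * d ≤ 1 / 2) (m : ℕ) (z : Cube d) :
    2 ^ d * (p ^ (m + 1) * nb (m + 1) none z) ≤
      (1 + (-1) ^ (m + 1) * ch univ z) * (p ^ (m + 1) * (d * (d - 1) ^ m)) + mixErr d (m + 1) := by
  have hD : (16 : ℝ) ≤ d := by exact_mod_cast hd
  have D0 : (0 : ℝ) < d := by linarith
  have hne : (∅ : Finset (Fin d)) ≠ univ := by
    intro h
    have := congrArg card h
    simp at this; omega
  rw [mul_left_comm, (nb_fourier m).1, mul_sum, ← sum_erase_add _ _ (mem_univ ∅),
    ← sum_erase_add _ _ (mem_erase.2 ⟨hne.symm, mem_univ univ⟩)]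
  have e1 : eig d (d - 2 * ((∅ : Finset (Fin d)).card : ℝ)) m * ch ∅ z = d * (d - 1) ^ m := by
    simp [ch, (eig_top d m).1]
  have e2 : eig d (d - 2 * ((univ : Finset (Fin d)).card : ℝ)) m
      = (-1) ^ (m + 1) * (d * (d - 1) ^ m) := by
    rw [card_univ, Fintype.card_fin, show (d : ℝ) - 2 * d = -d by ring, (eig_neg _ _ m).1,
      (eig_top d m).1]
  rw [e1, e2]
  obtain ⟨ϑ, hϑ⟩ : ∃ ϑ, ϑ = Real.exp (-(((m + 1 : ℕ) : ℝ) / (2 * (d : ℝ)))) := ⟨_, rfl⟩
  have ϑ0 : 0 < ϑ := hϑ ▸ Real.exp_pos _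
  have hpow : ∀ j : ℕ, Real.exp (-((j : ℝ) / (2 * d))) ^ (m + 1) = ϑ ^ j := by
    intro j
    rw [hϑ, ← Real.exp_nat_mul, ← Real.exp_nat_mul]; congr 1; ring
  have η1 : η ≤ 1 / 32 := by
    by_contra hc
    push Not at hc
    nlinarith
  have key : ∀ s ∈ (univ.erase ∅).erase (univ : Finset (Fin d)),
      p ^ (m + 1) * (eig d (d - 2 * s.card) m * ch s z)
        ≤ ϑ ^ s.card + ϑ ^ sᶜ.card + (3 / 4) ^ (m + 1) := by
    intro s hs
    obtain ⟨h1, h2⟩ := mem_erase.1 hs
    have c1 : 1 ≤ s.card := card_pos.2 (nonempty_iff_ne_empty.2 (mem_erase.1 h2).1)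
    have c2 : 1 ≤ sᶜ.card := card_pos.2 (nonempty_iff_ne_empty.2 (by simpa using h1))
    have c3 : (s.card : ℝ) + sᶜ.card = d := by
      have := card_add_card_compl s
      rw [Fintype.card_fin] at this; exact_mod_cast this
    have a1 : eig d (d - 2 * s.card) m * ch s z ≤ |(d : ℝ) - 2 * s.card| ^ (m + 1)
        + ((d : ℝ) / 2 + 2) ^ (m + 1) := by
      refine (le_abs_self _).trans ?_
      rw [abs_mul, abs_ch, mul_one]
      exact eig_abs hD m
    refine (mul_le_mul_of_nonneg_left a1 (pow_nonneg p0 _)).trans ?_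
    rw [mul_add, ← mul_pow, ← mul_pow]
    refine add_le_add ?_ (pow_le_pow_left₀ (by positivity) ?_ _)
    · by_cases hj : 2 * (s.card : ℝ) ≤ d
      · rw [abs_of_nonneg (by linarith)]
        have := pow_le_pow_left₀ (mul_nonneg p0 (by linarith))
          (contract hD p0 hp hη (by exact_mod_cast c1) hj) (m + 1)
        rw [hpow] at this
        linarith [pow_pos ϑ0 sᶜ.card]
      · push Not at hj
        rw [abs_of_neg (by linarith), show -((d : ℝ) - 2 * s.card) = d - 2 * sᶜ.card by linarith]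
        have := pow_le_pow_left₀ (mul_nonneg p0 (by linarith))
          (contract (j := sᶜ.card) hD p0 hp hη (by exact_mod_cast c2) (by linarith)) (m + 1)
        rw [hpow] at this
        linarith [pow_pos ϑ0 s.card]
    · have : p * ((d : ℝ) / 2 + 2) ≤ p * ((d - 1) * (2 / 3)) :=
        mul_le_mul_of_nonneg_left (by linarith) p0
      linarith
  have s1 := sum_le_sum key
  rw [sum_add_distrib, sum_add_distrib] at s1
  have t0 : ∑ s : Finset (Fin d), ϑ ^ s.card = (1 + ϑ) ^ d := by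
    have h := Finset.prod_one_add (f := fun _ : Fin d => ϑ) univ
    rw [powerset_univ] at h
    simpa using h.symm
  have t1 : ∑ s ∈ (univ.erase ∅).erase (univ : Finset (Fin d)), ϑ ^ s.card ≤ (1 + ϑ) ^ d - 1 := by
    rw [← t0, ← sum_erase_add _ _ (mem_univ ∅)]
    simp only [card_empty, pow_zero, add_sub_cancel_right]
    exact sum_le_sum_of_subset_of_nonneg (erase_subset _ _) fun s _ _ => by positivity
  have t2 : ∑ s ∈ (univ.erase ∅).erase (univ : Finset (Fin d)), ϑ ^ sᶜ.card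
      ≤ (1 + ϑ) ^ d - 1 := by
    have : ∑ s : Finset (Fin d), ϑ ^ sᶜ.card = ∑ s : Finset (Fin d), ϑ ^ s.card :=
      Fintype.sum_equiv (Function.Involutive.toPerm compl compl_compl) _ _ fun _ => rfl
    rw [← t0, ← this, ← sum_erase_add _ _ (mem_univ univ)]
    simp only [compl_univ, card_empty, pow_zero, add_sub_cancel_right]
    exact sum_le_sum_of_subset_of_nonneg (erase_subset_erase _ (erase_subset _ _))
      fun s _ _ => by positivity
  have t3 : ∑ s ∈ (univ.erase ∅).erase (univ : Finset (Fin d)), ((3 : ℝ) / 4) ^ (m + 1)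
      ≤ 2 ^ d * (3 / 4) ^ (m + 1) := by
    refine (sum_le_sum_of_subset_of_nonneg (subset_univ _) fun s _ _ => by positivity).trans ?_
    simp
  unfold mixErr
  rw [← hϑ]
  linarith

lemma mixErr_anti (hd : 0 < d) (m : ℕ) : mixErr d (m + 1) ≤ mixErr d m := by
  unfold mixErr
  have D0 : (0 : ℝ) < d := by exact_mod_cast hd
  refine add_le_add (mul_le_mul_of_nonneg_left (sub_le_sub_right (pow_le_pow_left₀
    (by positivity) (add_le_add_right (Real.exp_le_exp.2 (neg_le_neg ?_)) _) _) _)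
    zero_le_two) (mul_le_mul_of_nonneg_left ?_ (by positivity))
  · exact div_le_div_of_nonneg_right (by push_cast; linarith) (by positivity)
  · exact pow_le_pow_of_le_one (by norm_num) (by norm_num) (Nat.le_succ m)

lemma nb_mix (hd : 16 ≤ d) {p η α : ℝ} (p0 : 0 ≤ p) (hp : p * (d - 1) ≤ 1 + η)
    (hη : η * d ≤ 1 / 2) (m : ℕ) (h1 : p ^ (m + 1) * (d * (d - 1) ^ m) ≤ α)
    (h2 : p ^ (m + 2) * (d * (d - 1) ^ (m + 1)) ≤ α) (z : Cube d) :
    2 ^ d * (p ^ (m + 1) * nb (m + 1) none z + p ^ (m + 2) * nb (m + 2) none z)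
      ≤ 2 * (α + mixErr d (m + 1)) := by
  have a1 := nb_mix_one hd p0 hp hη m z
  have a2 := nb_mix_one hd p0 hp hη (m + 1) z
  have a3 := mixErr_anti (d := d) (by omega) (m + 1)
  have c := abs_le.1 (show |(-1 : ℝ) ^ (m + 1) * ch univ z| ≤ 1 by
    rw [abs_mul, abs_ch, abs_pow]; simp)
  rw [pow_succ (-1 : ℝ) (m + 1)] at a2
  linarith [mul_le_mul_of_nonneg_left h1 (show 0 ≤ 1 + (-1) ^ (m + 1) * ch univ z by linarith),
    mul_le_mul_of_nonneg_left h2 (show 0 ≤ 1 - (-1) ^ (m + 1) * ch univ z by linarith)]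

end Pool.Agent.P.MP_068ab5_pr
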