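import Pool.Agent.P.MP_068ab5_pr.TwoPt
import Pool.Agent.P.MP_068ab5_pr.Fourier

/-! Kernel estimates for near critical parameters. -/

namespace Pool.Agent.P.MP_068ab5_pr

open Finset Filter Topology

variable {d : ℕ}

/-- Off diagonal part of the convolution square. -/
noncomputable def Gk (g : Cube d → ℝ) (z : Cube d) : ℝ := if z = 0 then 0 else conv g g z

/-- Eighth root of the dimension. -/
noncomputable def tt (d : ℕ) : ℝ := √(√(√(d : ℝ)))

lemma tt_nonneg (d : ℕ) : 0 ≤ tt d := Real.sqrt_nonneg _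

lemma tt_pow (d : ℕ) : tt d ^ 8 = d := by
  have h1 : tt d ^ 2 = √(√(d : ℝ)) := Real.sq_sqrt (Real.sqrt_nonneg _)
  have h2 : √(√(d : ℝ)) ^ 2 = √(d : ℝ) := Real.sq_sqrt (Real.sqrt_nonneg _)
  have h3 : √(d : ℝ) ^ 2 = d := Real.sq_sqrt (Nat.cast_nonneg _)
  have h4 : tt d ^ 8 = ((tt d ^ 2) ^ 2) ^ 2 := by ring
  rw [h4, h1, h2, h3]

lemma tt_tendsto : Tendsto tt atTop atTop :=
  Real.tendsto_sqrt_atTop.comp (Real.tendsto_sqrt_atTop.comp
    (Real.tendsto_sqrt_atTop.comp tendsto_natCast_atTop_atTop))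

/-- Kernel facts at a parameter `p`. -/
structure Geo (d : ℕ) (p s : ℝ) (g : Cube d → ℝ) (κ : ℝ) : Prop where
  g0 : ∀ z, 0 ≤ g z
  mass : ∑ z, g z ≤ 3 * (d : ℝ) ^ 2
  κ0 : 0 ≤ κ
  κ1 : κ * 2 ^ d ≤ 1 + s
  t2 : ∀ (S : Finset (Cube d)) (U : Finset (Sym2 (Cube d))), U ⊆ E0 d → ∀ b,
    val (fun _ => p) (mem1 b) S U ≤ ∑ a ∈ S, g (a + b) + κ * val (fun _ => p) sz S U
  k1 : ∀ P : Finset (Cube d), (P.card : ℝ) ≤ (d : ℝ) ^ 20 → pairSum P (Gk g) ≤ s * P.card
  k2 : ∑ z, Gk g z * conv g g z ≤ s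
  k3 : ∑ i, conv g g (un i) ≤ 2 * p * d + s / tt d ^ 2

/-- Short walks. -/
noncomputable def Hk (p : ℝ) (j : ℕ) (z : Cube d) : ℝ :=
  ∑ a ∈ range j ×ˢ range j, if a.1 + a.2 = 0 then 0 else p ^ (a.1 + a.2) * wk (a.1 + a.2) z

lemma sum_pairs_le {j : ℕ} (hj : j ≤ 60) {f : ℕ × ℕ → ℝ} {c : ℝ} (c0 : 0 ≤ c)
    (h : ∀ a : ℕ × ℕ, a.1 + a.2 ≤ 120 → f a ≤ c) :
    ∑ a ∈ range j ×ˢ range j, f a ≤ 3600 * c := by
  refine (sum_le_card_nsmul _ _ c fun a ha => h a ?_).trans ?_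
  · simp only [mem_product, mem_range] at ha; omega
  · rw [card_product, card_range, nsmul_eq_mul]
    refine mul_le_mul_of_nonneg_right ?_ c0
    exact_mod_cast Nat.mul_le_mul hj hj

lemma pow_term {p r C : ℝ} (p0 : 0 ≤ p) (r1 : 1 ≤ r) (hp : p * r ^ 2 ≤ 2) {n k : ℕ}
    (hk : k ≤ n) {F : ℝ} (F0 : 0 ≤ F) (hC : F * 2 ^ n ≤ C) :
    p ^ n * (F * r ^ n) ≤ C / r ^ k := by
  have r0 : 0 < r := by linarith
  rw [le_div_iff₀ (by positivity)]
  have h1 : (p * r ^ 2) ^ n ≤ 2 ^ n := pow_le_pow_left₀ (by positivity) hp n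
  have h2 : r ^ k ≤ r ^ n := pow_le_pow_right₀ r1 hk
  calc p ^ n * (F * r ^ n) * r ^ k ≤ p ^ n * (F * r ^ n) * r ^ n :=
        mul_le_mul_of_nonneg_left h2 (by positivity)
    _ = F * (p * r ^ 2) ^ n := by rw [mul_pow, ← pow_mul, mul_comm 2 n, pow_mul]; ring
    _ ≤ _ := (mul_le_mul_of_nonneg_left h1 F0).trans hC

lemma Hk_nonneg {p : ℝ} (p0 : 0 ≤ p) (j : ℕ) (z : Cube d) : 0 ≤ Hk p j z :=
  sum_nonneg fun a _ => by
    split_ifs
    · exact le_rfl
    · exact mul_nonneg (pow_nonneg p0 _) (wk_nonneg _ _)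

section
variable {p r C : ℝ} (p0 : 0 ≤ p) (r1 : 1 ≤ r) (hr : r ^ 2 = d) (hp : p * r ^ 2 ≤ 2)
  (hC : ∀ n ≤ 120, ((n + 1).factorial : ℝ) * 2 ^ n ≤ C) {j : ℕ} (hj : j ≤ 60)
include p0 r1 hr hp hC hj

lemma Hk_sup (z : Cube d) : Hk p j z ≤ 3600 * (C / r) := by
  have C0 : 0 ≤ C := le_trans (by positivity) (hC 0 (by omega))
  refine sum_pairs_le hj (by positivity) fun a ha => ?_
  split_ifs with h
  · positivity
  · have := pow_term p0 r1 hp (n := a.1 + a.2) (k := 1) (by omega) (Nat.cast_nonneg _) (hC _ ha)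
    rw [pow_one] at this
    exact (mul_le_mul_of_nonneg_left (wk_sup r1 hr _ z) (pow_nonneg p0 _)).trans this

lemma Hk_mass : ∑ z : Cube d, Hk p j z ≤ 3600 * C := by
  have C0 : 0 ≤ C := le_trans (by positivity) (hC 0 (by omega))
  unfold Hk
  rw [sum_comm]
  refine sum_pairs_le hj (by positivity) fun a ha => ?_
  split_ifs with h
  · simpa using C0
  · rw [← mul_sum, wk_mass, ← mul_pow, ← hr]
    refine (pow_le_pow_left₀ (by positivity) hp _).trans (le_trans ?_ (hC _ ha))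
    exact le_mul_of_one_le_left (by positivity) (by exact_mod_cast Nat.factorial_pos _)

lemma Hk_pair {B : ℝ} (B0 : 0 ≤ B) (P : Finset (Cube d))
    (h : ∀ n ≤ 120, (P.card : ℝ) * (n * 2 ^ 7 + 1).factorial ≤ B ^ 2 ^ 7) :
    pairSum P (Hk p j) ≤ 3600 * (P.card * (B * (C / r))) := by
  have C0 : 0 ≤ C := le_trans (by positivity) (hC 0 (by omega))
  unfold pairSum Hk
  rw [sum_congr rfl fun x _ => sum_comm, sum_comm]
  refine sum_pairs_le hj (by positivity) fun a ha => ?_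
  split_ifs with h0
  · simp only [sum_const_zero]; positivity
  · simp only [← mul_sum]
    have h1 := pairSum_wk_le r1 hr B0 P 7 _ (h _ ha)
    have h2 := pow_term p0 r1 hp (n := a.1 + a.2) (k := 1) (by omega) zero_le_one
      (le_trans (mul_le_mul_of_nonneg_right (by exact_mod_cast Nat.factorial_pos _)
        (by positivity)) (hC _ ha))
    rw [pow_one, one_mul] at h2
    have h3 := mul_le_mul_of_nonneg_left h2 (show 0 ≤ (P.card : ℝ) * B by positivity)
    have h4 := mul_le_mul_of_nonneg_left h1 (pow_nonneg p0 (a.1 + a.2))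
    unfold pairSum at h4
    linarith

lemma Hk_un (i : Fin d) : Hk p j (un i) ≤ 2 * p + 3600 * (C / r ^ 3) := by
  have C0 : 0 ≤ C := le_trans (by positivity) (hC 0 (by omega))
  have r0 : 0 < r := by linarith
  have h1 : Hk p j (un i) ≤ ∑ a ∈ range j ×ˢ range j, (if a.1 + a.2 = 1 then p else 0)
      + ∑ a ∈ range j ×ˢ range j, if a.1 + a.2 ≤ 1 then 0
        else p ^ (a.1 + a.2) * wk (a.1 + a.2) (un i) := by
    rw [← sum_add_distrib]
    refine sum_le_sum fun a _ => ?_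
    by_cases h0 : a.1 + a.2 = 0
    · simp [h0]
    by_cases h1 : a.1 + a.2 = 1
    · simp [h1, wk_one_un]
    · rw [if_neg h0, if_neg h1, if_neg (by omega), zero_add]
  have h2 : ∑ a ∈ range j ×ˢ range j, (if a.1 + a.2 = 1 then p else 0) ≤ 2 * p := by
    rw [← sum_filter, sum_const, nsmul_eq_mul]
    refine mul_le_mul_of_nonneg_right ?_ p0
    have : ((range j ×ˢ range j).filter fun a => a.1 + a.2 = 1) ⊆ {(0, 1), (1, 0)} := by
      rintro ⟨a, b⟩ hab
      have := (mem_filter.1 hab).2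
      simp only [mem_insert, mem_singleton, Prod.mk.injEq] at this ⊢
      omega
    exact_mod_cast (card_le_card this).trans card_le_two
  refine h1.trans (add_le_add h2 (sum_pairs_le hj (by positivity) fun a ha => ?_))
  split_ifs with h
  · positivity
  · have h3 := pow_term p0 r1 hp (n := a.1 + a.2) (k := 2) (by omega) (Nat.cast_nonneg _) (hC _ ha)
    have h4 := wk_le r0 hr (a.1 + a.2) (un i)
    rw [hw_un, pow_one] at h4
    have h5 := (mul_le_mul_of_nonneg_left h4 (pow_nonneg p0 (a.1 + a.2))).trans h3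
    rw [pow_succ r 2, ← div_div, le_div_iff₀ r0]
    linarith

lemma conv_gk_le {M : ℕ} (hM : j ≤ M) {μ : ℝ}
    (hα : ∀ k < M, p ^ k * ∑ z : Cube d, nb k none z ≤ 3) (hμ : 3 * M ≤ μ) {z : Cube d}
    (hz : z ≠ 0) : conv (gk p M) (gk p M) z ≤ Hk p j z + 2 * μ ^ 2 * (C / r ^ j) := by
  have C0 : 0 ≤ C := le_trans (by positivity) (hC 0 (by omega))
  let gb : Cube d → ℝ := fun z => ∑ k ∈ Ico j M, p ^ k * nb k none z
  have t0 : ∀ k (z : Cube d), 0 ≤ p ^ k * nb k none z := fun k z =>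
    mul_nonneg (pow_nonneg p0 _) (nb_nonneg _ _ _)
  have g0 : ∀ N (z : Cube d), 0 ≤ gk p N z := fun N z => sum_nonneg fun k _ => t0 k z
  have hsplit : ∀ z, gk p M z = gk p j z + gb z := fun z =>
    (sum_range_add_sum_Ico _ hM).symm
  have hmass : ∀ N ≤ M, ∑ z : Cube d, gk p N z ≤ μ := by
    intro N hN
    unfold gk
    rw [sum_comm]
    simp only [← mul_sum]
    refine (sum_le_card_nsmul _ _ 3 fun k hk => hα k (by have := mem_range.1 hk; omega)).trans ?_
    have : (N : ℝ) ≤ M := by exact_mod_cast hN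
    simp only [card_range, nsmul_eq_mul]
    linarith
  have x0 : 0 ≤ C / r ^ j := by positivity
  have hb : ∀ z, gb z ≤ μ * (C / r ^ j) := by
    intro z
    refine (sum_le_card_nsmul _ _ (3 * (C / r ^ j)) fun k hk => ?_).trans ?_
    · obtain ⟨h1, h2⟩ := mem_Ico.1 hk
      obtain ⟨i, rfl⟩ : ∃ i, k = i + j := ⟨k - j, by omega⟩
      have a1 := (nb_le_conv j i z).trans (conv_le_left (wk_sup r1 hr j) (nb_nonneg i none) z)
      have a2 := pow_term p0 r1 hp (le_refl j) (Nat.cast_nonneg _) (hC j (by omega))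
      have a3 := mul_le_mul (hα i (by omega)) a2 (by positivity) (by norm_num)
      have a4 := mul_le_mul_of_nonneg_left a1 (pow_nonneg p0 (i + j))
      rw [pow_add] at a4 ⊢
      linarith
    · have : ((Ico j M).card : ℝ) ≤ M := by
        rw [Nat.card_Ico]; exact_mod_cast Nat.sub_le _ _
      rw [nsmul_eq_mul]
      linarith [mul_le_mul_of_nonneg_right this x0, mul_le_mul_of_nonneg_right hμ x0]
  have μ0 : 0 ≤ μ := le_trans (by positivity) hμ
  have e1 : conv (gk p M) (gk p M) z = conv (gk p j) (gk p j) z + conv (gk p j) gb z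
      + conv gb (gk p M) z := by
    unfold conv
    rw [← sum_add_distrib, ← sum_add_distrib]
    exact sum_congr rfl fun w _ => by rw [hsplit w, hsplit (z + w)]; ring
  have e2 := (conv_le_right (g0 j) hb z).trans
    (mul_le_mul_of_nonneg_right (hmass j hM) (by positivity))
  have e3 := (conv_le_left hb (g0 M) z).trans
    (mul_le_mul_of_nonneg_left (hmass M le_rfl) (by positivity))
  have e4 : conv (gk p j) (gk p j) z ≤ Hk p j z := by
    unfold conv gk Hk
    simp only [sum_mul_sum]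
    rw [sum_product, sum_comm]
    refine sum_le_sum fun i _ => ?_
    rw [sum_comm]
    refine sum_le_sum fun k _ => ?_
    have a1 : ∑ w, p ^ i * nb i none w * (p ^ k * nb k none (z + w))
        ≤ p ^ (i + k) * conv (wk i) (wk k) z := by
      unfold conv
      rw [mul_sum]
      refine sum_le_sum fun w _ => ?_
      have := mul_le_mul (nb_le_wk i w) (nb_le_wk k (z + w)) (nb_nonneg _ _ _) (wk_nonneg _ _)
      rw [pow_add]
      linarith [mul_le_mul_of_nonneg_left this (mul_nonneg (pow_nonneg p0 i) (pow_nonneg p0 k))]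
    rw [conv_wk_wk, add_comm k i] at a1
    refine a1.trans (le_of_eq ?_)
    split_ifs with h
    · rw [h]; simp [wk, hz]
    · rfl
  linarith

end

/-- Mixing constant as a function of the eighth root. -/
noncomputable def errT (t : ℝ) : ℝ :=
  (1 + 2 / t ^ 8) * Real.exp (15 / t) + (2 * (Real.exp (t ^ 8 * Real.exp (-(t / 2))) - 1) + 1 / t ^ 8)

lemma errT_tendsto : Tendsto errT atTop (𝓝 1) := by
  have h1 : ∀ c : ℝ, Tendsto (fun t : ℝ => c / t ^ 8) atTop (𝓝 0) := fun c =>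
    tendsto_const_nhds.div_atTop (tendsto_pow_atTop (by norm_num))
  have h2 : Tendsto (fun t : ℝ => Real.exp (15 / t)) atTop (𝓝 1) := by
    have := (Real.continuous_exp.tendsto 0).comp
      ((tendsto_const_nhds (x := (15 : ℝ))).div_atTop tendsto_id)
    rw [Real.exp_zero] at this
    exact this
  have h3 : Tendsto (fun t : ℝ => t ^ 8 * Real.exp (-(t / 2))) atTop (𝓝 0) := by
    have := ((Real.tendsto_pow_mul_exp_neg_atTop_nhds_zero 8).comp
      (tendsto_id.atTop_div_const (show (0 : ℝ) < 2 by norm_num))).const_mul ((2 : ℝ) ^ 8)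
    rw [mul_zero] at this
    refine this.congr fun t => ?_
    simp only [Function.comp, id]; ring
  have h4 := (Real.continuous_exp.tendsto 0).comp h3
  have := (((h1 2).const_add 1).mul h2).add (((h4.sub_const 1).const_mul 2).add (h1 1))
  simp only [Real.exp_zero, add_zero, mul_one, sub_self, mul_zero] at this
  exact this

lemma geo_of {p s C F : ℝ} (hC : ∀ n ≤ 120, ((n + 1).factorial : ℝ) * 2 ^ n ≤ C)
    (hF : ∀ n ≤ 120, ((n * 2 ^ 7 + 1).factorial : ℝ) ≤ F) (C1 : 1 ≤ C) (ht : 30 ≤ tt d)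
    (h1 : F ≤ tt d ^ 96) (h2 : errT (tt d) ≤ 1 + s) (h3 : 10 ^ 8 * C ^ 2 ≤ s * tt d ^ 2)
    (p0 : 0 ≤ p) (hp : p * (d - 1) ≤ 1 + 5 / tt d ^ 10) : ∃ g κ, Geo d p s g κ := by
  obtain ⟨t, htt⟩ : ∃ t, t = tt d := ⟨_, rfl⟩
  have hd : t ^ 8 = d := htt ▸ tt_pow d
  rw [← htt] at ht h1 h2 h3 hp
  have t1 : 1 ≤ t := by linarith
  have t0 : 0 < t := by linarith
  have tp : ∀ {a b : ℕ}, a ≤ b → t ^ a ≤ t ^ b := fun h => pow_le_pow_right₀ t1 h
  have t2 : 900 ≤ t ^ 2 := by nlinarith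
  have d1 : (900 : ℝ) ≤ d := by linarith [tp (show 2 ≤ 8 by norm_num)]
  have d2 : 16 ≤ d := by exact_mod_cast (show (16 : ℝ) ≤ d by linarith)
  obtain ⟨η, hη⟩ : ∃ η, η = 5 / t ^ 10 := ⟨_, rfl⟩
  rw [← hη] at hp
  have η0 : 0 < η := by rw [hη]; positivity
  have η1 : η * d ≤ 1 / 2 := by
    rw [hη, ← hd, div_mul_eq_mul_div, div_le_iff₀ (by positivity)]
    have : t ^ 10 = t ^ 2 * t ^ 8 := by ring
    nlinarith [pow_pos t0 8]
  have η2 : η ≤ 1 / 1000 := by nlinarith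
  have pd : p * d ≤ (1 + 2 / t ^ 8) * (1 + η) := by
    have a1 : (d : ℝ) ≤ (1 + 2 / t ^ 8) * (d - 1) := by
      rw [hd]
      have : (1 + 2 / (d : ℝ)) * (d - 1) = d + (1 - 2 / d) := by field_simp; ring
      rw [this]
      have : 2 / (d : ℝ) ≤ 1 := by rw [div_le_one (by linarith)]; linarith
      linarith
    have a2 := mul_le_mul_of_nonneg_left hp (show 0 ≤ 1 + 2 / t ^ 8 by positivity)
    linarith [mul_le_mul_of_nonneg_left a1 p0]
  have s8 : 2 / t ^ 8 ≤ 1 / 2 := by rw [hd, div_le_iff₀ (by linarith)]; linarith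
  have pd2 : p * (t ^ 4) ^ 2 ≤ 2 := by
    rw [← pow_mul, hd]; nlinarith [show 0 ≤ 2 / t ^ 8 by positivity]
  have p1 : p ≤ 1 := by nlinarith
  obtain ⟨m, hm⟩ : ∃ m, ⌈t ^ 9⌉₊ = m + 1 :=
    Nat.exists_eq_succ_of_ne_zero (Nat.ceil_pos.2 (by positivity)).ne'
  have m1 : t ^ 9 ≤ m + 1 := by have := Nat.le_ceil (t ^ 9); rw [hm] at this; exact_mod_cast this
  have m2 : (m : ℝ) ≤ t ^ 9 := by
    have := Nat.ceil_lt_add_one (show 0 ≤ t ^ 9 by positivity)
    rw [hm] at this; push_cast at this; linarith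
  have t9 : t ^ 9 = t * d := by rw [← hd]; ring
  obtain ⟨α, hαd⟩ : ∃ α, α = (1 + 2 / t ^ 8) * Real.exp (15 / t) := ⟨_, rfl⟩
  have hα : ∀ j ≤ m + 1, p ^ (j + 1) * (d * ((d : ℝ) - 1) ^ j) ≤ α := by
    intro j hj
    have a1 : (p * (d - 1)) ^ j ≤ (1 + η) ^ j :=
      pow_le_pow_left₀ (mul_nonneg p0 (by linarith)) hp j
    have a2 : (1 + η) ^ (j + 1) ≤ Real.exp (15 / t) := by
      refine (pow_le_pow_left₀ (by linarith) (show 1 + η ≤ Real.exp η by
        linarith [Real.add_one_le_exp η]) _).trans ?_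
      rw [← Real.exp_nat_mul, Real.exp_le_exp, hη, le_div_iff₀ t0]
      have b1 : (j : ℝ) ≤ m + 1 := by exact_mod_cast hj
      have b2 : ((j + 1 : ℕ) : ℝ) ≤ 3 * t ^ 9 := by
        push_cast; linarith [one_le_pow₀ (n := 9) t1]
      have b3 : 5 / t ^ 10 * t = 5 / t ^ 9 := by field_simp
      rw [mul_assoc, b3, ← mul_div_assoc, div_le_iff₀ (by positivity)]
      linarith
    calc p ^ (j + 1) * (d * ((d : ℝ) - 1) ^ j) = p * d * (p * (d - 1)) ^ j := by
          rw [mul_pow]; ring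
      _ ≤ (1 + 2 / t ^ 8) * (1 + η) * (1 + η) ^ j :=
          mul_le_mul pd a1 (pow_nonneg (mul_nonneg p0 (by linarith)) _) (by positivity)
      _ = (1 + 2 / t ^ 8) * (1 + η) ^ (j + 1) := by ring
      _ ≤ α := hαd ▸ mul_le_mul_of_nonneg_left a2 (by positivity)
  have α3 : α ≤ 3 := by
    have a1 : Real.exp (15 / t) ≤ 2 := by
      have b1 : 15 / t ≤ 1 / 2 := by rw [div_le_iff₀ t0]; linarith
      have b2 := Real.exp_bound' (x := 1 / 2) (by norm_num) (by norm_num) (n := 1) (by norm_num)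
      norm_num at b2
      linarith [Real.exp_le_exp.2 b1]
    rw [hαd]
    linarith [mul_le_mul (show 1 + 2 / t ^ 8 ≤ 3 / 2 by linarith) a1 (Real.exp_pos _).le
      (by norm_num)]
  have hmix : mixErr d (m + 1)
      ≤ 2 * (Real.exp (t ^ 8 * Real.exp (-(t / 2))) - 1) + 1 / t ^ 8 := by
    unfold mixErr
    refine add_le_add (mul_le_mul_of_nonneg_left (sub_le_sub_right ?_ _) zero_le_two) ?_
    · have a1 : Real.exp (-(((m + 1 : ℕ) : ℝ) / (2 * d))) ≤ Real.exp (-(t / 2)) := by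
        rw [Real.exp_le_exp, neg_le_neg_iff, le_div_iff₀ (by linarith)]
        push_cast; linarith
      rw [hd, Real.exp_nat_mul]
      have a2 := Real.add_one_le_exp (Real.exp (-(t / 2)))
      exact pow_le_pow_left₀ (by positivity) (by linarith) _
    · have a1 : 5 * d ≤ m + 1 := by
        have : (5 * d : ℝ) ≤ m + 1 := by nlinarith
        exact_mod_cast this
      have a2 : ((3 : ℝ) / 4) ^ (m + 1) ≤ (3 / 4) ^ (5 * d) :=
        pow_le_pow_of_le_one (by norm_num) (by norm_num) a1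
      have a3 : (2 : ℝ) ^ d * (3 / 4) ^ (5 * d) ≤ (1 / 2) ^ d := by
        rw [pow_mul, ← mul_pow]; exact pow_le_pow_left₀ (by positivity) (by norm_num) _
      have a4 : ((1 : ℝ) / 2) ^ d ≤ 1 / d := by
        rw [one_div_pow]
        exact one_div_le_one_div_of_le (by linarith) (by exact_mod_cast Nat.lt_two_pow_self.le)
      rw [hd]
      linarith [mul_le_mul_of_nonneg_left a2 (show (0 : ℝ) ≤ 2 ^ d by positivity)]
  have hmass : ∀ j < m + 2, p ^ j * ∑ z : Cube d, nb j none z ≤ 3 := by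
    intro j hj
    cases j with
    | zero => simp [nb]
    | succ j => rw [nb_mass]; exact (hα j (by omega)).trans α3
  have hμ : 3 * ((m + 2 : ℕ) : ℝ) ≤ 3 * (d : ℝ) ^ 2 := by
    push_cast
    have : t ≤ d / 2 := by nlinarith [tp (show 2 ≤ 8 by norm_num)]
    nlinarith
  have hr : (t ^ 4) ^ 2 = d := by rw [← pow_mul, hd]
  have r1 : 1 ≤ t ^ 4 := one_le_pow₀ t1
  obtain ⟨j, hj⟩ : ∃ j : ℕ, j = 60 := ⟨_, rfl⟩
  have hM : j ≤ m + 2 := by
    have : (60 : ℝ) ≤ m + 2 := by nlinarith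
    rw [hj]
    exact_mod_cast this
  have g0 : ∀ z : Cube d, 0 ≤ gk p (m + 2) z := fun z => sum_nonneg fun j _ =>
    mul_nonneg (pow_nonneg p0 _) (nb_nonneg _ _ _)
  have gm : ∑ z : Cube d, gk p (m + 2) z ≤ 3 * (d : ℝ) ^ 2 := by
    unfold gk
    rw [sum_comm]
    simp only [← mul_sum]
    refine (sum_le_card_nsmul _ _ 3 fun j hj => hmass j (mem_range.1 hj)).trans ?_
    simp only [card_range, nsmul_eq_mul]
    linarith
  obtain ⟨c, hc⟩ : ∃ c, c = 18 * C / t ^ 208 := ⟨_, rfl⟩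
  have c0 : 0 ≤ c := by rw [hc]; positivity
  have hcv : ∀ z : Cube d, z ≠ 0 → conv (gk p (m + 2)) (gk p (m + 2)) z ≤ Hk p j z + c := by
    intro z hz
    refine (conv_gk_le p0 r1 hr pd2 hC hj.le hM hmass hμ hz).trans (le_of_eq ?_)
    rw [hc, ← hd, hj]; field_simp; ring
  have hG : ∀ z : Cube d, Gk (gk p (m + 2)) z ≤ Hk p j z + c := by
    intro z
    unfold Gk
    split_ifs with hz
    · linarith [Hk_nonneg p0 j z]
    · exact hcv z hz
  have G0 : ∀ z : Cube d, 0 ≤ Gk (gk p (m + 2)) z := fun z => by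
    unfold Gk; split_ifs
    · exact le_rfl
    · exact conv_nonneg g0 g0 z
  have cb : ∀ k ≤ 204, c * t ^ k ≤ 18 * C / t ^ 4 := by
    intro k hk
    rw [hc, div_mul_eq_mul_div, div_le_div_iff₀ (by positivity) (by positivity), mul_assoc,
      ← pow_add]
    exact mul_le_mul_of_nonneg_left (tp (by omega)) (by positivity)
  have u1 : C / t ^ 4 ≤ C / t ^ 2 := div_le_div_of_nonneg_left (by linarith) (by positivity)
    (tp (by norm_num))
  have u2 : C * (C / t ^ 2) ≤ s / 10 ^ 8 := by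
    rw [← mul_div_assoc, div_le_div_iff₀ (by positivity) (by positivity)]; linarith
  have u0 : 0 ≤ C / t ^ 2 := by positivity
  have u3 : C / t ^ 2 ≤ s / 10 ^ 8 := le_trans (le_mul_of_one_le_left u0 C1) u2
  have s0 : 0 ≤ s := by linarith
  refine ⟨gk p (m + 2), (α + mixErr d (m + 1)) / 2 ^ d, g0, gm, ?_, ?_, ?_, ?_, ?_, ?_⟩
  · have a1 := nb_mix d2 p0 hp η1 m (hα m (by omega)) (hα (m + 1) le_rfl) 0
    have a2 : 0 ≤ p ^ (m + 1) * nb (m + 1) none (0 : Cube d)
        + p ^ (m + 2) * nb (m + 2) none (0 : Cube d) :=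
      add_nonneg (mul_nonneg (pow_nonneg p0 _) (nb_nonneg _ _ _))
        (mul_nonneg (pow_nonneg p0 _) (nb_nonneg _ _ _))
    refine div_nonneg ?_ (by positivity)
    linarith [mul_nonneg (show (0 : ℝ) ≤ 2 ^ d by positivity) a2]
  · rw [div_mul_cancel₀ _ (by positivity)]
    unfold errT at h2
    linarith
  · intro S U hU b
    refine two_point p0 p1 (m + 1) (fun z => ?_) S hU b
    have := nb_mix d2 p0 hp η1 m (hα m (by omega)) (hα (m + 1) le_rfl) z
    rw [← mul_div_assoc, le_div_iff₀ (by positivity)]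
    linarith
  · intro P hP
    have P0 : (0 : ℝ) ≤ P.card := Nat.cast_nonneg _
    rw [← hd, ← pow_mul] at hP
    have a1 := Hk_pair p0 r1 hr pd2 hC hj.le (B := t ^ 2) (by positivity) P fun n hn => by
      rw [← pow_mul]
      exact (mul_le_mul hP ((hF n hn).trans h1) (Nat.cast_nonneg _) (by positivity)).trans
        (by rw [← pow_add]; exact tp (by norm_num))
    have a2 : pairSum P (Gk (gk p (m + 2))) ≤ pairSum P (Hk p j) + P.card * (P.card * c) := by
      unfold pairSum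
      refine (sum_le_sum fun x _ => sum_le_sum fun a _ => hG (x + a)).trans (le_of_eq ?_)
      simp [sum_add_distrib]
    have a3 : t ^ 2 * (C / t ^ 4) = C / t ^ 2 := by field_simp
    rw [a3] at a1
    have a4 : P.card * c ≤ 18 * C / t ^ 4 :=
      le_trans (by rw [mul_comm]; exact mul_le_mul_of_nonneg_left hP c0) (cb _ (by norm_num))
    have a5 : 3600 * (C / t ^ 2) + P.card * c ≤ s := by
      rw [mul_div_assoc] at a4; linarith
    linarith [mul_le_mul_of_nonneg_left a5 P0]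
  · have a1 : ∀ z : Cube d, Gk (gk p (m + 2)) z * conv (gk p (m + 2)) (gk p (m + 2)) z
        ≤ (3600 * (C / t ^ 4) + c) * Hk p j z + c * conv (gk p (m + 2)) (gk p (m + 2)) z := by
      intro z
      have b1 := Hk_sup p0 r1 hr pd2 hC hj.le z
      have b2 := Hk_nonneg p0 j z
      have b3 := conv_nonneg g0 g0 z
      unfold Gk
      split_ifs with hz
      · rw [zero_mul]; positivity
      · have b4 := hcv z hz
        linarith [mul_le_mul_of_nonneg_right b4 b3, mul_le_mul_of_nonneg_left b4 b2,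
          mul_le_mul_of_nonneg_left b1 b2]
    refine (sum_le_sum fun z _ => a1 z).trans ?_
    rw [sum_add_distrib, ← mul_sum, ← mul_sum, conv_mass]
    have a2 := mul_le_mul_of_nonneg_left (Hk_mass p0 r1 hr pd2 hC hj.le)
      (show 0 ≤ 3600 * (C / t ^ 4) + c by positivity)
    have a3 := mul_le_mul_of_nonneg_left
      (mul_le_mul gm gm (sum_nonneg fun z _ => g0 z) (by positivity)) c0
    have a4 := cb 32 (by norm_num)
    have a5 := cb 0 (by norm_num)
    have a6 : c * (3 * (d : ℝ) ^ 2 * (3 * (d : ℝ) ^ 2)) = 9 * (c * t ^ 32) := by rw [← hd]; ring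
    rw [mul_div_assoc] at a4 a5
    rw [pow_zero, mul_one] at a5
    have a7 := mul_le_mul_of_nonneg_left (show 3600 * (C / t ^ 4) + c ≤ 3618 * (C / t ^ 2) by
      linarith) (show 0 ≤ 3600 * C by linarith)
    linarith
  · refine (sum_le_card_nsmul _ _ _ fun i _ => (hcv _ (un_ne_zero i)).trans
      (add_le_add_left (Hk_un p0 r1 hr pd2 hC hj.le i) c)).trans ?_
    rw [card_univ, Fintype.card_fin, nsmul_eq_mul, ← htt]
    have a1 : (d : ℝ) * (C / (t ^ 4) ^ 3) = C / t ^ 4 := by rw [← hd]; field_simp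
    have a2 := cb 8 (by norm_num)
    rw [hd, mul_div_assoc] at a2
    have a3 : C / t ^ 4 = C / t ^ 2 / t ^ 2 := by field_simp
    have a4 : C / t ^ 2 / t ^ 2 ≤ s / 10 ^ 8 / t ^ 2 :=
      div_le_div_of_nonneg_right u3 (by positivity)
    have a5 : s / 10 ^ 8 / t ^ 2 = s / t ^ 2 / 10 ^ 8 := by field_simp
    have a6 : 0 ≤ s / t ^ 2 := by positivity
    linarith

theorem geo_eventually {s : ℝ} (hs : 0 < s) : ∀ᶠ d in atTop, ∀ p : ℝ, 0 ≤ p →
    p * (d - 1) ≤ 1 + 5 / tt d ^ 10 → ∃ g κ, Geo d p s g κ := by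
  obtain ⟨C, hC⟩ : ∃ C : ℝ, ∀ n ≤ 120, ((n + 1).factorial : ℝ) * 2 ^ n ≤ C :=
    ⟨∑ n ∈ range 121, ((n + 1).factorial : ℝ) * 2 ^ n, fun n hn =>
      single_le_sum (f := fun n => ((n + 1).factorial : ℝ) * 2 ^ n) (fun _ _ => by positivity)
        (mem_range.2 (by omega))⟩
  obtain ⟨F, hF⟩ : ∃ F : ℝ, ∀ n ≤ 120, ((n * 2 ^ 7 + 1).factorial : ℝ) ≤ F :=
    ⟨∑ n ∈ range 121, ((n * 2 ^ 7 + 1).factorial : ℝ), fun n hn =>
      single_le_sum (f := fun n => ((n * 2 ^ 7 + 1).factorial : ℝ)) (fun _ _ => by positivity)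
        (mem_range.2 (by omega))⟩
  have C1 : 1 ≤ C := by simpa using hC 0 (by omega)
  have e1 := tt_tendsto.eventually (eventually_ge_atTop 30)
  have e2 := ((tendsto_pow_atTop (show 96 ≠ 0 by norm_num)).comp tt_tendsto).eventually
    (eventually_ge_atTop F)
  have e3 := (errT_tendsto.comp tt_tendsto).eventually (ge_mem_nhds (show 1 < 1 + s by linarith))
  have e4 := (((tendsto_pow_atTop (show 2 ≠ 0 by norm_num)).comp tt_tendsto).const_mul_atTop
    hs).eventually (eventually_ge_atTop (10 ^ 8 * C ^ 2))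
  filter_upwards [e1, e2, e3, e4] with d h0 h1 h2 h3 p p0 hp
  exact geo_of hC hF C1 h0 h1 h2 h3 p0 hp

end Pool.Agent.P.MP_068ab5_pr
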