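import Pool.Agent.P.MP_068ab5_pr.Perc

/-! From single clusters to the whole configuration. -/

namespace Pool.Agent.P.MP_068ab5_pr

open Finset
open scoped Classical

set_option linter.unusedSectionVars false

section Pr

variable {E : Type*} [DecidableEq E] {s : Finset E} {q : E → ℝ} {P Q R : Finset E → Prop}

/-- Indicator of a proposition. -/
noncomputable def ind (a : Prop) : ℝ := if a then 1 else 0

lemma ind_pos {a : Prop} (h : a) : ind a = 1 := if_pos h
lemma ind_neg {a : Prop} (h : ¬ a) : ind a = 0 := if_neg h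
lemma ind_nonneg (a : Prop) : 0 ≤ ind a := by unfold ind; split_ifs <;> norm_num
lemma ind_le_one (a : Prop) : ind a ≤ 1 := by unfold ind; split_ifs <;> norm_num

/-- Probability of an event. -/
noncomputable def Pr (s : Finset E) (q : E → ℝ) (P : Finset E → Prop) : ℝ :=
  Ex s q fun ω => ind (P ω)

lemma Pr_markov (hq : P01 q) {X : Finset E → ℝ} {m : ℝ} (h0 : ∀ ω ⊆ s, 0 ≤ X ω)
    (h : ∀ ω ⊆ s, P ω → m ≤ X ω) : Pr s q P * m ≤ Ex s q X := by
  unfold Pr
  rw [← Ex_mul]
  refine Ex_mono hq fun ω hω => ?_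
  by_cases hp : P ω
  · rw [ind_pos hp, one_mul]; exact h ω hω hp
  · rw [ind_neg hp, zero_mul]; exact h0 ω hω

lemma Pr_or (hq : P01 q) (h : ∀ ω ⊆ s, P ω → Q ω ∨ R ω) : Pr s q P ≤ Pr s q Q + Pr s q R := by
  unfold Pr
  rw [← Ex_add]
  refine Ex_mono hq fun ω hω => ?_
  have h1 := ind_nonneg (Q ω)
  have h2 := ind_nonneg (R ω)
  by_cases hp : P ω
  · rcases h ω hω hp with h3 | h3 <;> rw [ind_pos hp, ind_pos h3] <;> linarith
  · rw [ind_neg hp]; linarith

lemma Pr_mono (hq : P01 q) (h : ∀ ω ⊆ s, P ω → Q ω) : Pr s q P ≤ Pr s q Q := by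
  refine Ex_mono hq fun ω hω => ?_
  by_cases hp : P ω
  · rw [ind_pos hp, ind_pos (h ω hω hp)]
  · rw [ind_neg hp]; exact ind_nonneg _

lemma Pr_nonneg (hq : P01 q) : 0 ≤ Pr s q P := Ex_nonneg hq fun _ => ind_nonneg _

lemma Pr_le_one (hq : P01 q) : Pr s q P ≤ 1 := Ex_le_const hq fun _ _ => ind_le_one _

end Pr

variable {V : Type*} [Fintype V] [DecidableEq V]

/-- Indicator of a large set. -/
noncomputable def gt (k : ℝ) (B : Finset V) : ℝ := if k + 1 ≤ sz B then 1 else 0
/-- Indicator of a size window. -/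
noncomputable def win (k m : ℝ) (B : Finset V) : ℝ :=
  if k + 1 ≤ sz B ∧ sz B ≤ m + 1 then 1 else 0
/-- Size of a small set. -/
noncomputable def low (k : ℝ) (B : Finset V) : ℝ := if k + 1 ≤ sz B then 0 else sz B
/-- Some cluster is large. -/
def Big (k : ℝ) (ω : Finset (Sym2 V)) : Prop := ∃ x, k + 1 ≤ sz (reach ω {x})
/-- Some cluster lies in a window. -/
def Win (k m : ℝ) (ω : Finset (Sym2 V)) : Prop :=
  ∃ x, k + 1 ≤ sz (reach ω {x}) ∧ sz (reach ω {x}) ≤ m + 1
/-- Two clusters are large. -/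
def Two (k : ℝ) (ω : Finset (Sym2 V)) : Prop :=
  ∃ x y, y ∉ reach ω {x} ∧ k + 1 ≤ sz (reach ω {x}) ∧ k + 1 ≤ sz (reach ω {y})
/-- Sum of a cluster functional over all vertices. -/
noncomputable def cnt (F : Finset V → ℝ) (ω : Finset (Sym2 V)) : ℝ := ∑ x, F (reach ω {x})

lemma gt_nonneg (k : ℝ) (B : Finset V) : 0 ≤ gt k B := by unfold gt; split_ifs <;> norm_num
lemma gt_le_one (k : ℝ) (B : Finset V) : gt k B ≤ 1 := by unfold gt; split_ifs <;> norm_num
lemma win_nonneg (k m : ℝ) (B : Finset V) : 0 ≤ win k m B := by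
  unfold win; split_ifs <;> norm_num
lemma win_le_one (k m : ℝ) (B : Finset V) : win k m B ≤ 1 := by
  unfold win; split_ifs <;> norm_num
lemma win_le_gt (k m : ℝ) (B : Finset V) : win k m B ≤ gt k B := by
  unfold win gt; split_ifs with h1 h2 <;> first | exact absurd h1.1 h2 | norm_num
lemma gt_sub_le_win (k m : ℝ) (B : Finset V) : gt k B - gt m B ≤ win k m B := by
  unfold win gt
  by_cases h1 : k + 1 ≤ sz B <;> by_cases h2 : m + 1 ≤ sz B
  · simp only [h1, h2, if_true]; split_ifs <;> norm_num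
  · simp [h1, h2, (not_le.1 h2).le]
  · simp [h1, h2]
  · simp [h1, h2]

lemma gt_mono (k : ℝ) : Monotone (gt k : Finset V → ℝ) := fun A B h => by
  unfold gt
  split_ifs with h1 h2 <;> first | exact absurd (h1.trans (sz_mono h)) h2 | norm_num

lemma Big.anti {k k' : ℝ} (h : k' ≤ k) {ω : Finset (Sym2 V)} (hb : Big k ω) : Big k' ω :=
  let ⟨x, hx⟩ := hb; ⟨x, by linarith⟩

lemma Two.anti {k k' : ℝ} (h : k' ≤ k) {ω : Finset (Sym2 V)} (hb : Two k ω) : Two k' ω :=
  let ⟨x, y, hx, h1, h2⟩ := hb; ⟨x, y, hx, by linarith, by linarith⟩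

lemma Two.big {k : ℝ} {ω : Finset (Sym2 V)} (hb : Two k ω) : Big k ω :=
  let ⟨x, _, _, h1, _⟩ := hb; ⟨x, h1⟩

lemma Ex_cnt (U : Finset (Sym2 V)) (q : Sym2 V → ℝ) (F : Finset V → ℝ) :
    Ex U q (cnt F) = ∑ x, val q F {x} U := Ex_sum U q univ fun x ω => F (reach ω {x})

lemma cnt_nonneg {F : Finset V → ℝ} (F0 : ∀ B, 0 ≤ F B) (ω : Finset (Sym2 V)) : 0 ≤ cnt F ω :=
  sum_nonneg fun _ _ => F0 _

lemma sum_cluster (F : Finset V → ℝ) (ω : Finset (Sym2 V)) (x : V) :
    ∑ y ∈ reach ω {x}, F (reach ω {y}) = sz (reach ω {x}) * F (reach ω {x}) := by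
  rw [sum_congr rfl fun y hy => by rw [reach_single_eq hy], sum_const, nsmul_eq_mul, sz]

lemma cnt_ge {F : Finset V → ℝ} (F0 : ∀ B, 0 ≤ F B) (ω : Finset (Sym2 V)) (x : V) :
    sz (reach ω {x}) * F (reach ω {x}) ≤ cnt F ω := by
  rw [← sum_cluster]
  exact sum_le_sum_of_subset_of_nonneg (subset_univ _) fun _ _ _ => F0 _

lemma cnt_ge2 {F : Finset V → ℝ} (F0 : ∀ B, 0 ≤ F B) {ω : Finset (Sym2 V)} {x y : V}
    (h : y ∉ reach ω {x}) :
    sz (reach ω {x}) * F (reach ω {x}) + sz (reach ω {y}) * F (reach ω {y}) ≤ cnt F ω := by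
  rw [← sum_cluster, ← sum_cluster, ← sum_union]
  · exact sum_le_sum_of_subset_of_nonneg (subset_univ _) fun _ _ _ => F0 _
  · refine disjoint_left.2 fun z h1 h2 => h ?_
    rw [← reach_single_eq h1]
    exact mem_reach_comm.1 h2

variable {U : Finset (Sym2 V)} {q : Sym2 V → ℝ}

lemma Ex_cnt_le {F : Finset V → ℝ} {c : ℝ} (h : ∀ x, val q F {x} U ≤ c) :
    Ex U q (cnt F) ≤ Fintype.card V * c := by
  rw [Ex_cnt]
  simpa using sum_le_card_nsmul univ _ c fun x _ => h x

lemma union_big (hq : P01 q) {k c : ℝ} (h : ∀ x, val q (gt k) {x} U ≤ c) :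
    Pr U q (Big k) * (k + 1) ≤ Fintype.card V * c := by
  refine (Pr_markov hq (fun ω _ => cnt_nonneg (gt_nonneg k) ω) ?_).trans (Ex_cnt_le h)
  rintro ω - ⟨x, hx⟩
  have := cnt_ge (gt_nonneg k) ω x
  rw [gt, if_pos hx] at this
  linarith

lemma union_win (hq : P01 q) {k m c : ℝ} (h : ∀ x, val q (win k m) {x} U ≤ c) :
    Pr U q (Win k m) * (k + 1) ≤ Fintype.card V * c := by
  refine (Pr_markov hq (fun ω _ => cnt_nonneg (win_nonneg k m) ω) ?_).trans (Ex_cnt_le h)
  rintro ω - ⟨x, hx⟩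
  have := cnt_ge (win_nonneg k m) ω x
  rw [win, if_pos hx] at this
  linarith [hx.1]

lemma sdiff_inc_inc (U : Finset (Sym2 V)) (D T : Finset V) :
    (U \ inc D) \ inc T = U \ inc (D ∪ T) := by
  rw [inc_union, sdiff_sdiff_left, sup_eq_union]

/-- Repeated trials in the complement of the explored region. -/
lemma trials_ind (hq : P01 q) {k w ν R m0 : ℝ} (R0 : 0 < R) (ν0 : 0 ≤ ν) (w1 : w ≤ 1)
    (h : ∀ D : Finset V, sz D ≤ m0 + R → ∃ x, w ≤ val q (gt k) {x} (U \ inc D) ∧
      val q (low k) {x} (U \ inc D) ≤ ν) (n : ℕ) :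
    ∀ D : Finset V, m0 ≤ sz D → Pr (U \ inc D) q (fun ω => ¬ Big k ω)
      ≤ (1 - w) ^ n + (n * ν + sz D - m0) / R := by
  induction n with
  | zero =>
    intro D hD
    have : 0 ≤ (((0 : ℕ) : ℝ) * ν + sz D - m0) / R := div_nonneg (by simp [hD]) R0.le
    rw [pow_zero]
    linarith [Pr_le_one (s := U \ inc D) (P := fun ω => ¬ Big k ω) hq]
  | succ n ih =>
    intro D hD
    have hp : 0 ≤ (1 - w) ^ n := pow_nonneg (by linarith) _
    have hn : 0 ≤ (n : ℝ) * ν := by positivity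
    by_cases hR : m0 + R ≤ sz D
    · have : 1 ≤ (((n + 1 : ℕ) : ℝ) * ν + sz D - m0) / R := by
        rw [le_div_iff₀ R0]; push_cast; linarith
      have h2 : 0 ≤ (1 - w) ^ (n + 1) := pow_nonneg (by linarith) _
      linarith [Pr_le_one (s := U \ inc D) (P := fun ω => ¬ Big k ω) hq]
    obtain ⟨x, hx1, hx2⟩ := h D (not_le.1 hR).le
    have a0 : 0 ≤ (n * ν + sz D - m0) / R := div_nonneg (by linarith) R0.le
    calc _ ≤ Ex (U \ inc D) q (fun ω => (1 - gt k (reach ω {x})) *
            ind (¬ Big k (ω \ inc (reach ω {x})))) := by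
          refine Ex_mono hq fun ω _ => ?_
          by_cases hb : Big k ω
          · rw [ind_neg (not_not.2 hb)]
            exact mul_nonneg (sub_nonneg.2 (gt_le_one _ _)) (ind_nonneg _)
          · have h1 : ¬ k + 1 ≤ sz (reach ω {x}) := fun hc => hb ⟨x, hc⟩
            have h2 : ¬ Big k (ω \ inc (reach ω {x})) := fun ⟨y, hy⟩ =>
              hb ⟨y, hy.trans (sz_mono (reach_mono sdiff_subset subset_rfl))⟩
            rw [ind_pos hb, ind_pos h2, gt, if_neg h1]; norm_num
      _ = Ex (U \ inc D) q (fun ω => Ex ((U \ inc D) \ inc (reach ω {x})) q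
            fun ω' => (1 - gt k (reach ω {x})) * ind (¬ Big k ω')) :=
          markov_reach _ q {x} fun T ω' => (1 - gt k T) * ind (¬ Big k ω')
      _ ≤ Ex (U \ inc D) q (fun ω => ((1 - w) ^ n + (n * ν + sz D - m0) / R)
            - (1 - w) ^ n * gt k (reach ω {x}) + low k (reach ω {x}) * R⁻¹) := by
          refine Ex_mono hq fun ω _ => ?_
          rw [Ex_smul, sdiff_inc_inc]
          have h1 := ih (D ∪ reach ω {x}) (hD.trans (sz_mono subset_union_left))
          have h2 : sz (D ∪ reach ω {x}) ≤ sz D + sz (reach ω {x}) := by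
            unfold sz; exact_mod_cast card_union_le _ _
          have h3 : (n * ν + sz (D ∪ reach ω {x}) - m0) / R
              ≤ (n * ν + sz D - m0) / R + sz (reach ω {x}) * R⁻¹ := by
            rw [← div_eq_mul_inv, ← add_div]
            exact div_le_div_of_nonneg_right (by linarith) R0.le
          change Ex _ _ (fun ω => ind (¬ Big k ω)) ≤ _ at h1
          unfold gt low
          split_ifs <;> linarith
      _ ≤ _ := by
          rw [Ex_add, Ex_sub, Ex_const, Ex_smul, Ex_mul]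
          have h1 := mul_le_mul_of_nonneg_left hx1 hp
          have h2 := mul_le_mul_of_nonneg_right hx2 (inv_nonneg.2 R0.le)
          have h3 : (((n + 1 : ℕ) : ℝ) * ν + sz D - m0) / R
              = (n * ν + sz D - m0) / R + ν * R⁻¹ := by push_cast; ring
          unfold val at h1 h2
          rw [h3, pow_succ]
          linarith

lemma trials (hq : P01 q) {k w ν R δ : ℝ} (R0 : 0 < R) (ν0 : 0 ≤ ν) (w0 : 0 < w)
    (δ0 : 0 < δ) (δ1 : δ ≤ 1) (hν : 2 * ν ≤ δ ^ 2 * R * w) (D0 : Finset V)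
    (h : ∀ D : Finset V, sz D ≤ sz D0 + R → ∃ x, w ≤ val q (gt k) {x} (U \ inc D) ∧
      val q (low k) {x} (U \ inc D) ≤ ν) :
    Pr (U \ inc D0) q (fun ω => ¬ Big k ω) ≤ 2 * δ := by
  have w1 : w ≤ 1 := by
    obtain ⟨x, hx, -⟩ := h D0 (by linarith)
    exact hx.trans (Ex_le_const hq fun _ _ => gt_le_one _ _)
  obtain ⟨n, hn⟩ : ∃ n : ℕ, n = ⌈1 / (δ * w)⌉₊ := ⟨_, rfl⟩
  have h0 : 0 < δ * w := by positivity
  have n1 : 1 ≤ n * (δ * w) := by rw [← div_le_iff₀ h0, hn]; exact Nat.le_ceil _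
  have n2 : n * (δ * w) ≤ 2 := by
    have h1 : (n : ℝ) < 1 / (δ * w) + 1 := hn ▸ Nat.ceil_lt_add_one (by positivity)
    have h2 := mul_lt_mul_of_pos_right h1 h0
    rw [add_mul, one_div_mul_cancel h0.ne'] at h2
    nlinarith only [h2, δ1, w1, δ0, w0]
  have h1 := trials_ind hq R0 ν0 w1 h n D0 le_rfl
  have h2 : (1 - w) ^ n ≤ δ := by
    have a1 := one_add_mul_le_pow (show -2 ≤ w by linarith) n
    have a2 : (1 - w) ^ n * (1 + w) ^ n ≤ 1 := by
      rw [← mul_pow]; exact pow_le_one₀ (by nlinarith) (by nlinarith)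
    have a3 : 0 ≤ (1 - w) ^ n := pow_nonneg (by linarith) _
    have a4 := mul_le_mul_of_nonneg_left a1 a3
    have a5 := mul_le_mul_of_nonneg_left n1 a3
    nlinarith only [a2, a3, a4, a5, δ0]
  have h3 : (n * ν + sz D0 - sz D0) / R ≤ δ := by
    rw [div_le_iff₀ R0, add_sub_cancel_right]
    have a1 := mul_le_mul_of_nonneg_left hν (Nat.cast_nonneg (α := ℝ) n)
    have a2 := mul_le_mul_of_nonneg_right n2 (show 0 ≤ δ * R by positivity)
    linarith
  linarith

/-- The giant is unique and not too large. -/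
lemma giant_step (hq : P01 q) {k H T c : ℝ} (hk : k ≤ H) (T0 : 0 ≤ T) (hT : T ≤ H)
    (h : ∀ x, val q (gt k) {x} U ≤ c) :
    Pr U q (fun ω => ¬ Big H ω ∨ Two k ω ∨ Big (H + T) ω) * T
      ≤ Fintype.card V * c - H + (H + T) * Pr U q (fun ω => ¬ Big k ω ∨ Win k H ω) := by
  refine le_trans (Pr_markov hq (X := fun ω => cnt (gt k) ω - H + (H + T) *
    ind (¬ Big k ω ∨ Win k H ω)) ?_ ?_) ?_
  rotate_left 2
  · rw [Ex_add, Ex_sub, Ex_const, Ex_smul]
    exact add_le_add (sub_le_sub_right (Ex_cnt_le h) _) le_rfl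
  all_goals
    intro ω _
    have h0 := cnt_nonneg (gt_nonneg k) ω
    by_cases hA : ¬ Big k ω ∨ Win k H ω
    · rw [ind_pos hA]
      first | linarith | exact fun _ => by linarith
    rw [ind_neg hA]
    push Not at hA
    obtain ⟨⟨x, hx⟩, hW⟩ := hA
    have hb : ∀ y, k + 1 ≤ sz (reach ω {y}) → H + 1 ≤ sz (reach ω {y}) := fun y hy =>
      le_of_lt (not_le.1 fun hc => hW ⟨y, hy, hc⟩)
    have h1 := cnt_ge (gt_nonneg k) ω x
    rw [gt, if_pos hx] at h1
  · linarith [hb x hx]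
  · rintro (h2 | ⟨y, z, hz, h2, h3⟩ | ⟨y, h2⟩)
    · exact absurd ⟨x, hb x hx⟩ h2
    · have := cnt_ge2 (gt_nonneg k) hz
      rw [gt, gt, if_pos h2, if_pos h3] at this
      linarith [hb y h2, hb z h3]
    · have := cnt_ge (gt_nonneg k) ω y
      rw [gt, if_pos (by linarith)] at this
      linarith

/-- A large second cluster outside the giant. -/
lemma second_step (hq : P01 q) {k H M c β : ℝ} (k0 : 0 < k) (hk : k ≤ H) (β0 : 0 ≤ β)
    (h : ∀ x, val q (gt H) {x} U ≤ c)
    (hβ : ∀ D : Finset V, sz D ≤ M + 1 → Pr (U \ inc D) q (fun ω => ¬ Big k ω) ≤ β) :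
    Pr U q (fun ω => Big H ω ∧ ¬ Big M ω ∧ ¬ Two k ω) * (H + 1)
      ≤ Fintype.card V * (c * β) := by
  refine le_trans (Pr_markov hq (X := fun ω => ∑ x, win H M (reach ω {x}) *
    ind (¬ Big k (ω \ inc (reach ω {x})))) ?_ ?_) ?_
  · exact fun ω _ => sum_nonneg fun x _ =>
      mul_nonneg (win_nonneg _ _ _) (ind_nonneg _)
  · rintro ω - ⟨⟨x, hx⟩, h1, h2⟩
    have h3 := cnt_ge (F := fun T => win H M T * ind (¬ Big k (ω \ inc T)))
      (fun T => mul_nonneg (win_nonneg _ _ _) (ind_nonneg _)) ω x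
    have h4 : ¬ Big k (ω \ inc (reach ω {x})) := by
      rintro ⟨y, hy⟩
      by_cases hyx : y ∈ reach ω {x}
      · have : reach (ω \ inc (reach ω {x})) {y} ⊆ {y} := reach_subset subset_rfl fun a ha b hb =>
          absurd (mem_inc.2 (Or.inl (mem_singleton.1 ha ▸ hyx))) (mem_sdiff.1 hb).2
        have := sz_mono this
        rw [show sz ({y} : Finset V) = 1 by simp [sz]] at this
        linarith
      · rw [reach_off hyx] at hy
        exact h2 ⟨x, y, hyx, by linarith, hy⟩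
    simp only [win, ind_pos h4] at h3
    rw [if_pos ⟨hx, le_of_lt (not_le.1 fun hc => h1 ⟨x, hc⟩)⟩] at h3
    simp only [win]
    unfold cnt at h3
    linarith
  · rw [Ex_sum]
    refine le_trans (sum_le_card_nsmul univ _ (c * β) fun x _ => ?_) (by simp)
    rw [markov_reach U q {x} fun T ω' => win H M T * ind (¬ Big k ω')]
    refine le_trans (Ex_mono hq (G := fun ω => gt H (reach ω {x}) * β) fun ω _ => ?_) ?_
    · rw [Ex_smul]
      unfold win
      split_ifs with h1
      · rw [gt, if_pos h1.1]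
        exact mul_le_mul_of_nonneg_left (hβ _ h1.2) zero_le_one
      · rw [zero_mul]; exact mul_nonneg (gt_nonneg _ _) β0
    · rw [Ex_mul]; exact mul_le_mul_of_nonneg_right (h x) β0

lemma cnt_off {k m : ℝ} (m0 : 0 ≤ m + 1) (ω I : Finset (Sym2 V)) {B : Finset V}
    (hB : ∀ z z', s(z, z') ∈ ω → s(z, z') ∈ I → z ∈ B) :
    cnt (win k m) (ω \ I) ≤ cnt (win k m) ω + B.card * (m + 1) := by
  have h1 : ∀ y, win k m (reach (ω \ I) {y}) ≤ win k m (reach ω {y}) +
      ∑ z ∈ B, mem1 y (reach (ω \ I) {z}) * win k m (reach (ω \ I) {z}) := fun y => by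
    have h0 : ∀ z ∈ B, 0 ≤ mem1 y (reach (ω \ I) {z}) * win k m (reach (ω \ I) {z}) :=
      fun z _ => mul_nonneg (mem1_nonneg _ _) (win_nonneg _ _ _)
    by_cases hc : ∃ z ∈ B, z ∈ reach (ω \ I) {y}
    · obtain ⟨z, hz, hzy⟩ := hc
      have := single_le_sum h0 hz
      rw [mem1, if_pos (mem_reach_comm.1 hzy), reach_single_eq hzy, one_mul] at this
      linarith [win_nonneg k m (reach ω {y})]
    · have : reach (ω \ I) {y} = reach ω {y} := by
        refine Subset.antisymm (reach_mono sdiff_subset subset_rfl) ?_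
        refine reach_subset (subset_reach _ _) fun a ha b hb => reach_step ha ?_
        exact mem_sdiff.2 ⟨hb, fun hI => hc ⟨a, hB a b hb hI, ha⟩⟩
      rw [this]
      linarith [sum_nonneg h0]
  refine (sum_le_sum fun y _ => h1 y).trans ?_
  rw [sum_add_distrib, sum_comm]
  refine add_le_add le_rfl ((sum_le_card_nsmul _ _ (m + 1) fun z _ => ?_).trans
    (nsmul_eq_mul _ _).le)
  have := sum_eq_mem1 (fun _ => win k m (reach (ω \ I) {z})) (reach (ω \ I) {z})
  rw [← this, sum_const, nsmul_eq_mul]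
  unfold win
  split_ifs with h2
  · rw [mul_one]; exact h2.2
  · rw [mul_zero]; exact m0

/-- Second moment bound for a size window. -/
lemma second_moment (hq : P01 q) {k m Δ : ℝ} (m0 : 0 ≤ m + 1) (Δ0 : 0 ≤ Δ)
    (hB : ∀ T : Finset V, ∃ B : Finset V, (B.card : ℝ) ≤ Δ * sz T ∧
      ∀ z z', s(z, z') ∈ U → s(z, z') ∈ inc T → z ∈ B) :
    Pr U q (fun ω => ¬ Two k ω) * Ex U q (cnt (win k m))
      ≤ 4 * ((m + 1) + Δ * (m + 1) ^ 2) := by
  obtain ⟨μ, hμ⟩ : ∃ μ, μ = Ex U q (cnt (win k m)) := ⟨_, rfl⟩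
  obtain ⟨c, hc⟩ : ∃ c, c = Δ * (m + 1) ^ 2 := ⟨_, rfl⟩
  have c0 : 0 ≤ c := by rw [hc]; positivity
  have μ0 : 0 ≤ μ := hμ ▸ Ex_nonneg hq (cnt_nonneg (win_nonneg k m))
  have P1 := Pr_le_one (s := U) (P := fun ω => ¬ Two k ω) hq
  have P0 := Pr_nonneg (s := U) (P := fun ω => ¬ Two k ω) hq
  rw [← hμ, ← hc]
  by_cases hs : μ ≤ 2 * (m + 1)
  · nlinarith only [hs, P1, P0, μ0, c0, m0]
  push Not at hs
  have h2 : Ex U q (fun ω => cnt (win k m) ω * cnt (win k m) ω) ≤ μ * (m + 1 + μ + c) := by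
    calc _ ≤ Ex U q (fun ω => ∑ x, win k m (reach ω {x}) *
            (m + 1 + cnt (win k m) (ω \ inc (reach ω {x})))) := by
          refine Ex_mono hq fun ω _ => ?_
          rw [cnt, sum_mul]
          refine sum_le_sum fun x _ => ?_
          rw [win]
          split_ifs with hx
          · rw [one_mul, one_mul, ← sum_filter_add_sum_filter_not univ (· ∈ reach ω {x})]
            refine add_le_add ?_ ?_
            · refine (sum_le_card_nsmul _ _ 1 fun y _ => win_le_one _ _ _).trans ?_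
              simpa [sz] using hx.2
            · rw [sum_congr rfl fun y hy => by rw [← reach_off (mem_filter.1 hy).2]]
              exact sum_le_sum_of_subset_of_nonneg (subset_univ _) fun _ _ _ => win_nonneg _ _ _
          · simp
      _ ≤ ∑ x, val q (win k m) {x} U * (m + 1 + μ + c) := by
          rw [Ex_sum]
          refine sum_le_sum fun x _ => ?_
          rw [markov_reach U q {x} fun T ω' => win k m T * (m + 1 + cnt (win k m) ω'), val,
            ← Ex_mul]
          refine Ex_mono hq fun ω _ => ?_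
          rw [Ex_smul, Ex_add, Ex_const, ← Ex_sdiff, win]
          split_ifs with hx
          · obtain ⟨B, hB1, hB2⟩ := hB (reach ω {x})
            have a1 : Ex U q (fun ω' => cnt (win k m) (ω' \ inc (reach ω {x})))
                ≤ Ex U q (fun ω' => cnt (win k m) ω' + B.card * (m + 1)) :=
              Ex_mono hq fun ω' hω' => cnt_off m0 _ _ fun z z' h1 h2 => hB2 z z' (hω' h1) h2
            rw [Ex_add, Ex_const, ← hμ] at a1
            have a2 := mul_le_mul_of_nonneg_right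
              (hB1.trans (mul_le_mul_of_nonneg_left hx.2 Δ0)) m0
            linarith
          · simp
      _ = _ := by rw [← sum_mul, ← Ex_cnt, ← hμ]
  have h3 := Pr_markov (s := U) (P := fun ω => ¬ Two k ω) hq (m := μ ^ 2 / 4)
    (X := fun ω => cnt (win k m) ω * cnt (win k m) ω - 2 * μ * cnt (win k m) ω + μ ^ 2)
    (fun ω _ => by nlinarith only [sq_nonneg (cnt (win k m) ω - μ)]) fun ω _ hT => by
      have : cnt (win k m) ω ≤ m + 1 := by
        by_cases hW : Win k m ω
        · obtain ⟨x, hx⟩ := hW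
          have : ∀ y, win k m (reach ω {y}) ≤ mem1 y (reach ω {x}) * 1 := fun y => by
            unfold win mem1
            split_ifs with h1 h5
            · norm_num
            · exact absurd ⟨x, y, h5, hx.1, h1.1⟩ hT
            · norm_num
            · norm_num
          refine (sum_le_sum fun y _ => this y).trans ?_
          rw [← sum_eq_mem1 (fun _ => (1 : ℝ))]
          simpa [sz] using hx.2
        · refine le_trans (le_of_eq (sum_eq_zero fun y _ => ?_)) m0
          exact if_neg fun hc => hW ⟨y, hc⟩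
      nlinarith only [this, hs, sq_nonneg (μ / 2 - cnt (win k m) ω), μ0]
  rw [Ex_add, Ex_sub, Ex_const, Ex_smul, ← hμ] at h3
  have μ1 : 0 < μ := by linarith
  refine le_of_mul_le_mul_right ?_ μ1
  nlinarith only [h2, h3]

lemma reach_insert_far {ω : Finset (Sym2 V)} {u v x : V}
    (h : u ∉ reach (insert s(u, v) ω) {x}) : reach (insert s(u, v) ω) {x} = reach ω {x} := by
  refine Subset.antisymm ?_ (reach_mono (subset_insert _ _) subset_rfl)
  refine reach_subset (subset_reach _ _) fun a ha b hb => ?_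
  have ha' := reach_mono (subset_insert s(u, v) ω) subset_rfl ha
  rcases mem_insert.1 hb with h1 | h1
  · rcases Sym2.eq_iff.1 h1 with ⟨rfl, rfl⟩ | ⟨rfl, rfl⟩
    · exact absurd ha' h
    · exact absurd (reach_step ha' hb) h
  · exact reach_step ha h1

lemma two_birth {k : ℝ} {ω : Finset (Sym2 V)} {u v : V} (h1 : Two k (insert s(u, v) ω))
    (h2 : ¬ Two k ω) : win k (2 * k + 1) (reach (insert s(u, v) ω) {u}) = 1 := by
  have key : ∀ x y, y ∉ reach (insert s(u, v) ω) {x} → k + 1 ≤ sz (reach (insert s(u, v) ω) {x}) →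
      k + 1 ≤ sz (reach (insert s(u, v) ω) {y}) → u ∈ reach (insert s(u, v) ω) {x} →
      win k (2 * k + 1) (reach (insert s(u, v) ω) {u}) = 1 := by
    intro x y hy hx1 hy1 hu
    rw [← reach_single_eq hu] at hy hx1
    rw [reach_insert_far (fun hc => hy (mem_reach_comm.1 hc))] at hy1
    have hv : v ∈ reach (insert s(u, v) ω) {u} :=
      reach_step (self_mem_reach _ _) (mem_insert_self _ _)
    have a1 : sz (reach ω {u}) < k + 1 := not_le.1 fun hc =>
      h2 ⟨u, y, fun hc' => hy (reach_mono (subset_insert _ _) subset_rfl hc'), hc, hy1⟩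
    have a2 : sz (reach ω {v}) < k + 1 := not_le.1 fun hc =>
      h2 ⟨v, y, fun hc' => hy (reach_single_eq hv ▸
        reach_mono (subset_insert _ _) subset_rfl hc'), hc, hy1⟩
    have a3 : sz (reach (insert s(u, v) ω) {u}) ≤ sz (reach ω {u}) + sz (reach ω {v}) := by
      rw [reach_insert_edge (mem_singleton_self u)]
      refine (sz_mono (reach_union_subset _ _ _)).trans ?_
      unfold sz; exact_mod_cast card_union_le _ _
    exact if_pos ⟨hx1, by linarith⟩
  obtain ⟨x, y, hy, hx1, hy1⟩ := h1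
  by_cases hx : u ∈ reach (insert s(u, v) ω) {x}
  · exact key x y hy hx1 hy1 hx
  by_cases hy' : u ∈ reach (insert s(u, v) ω) {y}
  · exact key y x (fun hc => hy (mem_reach_comm.1 hc)) hy1 hx1 hy'
  rw [reach_insert_far hx] at hy hx1
  rw [reach_insert_far hy'] at hy1
  exact absurd ⟨x, y, hy, hx1, hy1⟩ h2

/-- No second large cluster is born while the parameter increases. -/
lemma no_birth (U : Finset (Sym2 V)) {p1 p k β : ℝ} (h0 : 0 ≤ p1) (h1 : p1 ≤ p) (h2 : p ≤ 1)
    (hβ : ∀ q : Sym2 V → ℝ, (∀ a, p1 ≤ q a ∧ q a ≤ p) → ∀ x,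
      val q (win k (2 * k + 1)) {x} U ≤ β) :
    Pr U (fun _ => p) (Two k) ≤ Pr U (fun _ => p1) (Two k) + U.card * β := by
  refine Ex_hybrid U h0 h1 h2 _ (fun e ω => win k (2 * k + 1) (reach ω {e.out.1}))
    (fun _ _ => win_nonneg _ _ _) (fun e _ ω => ?_) fun e _ q hq => hβ q hq _
  have he : e = s(e.out.1, e.out.2) := (Quot.out_eq e).symm
  have w0 := win_nonneg k (2 * k + 1) (reach (insert e ω) {e.out.1})
  by_cases a1 : Two k (insert e ω)
  · by_cases a2 : Two k ω
    · rw [ind_pos a1, ind_pos a2]; linarith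
    · rw [ind_pos a1, ind_neg a2]
      rw [he] at a1
      have := two_birth a1 a2
      rw [← he] at this
      linarith
  · rw [ind_neg a1]; linarith [ind_nonneg (Two k ω)]

end Pool.Agent.P.MP_068ab5_pr
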