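import Pool.Agent.P.MP_068ab5_pr.Explore
import Pool.Agent.P.MP_068ab5_pr.Glob

/-! Single cluster estimates on the cube. -/

namespace Pool.Agent.P.MP_068ab5_pr

open Finset Real
open scoped Classical

variable {d : ℕ} {δ ε ξ p e κ r k : ℝ} {g : Cube d → ℝ} {x : Cube d}
  {U : Finset (Sym2 (Cube d))}

lemma sv_le_one {q : Sym2 (Cube d) → ℝ} (hq : P01 q) {F : Finset (Cube d) → ℝ}
    (hF : ∀ B, F B ≤ 1) (h : Hist) : sv x U q F h ≤ 1 := Ex_le_const hq fun _ _ => hF _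

lemma sv_gt_dead (q : Sym2 (Cube d) → ℝ) (h : Hist) (hl : ¬ lv x U h) (hn : (sn x U h : ℝ) < k) :
    sv x U q (gt k) h ≤ 0 := by
  rw [sv_dead _ _ hl, gt, if_neg (by rw [sz_sA]; linarith)]

lemma sv_win_dead (q : Sym2 (Cube d) → ℝ) {m : ℝ} (h : Hist) (hl : ¬ lv x U h)
    (hn : (sn x U h : ℝ) < k) : sv x U q (win k m) h ≤ 0 := by
  rw [sv_dead _ _ hl, win, if_neg (by rw [sz_sA]; intro hc; linarith [hc.1])]

lemma sv_win_big {q : Sym2 (Cube d) → ℝ} (hq : P01 q) {m : ℝ} (h : Hist) (hn : m < sn x U h) :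
    sv x U q (win k m) h ≤ 0 := Ex_le_const hq fun ω _ => by
  have := sz_mono (subset_reach ω (sA x U h))
  rw [sz_sA] at this
  rw [win, if_neg fun hc => by linarith [hc.2]]

lemma Small.P01 (hs : Small δ ξ p e) (p0 : 0 < p) (r0 : 0 ≤ r) (hr : r ≤ p * (1 + e + ξ)) :
    P01 (fun _ : Sym2 (Cube d) => r) := by
  obtain ⟨δ0, δ1, ξ0, ξe, eδ, pδ⟩ := hs
  exact P01_const r0 (by nlinarith only [hr, p0, δ1, ξe, eδ, pδ, ξ0])

lemma T_surv (hR : Ref d p e) (hs : Small δ ξ p e) (hU : U ⊆ E0 d) (x : Cube d) (r0 : 0 ≤ r)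
    (hr : r ≤ p * (1 + e + ξ)) (hk : 2 ≤ δ ^ 2 * ξ ^ 2 * k) :
    val (fun _ => r) (gt k) {x} U ≤ (2 + 7 * δ) * ξ := by
  have hB := basic hR x hU
  have δ0 := hs.δ0
  have δ1 := hs.δ1
  have := ab0 hB hs (r := fun _ => r) (fun _ _ => r0) (fun _ _ => hr)
    (sv_step (fun _ => r) (gt k)) (a := 0) (K := 1 + 2 * δ) (by linarith) fun h hl => by
      by_cases hn : (sn x U h : ℝ) < k
      · exact (sv_gt_dead _ h hl hn).trans
          (by have := Psi_nonneg hB hs h; positivity)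
      · rw [Psi_sat_n hB hs (hk.trans (mul_le_mul_of_nonneg_left (not_lt.1 hn) (by positivity))),
          sv_dead _ _ hl]
        nlinarith only [gt_le_one k (sA x U h), δ0, δ1]
  rw [sv_nil] at this
  nlinarith only [this, mul_pos δ0 hs.ξ0, δ1]

lemma T_nu (hR : Ref d p e) (hs : Small δ ξ p e) (hU : U ⊆ E0 d) (x : Cube d) (r0 : 0 ≤ r)
    (hr : r ≤ p * (1 + e + ξ)) (hk : 1 ≤ δ ^ 2 * ξ ^ 2 * k) :
    val (fun _ => r) (low k) {x} U ≤ 1 + 5 * ξ * k := by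
  have hB := basic hR x hU
  have δ0 := hs.δ0
  have δ1 := hs.δ1
  have ξ0 := hs.ξ0
  have k0 : 0 < k := not_le.1 fun hc => by
    linarith [mul_nonneg (sq_nonneg (δ * ξ)) (neg_nonneg.2 hc)]
  have := ab0 hB hs (r := fun _ => r) (fun _ _ => r0) (fun _ _ => hr)
    (sv_step (fun _ => r) (low k)) (a := 1) (K := 2 * k) (by linarith) fun h hl => by
      rw [sv_dead _ _ hl, low, sz_sA]
      split_ifs with hn
      · have := Psi_nonneg hB hs h; positivity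
      · have n0 : (0 : ℝ) ≤ sn x U h := Nat.cast_nonneg _
        unfold Psi
        rw [hB.Ydead h hl, mul_zero, neg_zero, exp_zero, sub_self, zero_add, mul_min_of_nonneg _ _
          (by linarith), add_comm (1 : ℝ) (min _ _), add_le_add_iff_right]
        refine le_min (by nlinarith only [hn, δ1, k0]) ?_
        have h1 := mul_le_mul_of_nonneg_right hk n0
        have h2 : 0 ≤ δ * (δ ^ 2 * ξ ^ 2 * k * sn x U h) := by positivity
        linarith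
  rw [sv_nil] at this
  nlinarith only [this, mul_pos k0 hs.ξ0, δ1]

lemma T_sub (hR : Ref d p e) (hc : Cond δ ξ p e) (hU : U ⊆ E0 d) (x : Cube d) (r0 : 0 ≤ r)
    (hr : r ≤ p * (1 + (e - ξ))) (hk : 1 ≤ δ ^ 2 * ξ ^ 2 * k) :
    val (fun _ => r) (gt k) {x} U ≤ 25 * ξ * exp (-((1 - δ) * ξ ^ 2 / 2 * k)) :=
  ab2 (basic hR x hU) hc (r := fun _ => r) (fun _ _ => r0) (fun _ _ => hr)
    (sv_step (fun _ => r) (gt k))
    (sv_le_one (hc.small'.P01 hR.p0 r0 (by nlinarith only [hr, hR.p0, hc.ξ0])) (gt_le_one k)) hk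
    (sv_gt_dead _)

/-- Tilting cost. -/
noncomputable def cost (δ ξ b : ℝ) : ℝ := (1 + δ) * b ^ 2 / 2 + 4 * b * (δ * ξ)

lemma T4 {k : ℕ} {R J u : Hist → ℝ} {Ymax l0 l1 Jm δ1 aP : ℝ} (hR : Ref d p e)
    (hU : U ⊆ E0 d) (hc : Cond δ ξ p e)
    (hG : Geom (lv x U) p (sθ x U p e) (sY x U p e) R J u (sn x U) k Ymax l0 l1 Jm δ1)
    (hE : CondE δ ξ e Jm δ1) (hl : (e + ξ) * (l0 + l1 * (k + 1) / 2) ≤ (1 - 2 * δ) * ξ)
    (hY : 4 * ξ * k ≤ Ymax) (hk : 400 ≤ δ ^ 3 * ξ ^ 2 * k) (a0 : 0 ≤ aP) (a1 : aP ≤ e + ξ)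
    (h0 : 3 / 4 ≤ sY x U p e []) :
    exp (-(cost δ ξ (e + ξ - aP) * k)) * (δ * ξ / 8)
      ≤ val (fun _ => p * (1 + aP)) (gt k) {x} U := by
  obtain ⟨δ0, δ1', ξ0, ξe, eδ, ee, pδ⟩ := id hc
  have p0 := hR.p0
  have hq : P01 (fun _ : Sym2 (Cube d) => p * (1 + aP)) :=
    hc.small'.P01 p0 (by positivity) (by nlinarith only [p0, a1])
  have γ0 : 0 < δ * ξ := by positivity
  obtain ⟨y, hy⟩ : ∃ y, y = δ ^ 2 * ξ ^ 2 * k := ⟨_, rfl⟩
  have hk' : 400 ≤ δ * y := by rw [hy]; linarith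
  have y0 : 0 ≤ y := by rw [hy]; positivity
  have := ab4 (basic hR x hU) hG hc hE γ0 (by nlinarith only [δ1', ξ0])
    (by nlinarith only [mul_le_mul_of_nonneg_left hl γ0.le, mul_pos γ0 γ0, δ1']) hY
    (by rw [← hy]; nlinarith only [hk', δ1', y0]) a0 a1 (by
      have h1 := mul_le_mul_of_nonneg_left hG.R_nil (show 0 ≤ e + ξ by linarith)
      nlinarith only [h1, h0, hE.aJ, hE.d1, hE.d0, δ1', ξe, eδ, ξ0])
    (sv_step (fun _ => p * (1 + aP)) (gt k)) (fun h => Ex_nonneg hq fun _ => gt_nonneg _ _)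
    fun h hn => le_trans (by
      rw [gt, if_pos (by rw [sz_sA]; exact_mod_cast Nat.succ_le_succ hn)]) (le_val hq (gt_mono _) _ _)
  refine le_trans (mul_le_mul_of_nonneg_left ?_ (exp_pos _).le) this
  rw [← hy]
  have h1 : exp (-y) * exp y = 1 := by rw [← exp_add]; simp
  have h2 := mul_le_mul_of_nonneg_left (add_one_le_exp y) (exp_pos (-y)).le
  have h3 := mul_le_mul_of_nonneg_left hk' (exp_pos (-y)).le
  have h4 : exp (-y) * 400 ≤ δ := by nlinarith only [h1, h2, h3, δ0, exp_pos (-y)]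
  nlinarith only [h4, ξ0]

/-- Standing assumptions on a reference parameter. -/
structure Base (d : ℕ) (δ ε p e : ℝ) (g : Cube d → ℝ) (κ : ℝ) : Prop where
  δ0 : 0 < δ
  δ1 : δ ≤ 1 / 1000
  ref : Ref d p e
  geo : Geo d p (δ ^ 6) g κ
  he : ε = δ ^ 2 * e
  eδ : e ≤ δ ^ 5
  pδ : p ≤ δ / 100
  dδ : 1 ≤ δ ^ 10 * d

lemma pow_small (δ0 : 0 < δ) (δ1 : δ ≤ 1 / 1000) (n : ℕ) : δ ^ (n + 1) ≤ δ ^ n / 1000 := by
  rw [pow_succ]; nlinarith only [pow_pos δ0 n, δ1]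

lemma Base.ε0 (h : Base d δ ε p e g κ) : 0 < ε := by
  rw [h.he]; exact mul_pos (pow_pos h.δ0 2) h.ref.e0

lemma Base.εe (h : Base d δ ε p e g κ) : ε ≤ δ * e / 1000 := by
  have := mul_le_mul_of_nonneg_right h.δ1 (mul_pos h.δ0 h.ref.e0).le
  rw [h.he]; linarith

lemma Base.εe' (h : Base d δ ε p e g κ) : ε ≤ e / 1000000 := by
  nlinarith only [h.εe, h.δ1, h.ref.e0]

lemma Base.e1 (h : Base d δ ε p e g κ) : e ≤ δ / 1000 := by
  have := pow_le_pow_of_le_one h.δ0.le (by linarith [h.δ1]) (show 2 ≤ 5 by norm_num)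
  linarith [h.eδ, pow_small h.δ0 h.δ1 1, pow_one δ]

lemma Base.d1 (h : Base d δ ε p e g κ) : (1000 : ℝ) ≤ d := by
  have := pow_le_pow_of_le_one h.δ0.le (by linarith [h.δ1]) (show 1 ≤ 10 by norm_num)
  nlinarith only [this, h.dδ, h.δ1, pow_one δ, Nat.cast_nonneg (α := ℝ) d]

lemma Base.κV (h : Base d δ ε p e g κ) : κ * 2 ^ d ≤ 1 + δ / 1000 := by
  have := pow_le_pow_of_le_one h.δ0.le (by linarith [h.δ1]) (show 2 ≤ 6 by norm_num)
  linarith [h.geo.κ1, pow_small h.δ0 h.δ1 1, pow_one δ]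

lemma Base.cond (h : Base d δ ε p e g κ) (h1 : δ * ε ≤ ξ) (h2 : ξ ≤ 4 * ε) : Cond δ ξ p e := by
  have δ0 := h.δ0
  have e0 := h.ref.e0
  refine ⟨δ0, by linarith [h.δ1], lt_of_lt_of_le (mul_pos δ0 h.ε0) h1, by linarith [h.εe'],
    by linarith [h.e1], ?_, h.pδ⟩
  have a1 := mul_le_mul_of_nonneg_left h1 δ0.le
  have a2 := mul_le_mul_of_nonneg_right (h.eδ.trans (pow_small δ0 h.δ1 4)) e0.le
  have a3 : 0 < δ ^ 4 * e := by positivity
  rw [h.he] at a1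
  linarith

lemma Base.condE (h : Base d δ ε p e g κ) (h1 : δ * ε ≤ ξ) (h2 : ξ ≤ 4 * ε) {Jm δ1 : ℝ}
    (J0 : 0 ≤ Jm) (d0 : 0 ≤ δ1) (hJ : e * Jm ≤ 2 * δ ^ 6) (d1 : δ1 ≤ δ ^ 6) :
    CondE δ ξ e Jm δ1 := by
  have δ0 := h.δ0
  have e0 := h.ref.e0
  have ξ0 := (h.cond h1 h2).ξ0
  have a0 : e + ξ ≤ 2 * e := by linarith [h.εe']
  have a1 := mul_le_mul_of_nonneg_right a0 J0
  have a2 := pow_le_pow_of_le_one h.δ0.le (by linarith [h.δ1]) (show 2 ≤ 6 by norm_num)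
  have a3 := pow_small h.δ0 h.δ1 1
  rw [pow_one] at a3
  refine ⟨J0, d0, by linarith, ?_, by linarith⟩
  have a4 : (e + ξ) * ((e + ξ) * Jm + δ1) ≤ 2 * e * (5 * δ ^ 6) :=
    mul_le_mul a0 (by linarith) (by positivity) (by positivity)
  have a5 := mul_le_mul_of_nonneg_left h1 δ0.le
  have a6 := mul_le_mul_of_nonneg_right
    ((pow_small δ0 h.δ1 5).trans (div_le_div_of_nonneg_right (pow_small δ0 h.δ1 4) (by norm_num)))
    e0.le
  have a7 : 0 < δ ^ 4 * e := by positivity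
  rw [h.he] at a5
  linarith

lemma Jbd_le {s χ m N V a : ℝ} (he : e * χ = 1) (e0 : 0 < e) (e1 : e ≤ 1) (κ0 : 0 ≤ κ)
    (hV : κ * V ≤ 2) (hW : 1 ≤ e ^ 3 * V) (ha : e * (d : ℝ) ^ 6 ≤ a) (d1 : (1 : ℝ) ≤ d)
    (hm : m ≤ 4 * e * V) (hN : N ≤ 8 * e * V) :
    e * Jbd d s κ χ m N ≤ s + 500 * a := by
  have h0 : e * Jbd d s κ χ m N = s + 27 * (κ * χ) * d ^ 6 + 9 * (κ * χ * χ) * d ^ 4
      + 9 * e * d ^ 4 + 3 * (κ * m) * d ^ 2 + 54 * e * d ^ 6 + 18 * (κ * N) * d ^ 4 := by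
    unfold Jbd
    linear_combination (s + κ * χ * (9 * (d : ℝ) ^ 4) * (3 * (d : ℝ) ^ 2 + χ)
      + κ * (3 * (d : ℝ) ^ 2 * m) + 2 * κ * (9 * (d : ℝ) ^ 4) * N) * he
  have χ0 : 0 < χ := not_le.1 fun hc => by linarith [mul_nonneg e0.le (neg_nonneg.2 hc)]
  have h1 : κ ≤ 2 * e ^ 3 := by
    nlinarith only [mul_le_mul_of_nonneg_left hW κ0, mul_le_mul_of_nonneg_left hV (pow_pos e0 3).le]
  have h2 : κ * χ ≤ 2 * e ^ 2 := by
    have := mul_le_mul_of_nonneg_right h1 χ0.le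
    have h3 : e ^ 3 * χ = e ^ 2 := by linear_combination e ^ 2 * he
    linarith
  have h3 : κ * χ * χ ≤ 2 * e := by
    have := mul_le_mul_of_nonneg_right h2 χ0.le
    have h3 : e ^ 2 * χ = e := by linear_combination e * he
    linarith
  have h4 : κ * χ ≤ 2 * e := by nlinarith only [h2, e0, e1]
  have h5 : κ * m ≤ 8 * e := by
    nlinarith only [mul_le_mul_of_nonneg_left hm κ0, mul_le_mul_of_nonneg_left hV e0.le]
  have h6 : κ * N ≤ 16 * e := by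
    nlinarith only [mul_le_mul_of_nonneg_left hN κ0, mul_le_mul_of_nonneg_left hV e0.le]
  have b4 := mul_le_mul_of_nonneg_left (pow_le_pow_right₀ d1 (show 4 ≤ 6 by norm_num)) e0.le
  have b2 := mul_le_mul_of_nonneg_left (pow_le_pow_right₀ d1 (show 2 ≤ 6 by norm_num)) e0.le
  have b0 : 0 ≤ e * (d : ℝ) ^ 6 := by positivity
  rw [h0]
  linarith [mul_le_mul_of_nonneg_right h4 (show 0 ≤ (d : ℝ) ^ 6 by positivity),
    mul_le_mul_of_nonneg_right h3 (show 0 ≤ (d : ℝ) ^ 4 by positivity),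
    mul_le_mul_of_nonneg_right h5 (show 0 ≤ (d : ℝ) ^ 2 by positivity),
    mul_le_mul_of_nonneg_right h6 (show 0 ≤ (d : ℝ) ^ 4 by positivity)]

lemma Base.ed (h : Base d δ ε p e g κ) (hI : ε * (d : ℝ) ^ 7 ≤ 1) : e * (d : ℝ) ^ 6 ≤ δ ^ 8 := by
  have δ0 := h.δ0
  have e0 := h.ref.e0
  have a1 := mul_le_mul_of_nonneg_left h.dδ (show 0 ≤ e * (d : ℝ) ^ 6 by positivity)
  have a2 := mul_le_mul_of_nonneg_left hI (show 0 ≤ δ ^ 8 by positivity)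
  rw [h.he] at a2
  linarith

lemma geomI (h : Base d δ ε p e g κ) (hI : ε * (d : ℝ) ^ 7 ≤ 1) (hW : 1 ≤ ε ^ 3 * 2 ^ d)
    (h1 : δ * ε ≤ ξ) (h2 : ξ ≤ 4 * ε) (x : Cube d) (D : Finset (Cube d)) {m : ℝ} (m0 : 0 ≤ m)
    (hD : sz D ≤ 4 * ε * 2 ^ d) (hm : m + 1 ≤ 4 * ε * 2 ^ d) :
    ∃ R J u l0 l1 Jm, Geom (lv x (E0 d \ inc D)) p (sθ x (E0 d \ inc D) p e)
      (sY x (E0 d \ inc D) p e) R J u (sn x (E0 d \ inc D)) m (4 * ξ * m) l0 l1 Jm 0 ∧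
      CondE δ ξ e Jm 0 ∧
      (e + ξ) * (l0 + l1 * (m + 1) / 2) * 2 ^ d ≤ (1 + δ) * (sz D + (1 / 2 + δ) * (m + 1)) := by
  obtain ⟨V, hV⟩ : ∃ V : ℝ, V = 2 ^ d := ⟨_, rfl⟩
  have κV := h.κV
  rw [← hV] at hW hD hm κV ⊢
  have V0 : 0 < V := by rw [hV]; positivity
  have δ0 := h.δ0
  have δ1 := h.δ1
  have e0 := h.ref.e0
  have ε0 := h.ε0
  have he := h.ref.he
  have χ1 := h.ref.χ1
  have κ0 := h.geo.κ0
  have ξ0 := (h.cond h1 h2).ξ0
  have εe := h.εe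
  have εe' := h.εe'
  have e1 := h.e1
  have d1 : (1 : ℝ) ≤ d := by linarith [h.d1]
  have ed := h.ed hI
  have D0 := sz_nonneg D
  obtain ⟨l1, hl1⟩ : ∃ l1, l1 = κ * (chi0 d p + 3 * (d : ℝ) ^ 2) := ⟨_, rfl⟩
  have l10 : 0 ≤ l1 := by rw [hl1]; positivity
  have a8 : δ ^ 8 ≤ δ / 1000 := by
    have := pow_le_pow_of_le_one h.δ0.le (by linarith [h.δ1]) (show 2 ≤ 8 by norm_num)
    linarith [pow_small h.δ0 h.δ1 1, pow_one δ]
  have a1 : e * l1 * V ≤ 1 + δ / 100 := by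
    have b2 := mul_le_mul_of_nonneg_left (pow_le_pow_right₀ d1 (show 2 ≤ 6 by norm_num)) e0.le
    have : e * l1 * V = κ * V * (1 + 3 * (e * (d : ℝ) ^ 2)) := by
      rw [hl1]; linear_combination κ * V * he
    rw [this]
    refine (mul_le_mul κV (show _ ≤ 1 + 3 * (δ / 1000) by linarith) (by positivity)
      (by positivity)).trans ?_
    nlinarith only [δ0, δ1]
  have a2 : (e + ξ) * l1 * V ≤ 1 + δ := by
    have : (e + ξ) * (l1 * V) ≤ (e * (1 + δ / 100)) * (l1 * V) :=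
      mul_le_mul_of_nonneg_right (by linarith) (by positivity)
    nlinarith only [this, mul_le_mul_of_nonneg_left a1 (show 0 ≤ 1 + δ / 100 by positivity), δ0, δ1]
  have a3 : chi0 d p * (4 * ξ * m) ≤ δ * m := by
    have : chi0 d p * (4 * ξ) ≤ chi0 d p * (δ * e) :=
      mul_le_mul_of_nonneg_left (by linarith [mul_pos δ0 e0]) (by linarith)
    have h3 : chi0 d p * (δ * e) = δ := by linear_combination δ * he
    nlinarith only [this, h3, m0]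
  have a4 : δ * m ≤ m := by nlinarith only [m0, δ1]
  have a5 := mul_le_mul_of_nonneg_right εe' V0.le
  have a6 : 0 < e * V := by positivity
  refine ⟨_, _, _, l1 * (sz D + chi0 d p * (4 * ξ * m)), l1, _,
    geom_I h.geo h.ref x D m0 (by positivity) hl1.ge ?_ le_rfl ?_, h.condE h1 h2 ?_ le_rfl ?_
    (by positivity), ?_⟩
  · have : κ * chi0 d p ≤ l1 := by rw [hl1, mul_add]; exact le_add_of_nonneg_right (by positivity)
    have := mul_le_mul_of_nonneg_right this D0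
    unfold sz at this ⊢
    linarith
  · have : l1 * (sz D + chi0 d p * (4 * ξ * m) + (m + 1)) ≤ l1 * (e * V / 2) :=
      mul_le_mul_of_nonneg_left (by linarith) l10
    linarith
  · unfold Jbd; positivity
  · refine (Jbd_le he e0 (by linarith) κ0 (V := V) (by linarith) (hW.trans ?_) ed d1
      (show sz D ≤ _ by linarith) (by linarith)).trans ?_
    · exact mul_le_mul_of_nonneg_right (pow_le_pow_left₀ ε0.le (by linarith) 3) V0.le
    · linarith [pow_small δ0 δ1 6, pow_small δ0 δ1 7, pow_pos δ0 6]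
  · calc _ = (e + ξ) * l1 * V * (sz D + chi0 d p * (4 * ξ * m) + (m + 1) / 2) := by ring
      _ ≤ _ := mul_le_mul a2 (by linarith) (by positivity) (by positivity)

lemma good_start (h : Base d δ ε p e g κ) (hI : ε * (d : ℝ) ^ 7 ≤ 1) (D : Finset (Cube d))
    (hD : sz D ≤ 4 * ε * 2 ^ d) : ∃ x, 3 / 4 ≤ sY x (E0 d \ inc D) p e [] := by
  have δ0 := h.δ0
  have δ1 := h.δ1
  have e0 := h.ref.e0
  have d1 : (1 : ℝ) ≤ d := by linarith [h.d1]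
  have V0 : (0 : ℝ) < 2 ^ d := by positivity
  have a5 := mul_le_mul_of_nonneg_right h.εe' V0.le
  have a1 : ∑ x, wD g D x ≤ ∑ _x : Cube d, (1 / 8 : ℝ) := by
    unfold wD
    rw [sum_comm]
    refine (sum_le_card_nsmul _ _ (3 * (d : ℝ) ^ 2) fun b _ =>
      (sum_shift g b).trans_le h.geo.mass).trans ?_
    rw [sum_const, card_univ, card_cube, nsmul_eq_mul, nsmul_eq_mul]
    push_cast
    have b2 := mul_le_mul_of_nonneg_left (pow_le_pow_right₀ d1 (show 2 ≤ 6 by norm_num)) e0.le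
    have b3 : δ ^ 8 ≤ 1 := pow_le_one₀ δ0.le (by linarith)
    have b4 := mul_le_mul_of_nonneg_right (b2.trans ((h.ed hI).trans b3)) V0.le
    have b5 := mul_le_mul_of_nonneg_right (show (D.card : ℝ) ≤ 4 * (e / 1000000 * 2 ^ d) from
      hD.trans (by linarith)) (show 0 ≤ (d : ℝ) ^ 2 by positivity)
    linarith
  obtain ⟨x, -, hx⟩ := exists_le_of_sum_le univ_nonempty a1
  refine ⟨x, le_trans ?_ (sY_nil_ge h.geo h.ref D)⟩
  have a2 : κ * chi0 d p * D.card ≤ κ * chi0 d p * (4 * (e / 1000000 * 2 ^ d)) :=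
    mul_le_mul_of_nonneg_left (hD.trans (by linarith))
      (mul_nonneg h.geo.κ0 (by linarith [h.ref.χ1]))
  have a3 : κ * chi0 d p * (4 * (e / 1000000 * 2 ^ d)) = κ * 2 ^ d * (4 / 1000000) := by
    linear_combination κ * 2 ^ d * (4 / 1000000) * h.ref.he
  linarith [h.κV, h.e1]

lemma T4_I (h : Base d δ ε p e g κ) (hI : ε * (d : ℝ) ^ 7 ≤ 1) (hW : 1 ≤ ε ^ 3 * 2 ^ d)
    (h1 : δ * ε ≤ ξ) (h2 : ξ ≤ 4 * ε) (D : Finset (Cube d)) {k : ℕ} {aP : ℝ}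
    (hD : (1 + δ) * (sz D + (k + 1)) ≤ (1 - 2 * δ) * ξ * 2 ^ d) (hk : 400 ≤ δ ^ 3 * ξ ^ 2 * k)
    (a0 : 0 ≤ aP) (a1 : aP ≤ e + ξ) : ∃ x, exp (-(cost δ ξ (e + ξ - aP) * k)) * (δ * ξ / 8)
      ≤ val (fun _ => p * (1 + aP)) (gt k) {x} (E0 d \ inc D) := by
  have hc := h.cond h1 h2
  have δ0 := h.δ0
  have δ1 := h.δ1
  have V0 : (0 : ℝ) < 2 ^ d := by positivity
  have D0 := sz_nonneg D
  have k0 : (0 : ℝ) ≤ k := Nat.cast_nonneg _
  have b1 : sz D + (k + 1) ≤ 4 * ε * 2 ^ d := by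
    have := mul_le_mul_of_nonneg_right h2 V0.le
    nlinarith only [this, hD, mul_pos (mul_pos δ0 hc.ξ0) V0, D0, k0, δ0]
  obtain ⟨x, hx⟩ := good_start h hI D (by linarith)
  obtain ⟨R, J, u, l0, l1, Jm, hG, hE, hl⟩ := geomI h hI hW h1 h2 x D k0 (by linarith)
    (by linarith)
  refine ⟨x, T4 h.ref sdiff_subset hc hG hE (le_of_mul_le_mul_right (hl.trans (le_trans ?_ hD)) V0)
    le_rfl hk a0 a1 hx⟩
  exact mul_le_mul_of_nonneg_left (by nlinarith only [k0, δ1]) (by linarith)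

lemma sdiff_inc_empty (U : Finset (Sym2 (Cube d))) : U \ inc ∅ = U := by
  rw [inc_empty, sdiff_empty]

lemma T3_I (h : Base d δ ε p e g κ) (hI : ε * (d : ℝ) ^ 7 ≤ 1) (hW : 1 ≤ ε ^ 3 * 2 ^ d)
    (h1 : δ * ε ≤ ξ) (h2 : ξ ≤ 4 * ε) (x : Cube d) {γ ρ m : ℝ} (γ0 : 0 < γ) (γ1 : γ ≤ ξ)
    (ρ0 : 0 ≤ ρ) (m0 : 0 ≤ m) (hm : m + 1 ≤ 4 * ε * 2 ^ d)
    (hρ : ρ * 2 ^ d ≤ γ * ((ξ * (1 - δ) - γ * (1 + δ) / 2) * 2 ^ d - (1 / 2 + 2 * δ) * (m + 1)))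
    (hN : 1 ≤ δ * ξ ^ 2 * m) (hk : 1 ≤ δ ^ 2 * ξ ^ 2 * k) :
    val (fun _ => p * (1 + (e + ξ))) (win k m) {x} (E0 d)
      ≤ 25 * ξ * (exp (-(ρ * k)) + exp (-(2 * ξ ^ 2 * m))) := by
  have hc := h.cond h1 h2
  have δ0 := h.δ0
  have δ1 := h.δ1
  have V0 : (0 : ℝ) < 2 ^ d := by positivity
  have ε0 := h.ε0
  have p0 := h.ref.p0
  have e0 := h.ref.e0
  have ξ0 := hc.ξ0
  obtain ⟨R, J, u, l0, l1, Jm, hG, hE, hl⟩ := geomI h hI hW h1 h2 x ∅ m0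
    (by simp only [sz, card_empty, Nat.cast_zero]; positivity) hm
  rw [sdiff_inc_empty] at hG
  have hq : P01 (fun _ : Sym2 (Cube d) => p * (1 + (e + ξ))) :=
    hc.small'.P01 p0 (by positivity) (by rw [add_assoc])
  refine ab3 (basic h.ref x subset_rfl) hG hc hE γ0 γ1 ρ0 (le_of_mul_le_mul_right ?_ V0) m0 le_rfl
    le_rfl hN hk (sv_step (fun _ => p * (1 + (e + ξ))) (win k m)) (sv_le_one hq (win_le_one k m))
    (sv_win_big hq) (sv_win_dead _)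
  simp only [sz, card_empty, Nat.cast_zero, zero_add] at hl
  have a1 : (1 + δ) * ((1 / 2 + δ) * (m + 1)) ≤ (1 / 2 + 2 * δ) * (m + 1) := by
    rw [← mul_assoc]
    exact mul_le_mul_of_nonneg_right (by nlinarith only [δ0, δ1]) (by linarith)
  linarith [mul_le_mul_of_nonneg_left (hl.trans a1) γ0.le]

lemma geomII (h : Base d δ ε p e g κ) (hII : 1 ≤ ε * (d : ℝ) ^ 7) (hV : (d : ℝ) ^ 40 ≤ 2 ^ d)
    (x : Cube d) {m : ℝ} (Y : ℝ) (m0 : 0 ≤ m) (hm : m + 1 ≤ (d : ℝ) ^ 20) :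
    ∃ R J u, Geom (lv x (E0 d)) p (sθ x (E0 d) p e) (sY x (E0 d) p e) R J u (sn x (E0 d))
      m Y (δ ^ 6) 0 0 (δ ^ 6) := by
  have δ0 := h.δ0
  have δ1 := h.δ1
  have χ1 := h.ref.χ1
  have κ0 := h.geo.κ0
  have d1 : (1 : ℝ) ≤ d := by linarith [h.d1]
  refine ⟨_, _, _, geom_II h.geo h.ref x Y m0 hm ?_ (pow_le_one₀ δ0.le (by linarith))⟩
  have a1 : chi0 d p ≤ (d : ℝ) ^ 7 := by
    have b1 := mul_le_mul_of_nonneg_left hII (show 0 ≤ chi0 d p by linarith)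
    have b2 := mul_le_mul_of_nonneg_right (show ε ≤ e by linarith [h.εe', h.ref.e0])
      (show 0 ≤ chi0 d p * (d : ℝ) ^ 7 by positivity)
    have b3 : e * (chi0 d p * (d : ℝ) ^ 7) = (d : ℝ) ^ 7 := by
      linear_combination (d : ℝ) ^ 7 * h.ref.he
    linarith
  have a2 := pow_le_pow_right₀ d1 (show 2 ≤ 7 by norm_num)
  have a3 : κ * (chi0 d p + 3 * (d : ℝ) ^ 2) * ((m + 1) * chi0 d p)
      ≤ κ * (4 * (d : ℝ) ^ 7) * ((d : ℝ) ^ 20 * (d : ℝ) ^ 7) := by gcongr; linarith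
  have a4 : 1 ≤ δ ^ 6 * d := h.dδ.trans (mul_le_mul_of_nonneg_right
    (pow_le_pow_of_le_one δ0.le (by linarith) (by norm_num)) (by linarith))
  have a5 : (8 : ℝ) ≤ d ^ 5 := le_trans (by linarith [h.d1]) (le_self_pow₀ d1 (by norm_num))
  have a6 := mul_le_mul a4 a5 (by norm_num) (by positivity)
  have a7 := mul_le_mul_of_nonneg_left a6 (show 0 ≤ κ * (d : ℝ) ^ 34 by positivity)
  have a8 := mul_le_mul_of_nonneg_left hV (show 0 ≤ κ * δ ^ 6 by positivity)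
  have a9 := mul_le_mul_of_nonneg_left (show κ * 2 ^ d ≤ 2 by linarith [h.κV])
    (show 0 ≤ δ ^ 6 by positivity)
  linarith

lemma Base.l0 (h : Base d δ ε p e g κ) (h1 : δ * ε ≤ ξ) (h2 : ξ ≤ 4 * ε) :
    (e + ξ) * δ ^ 6 ≤ δ * ξ / 10 := by
  have := (h.condE h1 h2 le_rfl (pow_pos h.δ0 6).le (by have := h.δ0; simp; positivity) le_rfl).aaJ
  simpa using this

lemma T4_II (h : Base d δ ε p e g κ) (hII : 1 ≤ ε * (d : ℝ) ^ 7) (hV : (d : ℝ) ^ 40 ≤ 2 ^ d)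
    (h1 : δ * ε ≤ ξ) (h2 : ξ ≤ 4 * ε) (x : Cube d) {k : ℕ} {aP : ℝ}
    (hm : (k : ℝ) + 1 ≤ (d : ℝ) ^ 20) (hk : 400 ≤ δ ^ 3 * ξ ^ 2 * k)
    (a0 : 0 ≤ aP) (a1 : aP ≤ e + ξ) : exp (-(cost δ ξ (e + ξ - aP) * k)) * (δ * ξ / 8)
      ≤ val (fun _ => p * (1 + aP)) (gt k) {x} (E0 d) := by
  have hc := h.cond h1 h2
  obtain ⟨R, J, u, hG⟩ := geomII h hII hV x (4 * ξ * k) (Nat.cast_nonneg k) hm
  refine T4 h.ref subset_rfl hc hG
    (h.condE h1 h2 le_rfl (pow_pos h.δ0 6).le (by have := h.δ0; simp; positivity) le_rfl) ?_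
    le_rfl hk a0 a1 ?_
  · have := h.l0 h1 h2
    nlinarith only [this, hc.ξ0, h.δ1]
  · have := sY_nil_ge (x := x) h.geo h.ref ∅
    rw [sdiff_inc_empty] at this
    simp only [wD, sum_empty, card_empty, Nat.cast_zero] at this
    linarith [h.e1, h.δ1]

lemma T3_II (h : Base d δ ε p e g κ) (hII : 1 ≤ ε * (d : ℝ) ^ 7) (hV : (d : ℝ) ^ 40 ≤ 2 ^ d)
    (h1 : δ * ε ≤ ξ) (h2 : ξ ≤ 4 * ε) (x : Cube d) {m : ℝ} (m0 : 0 ≤ m)
    (hm : m + 1 ≤ (d : ℝ) ^ 20) {q : Sym2 (Cube d) → ℝ} (hq : P01 q)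
    (hr : ∀ a, p * (1 + (e + ξ)) ≤ q a) :
    val q (win k m) {x} (E0 d) ≤ 3 * exp (-((1 / 2 - 2 * δ) * ξ ^ 2 * k)) := by
  have hc := h.cond h1 h2
  obtain ⟨R, J, u, hG⟩ := geomII h hII hV x (m + 1) m0 hm
  refine ab3' (basic h.ref x subset_rfl) hG hc
    (h.condE h1 h2 le_rfl (pow_pos h.δ0 6).le (by have := h.δ0; simp; positivity) le_rfl)
    hc.ξ0 le_rfl (mul_nonneg (by linarith [h.δ1]) (sq_nonneg _)) ?_ m0 le_rfl
    (fun a ha => (sY_le' h.ref subset_rfl a).trans (by linarith))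
    (r := fun a => q s(px x (E0 d) a, py x (E0 d) a)) (fun _ _ => hr _) (fun _ _ => (hq _).2)
    (sv_step q (win k m)) (sv_le_one hq (win_le_one k m)) (sv_win_big hq) (sv_win_dead _)
  have := mul_le_mul_of_nonneg_left (h.l0 h1 h2) hc.ξ0.le
  nlinarith only [this, mul_pos h.δ0 (mul_pos hc.ξ0 hc.ξ0)]

lemma T5 (h : Base d δ ε p e g κ) (hII : 1 ≤ ε * (d : ℝ) ^ 7) (hV : (d : ℝ) ^ 40 ≤ 2 ^ d)
    (x : Cube d) {m b : ℝ} (m0 : 0 ≤ m) (hm : m + 1 ≤ (d : ℝ) ^ 20) (b0 : 0 ≤ b)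
    (b1 : b ≤ (2 + 3 * δ) * ε) :
    exp (-(12 * δ * ε ^ 2 * m)) *
      (val (fun _ => p * (1 + (e - ε))) (win k m) {x} (E0 d) - 3 * exp (-(ε ^ 2 * k)))
      ≤ val (fun _ => p * (1 + (e - ε)) * (1 + b)) (win k m) {x} (E0 d) := by
  have δ0 := h.δ0
  have δ1 := h.δ1
  have ε0 := h.ε0
  have p0 := h.ref.p0
  have εe := h.εe'
  have hc := h.cond (ξ := ε) (by nlinarith only [δ1, ε0]) (by linarith)
  have b2 : b ≤ 3 * ε := by nlinarith only [b1, δ1, ε0]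
  obtain ⟨R, J, u, hG⟩ := geomII h hII hV x (m + 1) m0 hm
  have q0 : 0 ≤ p * (1 + (e - ε)) := mul_nonneg p0.le (by linarith)
  have hq : P01 (fun _ : Sym2 (Cube d) => p * (1 + (e - ε))) :=
    hc.small'.P01 p0 q0 (by nlinarith only [p0, ε0])
  have hq' : P01 (fun _ : Sym2 (Cube d) => p * (1 + (e - ε)) * (1 + b)) := by
    refine P01_const (by positivity) ?_
    have : p * (1 + (e - ε)) ≤ 1 / 2 := by nlinarith only [p0, ε0, h.e1, δ1, h.pδ]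
    nlinarith only [this, q0, b2, εe, h.e1, δ1]
  refine ab5 (basic h.ref x subset_rfl) hG hc ?_ le_rfl b0 b2 (by positivity) ?_ le_rfl
    (fun a ha => (sY_le' h.ref subset_rfl a).trans (by linarith))
    (sv_step (fun _ => p * (1 + (e - ε))) (win k m))
    (sv_step (fun _ => p * (1 + (e - ε)) * (1 + b)) (win k m)) (sv_le_one hq (win_le_one k m))
    (sv_win_big hq) (sv_win_dead _) (fun a => Ex_nonneg hq' fun _ => win_nonneg _ _ _)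
    fun a hl a1 a2 => ?_
  · have := pow_le_pow_of_le_one δ0.le (by linarith) (show 3 ≤ 6 by norm_num)
    linarith [pow_small δ0 δ1 2, pow_pos δ0 2]
  · have a1 : (1 + δ) * b / 2 - (1 - δ) * ε ≤ 4 * δ * ε := by
      nlinarith only [mul_le_mul_of_nonneg_left b1 (show 0 ≤ 1 + δ by positivity),
        mul_pos δ0 ε0, δ1]
    have a2 := mul_le_mul_of_nonneg_left a1 b0
    nlinarith only [a2, mul_le_mul_of_nonneg_left b2 (mul_pos δ0 ε0).le]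
  · rw [sv_dead _ _ hl, win, if_pos (by rw [sz_sA]; constructor <;> linarith)]

end Pool.Agent.P.MP_068ab5_pr
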