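import Mathlib

/-! Walk counts on the hypercube. -/

namespace Pool.Agent.P.MP_068ab5_pr

open Finset

/-- Vertices of the cube. -/
abbrev Cube (d : ℕ) := Fin d → ZMod 2

variable {d : ℕ}

/-- Unit vector. -/
def un (i : Fin d) : Cube d := Pi.single i 1

lemma cube_add_self (x : Cube d) : x + x = 0 := by
  funext i
  have : ∀ a : ZMod 2, a + a = 0 := by decide
  exact this (x i)

lemma add_add_cancel (x y : Cube d) : x + y + y = x := by
  rw [add_assoc, cube_add_self, add_zero]

lemma cube_add_eq_zero {x y : Cube d} : x + y = 0 ↔ x = y :=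
  ⟨fun h => by rw [← add_add_cancel x y, h, zero_add], fun h => h ▸ cube_add_self x⟩

lemma sum_shift (f : Cube d → ℝ) (a : Cube d) : ∑ z, f (z + a) = ∑ z, f z :=
  Fintype.sum_equiv (Equiv.addRight a) _ _ fun _ => rfl

lemma sum_shift' (f : Cube d → ℝ) (a : Cube d) : ∑ z, f (a + z) = ∑ z, f z :=
  Fintype.sum_equiv (Equiv.addLeft a) _ _ fun _ => rfl

lemma card_cube : Fintype.card (Cube d) = 2 ^ d := by simp [Cube]

/-- Number of walks with given displacement. -/
noncomputable def wk : ℕ → Cube d → ℝ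
  | 0, z => if z = 0 then 1 else 0
  | n + 1, z => ∑ i, wk n (z + un i)

/-- Number of non-backtracking walks, the first step avoiding a given direction. -/
noncomputable def nb : ℕ → Option (Fin d) → Cube d → ℝ
  | 0, _, z => if z = 0 then 1 else 0
  | n + 1, o, z => ∑ i, if some i = o then 0 else nb n (some i) (z + un i)

/-- Convolution. -/
noncomputable def conv (f g : Cube d → ℝ) (z : Cube d) : ℝ := ∑ w, f w * g (z + w)

lemma wk_nonneg (n : ℕ) (z : Cube d) : 0 ≤ wk n z := by
  induction n generalizing z with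
  | zero => unfold wk; split_ifs <;> norm_num
  | succ n ih => exact sum_nonneg fun i _ => ih _

lemma nb_nonneg (n : ℕ) (o : Option (Fin d)) (z : Cube d) : 0 ≤ nb n o z := by
  induction n generalizing o z with
  | zero => unfold nb; split_ifs <;> norm_num
  | succ n ih =>
    refine sum_nonneg fun i _ => ?_
    split_ifs
    · exact le_rfl
    · exact ih _ _

lemma nb_succ_none (n : ℕ) (z : Cube d) :
    nb (n + 1) none z = ∑ i, nb n (some i) (z + un i) := by simp [nb]

lemma nb_succ_some (n : ℕ) (i : Fin d) (z : Cube d) :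
    nb (n + 1) (some i) z = nb (n + 1) none z - nb n (some i) (z + un i) := by
  rw [nb_succ_none]
  simp only [nb, Option.some.injEq]
  rw [eq_sub_iff_add_eq, ← sum_erase_add _ _ (mem_univ i), ← sum_erase_add _ _ (mem_univ i)]
  simp only [if_true, add_zero, add_left_inj]
  exact sum_congr rfl fun j hj => if_neg (mem_erase.1 hj).1

lemma nb_le_none (n : ℕ) (o : Option (Fin d)) (z : Cube d) : nb n o z ≤ nb n none z := by
  cases n with
  | zero => exact le_rfl
  | succ n =>
    cases o with
    | none => exact le_rfl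
    | some i => rw [nb_succ_some]; linarith [nb_nonneg n (some i) (z + un i)]

lemma nb_succ_le (n : ℕ) (z : Cube d) : nb (n + 1) none z ≤ ∑ i, nb n none (z + un i) := by
  rw [nb_succ_none]; exact sum_le_sum fun i _ => nb_le_none _ _ _

lemma nb_le_wk (n : ℕ) (z : Cube d) : nb n none z ≤ wk n z := by
  induction n generalizing z with
  | zero => exact le_rfl
  | succ n ih => exact (nb_succ_le n z).trans (sum_le_sum fun i _ => ih _)

lemma wk_mass (n : ℕ) : ∑ z : Cube d, wk n z = (d : ℝ) ^ n := by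
  induction n with
  | zero => simp [wk]
  | succ n ih =>
    simp only [wk]
    rw [sum_comm]
    simp only [sum_shift (wk n), ih, sum_const, card_univ, Fintype.card_fin, nsmul_eq_mul]
    ring

lemma nb_mass_some (n : ℕ) (i : Fin d) : ∑ z : Cube d, nb n (some i) z = ((d : ℝ) - 1) ^ n := by
  induction n generalizing i with
  | zero => simp [nb]
  | succ n ih =>
    simp only [nb_succ_some, nb_succ_none, sum_sub_distrib]
    rw [sum_comm]
    simp only [sum_shift (nb n (some _)), ih, sum_const, card_univ, Fintype.card_fin,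
      nsmul_eq_mul]
    ring

lemma nb_mass (n : ℕ) : ∑ z : Cube d, nb (n + 1) none z = d * ((d : ℝ) - 1) ^ n := by
  simp only [nb_succ_none]
  rw [sum_comm]
  simp only [sum_shift (nb n (some _)), nb_mass_some, sum_const, card_univ, Fintype.card_fin,
    nsmul_eq_mul]

lemma conv_wk_zero (f : Cube d → ℝ) (z : Cube d) : conv (wk 0) f z = f z := by
  simp [conv, wk]

lemma conv_wk_succ (n : ℕ) (f : Cube d → ℝ) (z : Cube d) :
    conv (wk (n + 1)) f z = ∑ i, conv (wk n) f (z + un i) := by
  simp only [conv, wk, sum_mul]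
  rw [sum_comm]
  refine sum_congr rfl fun i _ => ?_
  rw [← sum_shift _ (un i)]
  refine sum_congr rfl fun w _ => ?_
  rw [add_add_cancel, add_comm w, add_assoc]

lemma conv_wk_wk (m n : ℕ) (z : Cube d) : conv (wk m) (wk n) z = wk (n + m) z := by
  induction m generalizing z with
  | zero => exact conv_wk_zero _ _
  | succ m ih => rw [conv_wk_succ]; simp only [ih]; rfl

lemma nb_le_conv (m n : ℕ) (z : Cube d) : nb (n + m) none z ≤ conv (wk m) (nb n none) z := by
  induction m generalizing z with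
  | zero => exact (conv_wk_zero _ _).ge
  | succ m ih => rw [conv_wk_succ]; exact (nb_succ_le _ z).trans (sum_le_sum fun i _ => ih _)

lemma conv_le_left {f g : Cube d → ℝ} {c : ℝ} (hf : ∀ z, f z ≤ c) (hg : ∀ z, 0 ≤ g z)
    (z : Cube d) : conv f g z ≤ c * ∑ w, g w := by
  rw [← sum_shift' g z, mul_sum]
  exact sum_le_sum fun w _ => mul_le_mul_of_nonneg_right (hf w) (hg _)

lemma conv_le_right {f g : Cube d → ℝ} {c : ℝ} (hf : ∀ z, 0 ≤ f z) (hg : ∀ z, g z ≤ c)
    (z : Cube d) : conv f g z ≤ (∑ w, f w) * c := by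
  rw [sum_mul]
  exact sum_le_sum fun w _ => mul_le_mul_of_nonneg_left (hg _) (hf w)

lemma conv_mass (f g : Cube d → ℝ) : ∑ z, conv f g z = (∑ w, f w) * ∑ w, g w := by
  unfold conv
  rw [sum_comm, sum_mul]
  exact sum_congr rfl fun w _ => by rw [← mul_sum, sum_shift g]

lemma conv_nonneg {f g : Cube d → ℝ} (hf : ∀ z, 0 ≤ f z) (hg : ∀ z, 0 ≤ g z) (z : Cube d) :
    0 ≤ conv f g z := sum_nonneg fun w _ => mul_nonneg (hf w) (hg _)

lemma conv_eq (f g : Cube d → ℝ) (x y : Cube d) :
    ∑ b, f (x + b) * g (y + b) = conv f g (y + x) := by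
  unfold conv
  rw [← sum_shift' _ x]
  exact sum_congr rfl fun b _ => by rw [← add_assoc, cube_add_self, zero_add, add_assoc]

/-- Hamming weight. -/
def hw (z : Cube d) : ℕ := (univ.filter fun i => z i ≠ 0).card

lemma hw_add_un (z : Cube d) (i : Fin d) :
    (z i = 0 → hw (z + un i) = hw z + 1) ∧ (z i ≠ 0 → hw (z + un i) + 1 = hw z) := by
  have h1 : ∀ a : ZMod 2, a ≠ 0 → a + 1 = 0 := by decide
  constructor
  · intro h
    unfold hw
    rw [← card_insert_of_notMem (a := i) (by simp [h])]
    refine congrArg _ ?_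
    ext j
    by_cases hj : j = i
    · subst hj; simp [un, h]
    · simp [un, hj]
  · intro h
    unfold hw
    rw [← card_insert_of_notMem (a := i) (by simp [un, h1 _ h])]
    refine congrArg _ ?_
    ext j
    by_cases hj : j = i
    · subst hj; simp [h]
    · simp [un, hj]

lemma hw_zero : hw (0 : Cube d) = 0 := by simp [hw]

lemma hw_un (i : Fin d) : hw (un i) = 1 := by
  have := (hw_add_un (0 : Cube d) i).1 rfl
  rwa [zero_add, hw_zero] at this

lemma un_ne_zero (i : Fin d) : un i ≠ 0 := by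
  intro h
  have := hw_un i
  rw [h, hw_zero] at this
  omega

lemma wk_supp (n : ℕ) (z : Cube d) (h : n < hw z) : wk n z = 0 := by
  induction n generalizing z with
  | zero =>
    refine if_neg ?_
    rintro rfl
    rw [hw_zero] at h; omega
  | succ n ih =>
    refine sum_eq_zero fun i _ => ih _ ?_
    by_cases hi : z i = 0
    · rw [(hw_add_un z i).1 hi]; omega
    · have := (hw_add_un z i).2 hi; omega

lemma wk_le {r : ℝ} (r0 : 0 < r) (hr : r ^ 2 = d) (n : ℕ) (z : Cube d) :
    wk n z * r ^ hw z ≤ (n + 1).factorial * r ^ n := by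
  induction n generalizing z with
  | zero =>
    unfold wk
    split_ifs with h
    · subst h; simp [hw_zero]
    · simp
  | succ n ih =>
    by_cases hz : n + 1 < hw z
    · rw [wk_supp _ _ hz, zero_mul]; positivity
    push Not at hz
    have key : ∀ i, wk n (z + un i) * r ^ hw z ≤ (n + 1).factorial * r ^ n *
        ((if z i ≠ 0 then r else 0) + r⁻¹) := by
      intro i
      have h0 := ih (z + un i)
      by_cases hi : z i = 0
      · rw [(hw_add_un z i).1 hi, pow_succ] at h0
        rw [if_neg (by simpa using hi), zero_add, ← div_eq_mul_inv, le_div_iff₀ r0]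
        linarith
      · rw [← (hw_add_un z i).2 hi, pow_succ, if_pos hi]
        have : 0 ≤ ((n + 1).factorial : ℝ) * r ^ n * r⁻¹ := by positivity
        linarith [mul_le_mul_of_nonneg_right h0 r0.le]
    simp only [wk]
    rw [sum_mul]
    refine (sum_le_sum fun i _ => key i).trans ?_
    rw [← mul_sum, sum_add_distrib, ← sum_filter, sum_const, sum_const, card_univ,
      Fintype.card_fin, nsmul_eq_mul, nsmul_eq_mul, ← hr]
    have h1 : ((univ.filter fun i => z i ≠ 0).card : ℝ) ≤ n + 1 := by exact_mod_cast hz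
    have h2 : r ^ 2 * r⁻¹ = r := by field_simp
    rw [h2, Nat.factorial_succ (n + 1)]
    push_cast
    have h3 : 0 ≤ ((n + 1).factorial : ℝ) * r ^ n * r := by positivity
    have h4 := mul_le_mul_of_nonneg_left h1 h3
    rw [pow_succ]
    linarith

lemma wk_sup {r : ℝ} (r1 : 1 ≤ r) (hr : r ^ 2 = d) (n : ℕ) (z : Cube d) :
    wk n z ≤ (n + 1).factorial * r ^ n :=
  (le_mul_of_one_le_right (wk_nonneg n z) (one_le_pow₀ r1)).trans (wk_le (by linarith) hr n z)

lemma wk_one_un (i : Fin d) : wk 1 (un i) = 1 := by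
  simp only [wk, cube_add_eq_zero]
  have : ∀ j : Fin d, un i = un j ↔ i = j := fun j =>
    ⟨fun h => by
      by_contra hne
      have := congrFun h i
      simp [un, hne] at this, fun h => h ▸ rfl⟩
  simp [this]

/-- Pair sum of a kernel over a set. -/
noncomputable def pairSum (P : Finset (Cube d)) (K : Cube d → ℝ) : ℝ :=
  ∑ x ∈ P, ∑ a ∈ P, K (x + a)

lemma pairSum_sq (P : Finset (Cube d)) (K : Cube d → ℝ) :
    pairSum P K ^ 2 ≤ P.card * pairSum P (conv K K) := by
  have h1 : pairSum P K ^ 2 ≤ P.card * ∑ x ∈ P, (∑ a ∈ P, K (x + a)) ^ 2 :=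
    sq_sum_le_card_mul_sum_sq
  refine h1.trans (mul_le_mul_of_nonneg_left ?_ (Nat.cast_nonneg _))
  refine (sum_le_sum_of_subset_of_nonneg (subset_univ P) fun x _ _ => sq_nonneg _).trans
    (le_of_eq ?_)
  simp only [sq, sum_mul_sum]
  rw [sum_comm]
  refine sum_congr rfl fun a _ => ?_
  rw [sum_comm]
  refine sum_congr rfl fun b _ => ?_
  rw [← conv_eq]
  exact sum_congr rfl fun x _ => by rw [add_comm x a, add_comm x b, mul_comm]

lemma pairSum_wk_nonneg (P : Finset (Cube d)) (n : ℕ) : 0 ≤ pairSum P (wk n) :=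
  sum_nonneg fun _ _ => sum_nonneg fun _ _ => wk_nonneg _ _

lemma pairSum_pow (P : Finset (Cube d)) (k n : ℕ) :
    pairSum P (wk n) ^ 2 ^ k * P.card ≤ (P.card : ℝ) ^ 2 ^ k * pairSum P (wk (n * 2 ^ k)) := by
  induction k with
  | zero => simp [mul_comm]
  | succ k ih =>
    rcases Nat.eq_zero_or_pos P.card with h0 | h0
    · simp [h0]
    have c0 : (0 : ℝ) < P.card := by exact_mod_cast h0
    have h1 := pairSum_sq P (wk (n * 2 ^ k))
    have h2 : conv (wk (n * 2 ^ k)) (wk (n * 2 ^ k)) = (wk (n * 2 ^ (k + 1)) : Cube d → ℝ) := by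
      funext z; rw [conv_wk_wk]; congr 1; ring
    rw [h2] at h1
    have h3 := pow_le_pow_left₀ (mul_nonneg (pow_nonneg (pairSum_wk_nonneg P n) _) c0.le) ih 2
    have h4 := mul_le_mul_of_nonneg_left h1 (show 0 ≤ ((P.card : ℝ) ^ 2 ^ k) ^ 2 by positivity)
    rw [pow_succ 2 k, pow_mul, pow_mul]
    refine le_of_mul_le_mul_right ?_ c0
    rw [mul_pow, mul_pow] at h3
    rw [← pow_succ 2 k]
    linarith

lemma pairSum_wk_le {r B : ℝ} (r1 : 1 ≤ r) (hr : r ^ 2 = d) (B0 : 0 ≤ B) (P : Finset (Cube d))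
    (k n : ℕ) (h : (P.card : ℝ) * (n * 2 ^ k + 1).factorial ≤ B ^ 2 ^ k) :
    pairSum P (wk n) ≤ P.card * (B * r ^ n) := by
  rcases Nat.eq_zero_or_pos P.card with h0 | h0
  · rw [card_eq_zero] at h0; subst h0; simp [pairSum]
  have c0 : (0 : ℝ) < P.card := by exact_mod_cast h0
  have h1 := pairSum_pow P k n
  have h2 : pairSum P (wk (n * 2 ^ k))
      ≤ P.card * (P.card * ((n * 2 ^ k + 1).factorial * r ^ (n * 2 ^ k))) := by
    unfold pairSum
    refine (sum_le_card_nsmul _ _ _ fun x _ => sum_le_card_nsmul _ _ _ fun a _ =>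
      wk_sup r1 hr _ _).trans (le_of_eq ?_)
    simp
  refine (pow_le_pow_iff_left₀ (pairSum_wk_nonneg P n) (by positivity)
    (pow_ne_zero k two_ne_zero)).1 ?_
  refine le_of_mul_le_mul_right (h1.trans ?_) c0
  rw [mul_pow, mul_pow, ← pow_mul r, mul_assoc]
  refine mul_le_mul_of_nonneg_left (h2.trans ?_) (by positivity)
  have := mul_le_mul_of_nonneg_right h (show 0 ≤ r ^ (n * 2 ^ k) * P.card by positivity)
  linarith

end Pool.Agent.P.MP_068ab5_pr
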