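import Pool.Agent.P.MP_068ab5_pr.RegII

/-! Assembly of the estimates. -/

namespace Pool.Agent.P.MP_068ab5_pr

open Finset Real Filter Topology
open scoped Classical

variable {d : ℕ} {δ ε p e κ : ℝ} {g : Cube d → ℝ}

lemma near (h : Base d δ ε p e g κ) {pc : ℝ} (h1 : p * (1 + (e - δ * ε)) ≤ pc)
    (h2 : pc ≤ p * (1 + (e + 2 * (δ * ε)))) :
    (∃ ξ, Near δ ε ξ ∧ pc * (1 + ε) = p * (1 + (e + ξ))) ∧
      ∃ ξ, Near δ ε ξ ∧ pc * (1 - ε) = p * (1 + (e - ξ)) := by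
  have p0 := h.ref.p0
  have ε0 := h.ε0
  have δ0 := h.δ0
  have δ1 := h.δ1
  have e0 := h.ref.e0
  have e1 := h.e1
  have ε1 := h.ε1
  obtain ⟨c, rfl⟩ : ∃ c, pc = p * c := ⟨pc / p, by field_simp⟩
  have c1 := le_of_mul_le_mul_left h1 p0
  have c2 := le_of_mul_le_mul_left h2 p0
  have a1 : δ * ε ≤ ε / 1000 := by nlinarith only [δ1, ε0]
  have a2 := mul_le_mul_of_nonneg_left (show e + 2 * (δ * ε) ≤ δ by linarith) ε0.le
  have a3 := mul_le_mul_of_nonneg_left (show δ * ε ≤ e by linarith [h.εe']) ε0.le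
  have a4 := mul_pos δ0 ε0
  have a5 := mul_pos a4 ε0
  have a6 := mul_pos e0 ε0
  refine ⟨⟨c * (1 + ε) - 1 - e, ⟨?_, ?_⟩, by ring⟩, ⟨1 + e - c * (1 - ε), ⟨?_, ?_⟩, by ring⟩⟩
  · linarith [mul_le_mul_of_nonneg_right c1 (show 0 ≤ 1 + ε by linarith)]
  · linarith [mul_le_mul_of_nonneg_right c2 (show 0 ≤ 1 + ε by linarith)]
  · linarith [mul_le_mul_of_nonneg_right c2 (show 0 ≤ 1 - ε by linarith)]
  · linarith [mul_le_mul_of_nonneg_right c1 (show 0 ≤ 1 - ε by linarith)]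

lemma Eps.sc {X : ℝ} (hL : Large δ d) (h : Eps δ X d ε) :
    Sc d δ ε (log (ε ^ 3 * 2 ^ d)) (log (ε ^ 3 * 2 ^ d) / ε ^ 2) := by
  have := h.ε0
  exact ⟨hL.δ0, hL.δ1, this, h.ε1.trans (pow_le_one₀ hL.δ0.le (by linarith [hL.δ1])),
    (exp_log (by positivity)).symm, by field_simp, h.hL⟩

/-- The four estimates in a fixed dimension. -/
def Good (d : ℕ) (τ pc ε K : ℝ) : Prop :=
  1 ≤ τ * K ∧ P01 (fun _ : Sym2 (Cube d) => pc * (1 + ε)) ∧
    P01 (fun _ : Sym2 (Cube d) => pc * (1 - ε)) ∧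
    Pr (E0 d) (fun _ => pc * (1 + ε))
      (fun ω => Two ((2 + 10 * τ) * K) ω ∨ ¬ Two ((2 - 10 * τ) * K) ω) ≤ 100 * τ ∧
    Pr (E0 d) (fun _ => pc * (1 - ε))
      (fun ω => Big ((2 + 10 * τ) * K) ω ∨ ¬ Big ((2 - 10 * τ) * K) ω) ≤ 100 * τ

theorem master {τ X pc : ℝ} (τ0 : 0 < τ) (τ1 : τ ≤ 1 / 100) (hτ : δ = τ ^ 2) (hL : Large δ d)
    (c0 : 0 ≤ pc) (c1 : pc ≤ 1) (hX : chi0 d pc = X)
    (hs : Eps δ X d (δ ^ 2 * (1 / (d : ℝ) ^ 8))) (h7 : Eps δ X d (1 * (1 / (d : ℝ) ^ 7)))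
    (hε : Eps δ X d ε) : Good d τ pc ε (log (ε ^ 3 * 2 ^ d) / ε ^ 2) := by
  obtain ⟨p, e, g, κ, hB, h1, h2⟩ := calib hL c0 c1 hX hs hε
  obtain ⟨⟨ξ, hn, hp⟩, ⟨ζ, hm, hq⟩⟩ := near hB h1 h2
  have s := hε.sc hL
  obtain ⟨K, hK⟩ : ∃ K, K = log (ε ^ 3 * 2 ^ d) / ε ^ 2 := ⟨_, rfl⟩
  rw [← hK] at s ⊢
  have δτ : δ ≤ τ / 100 := by nlinarith only [hτ, τ1, τ0]
  have δ0 := hL.δ0
  have K0 := s.K0
  have a0 := mul_le_mul_of_nonneg_right δτ K0.le
  have a1 : (2 + 30 * δ) * K ≤ (2 + 10 * τ) * K := by linarith [mul_pos τ0 K0]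
  have a2 : (2 - 10 * τ) * K ≤ (2 - 100 * δ) * K := by linarith [mul_pos τ0 K0]
  have q1 := hB.P01p s hn
  have q2 := hB.P01m s hm
  unfold Good
  rw [hp, hq]
  have b1 : Pr (E0 d) (fun _ => p * (1 + (e + ξ))) (Two ((2 + 30 * δ) * K)) ≤ 48 * δ := by
    rcases le_total (ε * (d : ℝ) ^ 7) 1 with hI | hII
    · linarith [ub_sup_I hB s hn hI]
    obtain ⟨p', e', g', κ', hB', h1', h2'⟩ := calib hL c0 c1 hX hs h7
    obtain ⟨⟨ξ', hn', hp'⟩, -⟩ := near hB' h1' h2'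
    have d0 : (0 : ℝ) < d := by linarith [hL.d1]
    refine ub_sup_II hL hB s hn hII hB' (h7.sc hL) hn' (by field_simp) ?_
    rw [← hp, ← hp']
    refine mul_le_mul_of_nonneg_left (add_le_add le_rfl ?_) c0
    rwa [one_mul, div_le_iff₀ (by positivity)]
  have b2 : Pr (E0 d) (fun _ => p * (1 + (e + ξ))) (fun ω => ¬ Two ((2 - 10 * τ) * K) ω)
      ≤ 52 * τ := by
    rcases le_total (ε * (d : ℝ) ^ 7) 1 with hI | hII
    · exact lb_sup_I hB s hn hI τ0 τ1 hτ.le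
    · exact ((Pr_mono q1 fun ω _ h h' => h (Two.anti a2 h')).trans
        (lb_sup_II hL hB s hn hII)).trans (by linarith)
  have b3 : Pr (E0 d) (fun _ => p * (1 + (e - ζ))) (fun ω => ¬ Big ((2 - 100 * δ) * K) ω)
      ≤ 2 * δ := by
    rcases le_total (ε * (d : ℝ) ^ 7) 1 with hI | hII
    · exact lb_sub_I hB s hm hI
    · linarith [lb_sub_II hL hB s hm hII]
  refine ⟨by linarith [s.δK, mul_pos τ0 K0], q1, q2, ?_, ?_⟩
  · refine (Pr_or q1 (Q := Two ((2 + 30 * δ) * K)) (R := fun ω => ¬ Two ((2 - 10 * τ) * K) ω)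
      fun ω _ h => h.imp_left (Two.anti a1)).trans (by linarith)
  · refine (Pr_or q2 (Q := Big ((2 + 30 * δ) * K)) (R := fun ω => ¬ Big ((2 - 100 * δ) * K) ω)
      fun ω _ h => h.imp (Big.anti a1) fun h h' => h (Big.anti a2 h')).trans
      (by linarith [ub_sub hB s hm])

lemma exp_div_pow {a : ℝ} (a0 : 0 < a) (n : ℕ) :
    Tendsto (fun d : ℕ => exp (a * d) / (d : ℝ) ^ n) atTop atTop := by
  have h := ((tendsto_exp_div_pow_atTop n).comp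
    (tendsto_natCast_atTop_atTop.const_mul_atTop a0)).const_mul_atTop (pow_pos a0 n)
  refine h.congr fun d => ?_
  simp only [Function.comp, mul_pow]
  rw [← mul_div_assoc, mul_div_mul_left _ _ (pow_pos a0 n).ne']

lemma large_ev (δ0 : 0 < δ) (δ1 : δ ≤ 1 / 1000) : ∀ᶠ d in atTop, Large δ d := by
  have l2 : 0 < log 2 - 1 / 2 := by linarith [log_two_gt_d9]
  filter_upwards [(tendsto_natCast_atTop_atTop.const_mul_atTop (pow_pos δ0 10)).eventually_ge_atTop 1,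
    tt_tendsto.eventually_ge_atTop 3, (exp_div_pow l2 21).eventually_ge_atTop 1,
    (exp_div_pow (half_pos δ0) 40).eventually_ge_atTop 1, geo_eventually (pow_pos δ0 6),
    eventually_gt_atTop 0] with d h1 h2 h3 h4 h5 h6
  rw [le_div_iff₀ (by positivity), one_mul] at h3 h4
  refine ⟨δ0, δ1, h1, h2, ?_, h4.trans_eq (by ring_nf), h5⟩
  refine (mul_le_mul_of_nonneg_left h3 (exp_pos _).le).trans_eq ?_
  rw [← exp_add, ← exp_log (show (0 : ℝ) < 2 by norm_num), ← exp_nat_mul, log_exp]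
  ring_nf

lemma cube_root (d : ℕ) : ((2 : ℝ) ^ ((d : ℝ) / 3)) ^ 3 = 2 ^ d := by
  rw [← rpow_natCast, ← rpow_mul (by norm_num), ← rpow_natCast]; norm_num

lemma eps_ev (δ0 : 0 < δ) {lam : ℝ} (l0 : 0 < lam) {ε : ℕ → ℝ} (h0 : Tendsto ε atTop (𝓝 0))
    (h1 : Tendsto (fun d : ℕ => ε d * (2 : ℝ) ^ ((d : ℝ) / 3)) atTop atTop) :
    ∀ᶠ d : ℕ in atTop, Eps δ (lam * (2 : ℝ) ^ ((d : ℝ) / 3)) d (ε d) := by
  filter_upwards [h0.eventually_le_const (pow_pos δ0 7), h1.eventually_ge_atTop 1,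
    (h1.const_mul_atTop (mul_pos δ0 l0)).eventually_gt_atTop 1,
    (h1.const_mul_atTop (pow_pos δ0 3)).eventually_gt_atTop (16 * lam),
    ((tendsto_log_atTop.comp h1).const_mul_atTop (pow_pos δ0 10)).eventually_ge_atTop 1]
    with d a1 a2 a3 a4 a5
  have hv := cube_root d
  have v0 : (0 : ℝ) < 2 ^ ((d : ℝ) / 3) := by positivity
  obtain ⟨v, hv'⟩ : ∃ v, v = (2 : ℝ) ^ ((d : ℝ) / 3) := ⟨_, rfl⟩
  simp only [Function.comp] at a5
  rw [← hv'] at a2 a3 a4 a5 hv v0 ⊢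
  refine ⟨not_le.1 fun h => by linarith [mul_nonneg (neg_nonneg.2 h) v0.le], a1, by linarith,
    ?_, ?_⟩
  · rw [← hv]
    have b1 := mul_le_mul_of_nonneg_left a2 (show 0 ≤ δ ^ 3 * (ε d * v) by positivity)
    linarith [mul_lt_mul_of_pos_right (a4.trans_le (show _ ≤ δ ^ 3 * (ε d * v) * (ε d * v) by
      linarith)) v0]
  · rw [← hv, ← mul_pow, log_pow]
    have := mul_nonneg (pow_pos δ0 10).le (log_nonneg a2)
    push_cast
    linarith

lemma eps_pow (δ0 : 0 < δ) {lam c : ℝ} (l0 : 0 < lam) (c0 : 0 < c) (n : ℕ) :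
    ∀ᶠ d : ℕ in atTop, Eps δ (lam * (2 : ℝ) ^ ((d : ℝ) / 3)) d (c * (1 / (d : ℝ) ^ (n + 1))) := by
  refine eps_ev δ0 l0 ?_ ?_
  · have := (tendsto_inv_atTop_zero.comp ((tendsto_pow_atTop (Nat.succ_ne_zero n)).comp
      (tendsto_natCast_atTop_atTop (R := ℝ)))).const_mul c
    simpa [Function.comp] using this
  · have l2 : 0 < log 2 / 3 := by linarith [log_two_gt_d9]
    refine ((exp_div_pow l2 (n + 1)).const_mul_atTop c0).congr fun d => ?_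
    rw [rpow_def_of_pos (by norm_num)]
    ring_nf

theorem final {lam τ : ℝ} (l0 : 0 < lam) (τ0 : 0 < τ) (τ1 : τ ≤ 1 / 100) {pc ε : ℕ → ℝ}
    (hpc : ∀ᶠ d : ℕ in atTop, (0 ≤ pc d ∧ pc d ≤ 1) ∧
      chi0 d (pc d) = lam * (2 : ℝ) ^ ((d : ℝ) / 3))
    (h0 : Tendsto ε atTop (𝓝 0))
    (h1 : Tendsto (fun d : ℕ => ε d * (2 : ℝ) ^ ((d : ℝ) / 3)) atTop atTop) :
    ∀ᶠ d : ℕ in atTop, Good d τ (pc d) (ε d) (log (ε d ^ 3 * 2 ^ d) / ε d ^ 2) := by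
  have δ0 : 0 < τ ^ 2 := by positivity
  filter_upwards [hpc, large_ev δ0 (by nlinarith only [τ0, τ1]), eps_pow δ0 l0 (pow_pos δ0 2) 7,
    eps_pow δ0 l0 one_pos 6, eps_ev δ0 l0 h0 h1] with d a1 a2 a3 a4 a5
  exact master τ0 τ1 rfl a2 a1.1.1 a1.1.2 a1.2 a3 a4 a5

lemma Ex_one {E : Type*} [DecidableEq E] (s : Finset E) (F : Finset E → ℝ) :
    Ex s (fun _ => 1) F = F s := by
  induction s using Finset.induction_on generalizing F with
  | empty => exact Ex_empty _ _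
  | insert a s ha ih => rw [Ex_insert ha, ih]; ring

lemma chi0_one : chi0 d 1 = 2 ^ d := by
  have h : ∀ n, ∀ z : Cube d, hw z = n → z ∈ reach (E0 d) {0} := by
    intro n
    induction n with
    | zero =>
      intro z hz
      have : z = 0 := funext fun i => by
        simpa using filter_eq_empty_iff.1 (card_eq_zero.1 hz) (mem_univ i)
      rw [this]; exact self_mem_reach _ _
    | succ n ih =>
      intro z hz
      obtain ⟨i, hi⟩ := card_pos.1 (show 0 < hw z by omega)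
      have := (hw_add_un z i).2 (mem_filter.1 hi).2
      exact reach_step (ih (z + un i) (by omega)) (mem_E0.2 ⟨i, (add_add_cancel _ _).symm⟩)
  rw [chi0, val, Ex_one, eq_univ_of_forall fun z => h _ z rfl, sz, card_univ, card_cube]
  simp

end Pool.Agent.P.MP_068ab5_pr
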