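import Pool.Agent.P.MP_068ab5_pr.Reach

/-! General inequalities for exploration values. -/

namespace Pool.Agent.P.MP_068ab5_pr

open Finset
open scoped Classical

set_option linter.unusedSectionVars false

variable {V : Type*} [Fintype V] [DecidableEq V]

/-- Two point function. -/
noncomputable def tau (q : Sym2 V → ℝ) (E0 : Finset (Sym2 V)) (y z : V) : ℝ :=
  val q (mem1 z) {y} E0

lemma tau_nonneg {q : Sym2 V → ℝ} (hq : P01 q) (E0 : Finset (Sym2 V)) (y z : V) :
    0 ≤ tau q E0 y z := val_mem1_nonneg hq _ _ _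

lemma tau_self (q : Sym2 V → ℝ) (E0 : Finset (Sym2 V)) (y : V) : tau q E0 y y = 1 :=
  val_mem1_self (mem_singleton_self y) _

lemma sz_nonneg (B : Finset V) : 0 ≤ sz B := Nat.cast_nonneg _

lemma val_sz_nonneg {q : Sym2 V → ℝ} (hq : P01 q) (A : Finset V) (U : Finset (Sym2 V)) :
    0 ≤ val q sz A U := Ex_nonneg hq fun _ => sz_nonneg _

lemma static_bound {q : Sym2 V → ℝ} (hq : P01 q) {E0 : Finset (Sym2 V)} {χ : ℝ}
    (hχ : ∀ y, val q sz {y} E0 = χ) (S : Finset V) (y : V) :
    χ * (1 - ∑ b ∈ S, tau q E0 y b) ≤ val q sz {y} (E0 \ inc S) := by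
  have χ0 : 0 ≤ χ := hχ y ▸ val_sz_nonneg hq _ _
  by_cases hy : y ∈ S
  · have h1 := single_le_sum (f := fun b => tau q E0 y b) (fun b _ => tau_nonneg hq E0 y b) hy
    simp only [tau_self] at h1
    exact (mul_nonpos_of_nonneg_of_nonpos χ0 (by linarith)).trans (val_sz_nonneg hq _ _)
  let R : Finset (Sym2 V) → Finset V := fun ω => reach (ω \ inc S) {y}
  let f : V → Finset V → Finset (Sym2 V) → ℝ := fun b T ω =>
    if ∃ x ∈ T, s(x, b) ∈ ω then 1 else 0
  have f0 : ∀ b T ω, 0 ≤ f b T ω := fun b T ω => by simp only [f]; split_ifs <;> norm_num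
  have hpt : ∀ ω, sz (reach ω {y}) ≤ sz (R ω)
      + ∑ b ∈ S, f b (R ω) ω * sz (reach (ω \ inc (R ω)) {b}) := by
    intro ω
    have hsub : reach ω {y} ⊆ R ω ∪ (S.filter fun b => ∃ x ∈ R ω, s(x, b) ∈ ω).biUnion
        fun b => reach (ω \ inc (R ω)) {b} := by
      have key : ∀ v ∈ R ω, ∀ w, s(v, w) ∈ ω → w ∈ R ω ∪
          (S.filter fun b => ∃ x ∈ R ω, s(x, b) ∈ ω).biUnion
            fun b => reach (ω \ inc (R ω)) {b} := by
        intro v hv w hw
        by_cases hwS : w ∈ S
        · exact mem_union_right _ (mem_biUnion.2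
            ⟨w, mem_filter.2 ⟨hwS, v, hv, hw⟩, self_mem_reach _ _⟩)
        · refine mem_union_left _ (reach_step hv (mem_sdiff.2 ⟨hw, ?_⟩))
          rw [mem_inc]
          have := reach_off_disjoint hy v hv
          tauto
      refine reach_subset ?_ fun v hv w hw => ?_
      · intro z hz
        rw [mem_singleton.1 hz]
        exact mem_union_left _ (self_mem_reach _ _)
      · rcases mem_union.1 hv with hv | hv
        · exact key v hv w hw
        · by_cases h1 : v ∈ R ω
          · exact key v h1 w hw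
          by_cases h2 : w ∈ R ω
          · exact mem_union_left _ h2
          obtain ⟨b, hb, hvb⟩ := mem_biUnion.1 hv
          exact mem_union_right _ (mem_biUnion.2 ⟨b, hb, reach_step hvb
            (mem_sdiff.2 ⟨hw, by rw [mem_inc]; tauto⟩)⟩)
    have h1 := (card_le_card hsub).trans ((card_union_le _ _).trans
      (Nat.add_le_add_left card_biUnion_le _))
    have h2 : (sz (reach ω {y}) : ℝ) ≤ sz (R ω) + ∑ b ∈ S.filter fun b => ∃ x ∈ R ω, s(x, b) ∈ ω,
        sz (reach (ω \ inc (R ω)) {b}) := by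
      unfold sz; exact_mod_cast h1
    rw [sum_filter] at h2
    refine h2.trans (le_of_eq ?_)
    refine congrArg _ (sum_congr rfl fun b _ => ?_)
    simp only [f]; split_ifs <;> simp
  have h1 : χ ≤ Ex E0 q (fun ω => sz (R ω))
      + ∑ b ∈ S, Ex E0 q fun ω => f b (R ω) ω * sz (reach (ω \ inc (R ω)) {b}) := by
    rw [← Ex_sum, ← Ex_add, ← hχ y]
    exact Ex_mono hq fun ω _ => hpt ω
  have h2 : Ex E0 q (fun ω => sz (R ω)) = val q sz {y} (E0 \ inc S) :=
    Ex_sdiff E0 (inc S) q fun ω => sz (reach ω {y})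
  have h3 : ∀ b ∈ S, Ex E0 q (fun ω => f b (R ω) ω * sz (reach (ω \ inc (R ω)) {b}))
      ≤ tau q E0 y b * χ := by
    intro b _
    rw [Ex_markov E0 q R inc (fun ω T => by
      simp only [R]
      rw [← reach_inter_inc (ω \ inc S), show (ω ∩ inc T) \ inc S = (ω \ inc S) ∩ inc T by
        ext e; simp only [mem_sdiff, mem_inter]; tauto]) (f b) (fun _ ω => sz (reach ω {b}))
      (fun T ω => by
        simp only [f]
        refine if_congr (exists_congr fun x => and_congr_right fun hx => ?_) rfl rfl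
        simp [mem_inc, hx])]
    unfold tau val
    rw [← Ex_mul]
    refine Ex_mono hq fun ω _ => mul_le_mul ?_ ?_ (val_sz_nonneg hq _ _) (mem1_nonneg _ _)
    · simp only [f, mem1]
      split_ifs with h1 h2
      · exact le_rfl
      · obtain ⟨x, hx, hxb⟩ := h1
        exact absurd (reach_step (reach_mono sdiff_subset subset_rfl hx) hxb) h2
      · norm_num
      · exact le_rfl
    · rw [← hχ b]
      exact val_mono hq sz_mono subset_rfl sdiff_subset
  have h4 := sum_le_sum h3
  rw [← sum_mul] at h4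
  linarith

lemma jump_lower {q : Sym2 V → ℝ} (hq : P01 q) {E0 : Finset (Sym2 V)} {χ : ℝ}
    (hχ : ∀ y, val q sz {y} E0 = χ) {A D : Finset V} {U : Finset (Sym2 V)}
    (hU : E0 \ inc (A ∪ D) ⊆ U) (y : V) :
    χ * (1 - ∑ b, val q (mem1 b) A U * tau q E0 y b - ∑ b ∈ D, tau q E0 y b)
      ≤ val q sz (insert y A) U - val q sz A U := by
  have χ0 : 0 ≤ χ := hχ y ▸ val_sz_nonneg hq _ _
  let g : Finset V → Finset (Sym2 V) → ℝ := fun T ω => if y ∈ T then 0 else sz (reach ω {y})
  have h1 : Ex U q (fun ω => g (reach ω A) (ω \ inc (reach ω A)))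
      ≤ val q sz (insert y A) U - val q sz A U := by
    unfold val
    rw [← Ex_sub]
    refine Ex_mono hq fun ω _ => ?_
    simp only [g]
    split_ifs with hy
    · exact sub_nonneg.2 (sz_mono (reach_mono subset_rfl (subset_insert _ _)))
    · have hd : Disjoint (reach ω A) (reach (ω \ inc (reach ω A)) {y}) :=
        disjoint_right.2 fun z hz => reach_off_disjoint hy z hz
      have hs : reach ω A ∪ reach (ω \ inc (reach ω A)) {y} ⊆ reach ω (insert y A) :=
        union_subset (reach_mono subset_rfl (subset_insert _ _))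
          (reach_mono sdiff_subset (by simp))
      have := card_le_card hs
      rw [card_union_of_disjoint hd] at this
      unfold sz
      have : ((reach ω A).card : ℝ) + (reach (ω \ inc (reach ω A)) {y}).card
        ≤ (reach ω (insert y A)).card := by exact_mod_cast this
      linarith
  refine le_trans ?_ h1
  rw [markov_reach, ← val_wt]
  have h2 : χ * (1 - val q (wt (tau q E0 y)) A U - ∑ b ∈ D, tau q E0 y b)
      = Ex U q fun ω => χ * (1 - wt (tau q E0 y) (reach ω A) - ∑ b ∈ D, tau q E0 y b) := by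
    rw [Ex_smul, Ex_sub, Ex_sub, Ex_const, Ex_const]; rfl
  rw [h2]
  refine Ex_mono hq fun ω _ => ?_
  have h3 : ∑ b ∈ reach ω A ∪ D, tau q E0 y b
      ≤ wt (tau q E0 y) (reach ω A) + ∑ b ∈ D, tau q E0 y b := by
    unfold wt
    rw [← sum_union_inter]
    exact le_add_of_nonneg_right (sum_nonneg fun z _ => tau_nonneg hq _ _ _)
  have h4 := static_bound hq hχ (reach ω A ∪ D) y
  have h5 := mul_le_mul_of_nonneg_left h3 χ0
  by_cases hy : y ∈ reach ω A
  · have h6 := single_le_sum (f := fun b => tau q E0 y b) (fun b _ => tau_nonneg hq E0 y b) hy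
    simp only [tau_self] at h6
    have h7 : 0 ≤ ∑ b ∈ D, tau q E0 y b := sum_nonneg fun z _ => tau_nonneg hq _ _ _
    refine (mul_nonpos_of_nonneg_of_nonpos χ0 (by unfold wt; linarith)).trans
      (Ex_nonneg hq fun ω' => ?_)
    simp [g, hy]
  · simp only [g, hy, if_false]
    have h6 : val q sz {y} (E0 \ inc (reach ω A ∪ D)) ≤ val q sz {y} (U \ inc (reach ω A)) := by
      refine val_mono hq sz_mono subset_rfl fun e he => ?_
      obtain ⟨h7, h8⟩ := mem_sdiff.1 he
      refine mem_sdiff.2 ⟨hU (mem_sdiff.2 ⟨h7, fun h => h8 ?_⟩),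
        fun h => h8 (inc_mono subset_union_left h)⟩
      exact inc_mono (union_subset_union (subset_reach _ _) subset_rfl) h
    exact le_trans (by linarith) h6

lemma pair_bound {p : ℝ} (p0 : 0 ≤ p) (p1 : p ≤ 1) (E0 : Finset (Sym2 V)) (z b : V) :
    ∀ (A : Finset V) (U : Finset (Sym2 V)), U ⊆ E0 →
      val (fun _ => p) (fun B => mem1 z B * mem1 b B) A U
        ≤ val (fun _ => p) (mem1 z) A U * val (fun _ => p) (mem1 b) A U
          + (val (fun _ => p) (wt fun w => tau (fun _ => p) E0 w z * tau (fun _ => p) E0 w b) A U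
            - wt (fun w => tau (fun _ => p) E0 w z * tau (fun _ => p) E0 w b) A) := by
  have hq : P01 (fun _ : Sym2 V => p) := P01_const p0 p1
  refine expl_ind (fun A U h _ => ?_) (fun A U x y hx hy he ih1 ih0 hU => ?_)
  · simp only [val_dead _ _ h]; linarith
  · have hU' : U.erase s(x, y) ⊆ E0 := (erase_subset _ _).trans hU
    have i1 := ih1 hU'
    have i0 := ih0 hU'
    rw [val_step _ _ hx he, val_step _ (mem1 z) hx he, val_step _ (mem1 b) hx he,
      val_step _ (wt _) hx he]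
    have w1 : wt (fun w => tau (fun _ => p) E0 w z * tau (fun _ => p) E0 w b) (insert y A)
        = tau (fun _ => p) E0 y z * tau (fun _ => p) E0 y b
          + wt (fun w => tau (fun _ => p) E0 w z * tau (fun _ => p) E0 w b) A := sum_insert hy
    rw [w1] at i1
    have j1 := jump_mem1 hq z A y hU'
    have j2 := jump_mem1 hq b A y hU'
    have j3 := val_mono hq (mem1_mono z) (subset_insert y A) (subset_refl (U.erase s(x, y)))
    have j4 := val_mono hq (mem1_mono b) (subset_insert y A) (subset_refl (U.erase s(x, y)))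
    have j5 := mul_le_mul (sub_le_iff_le_add'.2 j1) (sub_le_iff_le_add'.2 j2) (sub_nonneg.2 j4)
      (tau_nonneg hq E0 y z)
    have j6 := mul_nonneg (sub_nonneg.2 j3) (sub_nonneg.2 j4)
    unfold tau at *
    linarith [mul_le_mul_of_nonneg_left i1 p0, mul_le_mul_of_nonneg_left i0 (sub_nonneg.2 p1),
      mul_le_mul_of_nonneg_left j5 p0, mul_nonneg (mul_nonneg p0 p0) j6]

lemma tree_bound {p : ℝ} (p0 : 0 ≤ p) (p1 : p ≤ 1) (E0 : Finset (Sym2 V)) (y : V)
    {G : V → V → ℝ} (hG : ∀ z b, 0 ≤ G z b) {c : ℝ}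
    (hc : ∀ w, ∑ z, ∑ b, tau (fun _ => p) E0 w z * tau (fun _ => p) E0 w b * G z b ≤ c) :
    val (fun _ => p) (fun B => ∑ z ∈ B, ∑ b ∈ B, G z b) {y} E0
      ≤ val (fun _ => p) sz {y} E0 * c := by
  have hq : P01 (fun _ : Sym2 V => p) := P01_const p0 p1
  have h1 : val (fun _ => p) (fun B => ∑ z ∈ B, ∑ b ∈ B, G z b) {y} E0
      = ∑ z, ∑ b, val (fun _ => p) (fun B => mem1 z B * mem1 b B) {y} E0 * G z b := by
    unfold val
    simp only [← Ex_mul, ← Ex_sum]
    refine Ex_congr fun ω _ => ?_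
    rw [sum_eq_mem1]
    refine sum_congr rfl fun z _ => ?_
    rw [sum_eq_mem1, mul_sum]
    exact sum_congr rfl fun b _ => by ring
  have h2 : ∀ z b, val (fun _ => p) (fun B => mem1 z B * mem1 b B) {y} E0
      ≤ ∑ w, tau (fun _ => p) E0 y w * (tau (fun _ => p) E0 w z * tau (fun _ => p) E0 w b) := by
    intro z b
    have := pair_bound p0 p1 E0 z b {y} E0 subset_rfl
    rw [val_wt] at this
    simp only [wt, sum_singleton] at this
    unfold tau at *
    linarith
  rw [h1, val_sz, sum_mul]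
  calc _ ≤ ∑ z, ∑ b, (∑ w, tau (fun _ => p) E0 y w
        * (tau (fun _ => p) E0 w z * tau (fun _ => p) E0 w b)) * G z b :=
        sum_le_sum fun z _ => sum_le_sum fun b _ => mul_le_mul_of_nonneg_right (h2 z b) (hG z b)
    _ = ∑ w, tau (fun _ => p) E0 y w * ∑ z, ∑ b,
        tau (fun _ => p) E0 w z * tau (fun _ => p) E0 w b * G z b := by
        simp only [sum_mul, mul_sum]
        rw [sum_congr rfl fun z _ => sum_comm, sum_comm]
        exact sum_congr rfl fun w _ => sum_congr rfl fun z _ => sum_congr rfl fun b _ => by ring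
    _ ≤ _ := sum_le_sum fun w _ => mul_le_mul_of_nonneg_left (hc w) (tau_nonneg hq _ _ _)

/-- Self energy of a set. -/
noncomputable def En (G : V → V → ℝ) (w : V → ℝ) (B : Finset V) : ℝ :=
  ∑ z ∈ B, ∑ b ∈ B, G z b + wt w B

lemma En_mono {G : V → V → ℝ} (hG : ∀ z b, 0 ≤ G z b) {w : V → ℝ} (hw : ∀ z, 0 ≤ w z) :
    Monotone (En G w) := by
  intro A B h
  refine add_le_add ?_ (wt_mono hw h)
  exact (sum_le_sum fun z _ => sum_le_sum_of_subset_of_nonneg h fun b _ _ => hG z b).trans
    (sum_le_sum_of_subset_of_nonneg h fun z _ _ => sum_nonneg fun b _ => hG z b)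

lemma sum_union_le' {f : V → ℝ} (hf : ∀ z, 0 ≤ f z) (A B : Finset V) :
    ∑ z ∈ A ∪ B, f z ≤ ∑ z ∈ A, f z + ∑ z ∈ B, f z := by
  rw [← sum_union_inter]
  exact le_add_of_nonneg_right (sum_nonneg fun z _ => hf z)

lemma En_union {G : V → V → ℝ} (hG : ∀ z b, 0 ≤ G z b) (hs : ∀ z b, G z b = G b z)
    {w : V → ℝ} (hw : ∀ z, 0 ≤ w z) (B C : Finset V) :
    En G w (B ∪ C) ≤ En G w B + En G w C + 2 * ∑ z ∈ C, ∑ b ∈ B, G z b := by
  unfold En wt
  have h1 := sum_union_le' hw B C
  have h2 := sum_union_le' (f := fun z => ∑ b ∈ B ∪ C, G z b)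
    (fun z => sum_nonneg fun b _ => hG z b) B C
  have h3 : ∀ T : Finset V, ∑ z ∈ T, ∑ b ∈ B ∪ C, G z b
      ≤ ∑ z ∈ T, ∑ b ∈ B, G z b + ∑ z ∈ T, ∑ b ∈ C, G z b := fun T => by
    rw [← sum_add_distrib]; exact sum_le_sum fun z _ => sum_union_le' (hG z) B C
  have h4 : ∑ z ∈ B, ∑ b ∈ C, G z b = ∑ z ∈ C, ∑ b ∈ B, G z b := by
    rw [sum_comm]; exact sum_congr rfl fun z _ => sum_congr rfl fun b _ => hs b z
  linarith [h3 B, h3 C]

lemma En_insert {G : V → V → ℝ} (hG : ∀ z b, 0 ≤ G z b) (w : V → ℝ) {A : Finset V} {y : V}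
    (hy : y ∉ A) : En G w A + (∑ a ∈ A, G y a + w y) ≤ En G w (insert y A) := by
  unfold En wt
  rw [sum_insert hy, sum_insert hy, sum_insert hy]
  have : ∑ z ∈ A, ∑ b ∈ A, G z b ≤ ∑ z ∈ A, ∑ b ∈ insert y A, G z b :=
    sum_le_sum fun z _ => sum_le_sum_of_subset_of_nonneg (subset_insert _ _) fun b _ _ => hG z b
  linarith [hG y y]

lemma jump_En {q : Sym2 V → ℝ} (hq : P01 q) {G : V → V → ℝ} (hG : ∀ z b, 0 ≤ G z b)
    (hs : ∀ z b, G z b = G b z) {w : V → ℝ} (hw : ∀ z, 0 ≤ w z) {U E0 : Finset (Sym2 V)}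
    (hU : U ⊆ E0) (A : Finset V) (y : V) {c1 c2 : ℝ}
    (hc : ∀ T : Finset V, ∑ z, tau q E0 y z * ∑ b ∈ T, G z b ≤ c1 + c2 * T.card) :
    val q (En G w) (insert y A) U ≤ val q (En G w) A U + val q (En G w) {y} E0
      + 2 * (c1 + c2 * val q sz A U) := by
  let g : Finset V → Finset (Sym2 V) → ℝ := fun T ω => wt (fun z => ∑ b ∈ T, G z b) (reach ω {y})
  have h1 : val q (En G w) (insert y A) U ≤ val q (En G w) A U + val q (En G w) {y} U
      + 2 * Ex U q (fun ω => g (reach ω A) (ω \ inc (reach ω A))) := by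
    unfold val
    rw [← Ex_smul, ← Ex_add, ← Ex_add]
    refine Ex_mono hq fun ω _ => ?_
    refine (En_mono hG hw (reach_insert_subset ω A y)).trans ((En_union hG hs hw _ _).trans ?_)
    have := En_mono hG hw (reach_mono (sdiff_subset (s := ω) (t := inc (reach ω A)))
      (subset_refl {y}))
    simp only [g, wt]
    linarith
  have h2 := val_mono hq (En_mono hG hw) (subset_refl {y}) hU
  have h3 : Ex U q (fun ω => g (reach ω A) (ω \ inc (reach ω A))) ≤ c1 + c2 * val q sz A U := by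
    rw [markov_reach]
    unfold val
    rw [← Ex_smul, ← Ex_const U q c1, ← Ex_add]
    refine Ex_mono hq fun ω _ => le_trans ?_ (hc (reach ω A))
    have := val_mono hq (wt_mono (w := fun z => ∑ b ∈ reach ω A, G z b)
      fun z => sum_nonneg fun b _ => hG z b) (subset_refl {y})
      ((sdiff_subset (s := U) (t := inc (reach ω A))).trans hU)
    rw [val_wt q _ _ E0] at this
    exact this
  linarith

lemma val_compare {p p2 c χ : ℝ} (p0 : 0 ≤ p) (pp : p ≤ p2) (p1 : p2 ≤ 1) (c0 : 0 ≤ c)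
    {E0 : Finset (Sym2 V)} (hχ : ∀ y, val (fun _ => p) sz {y} E0 ≤ χ)
    (hc : p2 ≤ c * (p2 - (p2 - p) * χ)) :
    ∀ (A : Finset V) (U : Finset (Sym2 V)), U ⊆ E0 →
      val (fun _ => p2) sz A U - sz A ≤ c * (val (fun _ => p) sz A U - sz A) := by
  have hq : P01 (fun _ : Sym2 V => p) := P01_const p0 (pp.trans p1)
  refine expl_ind (fun A U h _ => ?_) (fun A U x y hx hy he ih1 ih0 hU => ?_)
  · simp only [val_dead _ _ h]; simp
  · have hU' : U.erase s(x, y) ⊆ E0 := (erase_subset _ _).trans hU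
    have i1 := ih1 hU'
    have i0 := ih0 hU'
    rw [val_step _ _ hx he, val_step (fun _ => p) _ hx he]
    have s1 : sz (insert y A) = sz A + 1 := by
      unfold sz; rw [card_insert_of_notMem hy]; push_cast; ring
    rw [s1] at i1
    have j1 := jump_wt hq (w := fun _ => 1) (fun _ => zero_le_one) A y hU'
    rw [← sz_eq_wt] at j1
    have j2 : val (fun _ => p) sz (insert y A) (U.erase s(x, y))
        - val (fun _ => p) sz A (U.erase s(x, y)) ≤ χ := by linarith [hχ y]
    linarith [mul_le_mul_of_nonneg_left i1 (p0.trans pp),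
      mul_le_mul_of_nonneg_left i0 (sub_nonneg.2 p1),
      mul_le_mul_of_nonneg_left j2 (mul_nonneg c0 (sub_nonneg.2 pp))]

/-- Number of edges of `U` leaving `B`. -/
noncomputable def bd (U : Finset (Sym2 V)) (B : Finset V) : ℝ :=
  ((B ×ˢ Bᶜ).filter fun a => s(a.1, a.2) ∈ U).card

lemma bd_erase_le (U : Finset (Sym2 V)) (B : Finset V) (x y : V) :
    bd U B ≤ bd (U.erase s(x, y)) B + 1 := by
  unfold bd
  have h : ((B ×ˢ Bᶜ).filter fun a => s(a.1, a.2) ∈ U) ⊆
      insert (if x ∈ B then (x, y) else (y, x))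
        ((B ×ˢ Bᶜ).filter fun a => s(a.1, a.2) ∈ U.erase s(x, y)) := by
    rintro ⟨a, b⟩ hab
    simp only [mem_filter, mem_product, mem_compl, mem_insert, mem_erase] at hab ⊢
    by_cases he : s(a, b) = s(x, y)
    · left
      rcases Sym2.eq_iff.1 he with ⟨rfl, rfl⟩ | ⟨rfl, rfl⟩
      · rw [if_pos hab.1.1]
      · rw [if_neg hab.1.2]
    · right; exact ⟨hab.1, he, hab.2⟩
  exact_mod_cast (card_le_card h).trans (card_insert_le _ _)

lemma bd_erase_eq (U : Finset (Sym2 V)) {B : Finset V} {x y : V} (hx : x ∈ B) (hy : y ∈ B) :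
    bd U B = bd (U.erase s(x, y)) B := by
  unfold bd
  refine congrArg _ (congrArg _ (filter_congr ?_))
  rintro ⟨a, b⟩ hab
  simp only [mem_product, mem_compl] at hab
  simp only [mem_erase, ne_eq, iff_and_self]
  intro _ he
  rcases Sym2.eq_iff.1 he with ⟨rfl, rfl⟩ | ⟨rfl, rfl⟩
  · exact hab.2 hy
  · exact hab.2 hx

lemma bd_bound {p : ℝ} (p0 : 0 ≤ p) (p1 : p ≤ 1) :
    ∀ (A : Finset V) (U : Finset (Sym2 V)),
      p * val (fun _ => p) (bd U) A U ≤ (1 - p) * (val (fun _ => p) sz A U - sz A) := by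
  have hq : P01 (fun _ : Sym2 V => p) := P01_const p0 p1
  refine expl_ind (fun A U h => ?_) (fun A U x y hx hy he i1 i0 => ?_)
  · simp only [val_dead _ _ h]
    have : bd U A = 0 := by
      unfold bd
      rw [Nat.cast_eq_zero, card_eq_zero, filter_eq_empty_iff]
      rintro ⟨a, b⟩ hab
      simp only [mem_product, mem_compl] at hab
      exact h a hab.1 b hab.2
    simp [this]
  · rw [val_step _ _ hx he, val_step (fun _ => p) sz hx he]
    have s1 : sz (insert y A) = sz A + 1 := by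
      unfold sz; rw [card_insert_of_notMem hy]; push_cast; ring
    rw [s1] at i1
    have a1 : val (fun _ => p) (bd U) (insert y A) (U.erase s(x, y))
        = val (fun _ => p) (bd (U.erase s(x, y))) (insert y A) (U.erase s(x, y)) :=
      Ex_congr fun ω _ => bd_erase_eq U (subset_reach _ _ (mem_insert_of_mem hx))
        (subset_reach _ _ (mem_insert_self _ _))
    have a0 : val (fun _ => p) (bd U) A (U.erase s(x, y))
        ≤ val (fun _ => p) (bd (U.erase s(x, y))) A (U.erase s(x, y)) + 1 := by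
      unfold val
      rw [← Ex_const (U.erase s(x, y)) (fun _ => p) 1, ← Ex_add]
      exact Ex_mono hq fun ω _ => bd_erase_le U _ x y
    rw [a1]
    linarith [mul_le_mul_of_nonneg_left i1 p0, mul_le_mul_of_nonneg_left i0 (sub_nonneg.2 p1),
      mul_le_mul_of_nonneg_left a0 (mul_nonneg p0 (sub_nonneg.2 p1))]

end Pool.Agent.P.MP_068ab5_pr
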