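import Pool.Agent.P.MP_068ab5_pr.Ex

/-! Reachable sets and exploration values. -/

namespace Pool.Agent.P.MP_068ab5_pr

open Finset
open scoped Classical

set_option linter.unusedSectionVars false

variable {V : Type*} [Fintype V] [DecidableEq V]

/-- Connection through the edges of `ω`. -/
def Rch (ω : Finset (Sym2 V)) (x y : V) : Prop :=
  Relation.ReflTransGen (fun a b => s(a, b) ∈ ω) x y

/-- Vertices connected to `A`. -/
noncomputable def reach (ω : Finset (Sym2 V)) (A : Finset V) : Finset V :=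
  univ.filter fun y => ∃ x ∈ A, Rch ω x y

/-- Edges meeting `T`. -/
noncomputable def inc (T : Finset V) : Finset (Sym2 V) := univ.filter fun e => ∃ v ∈ T, v ∈ e

lemma mem_reach {ω : Finset (Sym2 V)} {A : Finset V} {y : V} :
    y ∈ reach ω A ↔ ∃ x ∈ A, Rch ω x y := by simp [reach]

lemma mem_inc {T : Finset V} {a b : V} : s(a, b) ∈ inc T ↔ a ∈ T ∨ b ∈ T := by
  simp only [inc, mem_filter, mem_univ, true_and, Sym2.mem_iff]
  constructor
  · rintro ⟨v, hv, rfl | rfl⟩
    · exact Or.inl hv
    · exact Or.inr hv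
  · rintro (h | h)
    · exact ⟨a, h, Or.inl rfl⟩
    · exact ⟨b, h, Or.inr rfl⟩

lemma inc_mono {S T : Finset V} (h : S ⊆ T) : inc S ⊆ inc T := by
  intro e he
  induction e using Sym2.ind with
  | _ a b => rw [mem_inc] at he ⊢; exact he.imp (fun x => h x) (fun x => h x)

lemma inc_union (S T : Finset V) : inc (S ∪ T) = inc S ∪ inc T := by
  ext e
  induction e using Sym2.ind with
  | _ a b => simp only [mem_inc, mem_union]; tauto

lemma inc_empty : inc (∅ : Finset V) = ∅ := by
  ext e
  induction e using Sym2.ind with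
  | _ a b => simp [mem_inc]

lemma Rch.symm {ω : Finset (Sym2 V)} {x y : V} (h : Rch ω x y) : Rch ω y x := by
  induction h with
  | refl => exact Relation.ReflTransGen.refl
  | tail _ hb ih => exact Relation.ReflTransGen.head (by rwa [Sym2.eq_swap]) ih

lemma subset_reach (ω : Finset (Sym2 V)) (A : Finset V) : A ⊆ reach ω A :=
  fun x hx => mem_reach.2 ⟨x, hx, Relation.ReflTransGen.refl⟩

lemma self_mem_reach (ω : Finset (Sym2 V)) (x : V) : x ∈ reach ω {x} :=
  subset_reach ω _ (mem_singleton_self x)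

lemma reach_step {ω : Finset (Sym2 V)} {A : Finset V} {x y : V} (hx : x ∈ reach ω A)
    (h : s(x, y) ∈ ω) : y ∈ reach ω A := by
  obtain ⟨a, ha, hr⟩ := mem_reach.1 hx
  exact mem_reach.2 ⟨a, ha, hr.tail h⟩

lemma reach_subset {ω : Finset (Sym2 V)} {A S : Finset V} (hA : A ⊆ S)
    (hS : ∀ x ∈ S, ∀ y, s(x, y) ∈ ω → y ∈ S) : reach ω A ⊆ S := by
  intro y hy
  obtain ⟨a, ha, hr⟩ := mem_reach.1 hy
  induction hr with
  | refl => exact hA ha
  | tail h1 h2 ih => exact hS _ (ih (mem_reach.2 ⟨a, ha, h1⟩)) _ h2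

lemma reach_mono {ω ω' : Finset (Sym2 V)} {A A' : Finset V} (hω : ω ⊆ ω') (hA : A ⊆ A') :
    reach ω A ⊆ reach ω' A' :=
  reach_subset (hA.trans (subset_reach _ _)) fun _ hx _ h => reach_step hx (hω h)

lemma reach_union_subset (ω : Finset (Sym2 V)) (A : Finset V) (y : V) :
    reach ω (insert y A) ⊆ reach ω A ∪ reach ω {y} := by
  refine reach_subset ?_ ?_
  · intro z hz
    rcases mem_insert.1 hz with rfl | hz
    · exact mem_union_right _ (self_mem_reach _ _)
    · exact mem_union_left _ (subset_reach _ _ hz)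
  · intro x hx z h
    rcases mem_union.1 hx with hx | hx
    · exact mem_union_left _ (reach_step hx h)
    · exact mem_union_right _ (reach_step hx h)

lemma reach_single_eq {ω : Finset (Sym2 V)} {x y : V} (h : y ∈ reach ω {x}) :
    reach ω {y} = reach ω {x} := by
  have h1 : Rch ω x y := by simpa [mem_reach] using h
  ext z
  simp only [mem_reach, mem_singleton, exists_eq_left]
  exact ⟨fun h2 => h1.trans h2, fun h2 => h1.symm.trans h2⟩

lemma mem_reach_comm {ω : Finset (Sym2 V)} {x y : V} : y ∈ reach ω {x} ↔ x ∈ reach ω {y} := by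
  simp only [mem_reach, mem_singleton, exists_eq_left]
  exact ⟨Rch.symm, Rch.symm⟩

lemma reach_inter_inc (ω : Finset (Sym2 V)) (A T : Finset V) :
    reach (ω ∩ inc T) A = T ↔ reach ω A = T := by
  constructor
  · intro h
    refine Subset.antisymm (reach_subset (h ▸ subset_reach _ _) fun x hx y hy => ?_)
      (h ▸ reach_mono inter_subset_left subset_rfl)
    rw [← h] at hx ⊢
    exact reach_step hx (mem_inter.2 ⟨hy, mem_inc.2 (Or.inl (h ▸ hx))⟩)
  · intro h
    refine Subset.antisymm (h ▸ reach_mono inter_subset_left subset_rfl) ?_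
    have : reach ω A ⊆ reach (ω ∩ inc T) A := by
      have h2 : reach ω A ⊆ reach (ω ∩ inc T) A ∩ T := by
        refine reach_subset (fun a ha => mem_inter.2 ⟨subset_reach _ _ ha,
          h ▸ subset_reach _ _ ha⟩) fun x hx y hy => ?_
        obtain ⟨h1, h2⟩ := mem_inter.1 hx
        exact mem_inter.2 ⟨reach_step h1 (mem_inter.2 ⟨hy, mem_inc.2 (Or.inl h2)⟩),
          h ▸ reach_step (h ▸ h2) hy⟩
      exact h2.trans inter_subset_left
    exact h ▸ this

lemma reach_insert_edge {ω : Finset (Sym2 V)} {A : Finset V} {x : V} (hx : x ∈ A) (y : V) :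
    reach (insert s(x, y) ω) A = reach ω (insert y A) := by
  refine Subset.antisymm (reach_subset ((subset_insert _ _).trans (subset_reach _ _)) ?_)
    (reach_subset ?_ fun a ha b hb => reach_step ha (mem_insert_of_mem hb))
  · intro a ha b hb
    rcases mem_insert.1 hb with h | h
    · rcases Sym2.eq_iff.1 h with ⟨-, rfl⟩ | ⟨-, rfl⟩
      · exact subset_reach _ _ (mem_insert_self _ _)
      · exact subset_reach _ _ (mem_insert_of_mem hx)
    · exact reach_step ha h
  · intro z hz
    rcases mem_insert.1 hz with rfl | hz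
    · exact reach_step (subset_reach _ _ hx) (mem_insert_self _ _)
    · exact subset_reach _ _ hz

/-- Removing the edges at a closed set that misses `y` does not change the cluster of `y`. -/
lemma reach_off {ω : Finset (Sym2 V)} {A : Finset V} {y : V} (hy : y ∉ reach ω A) :
    reach (ω \ inc (reach ω A)) {y} = reach ω {y} := by
  refine Subset.antisymm (reach_mono sdiff_subset subset_rfl) ?_
  have : reach ω {y} ⊆ (reach (ω \ inc (reach ω A)) {y}).filter fun z => z ∉ reach ω A := by
    refine reach_subset ?_ fun a ha b hb => ?_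
    · intro z hz
      rw [mem_singleton.1 hz]
      exact mem_filter.2 ⟨self_mem_reach _ _, hy⟩
    · obtain ⟨h1, h2⟩ := mem_filter.1 ha
      have h3 : b ∉ reach ω A := fun h => h2 (reach_step h (by rwa [Sym2.eq_swap]))
      exact mem_filter.2 ⟨reach_step h1 (mem_sdiff.2 ⟨hb, by rw [mem_inc]; tauto⟩), h3⟩
  exact this.trans (filter_subset _ _)

lemma reach_off_disjoint {ω : Finset (Sym2 V)} {S : Finset V} {y : V} (hy : y ∉ S) :
    ∀ z ∈ reach (ω \ inc S) {y}, z ∉ S := by
  have : reach (ω \ inc S) {y} ⊆ univ.filter fun z => z ∉ S := by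
    refine reach_subset ?_ fun a _ b hb => ?_
    · intro z hz
      rw [mem_singleton.1 hz]; simpa using hy
    · have := (mem_sdiff.1 hb).2
      rw [mem_inc] at this
      simp only [mem_filter, mem_univ, true_and]; tauto
  intro z hz
  simpa using this hz

lemma reach_insert_subset (ω : Finset (Sym2 V)) (A : Finset V) (y : V) :
    reach ω (insert y A) ⊆ reach ω A ∪ reach (ω \ inc (reach ω A)) {y} := by
  by_cases hy : y ∈ reach ω A
  · refine (reach_subset ?_ fun a ha b hb => reach_step ha hb).trans subset_union_left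
    exact insert_subset hy (subset_reach _ _)
  · rw [reach_off hy]; exact reach_union_subset ω A y

/-- Expected value of a function of the set reached from `A` through the edges of `U`. -/
noncomputable def val (q : Sym2 V → ℝ) (F : Finset V → ℝ) (A : Finset V)
    (U : Finset (Sym2 V)) : ℝ := Ex U q fun ω => F (reach ω A)

lemma val_step (q : Sym2 V → ℝ) (F : Finset V → ℝ) {A : Finset V} {U : Finset (Sym2 V)}
    {x y : V} (hx : x ∈ A) (he : s(x, y) ∈ U) :
    val q F A U = q s(x, y) * val q F (insert y A) (U.erase s(x, y))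
      + (1 - q s(x, y)) * val q F A (U.erase s(x, y)) := by
  unfold val
  rw [Ex_erase he]
  simp only [reach_insert_edge hx]

lemma val_dead (q : Sym2 V → ℝ) (F : Finset V → ℝ) {A : Finset V} {U : Finset (Sym2 V)}
    (h : ∀ x ∈ A, ∀ y, y ∉ A → s(x, y) ∉ U) : val q F A U = F A := by
  unfold val
  rw [← Ex_const U q (F A)]
  refine Ex_congr fun ω hω => ?_
  rw [Subset.antisymm (reach_subset subset_rfl fun x hx y hy => by
    by_contra hc; exact h x hx y hc (hω hy)) (subset_reach ω A)]

lemma expl_ind {P : Finset V → Finset (Sym2 V) → Prop}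
    (dead : ∀ A U, (∀ x ∈ A, ∀ y, y ∉ A → s(x, y) ∉ U) → P A U)
    (step : ∀ A U x y, x ∈ A → y ∉ A → s(x, y) ∈ U → P (insert y A) (U.erase s(x, y)) →
      P A (U.erase s(x, y)) → P A U) : ∀ A U, P A U := by
  intro A U
  induction' hn : U.card using Nat.strong_induction_on with m ih generalizing A U
  by_cases h : ∀ x ∈ A, ∀ y, y ∉ A → s(x, y) ∉ U
  · exact dead A U h
  · push Not at h
    obtain ⟨x, hx, y, hy, he⟩ := h
    have hlt : (U.erase s(x, y)).card < m := hn ▸ card_erase_lt_of_mem he
    exact step A U x y hx hy he (ih _ hlt _ _ rfl) (ih _ hlt _ _ rfl)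

lemma val_mono {q : Sym2 V → ℝ} (hq : P01 q) {F : Finset V → ℝ} (hF : Monotone F)
    {A A' : Finset V} (hA : A ⊆ A') {U U' : Finset (Sym2 V)} (hU : U ⊆ U') :
    val q F A U ≤ val q F A' U' :=
  (Ex_mono hq fun _ _ => hF (reach_mono subset_rfl hA)).trans
    (Ex_mono_set hU hq fun _ _ h => hF (reach_mono h subset_rfl))

lemma le_val {q : Sym2 V → ℝ} (hq : P01 q) {F : Finset V → ℝ} (hF : Monotone F)
    (A : Finset V) (U : Finset (Sym2 V)) : F A ≤ val q F A U :=
  const_le_Ex hq fun _ _ => hF (subset_reach _ _)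

/-- Markov property of the cluster of `A`. -/
lemma markov_reach (U : Finset (Sym2 V)) (q : Sym2 V → ℝ) (A : Finset V)
    (g : Finset V → Finset (Sym2 V) → ℝ) :
    Ex U q (fun ω => g (reach ω A) (ω \ inc (reach ω A)))
      = Ex U q (fun ω => Ex (U \ inc (reach ω A)) q (g (reach ω A))) := by
  have := Ex_markov U q (fun ω => reach ω A) inc (fun ω T => reach_inter_inc ω A T)
    (fun _ _ => 1) g (fun _ _ => rfl)
  simpa using this

/-- Indicator of membership. -/
noncomputable def mem1 (z : V) (B : Finset V) : ℝ := if z ∈ B then 1 else 0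

lemma mem1_mono (z : V) : Monotone (mem1 z) := by
  intro A B h
  unfold mem1
  split_ifs with h1 h2
  · exact le_rfl
  · exact absurd (h h1) h2
  · exact zero_le_one
  · exact le_rfl

lemma mem1_nonneg (z : V) (B : Finset V) : 0 ≤ mem1 z B := by
  unfold mem1; split_ifs <;> norm_num

lemma mem1_le_one (z : V) (B : Finset V) : mem1 z B ≤ 1 := by
  unfold mem1; split_ifs <;> norm_num

lemma sum_eq_mem1 (w : V → ℝ) (B : Finset V) : ∑ z ∈ B, w z = ∑ z, mem1 z B * w z := by
  simp [mem1]

/-- Total weight of a set. -/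
noncomputable def wt (w : V → ℝ) (B : Finset V) : ℝ := ∑ z ∈ B, w z

lemma wt_mono {w : V → ℝ} (hw : ∀ z, 0 ≤ w z) : Monotone (wt w) :=
  fun _ _ h => sum_le_sum_of_subset_of_nonneg h fun z _ _ => hw z

lemma val_wt (q : Sym2 V → ℝ) (w : V → ℝ) (A : Finset V) (U : Finset (Sym2 V)) :
    val q (wt w) A U = ∑ z, val q (mem1 z) A U * w z := by
  unfold val wt
  simp only [sum_eq_mem1 w]
  rw [Ex_sum]
  exact sum_congr rfl fun z _ => Ex_mul _ _ _ _

/-- Size of a set as a real number. -/
noncomputable def sz (B : Finset V) : ℝ := B.card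

lemma sz_eq_wt : (sz : Finset V → ℝ) = wt fun _ => 1 := by
  funext B; simp [sz, wt]

lemma sz_mono : Monotone (sz : Finset V → ℝ) := by
  rw [sz_eq_wt]; exact wt_mono fun _ => zero_le_one

lemma val_sz (q : Sym2 V → ℝ) (A : Finset V) (U : Finset (Sym2 V)) :
    val q sz A U = ∑ z, val q (mem1 z) A U := by
  rw [sz_eq_wt, val_wt]; simp

lemma val_mem1_nonneg {q : Sym2 V → ℝ} (hq : P01 q) (z : V) (A : Finset V)
    (U : Finset (Sym2 V)) : 0 ≤ val q (mem1 z) A U := Ex_nonneg hq fun _ => mem1_nonneg _ _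

lemma val_mem1_self {q : Sym2 V → ℝ} {z : V} {A : Finset V} (h : z ∈ A)
    (U : Finset (Sym2 V)) : val q (mem1 z) A U = 1 := by
  unfold val
  rw [← Ex_const U q 1]
  exact Ex_congr fun ω _ => if_pos (subset_reach _ _ h)

/-- Jump of an additive functional. -/
lemma jump_wt {q : Sym2 V → ℝ} (hq : P01 q) {w : V → ℝ} (hw : ∀ z, 0 ≤ w z) (A : Finset V)
    (y : V) {U E0 : Finset (Sym2 V)} (hU : U ⊆ E0) :
    val q (wt w) (insert y A) U ≤ val q (wt w) A U + val q (wt w) {y} E0 := by
  refine le_trans ?_ (add_le_add_right (val_mono hq (wt_mono hw) subset_rfl hU) _)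
  unfold val
  rw [← Ex_add]
  refine Ex_mono hq fun ω _ => ?_
  refine (wt_mono hw (reach_union_subset ω A y)).trans ?_
  unfold wt
  rw [← sum_union_inter]
  exact le_add_of_nonneg_right (sum_nonneg fun z _ => hw z)

lemma jump_mem1 {q : Sym2 V → ℝ} (hq : P01 q) (z : V) (A : Finset V)
    (y : V) {U E0 : Finset (Sym2 V)} (hU : U ⊆ E0) :
    val q (mem1 z) (insert y A) U ≤ val q (mem1 z) A U + val q (mem1 z) {y} E0 := by
  have h : (mem1 z : Finset V → ℝ) = wt fun v => if v = z then 1 else 0 := by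
    funext B; simp [mem1, wt]
  rw [h]
  exact jump_wt hq (fun v => by split_ifs <;> norm_num) A y hU

lemma val_sz_le {q : Sym2 V → ℝ} (hq : P01 q) {U E0 : Finset (Sym2 V)} (hU : U ⊆ E0) {χ : ℝ}
    (hχ : ∀ y, val q sz {y} E0 ≤ χ) (A : Finset V) : val q sz A U ≤ A.card * χ := by
  induction A using Finset.induction_on with
  | empty =>
    rw [val_dead q sz (by simp)]; simp [sz]
  | insert y A hy ih =>
    have := jump_wt hq (w := fun _ => 1) (fun _ => zero_le_one) A y hU
    rw [← sz_eq_wt] at this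
    rw [card_insert_of_notMem hy]
    push_cast
    linarith [hχ y]

end Pool.Agent.P.MP_068ab5_pr
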