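import Pool.Agent.P.MP_068ab5_pr.Cal

/-! Cluster sizes very close to the critical point. -/

namespace Pool.Agent.P.MP_068ab5_pr

open Finset Real
open scoped Classical

variable {d : ℕ} {δ ε ξ p e κ r L K : ℝ} {g : Cube d → ℝ}

/-- Scale parameters. -/
structure Sc (d : ℕ) (δ ε L K : ℝ) : Prop where
  δ0 : 0 < δ
  δ1 : δ ≤ 1 / 1000
  ε0 : 0 < ε
  ε1 : ε ≤ 1
  hW : ε ^ 3 * 2 ^ d = exp L
  hK : ε ^ 2 * K = L
  hL : 1 ≤ δ ^ 10 * L

lemma Sc.L0 (s : Sc d δ ε L K) : 0 < L := not_le.1 fun h => by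
  linarith [s.hL, mul_nonneg (pow_pos s.δ0 10).le (neg_nonneg.2 h)]

lemma Sc.pw (s : Sc d δ ε L K) {n : ℕ} (hn : n ≤ 8) : 1000000 ≤ δ ^ n * L := by
  have h1 := (pow_le_pow_of_le_one s.δ0.le (by linarith [s.δ1]) (show n + 2 ≤ 10 by omega)).trans
    ((pow_small s.δ0 s.δ1 (n + 1)).trans
      (div_le_div_of_nonneg_right (pow_small s.δ0 s.δ1 n) (by norm_num)))
  linarith [mul_le_mul_of_nonneg_right h1 s.L0.le, s.hL]

lemma Sc.K0 (s : Sc d δ ε L K) : 0 < K := not_le.1 fun h => by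
  linarith [s.L0, s.hK, mul_nonneg (pow_pos s.ε0 2).le (neg_nonneg.2 h)]

lemma Sc.LK (s : Sc d δ ε L K) : L ≤ ε * K := by
  nlinarith only [s.hK, s.ε1, mul_pos s.ε0 s.K0]

lemma Sc.LK' (s : Sc d δ ε L K) : L ≤ K := by nlinarith only [s.LK, s.ε1, s.K0]

lemma Sc.δK (s : Sc d δ ε L K) : 1000 ≤ δ * K := by
  have := s.pw (n := 1) (by norm_num)
  nlinarith only [this, s.LK', s.δ0]

lemma Sc.W (s : Sc d δ ε L K) {n : ℕ} (hn : n ≤ 8) : 1000 * L ≤ δ ^ n * (ε ^ 3 * 2 ^ d) := by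
  have h1 := quadratic_le_exp_of_nonneg s.L0.le
  have h2 := mul_le_mul_of_nonneg_left (show L ^ 2 / 2 ≤ exp L by linarith [s.L0])
    (pow_pos s.δ0 n).le
  rw [s.hW]
  nlinarith only [h2, mul_le_mul_of_nonneg_right (s.pw hn) s.L0.le, s.L0]

lemma Sc.W1 (s : Sc d δ ε L K) : 1 ≤ ε ^ 3 * 2 ^ d := s.hW ▸ one_le_exp s.L0.le

lemma Sc.KV (s : Sc d δ ε L K) : 1000 * K ≤ δ * ε * 2 ^ d := by
  have h1 := s.W (n := 1) (by norm_num)
  rw [← s.hK] at h1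
  exact le_of_mul_le_mul_left (by linarith) (pow_pos s.ε0 2)

lemma Sc.K1 (s : Sc d δ ε L K) : 1000 ≤ K := by nlinarith only [s.δK, s.δ1, s.K0]

lemma Sc.sat (s : Sc d δ ε L K) {k : ℝ} (h1 : δ * ε ≤ ξ) (hk : K ≤ k) {n : ℕ} (hn : n ≤ 6) :
    400 ≤ δ ^ n * ξ ^ 2 * k := by
  have := s.δ0
  have := s.ε0
  have := s.K0
  have h2 : δ ^ n * (δ * ε) ^ 2 * K ≤ δ ^ n * ξ ^ 2 * k := by gcongr
  have h3 := s.pw (show n + 2 ≤ 8 by omega)
  rw [← s.hK] at h3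
  have : δ ^ (n + 2) * (ε ^ 2 * K) = δ ^ n * (δ * ε) ^ 2 * K := by ring
  linarith

lemma Sc.sat1 (s : Sc d δ ε L K) {k : ℝ} (h1 : δ * ε ≤ ξ) (hk : K ≤ k) : 1 ≤ δ * ξ ^ 2 * k := by
  have := s.sat h1 hk (n := 1) (by norm_num)
  rw [pow_one] at this
  linarith

lemma Sc.fin (s : Sc d δ ε L K) {P k : ℝ} (P0 : 0 ≤ P) (hk : 2 * K ≤ k)
    (h : P * (k + 1) ≤ Fintype.card (Cube d) * (100 * ε * exp (-L))) : P ≤ δ := by
  rw [card_cube] at h
  push_cast at h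
  have h1 : exp L * exp (-L) = 1 := by rw [← exp_add]; simp
  have h2 := mul_le_mul_of_nonneg_left
    ((mul_le_mul_of_nonneg_left (show 2 * K ≤ k + 1 by linarith) P0).trans h) (sq_nonneg ε)
  have h3 : ε ^ 2 * (2 ^ d * (100 * ε * exp (-L))) = 100 := by
    linear_combination 100 * exp (-L) * s.hW + 100 * h1
  have h4 : ε ^ 2 * (P * (2 * K)) = 2 * P * L := by linear_combination 2 * P * s.hK
  have h5 := s.pw (n := 1) (by norm_num)
  refine le_of_mul_le_mul_right ?_ s.L0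
  linarith

lemma Sc.ceil (s : Sc d δ ε L K) {c : ℝ} (c0 : 0 ≤ c) :
    ∃ k : ℕ, c * K ≤ k ∧ k ≤ (c + δ) * K :=
  ⟨_, Nat.le_ceil _, by
    linarith [Nat.ceil_lt_add_one (mul_nonneg c0 s.K0.le), s.δK]⟩

/-- The window for the true distance. -/
def Near (δ ε ξ : ℝ) : Prop := (1 - 3 * δ) * ε ≤ ξ ∧ ξ ≤ (1 + 3 * δ) * ε

lemma Near.rng (s : Sc d δ ε L K) (h : Near δ ε ξ) : δ * ε ≤ ξ ∧ ξ ≤ 4 * ε ∧ ξ ≤ 2 * ε ∧
    ε / 2 ≤ ξ ∧ (1 - 6 * δ) * ε ^ 2 ≤ ξ ^ 2 := by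
  have := mul_le_mul_of_nonneg_right s.δ1 s.ε0.le
  have ε0 := s.ε0
  refine ⟨by linarith [h.1], by linarith [h.2], by linarith [h.2], by linarith [h.1], ?_⟩
  nlinarith only [pow_le_pow_left₀ (by linarith) h.1 2, sq_nonneg (δ * ε)]

lemma sub_tail (h : Base d δ ε p e g κ) (s : Sc d δ ε L K) (hn : Near δ ε ξ) {k : ℝ}
    (hk : (2 + 30 * δ) * K ≤ k) (x : Cube d) :
    val (fun _ => p * (1 + (e - ξ))) (gt k) {x} (E0 d) ≤ 100 * ε * exp (-L) := by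
  obtain ⟨a1, a2, a3, a4, a5⟩ := hn.rng s
  have δ0 := s.δ0
  have δ1 := s.δ1
  have K0 := s.K0
  have hc := h.cond a1 a2
  refine (T_sub h.ref hc subset_rfl x (h.r01 (by linarith [hc.ξe, hc.ξ0])
    (by linarith [hc.ξ0, s.ε0])).1 le_rfl
    (le_trans (by norm_num) (s.sat a1 (by nlinarith only [hk, δ0, K0]) (by norm_num)))).trans ?_
  refine mul_le_mul (by linarith [s.ε0]) (exp_le_exp.2 (neg_le_neg ?_)) (exp_pos _).le
    (by linarith [s.ε0])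
  have b1 : (1 - δ) * ((1 - 6 * δ) * ε ^ 2) / 2 * ((2 + 30 * δ) * K)
      ≤ (1 - δ) * ξ ^ 2 / 2 * k := by
    have : 0 ≤ 1 - δ := by linarith
    gcongr
  have b2 : 1 ≤ (1 - δ) * (1 - 6 * δ) / 2 * (2 + 30 * δ) := by
    nlinarith only [δ0, δ1, mul_pos δ0 δ0]
  have b3 := mul_le_mul_of_nonneg_right b2 s.L0.le
  rw [← s.hK] at b3 ⊢
  linarith

lemma Base.P01m (h : Base d δ ε p e g κ) (s : Sc d δ ε L K) (hn : Near δ ε ξ) :
    P01 (fun _ : Sym2 (Cube d) => p * (1 + (e - ξ))) := by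
  obtain ⟨a1, a2, -⟩ := hn.rng s
  have hc := h.cond a1 a2
  obtain ⟨b0, b1⟩ := h.r01 (a := e - ξ) (by linarith [hc.ξe, hc.ξ0]) (by linarith [hc.ξ0, s.ε0])
  exact P01_const b0 b1

lemma Base.P01p (h : Base d δ ε p e g κ) (s : Sc d δ ε L K) (hn : Near δ ε ξ) :
    P01 (fun _ : Sym2 (Cube d) => p * (1 + (e + ξ))) := by
  obtain ⟨a1, a2, -⟩ := hn.rng s
  have hc := h.cond a1 a2
  obtain ⟨b0, b1⟩ := h.r01 (a := e + ξ) (by linarith [hc.ξe, hc.ξ0]) (by linarith)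
  exact P01_const b0 b1

theorem ub_sub (h : Base d δ ε p e g κ) (s : Sc d δ ε L K) (hn : Near δ ε ξ) :
    Pr (E0 d) (fun _ => p * (1 + (e - ξ))) (Big ((2 + 30 * δ) * K)) ≤ δ :=
  s.fin (Pr_nonneg (h.P01m s hn)) (by nlinarith only [s.δ0, s.K0])
    (union_big (h.P01m s hn) (sub_tail h s hn le_rfl))

lemma trialsI (h : Base d δ ε p e g κ) (s : Sc d δ ε L K) (hI : ε * (d : ℝ) ^ 7 ≤ 1)
    (h1 : δ * ε ≤ ξ) (h2 : ξ ≤ 4 * ε) {aP : ℝ} (a0 : 0 ≤ aP) (a1 : aP ≤ e + ξ) {k : ℕ}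
    (k1 : K ≤ k) (k2 : k ≤ 3 * K) (hc : cost δ ξ (e + ξ - aP) * k ≤ (1 - δ) * L)
    (D0 : Finset (Cube d))
    (hD : (1 + δ) * (sz D0 + δ * ε * 2 ^ d / 2) ≤ (1 - 2 * δ) * ξ * 2 ^ d) :
    Pr (E0 d \ inc D0) (fun _ => p * (1 + aP)) (fun ω => ¬ Big k ω) ≤ 2 * δ := by
  have δ0 := s.δ0
  have δ1 := s.δ1
  have ε0 := s.ε0
  have K0 := s.K0
  have p0 := h.ref.p0
  obtain ⟨r0, r1⟩ := h.r01 a0 (by linarith)
  refine trials (P01_const r0 r1) (R := δ * ε * 2 ^ d / 4) (ν := 61 * (ε * K))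
    (w := exp (-((1 - δ) * L)) * (δ * (δ * ε) / 8)) (by positivity) (by positivity)
    (by positivity) δ0 (by linarith) ?_ D0 fun D hD' => ?_
  · refine le_of_mul_le_mul_left ?_ ε0
    have b1 : exp L * exp (-((1 - δ) * L)) = exp (δ * L) := by rw [← exp_add]; ring_nf
    have b2 := quadratic_le_exp_of_nonneg (mul_pos δ0 s.L0).le
    have b3 := mul_le_mul_of_nonneg_left
      (show (δ * L) ^ 2 / 2 ≤ exp (δ * L) by linarith [mul_pos δ0 s.L0]) (pow_pos δ0 5).le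
    have b4 := mul_le_mul_of_nonneg_right (s.pw (n := 7) (by norm_num)) s.L0.le
    have b5 : ε * (δ ^ 2 * (δ * ε * 2 ^ d / 4) * (exp (-((1 - δ) * L)) * (δ * (δ * ε) / 8)))
        = δ ^ 5 * exp (δ * L) / 32 := by
      rw [← b1, ← s.hW]; ring
    rw [b5]
    linarith [s.hK, s.L0]
  · obtain ⟨x, hx⟩ := T4_I h hI s.W1 h1 h2 D (k := k) (le_trans (mul_le_mul_of_nonneg_left
      (by linarith [s.KV, s.K1]) (by linarith)) hD) (s.sat h1 k1 (by norm_num)) a0 a1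
    refine ⟨x, le_trans (mul_le_mul (exp_le_exp.2 (neg_le_neg hc)) (by gcongr) (by positivity)
      (exp_pos _).le) hx, ?_⟩
    refine (T_nu h.ref (h.cond h1 h2).small' sdiff_subset x r0
      (mul_le_mul_of_nonneg_left (by linarith) p0.le)
      (le_trans (by norm_num) (s.sat h1 k1 (by norm_num)))).trans ?_
    have b1 : ξ * k ≤ (4 * ε) * (3 * K) := mul_le_mul h2 k2 (Nat.cast_nonneg _) (by positivity)
    linarith [s.LK, s.pw (n := 0) (by norm_num), pow_zero δ]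

lemma cost_sub (s : Sc d δ ε L K) (hn : Near δ ε ξ) {k : ℝ} (k0 : 0 ≤ k)
    (hk : k ≤ (2 - 100 * δ + δ) * K) :
    cost δ (δ * ε) (e + δ * ε - (e - ξ)) * k ≤ (1 - 39 * δ) * L := by
  obtain ⟨a1, a2, a3, a4, a5⟩ := hn.rng s
  have δ0 := s.δ0
  have δ1 := s.δ1
  have ε0 := s.ε0
  have b1 : cost δ (δ * ε) (e + δ * ε - (e - ξ)) ≤ (1 + δ) * ((1 + 4 * δ) * ε) ^ 2 / 2
      + 4 * ((1 + 4 * δ) * ε) * (δ * (δ * ε)) := by
    have c0 : 0 ≤ e + δ * ε - (e - ξ) := by linarith [mul_pos δ0 ε0]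
    have c1 : e + δ * ε - (e - ξ) ≤ (1 + 4 * δ) * ε := by linarith [hn.2]
    unfold cost
    gcongr
  have b2 : (1 + δ) * (1 + 4 * δ) ^ 2 / 2 + 4 * (1 + 4 * δ) * δ ^ 2 ≤ 1 / 2 + 5 * δ := by
    nlinarith only [δ0, δ1, mul_pos δ0 δ0]
  have b3 := mul_le_mul_of_nonneg_right b2 (sq_nonneg ε)
  have b4 : cost δ (δ * ε) (e + δ * ε - (e - ξ)) * k
      ≤ ((1 / 2 + 5 * δ) * ε ^ 2) * ((2 - 100 * δ + δ) * K) :=
    mul_le_mul (by linarith) hk k0 (by positivity)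
  have b5 : (1 / 2 + 5 * δ) * (2 - 100 * δ + δ) ≤ 1 - 39 * δ := by
    nlinarith only [δ0, mul_pos δ0 δ0]
  have b6 := mul_le_mul_of_nonneg_right b5 s.L0.le
  rw [← s.hK] at b6 ⊢
  linarith

theorem lb_sub_I (h : Base d δ ε p e g κ) (s : Sc d δ ε L K) (hn : Near δ ε ξ)
    (hI : ε * (d : ℝ) ^ 7 ≤ 1) :
    Pr (E0 d) (fun _ => p * (1 + (e - ξ))) (fun ω => ¬ Big ((2 - 100 * δ) * K) ω) ≤ 2 * δ := by
  obtain ⟨a1, a2, a3, a4, a5⟩ := hn.rng s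
  have δ0 := s.δ0
  have δ1 := s.δ1
  have ε0 := s.ε0
  have K0 := s.K0
  have hc := h.cond a1 a2
  obtain ⟨k, k1, k2⟩ := s.ceil (c := 2 - 100 * δ) (by linarith)
  have := trialsI h s hI le_rfl (by linarith) (aP := e - ξ) (by linarith [hc.ξe, hc.ξ0])
    (by linarith [mul_pos δ0 ε0]) (k := k) (by nlinarith only [k1, δ1, K0])
    (by nlinarith only [k2, δ0, K0]) ((cost_sub s hn (Nat.cast_nonneg _) k2).trans
      (by nlinarith only [δ0, s.L0])) ∅ (by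
        simp only [sz, card_empty, Nat.cast_zero]
        nlinarith only [δ1, show 0 < δ * ε * 2 ^ d by positivity])
  rw [sdiff_inc_empty] at this
  exact (Pr_mono (h.P01m s hn) fun ω _ h1 h2 => h1 (h2.anti k1)).trans this

lemma gapI (h : Base d δ ε p e g κ) (s : Sc d δ ε L K) (hn : Near δ ε ξ)
    (hI : ε * (d : ℝ) ^ 7 ≤ 1) :
    Pr (E0 d) (fun _ => p * (1 + (e + ξ))) (fun ω => ¬ Big ((2 + 30 * δ) * K) ω ∨
      Win ((2 + 30 * δ) * K) ((2 - 20 * δ) * (ε * 2 ^ d)) ω) ≤ 4 * δ := by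
  obtain ⟨a1, a2, a3, a4, a5⟩ := hn.rng s
  have δ0 := s.δ0
  have δ1 := s.δ1
  have ε0 := s.ε0
  have K0 := s.K0
  have hc := h.cond a1 a2
  have ξ0 := hc.ξ0
  have hq := h.P01p s hn
  have V0 : (0 : ℝ) < 2 ^ d := by positivity
  have KV := s.KV
  have K1 := s.K1
  have εV : δ * ε * 2 ^ d ≤ ε * 2 ^ d / 1000 := by nlinarith only [δ1, mul_pos ε0 V0]
  have two : ∀ {a b : ℝ}, L ≤ a → L ≤ b →
      25 * ξ * (exp (-a) + exp (-b)) ≤ 100 * ε * exp (-L) := fun ha hb => by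
    have := mul_le_mul (show 25 * ξ ≤ 50 * ε by linarith)
      (add_le_add (exp_le_exp.2 (neg_le_neg ha)) (exp_le_exp.2 (neg_le_neg hb)))
      (by positivity) (by positivity)
    linarith
  have sq : ε ^ 2 ≤ 2 * ξ ^ 2 := by nlinarith only [a5, δ1, sq_nonneg ε]
  have w0 : Pr (E0 d) (fun _ => p * (1 + (e + ξ))) (fun ω => ¬ Big ((2 + 30 * δ) * K) ω)
      ≤ 2 * δ := by
    obtain ⟨k, k1, k2⟩ := s.ceil (c := 2 + 30 * δ) (by linarith)
    have := trialsI h s hI a1 a2 (aP := e + ξ) (by linarith [hc.ξe]) le_rfl (k := k)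
      (by nlinarith only [k1, δ0, K0]) (by nlinarith only [k2, δ1, K0])
      (by rw [cost_zero, zero_mul]; nlinarith only [δ1, s.L0]) ∅ (by
        simp only [sz, card_empty, Nat.cast_zero]
        have := mul_le_mul_of_nonneg_right a4 V0.le
        nlinarith only [δ1, εV, this, show 0 < δ * ε * 2 ^ d by positivity, mul_pos ξ0 V0])
    rw [sdiff_inc_empty] at this
    exact (Pr_mono hq fun ω _ h1 h2 => h1 (h2.anti k1)).trans this
  have w1 : Pr (E0 d) (fun _ => p * (1 + (e + ξ)))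
      (Win ((2 + 30 * δ) * K) (δ * ε * 2 ^ d)) ≤ δ := by
    refine s.fin (Pr_nonneg hq) (by nlinarith only [δ0, K0]) (union_win hq fun x =>
      (T3_I h hI s.W1 a1 a2 x ξ0 le_rfl (ρ := (1 / 2 - 6 * δ) * ε ^ 2)
        (mul_nonneg (by linarith) (sq_nonneg _)) (by positivity) (by linarith) ?_
        (s.sat1 a1 (by linarith))
        (le_trans (by norm_num) (s.sat a1 (by nlinarith only [δ0, K0]) (by norm_num)))).trans
        (two ?_ ?_))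
    · have b1 : (1 / 2 + 2 * δ) * (δ * ε * 2 ^ d + 1) ≤ (51 / 100) * (δ * ε * 2 ^ d * (11 / 10)) :=
        mul_le_mul (by linarith) (by linarith) (by positivity) (by norm_num)
      have b2 : (1 - 3 * δ) * ε * (1 / 2 - 3 / 2 * δ) ≤ ξ * (1 / 2 - 3 / 2 * δ) :=
        mul_le_mul_of_nonneg_right hn.1 (by linarith)
      have b3 := mul_le_mul_of_nonneg_right b2 V0.le
      have b4 : (1 - 3 * δ) * ε * ((1 / 2 - 4 * δ) * ε * 2 ^ d)
          ≤ ξ * ((ξ * (1 - δ) - ξ * (1 + δ) / 2) * 2 ^ d - (1 / 2 + 2 * δ) * (δ * ε * 2 ^ d + 1)) :=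
        mul_le_mul hn.1 (by linarith [show 0 < δ * δ * ε * 2 ^ d by positivity])
          (mul_nonneg (mul_nonneg (by linarith) ε0.le) V0.le) ξ0.le
      linarith [show 0 < δ * δ * ε ^ 2 * 2 ^ d by positivity,
        show 0 < δ * ε ^ 2 * 2 ^ d by positivity]
    · have b2 : 1 ≤ (1 / 2 - 6 * δ) * (2 + 30 * δ) := by nlinarith only [δ0, δ1]
      have b3 := mul_le_mul_of_nonneg_right b2 s.L0.le
      rw [← s.hK] at b3 ⊢
      linarith
    · linarith [s.W (n := 1) (by norm_num), s.L0,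
        mul_le_mul_of_nonneg_right sq (show 0 ≤ δ * ε * 2 ^ d by positivity)]
  have w2 : Pr (E0 d) (fun _ => p * (1 + (e + ξ)))
      (Win (δ * ε * 2 ^ d) ((2 - 20 * δ) * (ε * 2 ^ d))) ≤ δ := by
    refine s.fin (Pr_nonneg hq) (by linarith) (union_win hq fun x =>
      (T3_I h hI s.W1 a1 a2 x (γ := δ * ξ) (by positivity) (by nlinarith only [δ1, ξ0])
        (ρ := δ ^ 2 * ε ^ 2 / 2) (by positivity) (by linarith) (by linarith) ?_
        (s.sat1 a1 (by linarith))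
        (le_trans (by norm_num) (s.sat a1 (by linarith) (by norm_num)))).trans (two ?_ ?_))
    · have b1 : (1 - 3 * δ) * ε * (1 - 16 / 10 * δ) ≤ ξ * (1 - δ) - δ * ξ * (1 + δ) / 2 := by
        nlinarith only [mul_le_mul_of_nonneg_right hn.1 (show 0 ≤ 1 - 16 / 10 * δ by linarith),
          δ1, mul_pos δ0 ξ0]
      have b3 := mul_le_mul_of_nonneg_right b1 V0.le
      have b4 : δ * (ε / 2) * (δ * ε * 2 ^ d) ≤ δ * ξ * ((ξ * (1 - δ) - δ * ξ * (1 + δ) / 2) * 2 ^ d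
          - (1 / 2 + 2 * δ) * ((2 - 20 * δ) * (ε * 2 ^ d) + 1)) :=
        mul_le_mul (by gcongr) (by linarith [show 0 < δ * δ * ε * 2 ^ d by positivity])
          (by positivity) (by positivity)
      linarith
    · linarith [s.W (n := 3) (by norm_num), s.L0]
    · have b1 : ε ^ 2 * (ε * 2 ^ d) ≤ 2 * ξ ^ 2 * ((2 - 20 * δ) * (ε * 2 ^ d)) :=
        mul_le_mul sq (by linarith) (by positivity) (by positivity)
      linarith [s.W (n := 0) (by norm_num), s.L0, pow_zero δ]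
  have u1 := Pr_or (s := E0 d) hq (P := Win ((2 + 30 * δ) * K) ((2 - 20 * δ) * (ε * 2 ^ d)))
    (Q := Win ((2 + 30 * δ) * K) (δ * ε * 2 ^ d))
    (R := Win (δ * ε * 2 ^ d) ((2 - 20 * δ) * (ε * 2 ^ d))) fun ω _ ⟨x, h1, h2⟩ =>
      (le_total (sz (reach ω {x})) (δ * ε * 2 ^ d + 1)).imp (fun h3 => ⟨x, h1, h3⟩)
        fun h3 => ⟨x, h3, h2⟩
  linarith [Pr_or (s := E0 d) hq (Q := fun ω => ¬ Big ((2 + 30 * δ) * K) ω)
    (R := Win ((2 + 30 * δ) * K) ((2 - 20 * δ) * (ε * 2 ^ d))) fun ω _ h => h]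

lemma survI (h : Base d δ ε p e g κ) (s : Sc d δ ε L K) (hn : Near δ ε ξ) {k : ℝ} (hk : K ≤ k)
    (x : Cube d) :
    val (fun _ => p * (1 + (e + ξ))) (gt k) {x} (E0 d) ≤ (2 + 14 * δ) * ε := by
  obtain ⟨a1, a2, -⟩ := hn.rng s
  refine (T_surv h.ref (h.cond a1 a2).small' subset_rfl x (h.P01p s hn s(x, x)).1
    (by rw [add_assoc]) (le_trans (by norm_num) (s.sat a1 hk (by norm_num)))).trans ?_
  nlinarith only [mul_le_mul_of_nonneg_left hn.2 (show 0 ≤ 2 + 7 * δ by linarith [s.δ0]),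
    mul_pos s.δ0 s.ε0, s.δ1]

lemma giantI (h : Base d δ ε p e g κ) (s : Sc d δ ε L K) (hn : Near δ ε ξ)
    (hI : ε * (d : ℝ) ^ 7 ≤ 1) {τ : ℝ} (τ0 : 0 ≤ τ) (τ1 : τ ≤ 1) :
    Pr (E0 d) (fun _ => p * (1 + (e + ξ))) (fun ω => ¬ Big ((2 - 20 * δ) * (ε * 2 ^ d)) ω ∨
      Two ((2 + 30 * δ) * K) ω ∨ Big ((2 - 20 * δ) * (ε * 2 ^ d) + τ * (ε * 2 ^ d)) ω) * τ
      ≤ 46 * δ := by
  have δ0 := s.δ0
  have δ1 := s.δ1
  have ε0 := s.ε0
  have K0 := s.K0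
  have hq := h.P01p s hn
  have N0 : (0 : ℝ) < ε * 2 ^ d := by positivity
  have εV : δ * ε * 2 ^ d ≤ ε * 2 ^ d / 1000 := by nlinarith only [δ1, N0]
  have b0 : τ * (ε * 2 ^ d) ≤ ε * 2 ^ d := by nlinarith only [τ1, N0]
  have h1 := giant_step hq (k := (2 + 30 * δ) * K) (H := (2 - 20 * δ) * (ε * 2 ^ d))
    (T := τ * (ε * 2 ^ d)) (by nlinarith only [s.KV, εV, δ1, K0]) (by positivity) (by linarith)
    (survI h s hn (by nlinarith only [δ0, K0]))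
  rw [card_cube] at h1
  push_cast at h1
  have h2 := mul_le_mul (show (2 - 20 * δ) * (ε * 2 ^ d) + τ * (ε * 2 ^ d) ≤ 3 * (ε * 2 ^ d) by
    linarith [mul_pos δ0 N0]) (gapI h s hn hI) (Pr_nonneg hq) (by positivity)
  refine le_of_mul_le_mul_right ?_ N0
  linarith

theorem ub_sup_I (h : Base d δ ε p e g κ) (s : Sc d δ ε L K) (hn : Near δ ε ξ)
    (hI : ε * (d : ℝ) ^ 7 ≤ 1) :
    Pr (E0 d) (fun _ => p * (1 + (e + ξ))) (Two ((2 + 30 * δ) * K)) ≤ 46 * δ :=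
  le_trans (Pr_mono (h.P01p s hn) fun _ _ h => Or.inr (Or.inl h))
    ((mul_one _).symm.trans_le (giantI h s hn hI zero_le_one le_rfl))

theorem lb_sup_I (h : Base d δ ε p e g κ) (s : Sc d δ ε L K) (hn : Near δ ε ξ)
    (hI : ε * (d : ℝ) ^ 7 ≤ 1) {τ : ℝ} (τ0 : 0 < τ) (τ1 : τ ≤ 1 / 100) (hτ : δ ≤ τ ^ 2) :
    Pr (E0 d) (fun _ => p * (1 + (e + ξ))) (fun ω => ¬ Two ((2 - 10 * τ) * K) ω) ≤ 52 * τ := by
  obtain ⟨a1, a2, a3, a4, a5⟩ := hn.rng s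
  have δ0 := s.δ0
  have δ1 := s.δ1
  have ε0 := s.ε0
  have K0 := s.K0
  have hq := h.P01p s hn
  have N0 : (0 : ℝ) < ε * 2 ^ d := by positivity
  have εV : δ * ε * 2 ^ d ≤ ε * 2 ^ d / 1000 := by nlinarith only [δ1, N0]
  have δτ : δ ≤ τ / 100 := by nlinarith only [hτ, τ1, τ0]
  obtain ⟨k, k1, k2⟩ := s.ceil (c := 2 - 10 * τ) (by linarith)
  have k3 : K ≤ k := by nlinarith only [k1, τ1, K0]
  have k4 : k ≤ 2 * K := by nlinarith only [k2, δτ, τ0, K0]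
  have KV := s.KV
  have h1 := second_step hq (k := k) (H := (2 - 20 * δ) * (ε * 2 ^ d))
    (M := (2 - 20 * δ) * (ε * 2 ^ d) + τ * (ε * 2 ^ d)) (β := 2 * δ) (by linarith) (by linarith)
    (by linarith) (survI h s hn (by linarith)) fun D hD => by
      refine trialsI h s hI (ξ := (2 + τ) * ε) (by nlinarith only [δ1, τ0, ε0])
        (by nlinarith only [τ1, ε0]) (by linarith [h.ref.e0]) (by nlinarith only [a3, τ0, ε0]) k3
        (by linarith) ?_ D ?_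
      · have b1 : cost δ ((2 + τ) * ε) (e + (2 + τ) * ε - (e + ξ))
            ≤ (1 + τ / 100) * ((1 + 103 / 100 * τ) * ε) ^ 2 / 2
              + 4 * (2 * ε) * (τ / 100 * (3 * ε)) := by
          have c0 : 0 ≤ e + (2 + τ) * ε - (e + ξ) := by nlinarith only [a3, τ0, ε0]
          have c1 : e + (2 + τ) * ε - (e + ξ) ≤ (1 + 103 / 100 * τ) * ε := by
            nlinarith only [hn.1, δτ, ε0]
          have c2 : e + (2 + τ) * ε - (e + ξ) ≤ 2 * ε := by nlinarith only [c1, τ1, ε0]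
          unfold cost
          gcongr
          linarith
        have b2 : (1 + τ / 100) * (1 + 103 / 100 * τ) ^ 2 / 2 + 24 / 100 * τ
            ≤ 1 / 2 + 3 / 2 * τ := by nlinarith only [τ0, τ1, mul_pos τ0 τ0]
        have b3 := mul_le_mul_of_nonneg_right b2 (sq_nonneg ε)
        have b4 : cost δ ((2 + τ) * ε) (e + (2 + τ) * ε - (e + ξ)) * k
            ≤ ((1 / 2 + 3 / 2 * τ) * ε ^ 2) * ((2 - 9 * τ) * K) :=
          mul_le_mul (by linarith) (by nlinarith only [k2, δτ, K0, τ0]) (Nat.cast_nonneg _)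
            (by positivity)
        have b5 : (1 / 2 + 3 / 2 * τ) * (2 - 9 * τ) ≤ 1 - δ := by
          nlinarith only [δτ, τ0, mul_pos τ0 τ0]
        have b6 := mul_le_mul_of_nonneg_right b5 s.L0.le
        rw [← s.hK] at b6 ⊢
        linarith
      · have b1 : (1 + δ) * (sz D + δ * ε * 2 ^ d / 2)
            ≤ (1 + δ) * ((2 + τ - 19 * δ) * (ε * 2 ^ d)) :=
          mul_le_mul_of_nonneg_left (by linarith [s.K1]) (by linarith)
        have b2 : (1 + δ) * (2 + τ - 19 * δ) ≤ (1 - 2 * δ) * (2 + τ) := by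
          nlinarith only [δ0, τ1, mul_pos δ0 δ0]
        linarith [mul_le_mul_of_nonneg_right b2 N0.le]
  rw [card_cube] at h1
  push_cast at h1
  have h2 := giantI h s hn hI τ0.le (by linarith)
  have h3 := Pr_or (s := E0 d) hq (P := fun ω => ¬ Two ((2 - 10 * τ) * K) ω)
    (Q := fun ω => ¬ Big ((2 - 20 * δ) * (ε * 2 ^ d)) ω ∨ Two ((2 + 30 * δ) * K) ω ∨
      Big ((2 - 20 * δ) * (ε * 2 ^ d) + τ * (ε * 2 ^ d)) ω)
    (R := fun ω => Big ((2 - 20 * δ) * (ε * 2 ^ d)) ω ∧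
      ¬ Big ((2 - 20 * δ) * (ε * 2 ^ d) + τ * (ε * 2 ^ d)) ω ∧ ¬ Two k ω) fun ω _ h1 => by
      have : ¬ Two k ω := fun h2 => h1 (h2.anti k1)
      tauto
  have h4 := le_of_mul_le_mul_right (h2.trans (show 46 * δ ≤ 46 * τ * τ by linarith)) τ0
  have h5 := (mul_le_mul_of_nonneg_left (show ε * 2 ^ d ≤ (2 - 20 * δ) * (ε * 2 ^ d) + 1 by
    linarith) (Pr_nonneg hq)).trans h1
  have h6 := le_of_mul_le_mul_right (h5.trans (show _ ≤ 6 * δ * (ε * 2 ^ d) by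
    nlinarith only [δ1, mul_pos δ0 N0])) N0
  linarith

end Pool.Agent.P.MP_068ab5_pr
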