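import Pool.Agent.P.MP_068ab5_pr.RegI

/-! Cluster sizes at polynomial distance from the critical point. -/

namespace Pool.Agent.P.MP_068ab5_pr

open Finset Real
open scoped Classical

variable {d : ℕ} {δ ε ξ p e κ r L K : ℝ} {g : Cube d → ℝ}

lemma expδL (hL : Large δ d) (s : Sc d δ ε L K) (hII : 1 ≤ ε * (d : ℝ) ^ 7) :
    (d : ℝ) ^ 40 ≤ exp (δ * L) := by
  refine hL.V2.trans (exp_le_exp.2 (mul_le_mul_of_nonneg_left (exp_le_exp.1 ?_) s.δ0.le))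
  rw [← s.hW]
  have h1 := mul_le_mul_of_nonneg_left (one_le_pow₀ (n := 3) hII) (exp_pos ((d : ℝ) / 2)).le
  linarith [mul_le_mul_of_nonneg_left hL.V1 (pow_pos s.ε0 3).le]

lemma K_le (s : Sc d δ ε L K) (hII : 1 ≤ ε * (d : ℝ) ^ 7) : K ≤ (d : ℝ) ^ 15 := by
  have h1 : L ≤ d := by
    rw [← exp_le_exp, ← s.hW, ← exp_one_pow]
    exact (mul_le_of_le_one_left (by positivity) (pow_le_one₀ s.ε0.le s.ε1)).trans
      (pow_le_pow_left₀ (by norm_num) (by linarith [add_one_le_exp 1]) d)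
  have h2 := mul_le_mul_of_nonneg_left (one_le_pow₀ (n := 2) hII) s.K0.le
  have h3 := mul_le_mul_of_nonneg_right h1 (show 0 ≤ (d : ℝ) ^ 14 by positivity)
  rw [← s.hK] at h3
  linarith

lemma K_le' (hL : Large δ d) (s : Sc d δ ε L K) (hII : 1 ≤ ε * (d : ℝ) ^ 7) :
    1000 * K ≤ (d : ℝ) ^ 20 := by
  have d1 := hL.d1
  have := mul_le_mul (d1.trans (le_self_pow₀ (by linarith) (show 5 ≠ 0 by norm_num))) (K_le s hII)
    s.K0.le (by positivity)
  linarith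

lemma winII (hL : Large δ d) (h : Base d δ ε p e g κ) (s : Sc d δ ε L K) (hn : Near δ ε ξ)
    (hII : 1 ≤ ε * (d : ℝ) ^ 7) {q : Sym2 (Cube d) → ℝ} (hq : P01 q)
    (hr : ∀ a, p * (1 + (e + ξ)) ≤ q a) {m : ℝ} (m0 : 0 ≤ m) (hm : m + 1 ≤ (d : ℝ) ^ 20)
    (x : Cube d) : val q (win ((2 + 30 * δ) * K) m) {x} (E0 d) ≤ δ / (2 ^ d * d) := by
  obtain ⟨a1, a2, a3, a4, a5⟩ := hn.rng s
  have δ0 := s.δ0
  have δ1 := s.δ1
  have K0 := s.K0
  have d1 := hL.d1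
  refine (T3_II h hII hL.hV a1 a2 x m0 hm hq hr).trans ?_
  have b1 : (1 / 2 - 2 * δ) * ((1 - 6 * δ) * ε ^ 2) * ((2 + 30 * δ) * K)
      ≤ (1 / 2 - 2 * δ) * ξ ^ 2 * ((2 + 30 * δ) * K) := by
    have : 0 ≤ 1 / 2 - 2 * δ := by linarith
    gcongr
  have b2 : 1 + δ ≤ (1 / 2 - 2 * δ) * (1 - 6 * δ) * (2 + 30 * δ) := by
    nlinarith only [δ0, δ1, mul_pos δ0 δ0]
  have b3 := mul_le_mul_of_nonneg_right b2 s.L0.le
  have b4 : exp (-((1 / 2 - 2 * δ) * ξ ^ 2 * ((2 + 30 * δ) * K))) ≤ exp (-((1 + δ) * L)) := by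
    rw [← s.hK] at b3 ⊢
    exact exp_le_exp.2 (by linarith)
  have b5 : exp (-((1 + δ) * L)) * (exp L * exp (δ * L)) = 1 := by
    rw [← exp_add, ← exp_add, exp_eq_one_iff]; ring
  rw [← s.hW] at b5
  obtain ⟨y, hy⟩ : ∃ y, y = exp (-((1 + δ) * L)) := ⟨_, rfl⟩
  have y0 : 0 < y := hy ▸ exp_pos _
  rw [← hy] at b4 b5
  rw [le_div_iff₀ (by positivity)]
  have c1 : 1 ^ 3 * 1000 * 1 ≤ (ε * (d : ℝ) ^ 7) ^ 3 * (δ ^ 1 * d) * (d : ℝ) ^ 17 := by
    have := hL.pw (n := 1) (by norm_num)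
    have := one_le_pow₀ (n := 17) (show (1 : ℝ) ≤ d by linarith)
    have := s.ε0
    gcongr
  have c2 := mul_le_mul_of_nonneg_left c1 (show 0 ≤ y * (2 ^ d * d) by positivity)
  have c3 := mul_le_mul_of_nonneg_left (expδL hL s hII)
    (show 0 ≤ δ * (y * (ε ^ 3 * 2 ^ d)) by have := s.ε0; positivity)
  have c4 := mul_le_mul_of_nonneg_right b4 (show (0 : ℝ) ≤ 2 ^ d * d by positivity)
  have c5 : δ * (y * (ε ^ 3 * 2 ^ d)) * exp (δ * L) = δ := by linear_combination δ * b5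
  linarith

lemma lowII (hL : Large δ d) (h : Base d δ ε p e g κ) (s : Sc d δ ε L K) (hn : Near δ ε ξ)
    (hII : 1 ≤ ε * (d : ℝ) ^ 7) {k : ℕ} (k1 : K ≤ k) (k2 : k ≤ (2 - 100 * δ + δ) * K)
    (x : Cube d) : exp (-((1 - 39 * δ) * L)) * (δ ^ 2 * ε / 16)
      ≤ val (fun _ => p * (1 + (e - ξ))) (win k (3 * K)) {x} (E0 d) := by
  obtain ⟨a1, a2, -⟩ := hn.rng s
  have δ0 := s.δ0
  have δ1 := s.δ1
  have ε0 := s.ε0
  have K0 := s.K0
  have L0 := s.L0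
  have hc := h.cond a1 a2
  have b1 := T4_II h hII hL.hV (ξ := δ * ε) le_rfl (by linarith) x (k := k) (aP := e - ξ)
    (by nlinarith only [k2, δ0, K0, K_le' hL s hII, s.K1]) (s.sat le_rfl k1 (by norm_num))
    (by linarith [hc.ξe, hc.ξ0]) (by linarith [hc.ξ0, mul_pos δ0 ε0])
  have b2 := mul_le_mul_of_nonneg_right (exp_le_exp.2 (neg_le_neg
    (cost_sub (e := e) s hn (Nat.cast_nonneg _) k2))) (show 0 ≤ δ * (δ * ε) / 8 by positivity)
  have b3 := sub_tail h s hn (k := 3 * K) (by nlinarith only [δ1, K0]) x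
  have b4 : val (fun _ => p * (1 + (e - ξ))) (gt k) {x} (E0 d)
      - val (fun _ => p * (1 + (e - ξ))) (gt (3 * K)) {x} (E0 d)
      ≤ val (fun _ => p * (1 + (e - ξ))) (win k (3 * K)) {x} (E0 d) := by
    unfold val
    rw [← Ex_sub]
    exact Ex_mono (h.P01m s hn) fun _ _ => gt_sub_le_win _ _ _
  have b5 : exp (-L) * exp (δ * L) ≤ exp (-((1 - 39 * δ) * L)) := by
    rw [← exp_add]; exact exp_le_exp.2 (by linarith [mul_pos δ0 L0])
  have b6 := mul_le_mul_of_nonneg_left (add_one_le_exp (δ * L)) (sq_nonneg δ)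
  have b7 := mul_le_mul_of_nonneg_left (show 1600 ≤ δ ^ 2 * exp (δ * L) by
    linarith [s.pw (n := 3) (by norm_num), sq_nonneg δ]) (show 0 ≤ ε * exp (-L) by positivity)
  have b8 := mul_le_mul_of_nonneg_left b5 (show 0 ≤ δ ^ 2 * ε by positivity)
  linarith

lemma nbhd (T : Finset (Cube d)) : ∃ B : Finset (Cube d), (B.card : ℝ) ≤ (d + 1) * sz T ∧
    ∀ z z', s(z, z') ∈ E0 d → s(z, z') ∈ inc T → z ∈ B := by
  refine ⟨T ∪ (T ×ˢ univ).image fun a : Cube d × Fin d => a.1 + un a.2, ?_, fun z z' h1 h2 => ?_⟩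
  · have := (card_union_le T _).trans (Nat.add_le_add_left (card_image_le
      (s := T ×ˢ univ) (f := fun a : Cube d × Fin d => a.1 + un a.2)) _)
    rw [card_product, card_univ, Fintype.card_fin] at this
    have h2 := (Nat.cast_le (α := ℝ)).2 this
    push_cast at h2
    unfold sz
    linarith
  · obtain ⟨i, rfl⟩ := mem_E0.1 h1
    rcases mem_inc.1 h2 with h | h
    · exact mem_union_left _ h
    · exact mem_union_right _ (mem_image.2 ⟨(_, i), mem_product.2 ⟨h, mem_univ _⟩,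
        add_add_cancel _ _⟩)

lemma momII (hL : Large δ d) (s : Sc d δ ε L K) (hII : 1 ≤ ε * (d : ℝ) ^ 7)
    {q : Sym2 (Cube d) → ℝ} (hq : P01 q) {k : ℝ}
    (h : ∀ x, exp (-((1 - δ) * L)) * (δ ^ 2 * ε / 32) ≤ val q (win k (3 * K)) {x} (E0 d)) :
    Pr (E0 d) q (fun ω => ¬ Two k ω) ≤ δ := by
  have δ0 := s.δ0
  have ε0 := s.ε0
  have K0 := s.K0
  have d1 := hL.d1
  have h1 := second_moment hq (k := k) (m := 3 * K) (by positivity) (by positivity) nbhd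
  have h2 : (d : ℝ) ^ 40 * δ ^ 2 / 32 ≤ Ex (E0 d) q (cnt (win k (3 * K))) := by
    rw [Ex_cnt]
    refine le_trans ?_ (card_nsmul_le_sum univ _ _ fun x _ => h x)
    rw [card_univ, card_cube, nsmul_eq_mul]
    push_cast
    have b1 : exp L * exp (-((1 - δ) * L)) = exp (δ * L) := by rw [← exp_add]; ring_nf
    rw [← s.hW] at b1
    have b2 := mul_le_mul_of_nonneg_right (pow_le_pow_of_le_one ε0.le s.ε1 (show 1 ≤ 3 by norm_num))
      (show 0 ≤ 2 ^ d * exp (-((1 - δ) * L)) * δ ^ 2 by positivity)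
    have b3 := mul_le_mul_of_nonneg_right ((expδL hL s hII).trans b1.ge) (sq_nonneg δ)
    linarith
  have h3 : 3 * K + 1 ≤ 4 * (d : ℝ) ^ 15 := by linarith [K_le s hII, s.K1]
  have h4 : (3 * K + 1) + (d + 1) * (3 * K + 1) ^ 2
      ≤ 4 * (d : ℝ) ^ 15 + (2 * d) * (4 * (d : ℝ) ^ 15) ^ 2 := by gcongr; linarith
  have h5 := pow_le_pow_right₀ (show (1 : ℝ) ≤ d by linarith) (show 15 ≤ 31 by norm_num)
  have h6 : 1000 * 1000 * (d : ℝ) ^ 31 ≤ (δ ^ 3 * d) * d ^ 8 * (d : ℝ) ^ 31 := by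
    have := hL.pw (n := 3) (by norm_num)
    have := d1.trans (le_self_pow₀ (by linarith) (show 8 ≠ 0 by norm_num))
    gcongr
  have h7 := mul_le_mul_of_nonneg_left h2 (Pr_nonneg (s := E0 d) (P := fun ω => ¬ Two k ω) hq)
  refine le_of_mul_le_mul_right ?_ (show 0 < (d : ℝ) ^ 40 * δ ^ 2 / 32 by positivity)
  linarith [show 0 < (d : ℝ) ^ 31 by positivity]

theorem lb_sub_II (hL : Large δ d) (h : Base d δ ε p e g κ) (s : Sc d δ ε L K) (hn : Near δ ε ξ)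
    (hII : 1 ≤ ε * (d : ℝ) ^ 7) :
    Pr (E0 d) (fun _ => p * (1 + (e - ξ))) (fun ω => ¬ Big ((2 - 100 * δ) * K) ω) ≤ δ := by
  have δ0 := s.δ0
  have ε0 := s.ε0
  obtain ⟨k, k1, k2⟩ := s.ceil (c := 2 - 100 * δ) (by linarith [s.δ1])
  refine le_trans (Pr_mono (h.P01m s hn) fun ω _ h1 h2 => h1 ((Two.big h2).anti k1))
    (momII hL s hII (h.P01m s hn) fun x => le_trans ?_
      (lowII hL h s hn hII (by nlinarith only [k1, s.δ1, s.K0]) k2 x))
  exact mul_le_mul (exp_le_exp.2 (by linarith [mul_pos δ0 s.L0]))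
    (by linarith [show 0 < δ ^ 2 * ε by positivity]) (by positivity) (by positivity)

theorem lb_sup_II (hL : Large δ d) (h : Base d δ ε p e g κ) (s : Sc d δ ε L K) (hn : Near δ ε ξ)
    (hII : 1 ≤ ε * (d : ℝ) ^ 7) :
    Pr (E0 d) (fun _ => p * (1 + (e + ξ))) (fun ω => ¬ Two ((2 - 100 * δ) * K) ω) ≤ δ := by
  obtain ⟨a1, a2, a3, a4, a5⟩ := hn.rng s
  have δ0 := s.δ0
  have δ1 := s.δ1
  have ε0 := s.ε0
  have K0 := s.K0
  have L0 := s.L0
  have d1 := hL.d1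
  have εe := h.εe'
  obtain ⟨k, k1, k2⟩ := s.ceil (c := 2 - 100 * δ) (by linarith [s.δ1])
  refine le_trans (Pr_mono (h.P01p s hn) fun ω _ h1 h2 => h1 (Two.anti k1 h2))
    (momII hL s hII (h.P01p s hn) fun x => ?_)
  have c0 : 1 ≤ 1 + (e - ε) := by linarith
  have b1 := T5 h hII hL.hV x (k := k) (m := 3 * K) (b := (ξ + ε) / (1 + (e - ε))) (by positivity)
    (by linarith [K_le' hL s hII, s.K1]) (div_nonneg (by linarith) (by linarith))
    ((div_le_self (by linarith) c0).trans (by linarith [hn.2]))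
  rw [show p * (1 + (e - ε)) * (1 + (ξ + ε) / (1 + (e - ε))) = p * (1 + (e + ξ)) by
    field_simp; ring] at b1
  refine le_trans ?_ b1
  have b2 := lowII hL h s (ξ := ε) ⟨by linarith [mul_pos δ0 ε0], by linarith [mul_pos δ0 ε0]⟩ hII
    (by nlinarith only [k1, δ1, K0]) k2 x
  have b3 : exp (-(ε ^ 2 * k)) * exp (δ * L) ≤ exp (-((1 - 39 * δ) * L)) := by
    rw [← exp_add]
    have := mul_le_mul_of_nonneg_left k1 (sq_nonneg ε)
    have h2 : ε ^ 2 * ((2 - 100 * δ) * K) = (2 - 100 * δ) * L := by rw [← s.hK]; ring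
    exact exp_le_exp.2 (by nlinarith only [this, h2, δ1, δ0, L0])
  have b4 : 1000 * 1 * 1 ≤ (δ ^ 2 * d) * (ε * (d : ℝ) ^ 7) * (d : ℝ) ^ 32 := by
    have := hL.pw (n := 2) (by norm_num)
    have := one_le_pow₀ (n := 32) (show (1 : ℝ) ≤ d by linarith)
    gcongr
  have b5 := mul_le_mul_of_nonneg_left (expδL hL s hII) (show 0 ≤ δ ^ 2 * ε by positivity)
  have b6 := mul_le_mul_of_nonneg_left (show 1000 ≤ δ ^ 2 * ε * exp (δ * L) by linarith)
    (exp_pos (-(ε ^ 2 * k))).le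
  have b7 := mul_le_mul_of_nonneg_left b3 (show 0 ≤ δ ^ 2 * ε by positivity)
  have b8 : exp (-((1 - δ) * L))
      ≤ exp (-(12 * δ * ε ^ 2 * (3 * K))) * exp (-((1 - 39 * δ) * L)) := by
    rw [← exp_add]
    have h2 : 12 * δ * ε ^ 2 * (3 * K) = 36 * δ * L := by rw [← s.hK]; ring
    exact exp_le_exp.2 (by linarith [mul_pos δ0 L0])
  refine (mul_le_mul_of_nonneg_right b8 (by positivity)).trans ?_
  rw [mul_assoc]
  exact mul_le_mul_of_nonneg_left (by linarith [exp_pos (-(ε ^ 2 * k))]) (exp_pos _).le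

theorem ub_sup_II (hL : Large δ d) (h : Base d δ ε p e g κ) (s : Sc d δ ε L K) (hn : Near δ ε ξ)
    (hII : 1 ≤ ε * (d : ℝ) ^ 7) {ε' p' e' κ' L' K' ξ' : ℝ} {g' : Cube d → ℝ}
    (h' : Base d δ ε' p' e' g' κ') (s' : Sc d δ ε' L' K') (hn' : Near δ ε' ξ')
    (hε : ε' * (d : ℝ) ^ 7 = 1) (hp : p' * (1 + (e' + ξ')) ≤ p * (1 + (e + ξ))) :
    Pr (E0 d) (fun _ => p * (1 + (e + ξ))) (Two ((2 + 30 * δ) * K)) ≤ 48 * δ := by
  have δ0 := s.δ0
  have d1 := hL.d1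
  have hq := h.P01p s hn
  have hq' := h'.P01p s' hn'
  have S0 : 0 ≤ (2 + 30 * δ) * K' := by have := s'.K0; positivity
  have S1 : (2 + 30 * δ) * K' ≤ 3 * K' := by nlinarith only [s.δ1, s'.K0]
  have S2 := K_le' hL s' hε.ge
  have S3 := s'.K1
  have h1 := Pr_or (s := E0 d) hq (P := Two ((2 + 30 * δ) * K))
    (Q := Win ((2 + 30 * δ) * K) ((2 + 30 * δ) * K')) (R := Two ((2 + 30 * δ) * K'))
    fun ω _ ⟨x, y, hy, h1, h2⟩ => by
      rcases le_total (sz (reach ω {x})) ((2 + 30 * δ) * K' + 1) with h3 | h3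
      · exact Or.inl ⟨x, h1, h3⟩
      rcases le_total (sz (reach ω {y})) ((2 + 30 * δ) * K' + 1) with h4 | h4
      · exact Or.inl ⟨y, h2, h4⟩
      exact Or.inr ⟨x, y, hy, h3, h4⟩
  have h2 := union_win hq (winII hL h s hn hII hq (fun _ => le_rfl) S0 (by linarith))
  rw [card_cube] at h2
  push_cast at h2
  have h3 := no_birth (E0 d) (k := (2 + 30 * δ) * K') (hq' s(0, 0)).1 hp (hq s(0, 0)).2
    fun q hq1 => winII hL h' s' hn' hε.ge
      (fun a => ⟨(hq' a).1.trans (hq1 a).1, (hq1 a).2.trans (hq a).2⟩) (fun a => (hq1 a).1)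
      (by linarith) (by linarith)
  have h4 := ub_sup_I h' s' hn' hε.le
  have h5 : (2 : ℝ) ^ d * d * (δ / (2 ^ d * d)) = δ := by field_simp
  have β0 : 0 ≤ δ / (2 ^ d * d) := by positivity
  have h6 := mul_le_mul_of_nonneg_right (card_E0_le (d := d)) β0
  have h7 : (2 : ℝ) ^ d * (δ / (2 ^ d * d)) ≤ 2 ^ d * d * (δ / (2 ^ d * d)) :=
    mul_le_mul_of_nonneg_right (le_mul_of_one_le_right (by positivity) (by linarith)) β0
  have h8 := mul_nonneg (Pr_nonneg (s := E0 d)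
    (P := Win ((2 + 30 * δ) * K) ((2 + 30 * δ) * K')) hq)
    (show 0 ≤ (2 + 30 * δ) * K by have := s.K0; positivity)
  linarith

end Pool.Agent.P.MP_068ab5_pr
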