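import Pool.Agent.P.MP_068ab5_pr.Perc
import Pool.Agent.P.MP_068ab5_pr.Kernel

/-! Connection probabilities on the hypercube. -/

namespace Pool.Agent.P.MP_068ab5_pr

open Finset
open scoped Classical

set_option linter.unusedSectionVars false

section Balls

variable {V : Type*} [Fintype V] [DecidableEq V]

/-- Intrinsic balls. -/
noncomputable def ball (ω : Finset (Sym2 V)) (S : Finset V) : ℕ → Finset V
  | 0 => S
  | j + 1 => ball ω S j ∪ univ.filter fun y => ∃ x ∈ ball ω S j, s(x, y) ∈ ω

/-- The previous ball. -/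
noncomputable def pre (ω : Finset (Sym2 V)) (S : Finset V) : ℕ → Finset V
  | 0 => ∅
  | j + 1 => ball ω S j

/-- Level sets. -/
def lev (ω : Finset (Sym2 V)) (S : Finset V) (j : ℕ) (a : V) : Prop :=
  a ∈ ball ω S j ∧ a ∉ pre ω S j

/-- Geodesic chains. -/
def Chain (ω : Finset (Sym2 V)) (S : Finset V) : ℕ → ℕ → V → V → Prop
  | 0, _, a, b => a = b
  | m + 1, j, a, b => ∃ a', s(a, a') ∈ ω ∧ lev ω S (j + 1) a' ∧ Chain ω S m (j + 1) a' b

variable {ω : Finset (Sym2 V)} {S : Finset V}

lemma mem_ball_succ {j : ℕ} {y : V} :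
    y ∈ ball ω S (j + 1) ↔ y ∈ ball ω S j ∨ ∃ x ∈ ball ω S j, s(x, y) ∈ ω := by
  simp [ball]

lemma ball_mono : Monotone (ball ω S) :=
  monotone_nat_of_le_succ fun _ => subset_union_left

lemma pre_subset (j : ℕ) : pre ω S j ⊆ ball ω S j := by
  cases j with
  | zero => exact empty_subset _
  | succ j => exact ball_mono (Nat.le_succ j)

lemma ball_subset_reach (j : ℕ) : ball ω S j ⊆ reach ω S := by
  induction j with
  | zero => exact subset_reach _ _
  | succ j ih =>
    intro y hy
    rcases mem_ball_succ.1 hy with h | ⟨x, hx, h⟩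
    · exact ih h
    · exact reach_step (ih hx) h

lemma exists_lev {b : V} (h : b ∈ reach ω S) : ∃ r, lev ω S r b := by
  have h1 : ∃ r, b ∈ ball ω S r := by
    obtain ⟨a, ha, hr⟩ := mem_reach.1 h
    clear h
    induction hr with
    | refl => exact ⟨0, ha⟩
    | tail _ h2 ih => obtain ⟨r, hr⟩ := ih; exact ⟨r + 1, mem_ball_succ.2 (Or.inr ⟨_, hr, h2⟩)⟩
  refine ⟨Nat.find h1, Nat.find_spec h1, ?_⟩
  cases hr : Nat.find h1 with
  | zero => simp [pre]
  | succ r => exact Nat.find_min h1 (by omega)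

lemma lev_unique {i j : ℕ} {a : V} (hi : lev ω S i a) (hj : lev ω S j a) : i = j := by
  have key : ∀ i j, i < j → lev ω S i a → lev ω S j a → False := by
    intro i j hij hi hj
    obtain ⟨j, rfl⟩ : ∃ k, j = k + 1 := ⟨j - 1, by omega⟩
    exact hj.2 (ball_mono (show i ≤ j by omega) hi.1)
  rcases lt_trichotomy i j with h | h | h
  · exact (key _ _ h hi hj).elim
  · exact h
  · exact (key _ _ h hj hi).elim

lemma chain_ex (m : ℕ) {j : ℕ} {b : V} (h : lev ω S (j + m) b) :
    ∃ a, lev ω S j a ∧ Chain ω S m j a b := by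
  induction m generalizing j with
  | zero => exact ⟨b, h, rfl⟩
  | succ m ih =>
    obtain ⟨a', h1, h2⟩ := ih (j := j + 1) (by rwa [add_assoc, add_comm 1 m])
    rcases mem_ball_succ.1 h1.1 with h3 | ⟨a, ha, h3⟩
    · exact absurd h3 h1.2
    · refine ⟨a, ⟨ha, fun hp => h1.2 ?_⟩, a', h3, h1, h2⟩
      cases j with
      | zero => simp [pre] at hp
      | succ j => exact mem_ball_succ.2 (Or.inr ⟨a, hp, h3⟩)

lemma ball_loc {ω' : Finset (Sym2 V)} {T : Finset V} (hag : ∀ e ∈ inc T, e ∈ ω ↔ e ∈ ω')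
    (j : ℕ) (h : ball ω S j ⊆ T) : ball ω' S j = ball ω S j := by
  induction j with
  | zero => rfl
  | succ j ih =>
    have h1 : ball ω S j ⊆ T := (ball_mono (Nat.le_succ j)).trans h
    ext y
    rw [mem_ball_succ, mem_ball_succ, ih h1]
    refine or_congr_right (exists_congr fun x => and_congr_right fun hx => ?_)
    exact (hag _ (mem_inc.2 (Or.inl (h1 hx)))).symm

lemma pre_loc (j : ℕ) (ω : Finset (Sym2 V)) (T : Finset V) :
    pre (ω ∩ inc T) S j = T ↔ pre ω S j = T := by
  cases j with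
  | zero => rfl
  | succ j =>
    simp only [pre]
    constructor
    · intro h
      rw [ball_loc (ω := ω ∩ inc T) (T := T) (fun e he => by simp [he]) j h.subset, h]
    · intro h
      rw [ball_loc (ω := ω) (T := T) (fun e he => by simp [he]) j h.subset, h]

/-- Local description of a level. -/
noncomputable def levf (S : Finset V) (j : ℕ) (a : V) (T : Finset V) (ω : Finset (Sym2 V)) : ℝ :=
  if (j = 0 ∧ a ∈ S) ∨ (j ≠ 0 ∧ a ∉ T ∧ ∃ x ∈ T, s(x, a) ∈ ω) then 1 else 0

lemma levf_eq (j : ℕ) (a : V) : levf S j a (pre ω S j) ω = if lev ω S j a then 1 else 0 := by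
  unfold levf
  refine if_congr ?_ rfl rfl
  unfold lev
  cases j with
  | zero => simp [pre, ball]
  | succ j => simp only [pre, mem_ball_succ]; tauto

lemma levf_loc (j : ℕ) (a : V) (T : Finset V) (ω : Finset (Sym2 V)) :
    levf S j a T (ω ∩ inc T) = levf S j a T ω := by
  unfold levf
  refine if_congr (or_congr_right (and_congr_right fun _ => and_congr_right fun _ =>
    exists_congr fun x => and_congr_right fun hx => ?_)) rfl rfl
  simp [mem_inc, hx]

lemma sum_lev_le (J : Finset ℕ) (a : V) :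
    ∑ j ∈ J, (if lev ω S j a then (1 : ℝ) else 0) ≤ mem1 a (reach ω S) := by
  rw [← sum_filter, sum_const, nsmul_eq_mul, mul_one]
  unfold mem1
  split_ifs with h
  · have : (J.filter fun j => lev ω S j a).card ≤ 1 := card_le_one.2 fun i hi j hj =>
      lev_unique (mem_filter.1 hi).2 (mem_filter.1 hj).2
    exact_mod_cast this
  · have : (J.filter fun j => lev ω S j a) = ∅ :=
      filter_eq_empty_iff.2 fun j _ hj => h (ball_subset_reach j hj.1)
    rw [this]; simp

end Balls

variable {d : ℕ}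

/-- Edges of the cube. -/
noncomputable def E0 (d : ℕ) : Finset (Sym2 (Cube d)) :=
  univ.image fun a : Cube d × Fin d => s(a.1, a.1 + un a.2)

lemma mem_E0 {a b : Cube d} : s(a, b) ∈ E0 d ↔ ∃ i, b = a + un i := by
  simp only [E0, mem_image, mem_univ, true_and, Prod.exists, Sym2.eq_iff]
  constructor
  · rintro ⟨x, i, ⟨rfl, rfl⟩ | ⟨rfl, rfl⟩⟩
    · exact ⟨i, rfl⟩
    · exact ⟨i, (add_add_cancel _ _).symm⟩
  · rintro ⟨i, rfl⟩
    exact ⟨a, i, Or.inl ⟨rfl, rfl⟩⟩

lemma card_E0_le : ((E0 d).card : ℝ) ≤ 2 ^ d * d := by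
  have : (E0 d).card ≤ 2 ^ d * d := card_image_le.trans (by simp)
  exact_mod_cast this

/-- Open trails. -/
def OP : ℕ → Cube d → Option (Fin d) → Cube d → Finset (Sym2 (Cube d)) → Prop
  | 0, x, _, b, _ => x = b
  | m + 1, x, o, b, ω => ∃ i, some i ≠ o ∧ s(x, x + un i) ∈ ω ∧
      OP m (x + un i) (some i) b (ω.erase s(x, x + un i))

lemma OP_prob {p : ℝ} (p0 : 0 ≤ p) (p1 : p ≤ 1) (m : ℕ) (U : Finset (Sym2 (Cube d)))
    (x : Cube d) (o : Option (Fin d)) (b : Cube d) :
    Ex U (fun _ => p) (fun ω => if OP m x o b ω then 1 else 0) ≤ p ^ m * nb m o (x + b) := by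
  have hq : P01 (fun _ : Sym2 (Cube d) => p) := P01_const p0 p1
  induction m generalizing U x o with
  | zero =>
    by_cases h : x = b <;> simp [OP, nb, cube_add_eq_zero, h, Ex_const]
  | succ m ih =>
    have h1 : Ex U (fun _ => p) (fun ω => if OP (m + 1) x o b ω then 1 else 0)
        ≤ Ex U (fun _ => p) (fun ω => ∑ i, if some i ≠ o ∧ s(x, x + un i) ∈ ω ∧
          OP m (x + un i) (some i) b (ω.erase s(x, x + un i)) then 1 else 0) := by
      refine Ex_mono hq fun ω _ => ?_
      split_ifs with h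
      · obtain ⟨i, hi⟩ := h
        refine le_trans ?_ (single_le_sum (fun j _ => by split_ifs <;> norm_num) (mem_univ i))
        rw [if_pos hi]
      · exact sum_nonneg fun j _ => by split_ifs <;> norm_num
    refine h1.trans ?_
    rw [Ex_sum]
    simp only [nb]
    rw [mul_sum]
    refine sum_le_sum fun i _ => ?_
    by_cases hi : some i = o
    · simp [hi, Ex_const]
    rw [if_neg hi]
    have hn := nb_nonneg m (some i) (x + b + un i)
    by_cases he : s(x, x + un i) ∈ U
    · rw [Ex_erase he]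
      have a1 : Ex (U.erase s(x, x + un i)) (fun _ => p) (fun ω => if some i ≠ o ∧
          s(x, x + un i) ∈ ω ∧ OP m (x + un i) (some i) b (ω.erase s(x, x + un i))
          then (1 : ℝ) else 0) = Ex (U.erase s(x, x + un i)) (fun _ => p) (fun _ => 0) :=
        Ex_congr fun ω hω => if_neg fun h => notMem_erase _ _ (hω h.2.1)
      have a2 : Ex (U.erase s(x, x + un i)) (fun _ => p) (fun ω => if some i ≠ o ∧
          s(x, x + un i) ∈ insert s(x, x + un i) ω ∧ OP m (x + un i) (some i) b
          ((insert s(x, x + un i) ω).erase s(x, x + un i)) then (1 : ℝ) else 0)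
          = Ex (U.erase s(x, x + un i)) (fun _ => p)
            (fun ω => if OP m (x + un i) (some i) b ω then 1 else 0) :=
        Ex_congr fun ω hω => by
          rw [erase_insert fun h => notMem_erase _ _ (hω h)]; simp [hi]
      rw [a1, a2, Ex_const]
      have := mul_le_mul_of_nonneg_left (ih (U.erase s(x, x + un i)) (x + un i) (some i)) p0
      rw [add_right_comm x (un i) b] at this
      rw [pow_succ]
      linarith
    · refine (Ex_le_const hq (a := 0) fun ω hω => ?_).trans (by positivity)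
      rw [if_neg fun h => he (hω h.2.1)]

lemma chain_OP {ω : Finset (Sym2 (Cube d))} (hω : ω ⊆ E0 d) {S : Finset (Cube d)} (m : ℕ)
    {j : ℕ} {a b : Cube d} {o : Option (Fin d)} {ω' : Finset (Sym2 (Cube d))}
    (ha : lev ω S j a) (hc : Chain ω S m j a b) (hs : ω \ inc (pre ω S j) ⊆ ω')
    (ho : ∀ i, o = some i → a + un i ∈ pre ω S j) : OP m a o b ω' := by
  induction m generalizing j a o ω' with
  | zero => exact hc
  | succ m ih =>
    obtain ⟨a', h1, h2, h3⟩ := hc
    obtain ⟨i, rfl⟩ := mem_E0.1 (hω h1)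
    have h4 : a + un i ∉ pre ω S j := fun h => h2.2 (pre_subset j h)
    refine ⟨i, fun h => h4 (ho i h.symm), hs (mem_sdiff.2 ⟨h1, ?_⟩), ih h2 h3 ?_ ?_⟩
    · rw [mem_inc]; have := ha.2; tauto
    · intro e he
      obtain ⟨h5, h6⟩ := mem_sdiff.1 he
      refine mem_erase.2 ⟨?_, hs (mem_sdiff.2 ⟨h5, fun h => h6 (inc_mono (pre_subset j) h)⟩)⟩
      rintro rfl
      exact h6 (mem_inc.2 (Or.inl ha.1))
    · intro i' hi'
      rw [← Option.some.inj hi', add_add_cancel]
      exact ha.1

/-- Short range kernel. -/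
noncomputable def gk (p : ℝ) (M : ℕ) (z : Cube d) : ℝ := ∑ r ∈ range M, p ^ r * nb r none z

theorem two_point {p κ : ℝ} (p0 : 0 ≤ p) (p1 : p ≤ 1) (m : ℕ)
    (hκ : ∀ z : Cube d, p ^ m * nb m none z + p ^ (m + 1) * nb (m + 1) none z ≤ 2 * κ)
    (S : Finset (Cube d)) {U : Finset (Sym2 (Cube d))} (hU : U ⊆ E0 d) (b : Cube d) :
    val (fun _ => p) (mem1 b) S U
      ≤ ∑ a ∈ S, gk p (m + 1) (a + b) + κ * val (fun _ => p) sz S U := by
  have hq : P01 (fun _ : Sym2 (Cube d) => p) := P01_const p0 p1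
  obtain ⟨J, hJ⟩ := Finite.exists_le fun ω : Finset (Sym2 (Cube d)) =>
    if h : b ∈ reach ω S then (exists_lev h).choose else 0
  let I : ℕ → Cube d → Finset (Sym2 (Cube d)) → ℝ := fun r a ω =>
    if OP r a none b ω then 1 else 0
  have I0 : ∀ r a ω, 0 ≤ I r a ω := fun r a ω => by simp only [I]; split_ifs <;> norm_num
  let L : ℕ → Finset (Sym2 (Cube d)) → ℝ := fun r ω => ∑ j ∈ range (J + 1), ∑ a,
    levf S j a (pre ω S j) ω * I r a (ω \ inc (pre ω S j))
  have lf0 : ∀ j a T ω, 0 ≤ levf S j a T ω := fun j a T ω => by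
    unfold levf; split_ifs <;> norm_num
  have L0 : ∀ r ω, 0 ≤ L r ω := fun r ω =>
    sum_nonneg fun j _ => sum_nonneg fun a _ => mul_nonneg (lf0 _ _ _ _) (I0 _ _ _)
  have hpt : ∀ ω ⊆ U, mem1 b (reach ω S)
      ≤ ∑ a ∈ S, ∑ r ∈ range (m + 1), I r a ω + 1 / 2 * (L m ω + L (m + 1) ω) := by
    intro ω hω
    have s0 : 0 ≤ ∑ a ∈ S, ∑ r ∈ range (m + 1), I r a ω :=
      sum_nonneg fun a _ => sum_nonneg fun r _ => I0 _ _ _
    unfold mem1
    split_ifs with h
    swap
    · linarith [L0 m ω, L0 (m + 1) ω]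
    obtain ⟨r, hr, hrJ⟩ : ∃ r, lev ω S r b ∧ r ≤ J := by
      have := hJ ω
      rw [dif_pos h] at this
      exact ⟨_, (exists_lev h).choose_spec, this⟩
    by_cases hm : r ≤ m
    · obtain ⟨a, ha, hc⟩ := chain_ex r (j := 0) (by rwa [zero_add])
      have h1 : I r a ω = 1 := if_pos (chain_OP (hω.trans hU) r ha hc sdiff_subset (by simp))
      have h2 := single_le_sum (f := fun r => I r a ω) (fun r _ => I0 _ _ _)
        (mem_range.2 (Nat.lt_succ_of_le hm))
      have h3 := single_le_sum (f := fun a => ∑ r ∈ range (m + 1), I r a ω)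
        (fun a _ => sum_nonneg fun r _ => I0 _ _ _) (show a ∈ S from ha.1)
      linarith [L0 m ω, L0 (m + 1) ω]
    · have key : ∀ m', m' ≤ r → 1 ≤ L m' ω := by
        intro m' hm'
        obtain ⟨a, ha, hc⟩ := chain_ex m' (j := r - m') (by rwa [Nat.sub_add_cancel hm'])
        have h1 : I m' a (ω \ inc (pre ω S (r - m'))) = 1 :=
          if_pos (chain_OP (hω.trans hU) m' ha hc subset_rfl (by simp))
        have h2 := single_le_sum (f := fun a => levf S (r - m') a (pre ω S (r - m')) ω
          * I m' a (ω \ inc (pre ω S (r - m')))) (fun a _ => mul_nonneg (lf0 _ _ _ _) (I0 _ _ _))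
          (mem_univ a)
        have h3 := single_le_sum (f := fun j => ∑ a, levf S j a (pre ω S j) ω
          * I m' a (ω \ inc (pre ω S j)))
          (fun j _ => sum_nonneg fun a _ => mul_nonneg (lf0 _ _ _ _) (I0 _ _ _))
          (mem_range.2 (show r - m' < J + 1 by omega))
        simp only [h1, levf_eq, if_pos ha] at h2
        simp only [L]
        simp only [levf_eq] at h3 ⊢
        linarith
      linarith [key m (by omega), key (m + 1) (by omega)]
  have hL : ∀ r, Ex U (fun _ => p) (L r)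
      ≤ ∑ a, val (fun _ => p) (mem1 a) S U * (p ^ r * nb r none (a + b)) := by
    intro r
    simp only [L]
    rw [Ex_sum]
    simp only [Ex_sum]
    rw [sum_comm]
    refine sum_le_sum fun a _ => ?_
    have h1 : ∀ j, Ex U (fun _ => p)
        (fun ω => levf S j a (pre ω S j) ω * I r a (ω \ inc (pre ω S j)))
        ≤ Ex U (fun _ => p) (fun ω => (if lev ω S j a then 1 else 0)
          * (p ^ r * nb r none (a + b))) := by
      intro j
      rw [Ex_markov U _ (fun ω => pre ω S j) inc (pre_loc j) (levf S j a) (fun _ => I r a)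
        (levf_loc j a)]
      refine Ex_mono hq fun ω _ => ?_
      rw [← levf_eq]
      exact mul_le_mul_of_nonneg_left (OP_prob p0 p1 r _ a none b) (lf0 _ _ _ _)
    refine (sum_le_sum fun j _ => h1 j).trans ?_
    unfold val
    rw [← Ex_sum, ← Ex_mul]
    refine Ex_mono hq fun ω _ => ?_
    rw [← sum_mul]
    exact mul_le_mul_of_nonneg_right (sum_lev_le _ _)
      (mul_nonneg (pow_nonneg p0 _) (nb_nonneg _ _ _))
  refine (Ex_mono hq hpt).trans ?_
  rw [Ex_add, Ex_smul, Ex_add, Ex_sum]
  refine add_le_add (sum_le_sum fun a _ => ?_) ?_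
  · rw [Ex_sum]; exact sum_le_sum fun r _ => OP_prob p0 p1 r U a none b
  · have h1 := add_le_add (hL m) (hL (m + 1))
    rw [← sum_add_distrib] at h1
    have h2 : ∑ a, (val (fun _ => p) (mem1 a) S U * (p ^ m * nb m none (a + b))
        + val (fun _ => p) (mem1 a) S U * (p ^ (m + 1) * nb (m + 1) none (a + b)))
        ≤ ∑ a, val (fun _ => p) (mem1 a) S U * (2 * κ) := sum_le_sum fun a _ => by
      rw [← mul_add]; exact mul_le_mul_of_nonneg_left (hκ _) (val_mem1_nonneg hq _ _ _)
    rw [← sum_mul, ← val_sz] at h2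
    linarith

lemma reach_shift (y : Cube d) (ω : Finset (Sym2 (Cube d))) (x : Cube d) :
    reach (ω.image (Sym2.map (· + y))) {x + y} = (reach ω {x}).image (· + y) := by
  have key : ∀ a b : Cube d, s(a + y, b + y) ∈ ω.image (Sym2.map (· + y)) ↔ s(a, b) ∈ ω :=
    fun a b => (Sym2.map.injective (add_left_injective y)).mem_finset_image (a := s(a, b))
  refine Subset.antisymm (reach_subset ?_ ?_) ?_
  · intro z hz
    rw [mem_singleton.1 hz]
    exact mem_image_of_mem _ (self_mem_reach _ _)
  · intro a ha b hb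
    obtain ⟨a', ha', rfl⟩ := mem_image.1 ha
    rw [← add_add_cancel b y] at hb ⊢
    exact mem_image_of_mem _ (reach_step ha' ((key _ _).1 hb))
  · rw [image_subset_iff]
    have : reach ω {x} ⊆ univ.filter fun z =>
        z + y ∈ reach (ω.image (Sym2.map (· + y))) {x + y} := by
      refine reach_subset ?_ fun a ha b hb => ?_
      · intro z hz
        rw [mem_singleton.1 hz]
        simpa using self_mem_reach _ _
      · simp only [mem_filter, mem_univ, true_and] at ha ⊢
        exact reach_step ha ((key _ _).2 hb)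
    intro z hz
    simpa using this hz

lemma E0_shift (y : Cube d) : (E0 d).image (Sym2.map (· + y)) = E0 d := by
  refine eq_of_subset_of_card_le ?_
    (card_image_of_injective _ (Sym2.map.injective (add_left_injective y))).ge
  rw [image_subset_iff]
  intro e he
  induction e using Sym2.ind with
  | _ a b =>
    obtain ⟨i, rfl⟩ := mem_E0.1 he
    exact mem_E0.2 ⟨i, add_right_comm _ _ _⟩

/-- Expected cluster size. -/
noncomputable def chi0 (d : ℕ) (p : ℝ) : ℝ := val (fun _ => p) sz {(0 : Cube d)} (E0 d)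

lemma val_sz_single (p : ℝ) (y : Cube d) : val (fun _ => p) sz {y} (E0 d) = chi0 d p := by
  unfold chi0 val
  conv_lhs => rw [← E0_shift y, Ex_image (Sym2.map.injective (add_left_injective y))]
  refine Ex_congr fun ω _ => ?_
  have := reach_shift y ω 0
  rw [zero_add] at this
  rw [this]
  unfold sz
  rw [card_image_of_injective _ (add_left_injective y)]

end Pool.Agent.P.MP_068ab5_pr
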